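import Pool.Agent.Lib.MP_4b56aa_gt.Cert.CTrig

/-! Angle codes and cells. -/

namespace Pool.Agent.Lib.MP_4b56aa_gt.Cert

open Pool.Agent.Lib.MP_4b56aa_gt.Red Pool.Agent.Lib.MP_4b56aa_gt.Fan

/-- The tilt `t` is the fraction `t / T` of the way from `0` to `T`. -/
structure Tm (T : ℕ) (t : ℝ) : Prop where
  hT : T ≤ 10
  h0 : 0 ≤ t
  h1 : t ≤ T

variable {T : ℕ} {t φ φ' : ℝ} {τ : Tab} {a b c d : ℕ}

theorem Tm.l0 (h : Tm T t) : 0 ≤ t / T := div_nonneg h.h0 (Nat.cast_nonneg _)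

theorem Tm.l1 (h : Tm T t) : t / T ≤ 1 := div_le_one_of_le₀ h.h1 (Nat.cast_nonneg _)

theorem Tm.mul (h : Tm T t) : t / T * T = t := by
  rcases Nat.eq_zero_or_pos T with e | e
  · have := h.h1
    rw [e] at this ⊢
    simp only [Nat.cast_zero, mul_zero] at this ⊢
    exact le_antisymm h.h0 this
  · exact div_mul_cancel₀ _ (by positivity)

theorem Tm.zero (h : Tm T t) : Tm T 0 := ⟨h.hT, le_rfl, Nat.cast_nonneg _⟩

theorem Tm.top (h : Tm T t) : Tm T T := ⟨h.hT, Nat.cast_nonneg _, le_rfl⟩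

theorem rad_le {x y : ℝ} (h : x ≤ y) : rad x ≤ rad y :=
  mul_le_mul_of_nonneg_right h (by positivity)

theorem av_dg (h : T ≤ 10) (a : ℕ) : av T a = rad (dg T a) - 2 * Real.pi := by
  unfold av dg rad
  rw [Nat.cast_add, Nat.cast_sub (by omega)]
  push_cast; ring

theorem av_dg0 (a : ℕ) : av 0 a = rad (dg 0 a) - 2 * Real.pi := by
  simpa using av_dg (T := 0) (by omega) a

theorem av_itp (h : Tm T t) (a : ℕ) : av t a = (1 - t / T) * av 0 a + t / T * av T a := by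
  unfold av
  linear_combination (((a % 3 : ℕ) : ℝ) - 1) * (Real.pi / 180) * h.mul.symm

theorem av_fix (h : a % 3 = 1) (t : ℝ) : av t a = rad (dg 0 a) - 2 * Real.pi := by
  rw [← av_dg0]; simp [av, h]

theorem ale_sound (h : Tm T t) (e : ale T a b d = true) : av t a ≤ av t b + rad d := by
  simp only [ale, Bool.and_eq_true, Nat.ble_eq] at e
  have e1 := rad_le (show ((dg 0 a : ℕ) : ℝ) ≤ dg 0 b + d by exact_mod_cast e.1)
  have e2 := rad_le (show ((dg T a : ℕ) : ℝ) ≤ dg T b + d by exact_mod_cast e.2)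
  rw [av_itp h a, av_itp h b, av_dg0, av_dg0, av_dg h.hT, av_dg h.hT]
  unfold rad at *
  nlinarith [mul_nonneg h.l0 (sub_nonneg.2 e2), mul_nonneg (sub_nonneg.2 h.l1) (sub_nonneg.2 e1)]

theorem ale_zero (h : Tm T t) (e : ale T a b 0 = true) : av t a ≤ av t b := by
  simpa [rad] using ale_sound h e

theorem ale_60 (h : Tm T t) (e : ale T a b 60 = true) : av t a ≤ av t b + Real.pi / 3 := by
  have := ale_sound h e
  unfold rad at this; push_cast at this; linarith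

theorem ale_90 (h : Tm T t) (e : ale T a b 90 = true) : av t a ≤ av t b + Real.pi / 2 := by
  have := ale_sound h e
  unfold rad at this; push_cast at this; linarith

theorem av_add (t : ℝ) (a k : ℕ) : av t (a + 3 * k) = av t a + rad k := by
  unfold av rad
  rw [Nat.add_mul_div_left _ _ (by norm_num), Nat.add_mul_mod_self_left]
  push_cast; ring

theorem av_540 (t : ℝ) (a k : ℕ) : av t (a + 540 * k) = av t a + k * Real.pi := by
  rw [show 540 * k = 3 * (180 * k) by ring, av_add]; unfold rad; push_cast; ring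

theorem av_271 (t : ℝ) : av t 271 = 0 := by norm_num [av]

theorem av_811 (t : ℝ) : av t 811 = Real.pi := by
  rw [show 811 = 271 + 540 * 1 by norm_num, av_540, av_271]; simp

theorem ale_540 (T a b d : ℕ) : ale T (a + 540) (b + 540) d = ale T a b d := by
  have : ∀ T a, dg T (a + 540) = dg T a + 180 := fun T a => by
    unfold dg; rw [show (a + 540) % 3 = a % 3 by omega]; omega
  unfold ale
  rw [this, this, this, this, Bool.eq_iff_iff]
  simp only [Bool.and_eq_true, Nat.ble_eq]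
  omega

/-- The content of `Tab.ok`. -/
structure Ok (τ : Tab) : Prop where
  N1 : 1 ≤ τ.N
  N8 : τ.N ≤ 8
  T10 : τ.T ≤ 10
  m1 : 1 ≤ τ.m
  B0 : τ.B 0 = 271
  nq1 : 1 ≤ τ.nq
  mono : ∀ j < τ.m, ale τ.T (τ.B j) (τ.B (j + 1)) 0 = true
  xb : ∀ q < τ.nq, ale τ.T 271 (τ.XB q) 0 = true ∧ ale τ.T (τ.XB q) 271 90 = true
  gap : ∀ a ≤ τ.m, ∀ l ≤ τ.m + 1, τ.psmall a (a + l) = true ∨
    ale τ.T (τ.hi a + 48) (τ.lo (a + l)) 0 = true
  grid : ∀ c ≤ τ.m, ∀ f, (τ.grid f c).head? = some (τ.lo c) ∧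
    (τ.grid f c).getLast? = some (τ.hi c) ∧ 2 ≤ (τ.grid f c).length

theorem ok_of (h : τ.ok = true) : Ok τ := by
  simp only [Tab.ok, Bool.and_eq_true, Nat.ble_eq, List.all_eq_true, List.mem_range, beq_iff_eq,
    Bool.or_eq_true] at h
  obtain ⟨⟨⟨⟨⟨⟨⟨⟨⟨⟨⟨a1, a2⟩, a3⟩, a4⟩, -⟩, a6⟩, -⟩, a8⟩, a9⟩, a10⟩, a11⟩, a12⟩ := h
  exact ⟨a1, a2, a3, a4, a6, a8, a9, a10, fun a h l g => a11 a (by omega) l (by omega),
    fun c h f => by
      obtain ⟨⟨p, q⟩, s⟩ := a12 c (by omega) f (by cases f <;> simp)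
      exact ⟨p, q, s⟩⟩

theorem Ok.B_add (h : Ok τ) (k j : ℕ) : τ.B (k * τ.m + j) = τ.B j + 540 * k := by
  unfold Tab.B
  rw [Nat.mul_add_mod', mul_comm k, Nat.mul_add_div h.m1]
  ring

theorem Ok.lo_eq (h : Ok τ) (c : ℕ) : τ.lo c = τ.B (c % (τ.m + 1) - 1) + 540 * (c / (τ.m + 1)) :=
  h.B_add _ _

theorem Ok.hi_eq (h : Ok τ) (c : ℕ) : τ.hi c = τ.B (c % (τ.m + 1)) + 540 * (c / (τ.m + 1)) :=
  h.B_add _ _

theorem Ok.lo_add (h : Ok τ) (c : ℕ) : τ.lo (c + (τ.m + 1)) = τ.lo c + 540 := by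
  rw [h.lo_eq, h.lo_eq, Nat.add_mod_right, Nat.add_div_right _ (by omega)]; ring

theorem Ok.hi_add (h : Ok τ) (c : ℕ) : τ.hi (c + (τ.m + 1)) = τ.hi c + 540 := by
  rw [h.hi_eq, h.hi_eq, Nat.add_mod_right, Nat.add_div_right _ (by omega)]; ring

theorem Ok.psmall_add (h : Ok τ) (a b : ℕ) :
    τ.psmall (a + (τ.m + 1)) (b + (τ.m + 1)) = τ.psmall a b := by
  unfold Tab.psmall; rw [h.lo_add, h.hi_add, ale_540]

theorem Ok.strad_add (h : Ok τ) (a b : ℕ) :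
    τ.strad (a + (τ.m + 1)) (b + (τ.m + 1)) = τ.strad a b := by
  unfold Tab.strad Tab.plarge
  rw [h.psmall_add, h.lo_add, h.hi_add, show τ.hi a + 540 + 180 = τ.hi a + 180 + 540 by ring, ale_540]

theorem Ok.lo0 (h : Ok τ) : τ.lo 0 = 271 ∧ τ.hi 0 = 271 := by
  rw [h.lo_eq, h.hi_eq]; simp [h.B0]

theorem Ok.lo1 (h : Ok τ) : τ.lo (τ.m + 1) = 811 ∧ τ.hi (τ.m + 1) = 811 := by
  have a := h.lo_add 0
  have b := h.hi_add 0
  rw [zero_add] at a b
  rw [a, b, h.lo0.1, h.lo0.2]; simp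

/-- The angle `φ` is not beyond the cell `c`. -/
def Tab.Pc (τ : Tab) (t : ℝ) (c : ℕ) (φ : ℝ) : Prop :=
  φ ≤ av t (τ.hi c) ∧ φ < ((c / (τ.m + 1) : ℕ) + 1) * Real.pi

/-- The cell of an angle. -/
noncomputable def Tab.cell (τ : Tab) (t φ : ℝ) : ℕ := sInf {c | τ.Pc t c φ}

theorem Ok.hi_last (h : Ok τ) (t : ℝ) (k : ℕ) :
    av t (τ.hi (k * (τ.m + 1) + τ.m)) = (k + 1) * Real.pi ∧
      (k * (τ.m + 1) + τ.m) / (τ.m + 1) = k := by
  have e : (k * (τ.m + 1) + τ.m) / (τ.m + 1) = k := by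
    rw [mul_comm, Nat.mul_add_div (by omega), Nat.div_eq_of_lt (by omega), add_zero]
  have := h.B_add 1 0
  rw [one_mul, add_zero, h.B0] at this
  rw [h.hi_eq, e, Nat.mul_add_mod', Nat.mod_eq_of_lt (by omega), this, av_540, av_540, av_271]
  exact ⟨by push_cast; ring, rfl⟩

theorem Ok.cell_mem (h : Ok τ) (t φ : ℝ) : τ.Pc t (τ.cell t φ) φ := by
  refine Nat.sInf_mem (s := {c | τ.Pc t c φ}) ?_
  obtain ⟨k, hk⟩ := exists_nat_gt (φ / Real.pi)
  rw [div_lt_iff₀ Real.pi_pos] at hk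
  obtain ⟨p, q⟩ := h.hi_last t k
  exact ⟨k * (τ.m + 1) + τ.m, by rw [p]; linarith [Real.pi_pos], by rw [q]; linarith [Real.pi_pos]⟩

theorem Ok.cell_mono (h : Ok τ) (e : φ ≤ φ') : τ.cell t φ ≤ τ.cell t φ' :=
  Nat.sInf_le ⟨e.trans (h.cell_mem t φ').1, e.trans_lt (h.cell_mem t φ').2⟩

theorem Ok.cell_hi (h : Ok τ) : φ ≤ av t (τ.hi (τ.cell t φ)) := (h.cell_mem t φ).1

theorem Ok.cell_lo (h : Ok τ) (e : 0 ≤ φ) : av t (τ.lo (τ.cell t φ)) ≤ φ := by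
  have k := (h.cell_mem t φ).2
  have nm : ∀ c < τ.cell t φ, ¬ τ.Pc t c φ := fun c g => Nat.notMem_of_lt_sInf g
  generalize τ.cell t φ = c at k nm
  have dm := Nat.div_add_mod' c (τ.m + 1)
  have lt := Nat.mod_lt c (show 0 < τ.m + 1 by omega)
  rw [h.lo_eq]
  generalize c / (τ.m + 1) = f at k dm
  generalize c % (τ.m + 1) = i at lt dm
  subst dm
  by_contra g
  rw [not_le] at g
  rcases i with _ | i
  · rw [Nat.zero_sub, h.B0, av_540, av_271, zero_add] at g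
    rcases f with _ | f
    · simp at g; linarith
    · obtain ⟨p, q⟩ := h.hi_last t f
      push_cast at g
      exact nm (f * (τ.m + 1) + τ.m) (by rw [add_mul]; omega) ⟨by rw [p]; exact g.le, by rwa [q]⟩
  · have q : (f * (τ.m + 1) + i) / (τ.m + 1) = f := by
      rw [mul_comm, Nat.mul_add_div (by omega), Nat.div_eq_of_lt (by omega), add_zero]
    refine nm (f * (τ.m + 1) + i) (by omega) ⟨?_, by rwa [q]⟩
    rw [h.hi_eq, q, Nat.mul_add_mod', Nat.mod_eq_of_lt (by omega)]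
    exact g.le

theorem Ok.cell_pi (h : Ok τ) (e : 0 ≤ φ) : τ.cell t (φ + Real.pi) = τ.cell t φ + (τ.m + 1) := by
  have k : ∀ c, τ.Pc t (c + (τ.m + 1)) (φ + Real.pi) ↔ τ.Pc t c φ := fun c => by
    unfold Tab.Pc
    rw [h.hi_add, show τ.hi c + 540 = τ.hi c + 540 * 1 by ring, av_540,
      Nat.add_div_right _ (by omega)]
    push_cast
    exact and_congr ⟨fun _ => by linarith, fun _ => by linarith⟩
      ⟨fun _ => by linarith, fun _ => by linarith⟩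
  refine le_antisymm (Nat.sInf_le ((k _).2 (h.cell_mem t φ))) ?_
  have m := h.cell_mem t (φ + Real.pi)
  generalize τ.cell t (φ + Real.pi) = c at m
  rcases lt_or_ge c (τ.m + 1) with g | g
  · have := m.2
    rw [Nat.div_eq_of_lt g] at this
    simp at this; linarith
  · obtain ⟨c, rfl⟩ := Nat.exists_eq_add_of_le' g
    exact Nat.add_le_add_right (Nat.sInf_le ((k c).1 m)) _

theorem Ok.cell_zero (h : Ok τ) : τ.cell t 0 = 0 :=
  Nat.le_zero.1 (Nat.sInf_le ⟨by rw [h.lo0.2, av_271], by simp [Real.pi_pos]⟩)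

theorem Ok.cell_pi' (h : Ok τ) : τ.cell t Real.pi = τ.m + 1 := by
  simpa [h.cell_zero] using h.cell_pi (t := t) le_rfl

theorem Ok.cell_le (h : Ok τ) (e : φ < Real.pi) : τ.cell t φ ≤ τ.m := by
  obtain ⟨p, q⟩ := h.hi_last t 0
  simp only [zero_mul, zero_add, Nat.cast_zero, one_mul] at p q
  exact Nat.sInf_le ⟨by rw [p]; exact e.le, by rw [q]; simpa using e⟩

theorem Ok.cell_ge (h : Ok τ) (e : Real.pi ≤ φ) : τ.m + 1 ≤ τ.cell t φ :=
  h.cell_pi' (t := t) ▸ h.cell_mono e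

theorem Ok.cell_lt (h : Ok τ) (e : τ.cell t φ ≤ 2 * τ.m + 1) : φ < 2 * Real.pi := by
  have k := (h.cell_mem t φ).2
  have : τ.cell t φ / (τ.m + 1) < 2 := (Nat.div_lt_iff_lt_mul (by omega)).2 (by omega)
  have : ((τ.cell t φ / (τ.m + 1) : ℕ) : ℝ) ≤ 1 := by exact_mod_cast Nat.lt_succ_iff.1 this
  nlinarith [Real.pi_pos]

/-- The class of a chord with cells `a`, `b` and turning `w`. -/
def Tab.Cls (τ : Tab) (a b : ℕ) (w : ℝ) (cl : ℕ) : Prop :=
  (cl = 0 ∧ (τ.psmall a b = true ∨ (τ.strad a b = true ∧ w ≤ Real.pi / 3))) ∨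
    (cl = 1 ∧ τ.psmall a b = false ∧ (τ.strad a b = true → Real.pi / 3 < w))

theorem exists_cls (τ : Tab) (a b : ℕ) (w : ℝ) : ∃ cl, τ.Cls a b w cl := by
  by_cases h : τ.psmall a b = true ∨ (τ.strad a b = true ∧ w ≤ Real.pi / 3)
  · exact ⟨0, Or.inl ⟨rfl, h⟩⟩
  · push Not at h
    exact ⟨1, Or.inr ⟨rfl, by simpa using h.1, h.2⟩⟩

variable {w : ℝ} {cl : ℕ}

theorem Tab.Cls.le (h : τ.Cls a b w cl) : cl ≤ 1 := by rcases h with h | h <;> omega

theorem Tab.Cls.has (h : τ.Cls a b w cl) : τ.has a b cl = true := by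
  rcases h with ⟨rfl, h | h⟩ | ⟨rfl, h, -⟩
  · simp [Tab.has, h]
  · simp [Tab.has, h.1]
  · simp [Tab.has, h]

theorem Ok.cls_add (h : Ok τ) : τ.Cls (a + (τ.m + 1)) (b + (τ.m + 1)) w cl ↔ τ.Cls a b w cl := by
  unfold Tab.Cls; rw [h.psmall_add, h.strad_add]

theorem Tab.Cls.small (h : τ.Cls a b (φ' - φ) 0) (ht : Tm τ.T t) (h1 : av t (τ.lo a) ≤ φ)
    (h2 : φ' ≤ av t (τ.hi b)) : φ' - φ ≤ Real.pi / 3 := by
  rcases h with ⟨-, h | h⟩ | ⟨h, -⟩
  · linarith [ale_60 ht h]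
  · exact h.2
  · omega

theorem Tab.Cls.large (h : τ.Cls a b (φ' - φ) 1) (ht : Tm τ.T t) (hs : τ.ts = true)
    (h1 : φ ≤ av t (τ.hi a)) (h2 : av t (τ.lo b) ≤ φ') : Real.pi / 3 ≤ φ' - φ := by
  rcases h with ⟨h, -⟩ | ⟨-, h, g⟩
  · omega
  cases e : τ.plarge a b
  · exact (g (by simp [Tab.strad, hs, h, e])).le
  · have := ale_zero ht e
    rw [show 180 = 3 * 60 by norm_num, av_add] at this
    unfold rad at this; push_cast at this; linarith

end Pool.Agent.Lib.MP_4b56aa_gt.Cert
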