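import Pool.Agent.Lib.MP_4b56aa_gt.Fan.FVal

/-! The clique bound with one clamped tangent mode and two end jumps. -/

namespace Pool.Agent.Lib.MP_4b56aa_gt.Fan

open Set Pool.Agent.Lib.MP_4b56aa_gt.Red Pool.Agent.Lib.MP_4b56aa_gt.Out

variable {L R r ε c α β : ℝ} {n s t : ℕ} {ψ x : ℕ → ℝ} {P : ℕ → ℂ} {X : Set ℂ} {y : ℂ}

/-- The straight length passed up to the sample `i`. -/
noncomputable def cum (x : ℕ → ℝ) (i : ℕ) : ℝ := ∑ j ∈ Finset.range i, |x (j + 1) - x j|

theorem dot_sub (a b p : ℂ) : dot (a - b) p = dot a p - dot b p := by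
  simp only [dot, Complex.sub_re, Complex.sub_im]; ring

theorem dot_smp (u : ℂ) (i : ℕ) : dot u (smp R ψ x i) = x i * u.re + R * dot u (nv (ψ i)) := by
  simp only [dot, smp_re, smp_im, nv_re, nv_im]; ring

theorem Samp.smp_step (h : Samp L ε n ψ x) (hR : 0 ≤ R) (i : ℕ) :
    ‖smp R ψ x (i + 1) - smp R ψ x i‖ ≤ (R + 1) * ε := by
  have e : smp R ψ x (i + 1) - smp R ψ x i =
      ((x (i + 1) - x i : ℝ) : ℂ) + R * (nv (ψ (i + 1)) - nv (ψ i)) := by
    unfold smp; push_cast; ring
  rw [e]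
  refine (norm_add_le _ _).trans ?_
  rw [norm_mul, Complex.norm_real, Complex.norm_real, Real.norm_of_nonneg hR, Real.norm_eq_abs]
  have := mul_le_mul_of_nonneg_left ((norm_nv_sub (ψ (i + 1)) (ψ i)).trans
    (show _ ≤ ε from abs_le.2 ⟨by linarith [h.mono i, h.meshψ i], by linarith [h.meshψ i]⟩)) hR
  linarith [h.meshx i]

/-- One clamped mode `C + tg (cl α β ψ)` between the end values `u` and `v`; all errors of the
sampling are absorbed in the radius `r + (R + 2) ε`. -/
theorem base_val (h : Samp L ε n ψ x) (hr : 0 ≤ r) (hR : r ≤ R) (e0 : 0 < ε) (e1 : ε < 1)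
    (near : ∀ i, dist (P i) (smp R ψ x i) ≤ r + ε) (T : IT P s t y c X) (u v C : ℂ) (κ : ℝ)
    (hw : cl α β (ψ t) - cl α β (ψ s) ≤ Real.pi / 3) (huv : ‖u - v‖ ≤ 1)
    (hu : ∀ φ, cl α β (ψ s) ≤ φ → φ ≤ cl α β (ψ t) → ‖u - (C + tg φ)‖ ≤ 1)
    (hv : ∀ φ, cl α β (ψ s) ≤ φ → φ ≤ cl α β (ψ t) → ‖v - (C + tg φ)‖ ≤ 1)
    (hκ : ∀ i, s ≤ i → i < t →
      κ * |x (i + 1) - x i| ≤ (C + tg (cl α β (ψ (i + 1)))).re * (x (i + 1) - x i)) :
    R * dot (u - (C + tg (cl α β (ψ s)))) (nv (ψ s)) -
      (r + (R + 2) * ε) * ‖u - (C + tg (cl α β (ψ s)))‖ +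
      (R - (r + (R + 2) * ε)) * (cl α β (ψ t) - cl α β (ψ s)) +
      R * dot (C + tg (cl α β (ψ t)) - v) (nv (ψ t)) -
      (r + (R + 2) * ε) * ‖C + tg (cl α β (ψ t)) - v‖ +
      (x s * u.re - x t * v.re + κ * (cum x t - cum x s)) + dot (v - u) y ≤ c := by
  have lt := T.lt
  have R0 := hr.trans hR
  set z : ℕ → ℂ := fun i => C + tg (cl α β (ψ i)) with hz
  set w : ℕ → ℂ := fun i => if i = s then u else if i = t then v else z i with hw'
  have mon : ∀ {i k : ℕ}, i ≤ k → cl α β (ψ i) ≤ cl α β (ψ k) := fun g =>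
    (cl_step (h.monotone g)).1
  have ws : w s = u := if_pos rfl
  have wt : w t = v := by simp only [hw']; rw [if_neg (by omega), if_pos trivial]
  have wm : ∀ i, s < i → i < t → w i = z i := fun i a b => by
    simp only [hw']; rw [if_neg (by omega), if_neg (by omega)]
  have cq := (T.clique w le_rfl zero_le_one fun a b g1 g2 g3 => by
    rw [sub_zero]
    rcases g1.eq_or_lt with rfl | g1 <;> rcases g3.eq_or_lt with rfl | g3
    · rwa [ws, wt]
    · rw [ws, wm b g2 g3]; exact hu _ (mon g2.le) (mon g3.le)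
    · rw [wt, wm a g1 g2, norm_sub_rev]; exact hv _ (mon g1.le) (mon g2.le)
    · rw [wm a g1 (g2.trans g3), wm b (g1.trans g2) g3]
      simp only [hz, add_sub_add_left_eq_sub]
      exact chord_one (abs_le.2 ⟨by linarith [mon g1.le, mon g3.le],
        by linarith [mon g2.le, Real.pi_pos]⟩)).1
  have dec : val P w s t y = dot (u - z s) (P s) + val P z s t 0 + dot (z t - v) (P (t - 1)) +
      dot (v - u) y := by
    rw [val_move w lt.le 0 y, ws, wt]
    have : val P w s t 0 = ∑ i ∈ Finset.Ico s t, (dot (z i - z (i + 1)) (P i - 0) +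
        ((if i = s then dot (u - z s) (P s) else 0) +
          if i = t - 1 then dot (z t - v) (P (t - 1)) else 0)) := by
      refine Finset.sum_congr rfl fun i hi => ?_
      have hi' := Finset.mem_Ico.1 hi
      by_cases a : i = s <;> by_cases b : i = t - 1
      · obtain rfl : t = s + 1 := by omega
        rw [a, ws, wt]; simp only [if_true, add_tsub_cancel_right, dot_sub, sub_zero]; ring
      · rw [if_pos a, if_neg b, a, ws, wm (s + 1) (by omega) (by omega)]
        simp only [dot_sub, sub_zero]; ring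
      · rw [if_neg a, if_pos b, wm i (by omega) hi'.2, ← b, show i + 1 = t by omega, wt]
        simp only [dot_sub, sub_zero]; ring
      · rw [if_neg a, if_neg b, wm i (by omega) hi'.2, wm (i + 1) (by omega) (by omega)]; ring
    rw [this, Finset.sum_add_distrib, Finset.sum_add_distrib, Finset.sum_ite_eq', Finset.sum_ite_eq',
      if_pos (Finset.mem_Ico.2 ⟨le_rfl, lt⟩), if_pos (Finset.mem_Ico.2 ⟨by omega, by omega⟩)]
    simp only [val, dot, Complex.sub_re, Complex.sub_im, Complex.zero_re, Complex.zero_im]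
    ring
  have mid : ∀ k, s ≤ k → k ≤ t → (R - (r + (R + 2) * ε)) * (cl α β (ψ k) - cl α β (ψ s)) +
      (x s * (z s).re - x k * (z k).re + κ * (cum x k - cum x s)) ≤ val P z s k 0 := by
    intro k g1 g2
    induction k, g1 using Nat.le_induction with
    | base => simp [val]
    | succ k g1 ih =>
      have a := h.mid (α := α) (β := β) (ρ := R - r) (by linarith) hr e0 e1 k
      have b := ex_nonneg (P := P) (w := z) (near k)
      have d := hκ k g1 g2
      have m := mul_nonneg e0.le (sub_nonneg.2 (mon (Nat.le_succ k)))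
      have ih' := ih (by omega)
      rw [sub_add_cancel] at a
      unfold val at ih' ⊢
      rw [Finset.sum_Ico_succ_top g1, cum, Finset.sum_range_succ, ← cum]
      simp only [ex, hz, add_sub_add_left_eq_sub] at b
      simp only [hz, dot, Complex.sub_re, Complex.sub_im, Complex.add_re, Complex.add_im,
        Complex.zero_re, Complex.zero_im, tg_re] at a b d ih' ⊢
      nlinarith
  have j1 := dot_le (z s - u) (P s - smp R ψ x s)
  have j2 := dot_le (v - z t) (P (t - 1) - smp R ψ x t)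
  have d2 : ‖P (t - 1) - smp R ψ x t‖ ≤ r + (R + 2) * ε := by
    have a := h.smp_step R0 (t - 1)
    have b := near (t - 1)
    rw [show t - 1 + 1 = t by omega, ← dist_eq_norm, dist_comm] at a
    rw [← dist_eq_norm]
    linarith [dist_triangle (P (t - 1)) (smp R ψ x (t - 1)) (smp R ψ x t)]
  have d1 : ‖P s - smp R ψ x s‖ ≤ r + (R + 2) * ε := by
    rw [← dist_eq_norm]; nlinarith [near s]
  rw [norm_sub_rev (z s)] at j1
  rw [norm_sub_rev v] at j2
  have k1 := j1.trans (mul_le_mul_of_nonneg_left d1 (norm_nonneg _))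
  have k2 := j2.trans (mul_le_mul_of_nonneg_left d2 (norm_nonneg _))
  have s1 := dot_smp (R := R) (ψ := ψ) (x := x) (u - z s) s
  have s2 := dot_smp (R := R) (ψ := ψ) (x := x) (z t - v) t
  have m := mid t lt.le le_rfl
  rw [dec] at cq
  change R * dot (u - z s) _ - _ * ‖u - z s‖ + _ + R * dot (z t - v) _ - _ * ‖z t - v‖ + _ + _ ≤ c
  simp only [dot, Complex.sub_re, Complex.sub_im] at k1 k2 s1 s2 cq ⊢
  linarith

end Pool.Agent.Lib.MP_4b56aa_gt.Fan
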