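/-! Tables, angles and small tools; no library is needed here. -/

namespace Pool.Agent.Lib.MP_4b56aa_gt.Cert

/-- Parameters of one table.  Angle codes `a` mean `a / 3 - 90 + (a % 3 - 1) t` degrees with
`0 < t ≤ T` (if `T = 0` all codes have `a % 3 = 1`). -/
structure Tab where
  N : Nat
  T : Nat
  m : Nat
  bd : List Nat
  ts : Bool
  xb : List Nat
  g0 : List (List Nat)
  g1 : List (List Nat)
  V0 : Int
  V1 : Int
  S0 : Int

/-- The scale of all values. -/
def Q : Int := 16777216

/-! ### Angles and cells -/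

/-- Degrees plus 360 at `t = T'`. -/
def dg (T' a : Nat) : Nat := a / 3 + T' * (a % 3) + (270 - T')

/-- `a ≤ b + d` degrees for all `t`. -/
def ale (T a b d : Nat) : Bool := Nat.ble (dg 0 a) (dg 0 b + d) && Nat.ble (dg T a) (dg T b + d)

def Tab.B (τ : Tab) (j : Nat) : Nat := τ.bd.getD (j % τ.m) 0 + 540 * (j / τ.m)
def Tab.lo (τ : Tab) (c : Nat) : Nat := τ.B (c / (τ.m + 1) * τ.m + (c % (τ.m + 1) - 1))
def Tab.hi (τ : Tab) (c : Nat) : Nat := τ.B (c / (τ.m + 1) * τ.m + c % (τ.m + 1))
def Tab.psmall (τ : Tab) (a b : Nat) : Bool := ale τ.T (τ.hi b) (τ.lo a) 60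
def Tab.plarge (τ : Tab) (a b : Nat) : Bool := ale τ.T (τ.hi a + 180) (τ.lo b) 0
def Tab.strad (τ : Tab) (a b : Nat) : Bool := τ.ts && !τ.psmall a b && !τ.plarge a b
/-- Class `0` is small, class `1` is large. -/
def Tab.has (τ : Tab) (a b cl : Nat) : Bool :=
  if cl = 0 then τ.psmall a b || τ.strad a b else !τ.psmall a b
def Tab.feas (τ : Tab) (a b c1 c2 : Nat) : Bool :=
  !(τ.ts && c1 == 1 && c2 == 1 && ale τ.T (τ.hi b) (τ.lo a) 119)
def Tab.free (τ : Tab) (a b : Nat) : Bool := Nat.ble 1 a && Nat.ble b τ.m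
def Tab.nq (τ : Tab) : Nat := τ.xb.length
def Tab.XB (τ : Tab) (q : Nat) : Nat := τ.xb.getD q 271
def Tab.XT (τ : Tab) (q : Nat) : Nat := τ.xb.getD (τ.nq - 1 - q) 271
def Tab.grid (τ : Tab) (fine : Bool) (c : Nat) : List Nat :=
  ((if fine then τ.g1 else τ.g0).getD (c % (τ.m + 1)) []).map (· + 540 * (c / (τ.m + 1)))

/-! ### Trigonometric table -/

/-- Packed values of `(1 + cos d) Q` for `d = 0, ..., 90` degrees, rounded to nearest. -/
def CT : Nat := 0x1000000010477c30108ef2c010d65e40111db8f01164fd7011ac261011f32d40123a0d901280c17012c74350130d8dc013539b301399664013dee98014241f70146902b014ad8df014f1bbd0153586f01578ea2015bbe00015fe638016406f501681fe5016c30b601703917017438b901782f4a017c1c7c018000000183d9890187a8ca018b6d77018f27440192d5e801967918019a108d019d9bfe01a11b2401a48dbb01a7f37c01ab4c2501ae977201b1d52201b504f301b826a701bb39ff01be3ebd01c134a601c41b7d01c6f30a01c9bb1301cc736001cf1bbd01d1b3f301d43bce01d6b31d01d919ae01db6f5101ddb3d701dfe71401e208da01e4190101e6175e01e803ca01e9de1d01eba63501ed5bec01eeff2001f08fb201f20d8101f3787101f4d06301f6153f01f746ea01f8654d01f9705101fa67e201fb4beb01fc1c5c01fcd92501fd823501fe178101fe98fd01ff069e01ff605c01ffa62f01ffd81401fff60502000000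

def c90 (d : Nat) : Int := ((CT >>> (32 * d)) % 4294967296 : Nat) - Q
/-- `cos d` degrees times `Q`, within one unit. -/
def cs (d : Nat) : Int :=
  let e := d % 360
  if e ≤ 90 then c90 e else if e ≤ 180 then -c90 (180 - e)
  else if e ≤ 270 then -c90 (e - 180) else c90 (360 - e)
def sn (d : Nat) : Int := cs (d + 270)
/-- `√3 Q`, `R⋆ Q`, `ρ⋆ π / 180 * 1024 Q`, `π / 180 * 1024 Q`, all rounded down. -/
def S3 : Int := 29058990
def RL : Int := 34146268
def RD : Int := 310422678
def PD : Int := 299845282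

/-- Angle code of a unit lattice vector, `0` otherwise. -/
def unitA (N : Nat) (i j : Int) : Nat :=
  if i = 0 ∧ j = 2 * N then 541 else if i = 0 ∧ j = -2 * N then 1081
  else if i = N ∧ j = N then 361 else if i = N ∧ j = -N then 1261
  else if i = -N ∧ j = N then 721 else if i = -N ∧ j = -N then 901 else 0

def sg (a : Nat) : Int := (a % 3 : Nat) - 1

/-! ### Tools for fast programs -/

noncomputable def force (x : Nat) (f : Nat → Bool) : Bool :=
  Nat.rec (motive := fun _ => Bool) (f 0) (fun n _ => f (Nat.succ n)) x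
noncomputable def andb (a b : Bool) : Bool := Bool.rec (motive := fun _ => Bool) false b a
noncomputable def orb (a b : Bool) : Bool := Bool.rec (motive := fun _ => Bool) b true a
noncomputable def sel (c : Bool) (x y : Nat) : Nat := Bool.rec (motive := fun _ => Nat) y x c
noncomputable def allN (n : Nat) (f : Nat → Bool) : Bool :=
  Nat.rec (motive := fun _ => Bool) true (fun i ih => andb (f i) ih) n
/-- The `i`-th element of a list. -/
noncomputable def nth {α : Type} (d : α) (L : List α) : Nat → α :=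
  List.rec (motive := fun _ => Nat → α) (fun _ => d)
    (fun x _ ih i => Nat.rec (motive := fun _ => α) x (fun k _ => ih k) i) L
/-- Both lists have the same length and `f` holds for the pairs. -/
noncomputable def all2 {α : Type} (f : α → Nat → Bool) (L : List α) : List Nat → Bool :=
  List.rec (motive := fun _ => List Nat → Bool) (fun _ => true)
    (fun x _ ih W => List.rec (motive := fun _ => Bool) false (fun w W' _ => andb (f x w) (ih W')) W) L

def bits (w s n : Nat) : Nat := Nat.mod (Nat.shiftRight w s) n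

def idx (m a l cl : Nat) : Nat := Nat.add (Nat.mul 2 (Nat.add (Nat.mul (Nat.add m 2) a) l)) cl

noncomputable def flagOK (c1 c2 p1 p2 p : Nat) : Bool :=
  andb (orb (Nat.beq (Nat.mod p 2) 0) (andb (Nat.beq c2 0) (orb (Nat.beq c1 0) (Nat.beq (Nat.mod p1 2) 1))))
    (orb (Nat.beq (bits p 1 2) 0) (andb (Nat.beq c1 0) (orb (Nat.beq c2 0) (Nat.beq (bits p2 1 2) 1))))

def fan3b (c1 c2 c3 p1 p2 p3 : Nat) : Bool :=
  ((c1 == 0 || p1 % 2 == 1) && (c3 == 0 || bits p3 1 2 == 1) && c2 == 0) ||
  ((c2 == 0 || p2 % 2 == 1) && (c1 == 0 || bits p1 1 2 == 1) && c3 == 0) ||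
  ((c3 == 0 || p3 % 2 == 1) && (c2 == 0 || bits p2 1 2 == 1) && c1 == 0)

end Pool.Agent.Lib.MP_4b56aa_gt.Cert
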