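import Pool.Agent.Lib.MP_4b56aa_gt.Cert.CBase
import Pool.Agent.Lib.MP_4b56aa_gt.Cert.CCore

/-! Offers, clique offers and the closure conditions of a certificate. -/

namespace Pool.Agent.Lib.MP_4b56aa_gt.Cert

open Pool.Agent.Lib.MP_4b56aa_gt.Red Pool.Agent.Lib.MP_4b56aa_gt.Fan

/-- An offer: labels at both ends, lattice shift of the centres, coset, abscissa of the first
centre, value at `t = 0`, value at `t = T`, slope in the radius. -/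
structure Off where
  ka : ℕ
  kb : ℕ
  di : ℤ
  dj : ℤ
  q : ℕ
  h : ℤ
  v0 : ℤ
  v1 : ℤ
  sl : ℤ

/-- A state: purity flags and offers. -/
structure St where
  ps : Bool
  pt : Bool
  os : List Off

/-- Witness of a clique offer: stay mode or clamp `[b1, b2]`, centre of the first label relative
to the centre of the mode. -/
structure KW where
  st : Bool
  b1 : ℕ
  b2 : ℕ
  ai : ℤ
  aj : ℤ

/-- Sanity of the parameters. -/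
def Tab.ok (τ : Tab) : Bool :=
  Nat.ble 1 τ.N && Nat.ble τ.N 8 && Nat.ble τ.T 10 && Nat.ble 1 τ.m && τ.bd.length == τ.m &&
  τ.B 0 == 271 && (!τ.ts || τ.T == 0) && Nat.ble 1 τ.nq &&
  (List.range τ.m).all (fun j => ale τ.T (τ.B j) (τ.B (j + 1)) 0) &&
  (List.range τ.nq).all (fun q => ale τ.T 271 (τ.XB q) 0 && ale τ.T (τ.XB q) 271 90) &&
  (List.range (τ.m + 1)).all (fun a => (List.range (τ.m + 2)).all fun l =>
    τ.psmall a (a + l) || ale τ.T (τ.hi a + 48) (τ.lo (a + l)) 0) &&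
  (List.range (τ.m + 1)).all (fun c => [false, true].all fun f =>
    (τ.grid f c).head? == some (τ.lo c) && (τ.grid f c).getLast? == some (τ.hi c) &&
      Nat.ble 2 (τ.grid f c).length)

/-! ### Validity -/

/-- Value sets: the origin, or an arc of unit vectors. -/
structure VS where
  pt : Bool
  sky : Bool
  r1 : ℕ
  r2 : ℕ

def Tab.vsL (τ : Tab) (c l : ℕ) : VS :=
  if l % 4 = 1 then ⟨false, true, τ.lo c, τ.hi c⟩
  else if l % 4 = 3 then ⟨false, false, l / 4, l / 4⟩ else ⟨true, false, 0, 0⟩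

def n2 (i j : ℤ) : ℤ := 3 * i * i + j * j

/-- The vector `(X, Y) / (2 N Q)` (known within `20 N` units) is within `1` of the arc. -/
def okXY (τ : Tab) (X Y : ℤ) (s : VS) : Bool :=
  let a := min (dg 0 s.r1) (dg τ.T s.r1)
  let b := max (dg 0 s.r2) (dg τ.T s.r2)
  let w := X * X + Y * Y + 4 * τ.N * τ.N * Q * 400
  Nat.ble b (a + 90) && decide (w ≤ 4 * τ.N * (X * cs a + Y * sn a)) &&
    decide (w ≤ 4 * τ.N * (X * cs b + Y * sn b))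

def okU (T u : ℕ) (s : VS) : Bool := ale T s.r2 u 60 && ale T u s.r1 60

/-- The lattice point `(i, j)` is within `1` of the arc. -/
def okPA (τ : Tab) (i j : ℤ) (s : VS) : Bool :=
  if i = 0 ∧ j = 0 then true else
  if unitA τ.N i j ≠ 0 then
    okU τ.T (unitA τ.N i j) s || okU τ.T (unitA τ.N i j + 1080) s ||
      (Nat.ble 1080 (unitA τ.N i j) && okU τ.T (unitA τ.N i j - 1080) s)
  else decide (n2 i j ≤ 16 * τ.N * τ.N) && okXY τ (i * S3) (j * Q) s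

/-- Every point of `x` is within `1` of every point of `lat di dj + y`. -/
def okPair (τ : Tab) (x y : VS) (di dj : ℤ) (S : Bool) : Bool :=
  if x.pt then (if y.pt then decide (n2 di dj ≤ 4 * τ.N * τ.N) else okPA τ (-di) (-dj) y)
  else if y.pt then okPA τ di dj x
  else if di = 0 ∧ dj = 0 then (S && x.sky && y.sky) || (ale τ.T y.r2 x.r1 60 && ale τ.T x.r2 y.r1 60)
  else if n2 di dj > 36 * τ.N * τ.N then false
  else if x.r1 = x.r2 ∧ x.r1 % 3 = 1 then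
    okXY τ (2 * τ.N * cs (dg 0 x.r1) - di * S3) (2 * τ.N * sn (dg 0 x.r1) - dj * Q) y
  else if y.r1 = y.r2 ∧ y.r1 % 3 = 1 then
    okXY τ (2 * τ.N * cs (dg 0 y.r1) + di * S3) (2 * τ.N * sn (dg 0 y.r1) + dj * Q) x
  else false

def Tab.valid (τ : Tab) (a b cl : ℕ) (o : Off) : Bool :=
  okPair τ (τ.vsL a o.ka) (τ.vsL b o.kb) o.di o.dj (cl == 0) && (τ.free a b || Nat.blt o.q τ.nq)

/-! ### End jumps -/

def nwt (S U : ℕ) : ℕ := (U + S / U) / 2 + 1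
/-- An upper bound of the square root of `x ^ 2 + y ^ 2`. -/
def hyp (x y : ℕ) : ℕ :=
  let S := x * x + y * y
  nwt S (nwt S (nwt S (nwt S (x + y + 1))))

/-- Lower bounds, at `t = T'` and at the angle `p`, of
`-‖d‖ + σ (R⋆ d·n + ρ⋆ (ang l - ang μ))` and of `σ (d·n + ang l - ang μ)`,
where `d = lat ai aj + vec l - vec μ` and `σ = 1` or `-1`. -/
def evalPt (N T' l μ : ℕ) (ai aj σ : ℤ) (p : ℕ) : ℤ × ℤ :=
  let dp := dg T' p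
  let dl := if l % 4 ≤ 1 then dp else dg T' (l / 4)
  let dm := if μ % 4 ≤ 1 then dp else dg T' (μ / 4)
  let hl := l % 2
  let hm := μ % 2
  let da : ℤ := σ * ((dl : ℤ) - dm)
  let g := (RD * da - |da|) / 1024
  let s := (PD * da - |da|) / 1024
  let d1 := if hl = 1 then dl else dm
  let e : ℤ := if dp % 360 = 0 then 1 else -1
  if ai = 0 ∧ aj = 0 ∧ hl = hm ∧ (hl = 0 ∨ dl = dm) then (g, s)
  else if ai = 0 ∧ aj = 0 ∧ hl ≠ hm ∧ d1 = dp then (g - Q, s)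
  else if hl ≠ hm ∧ d1 = dp ∧ dp % 180 = 0 ∧ ai = ((hm : ℤ) - hl) * e * N ∧ aj = -σ * e * N then
    (g + Q / 2, s + Q / 2)
  else
    let X := ai * S3 + 2 * N * (hl * cs dl - hm * cs dm)
    let Y := aj * Q + 2 * N * (hl * sn dl - hm * sn dm)
    let w := σ * (X * sn dp - Y * cs dp) / (2 * N * Q) - 64
    (g - (hyp X.natAbs Y.natAbs / (2 * N) + 64 : ℕ) + (RL * w / Q - 8), s + w)

/-- Value at `t = 0`, value at `t = T` less the curvature in `t`, slope; at the angle `p`. -/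
def evalT (N T l μ : ℕ) (ai aj σ : ℤ) (p : ℕ) : ℤ × ℤ × ℤ :=
  let x := evalPt N 0 l μ ai aj σ p
  let y := evalPt N T l μ ai aj σ p
  let sp := sg p
  let sl := if l % 4 ≤ 1 then sp else sg (l / 4)
  let sm := if μ % 4 ≤ 1 then sp else sg (μ / 4)
  let hl : ℤ := (l % 2 : ℕ)
  let hm : ℤ := (μ % 2 : ℕ)
  let z : Bool := ai = 0 ∧ aj = 0
  let same : Bool := l = μ ∧ l % 2 = 1
  let mn := if same ∨ (z ∧ hl + hm ≤ 1) then 0 else hl * sl * sl + hm * sm * sm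
  let mb := (if z then 0 else 2 * sp * sp) +
    (if same then 0 else hl * (sp - sl) * (sp - sl) + hm * (sp - sm) * (sp - sm))
  (x.1, y.1 - (mn * 2556 + mb * 5203) * T * T, min x.2 y.2 - mb * 639 * T * T)

/-- Lower bounds on the piece `[p1, p2]` of a cell. -/
def evalI (N T l μ : ℕ) (ai aj σ : ℤ) (p1 p2 : ℕ) : ℤ × ℤ × ℤ :=
  let x := evalT N T l μ ai aj σ p1
  let y := evalT N T l μ ai aj σ p2
  let h0 : ℤ := (dg 0 p2 : ℤ) - dg 0 p1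
  let h1 : ℤ := (dg T p2 : ℤ) - dg T p1
  let cst : Bool := ai = 0 ∧ aj = 0 ∧ (l = μ ∨ (l % 4 ≠ 3 ∧ μ % 4 ≠ 3))
  let mv : Bool := (l % 4 = 1) ≠ (μ % 4 = 1)
  let pg : ℤ := if cst then 0 else if mv then 3241 else 1301
  let pp : ℤ := if cst then 0 else if mv then 1278 else 639
  (min x.1 y.1 - pg * h0 * h0, min x.2.1 y.2.1 - pg * h1 * h1,
    min x.2.2 y.2.2 - pp * max (h0 * h0) (h1 * h1))

/-- All pieces of a grid. -/
def evalG (N T l μ : ℕ) (ai aj σ : ℤ) : List ℕ → List (ℕ × ℕ × ℤ × ℤ × ℤ)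
  | p1 :: p2 :: r => (p1, p2, evalI N T l μ ai aj σ p1 p2) :: evalG N T l μ ai aj σ (p2 :: r)
  | _ => []

def min3 (L : List (ℕ × ℕ × ℤ × ℤ × ℤ)) : ℤ × ℤ × ℤ :=
  L.foldr (fun x y => (min x.2.2.1 y.1, min x.2.2.2.1 y.2.1, min x.2.2.2.2 y.2.2)) (8 * Q, 8 * Q, 8 * Q)

/-- The mode on the cell `c` as a label (`0` if it is not uniform on the cell). -/
def Tab.modeAt (τ : Tab) (a : ℕ) (w : KW) (c : ℕ) : ℕ :=
  if w.st then 4 * τ.lo a + 2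
  else if w.b1 = w.b2 ∨ ale τ.T w.b2 (τ.lo c) 0 then 4 * w.b2 + 3
  else if ale τ.T (τ.hi c) w.b1 0 then 4 * w.b1 + 3
  else if ale τ.T w.b1 (τ.lo c) 0 ∧ ale τ.T (τ.hi c) w.b2 0 then 1 else 0

/-- On the side with angle code `al` (`271` or `811`): `i √3 / (2 N) + cos (mode - al) ≥ cos X`. -/
def thrOK (τ : Tab) (i : ℤ) (μ al X : ℕ) : Bool :=
  let b := if μ % 4 = 1 then al else μ / 4
  μ != 0 && ((μ % 2 == 1 && decide (0 ≤ i) && ale τ.T b (X + (al - 271)) 0 &&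
      ale τ.T (542 - X + (al - 271)) b 0) ||
    ((μ % 2 == 0 || (ale τ.T b al 90 && ale τ.T al b 90)) &&
      decide (2 * τ.N * ((if X % 3 = 1 then cs (dg 0 X) else Q) + 16) ≤ i * S3 + 2 * τ.N *
        (if μ % 2 = 0 then 0 else min (cs (dg 0 b + 360 - dg 0 al)) (cs (dg τ.T b + 360 - dg τ.T al)))) &&
      decide (-8 * τ.N ≤ i) && decide (i ≤ 8 * τ.N)))

/-- The check of a clique offer on the region `(a, b)` of class `cl`. -/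
def Tab.kcheck (τ : Tab) (a b cl : ℕ) (o : Off) (w : KW) : Bool :=
  let S := cl == 0
  let ms : VS := if w.st then ⟨true, false, 0, 0⟩
    else ⟨false, ale τ.T w.b1 (τ.lo a) 0 && ale τ.T (τ.hi b) w.b2 0, w.b1, w.b2⟩
  let fine := cl == 1 && τ.strad a b
  let μa := τ.modeAt a w a
  let μb := τ.modeAt a w b
  let E0 := evalG τ.N τ.T o.ka μa w.ai w.aj 1 (τ.grid fine a)
  let E1 := evalG τ.N τ.T o.kb μb (w.ai + o.di) (w.aj + o.dj) (-1) (τ.grid fine b)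
  τ.valid a b cl o && (w.st || ale τ.T w.b1 w.b2 0) && μa != 0 && μb != 0 &&
  okPair τ ms ms 0 0 S && okPair τ (τ.vsL a o.ka) ms (-w.ai) (-w.aj) S &&
  okPair τ ms (τ.vsL b o.kb) (w.ai + o.di) (w.aj + o.dj) S &&
  decide (n2 w.ai w.aj ≤ 16 * τ.N * τ.N) && decide (n2 (w.ai + o.di) (w.aj + o.dj) ≤ 16 * τ.N * τ.N) &&
  (a != 0 || thrOK τ (o.h - w.ai) (τ.modeAt a w 0) 271 (τ.XB o.q)) &&
  (Nat.ble b τ.m || thrOK τ (w.ai - o.h) (τ.modeAt a w (τ.m + 1)) 811 (τ.XT o.q)) &&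
  (if fine then
    E0.all fun x => E1.all fun y => ale τ.T y.2.1 x.1 60 ||
      (decide (o.v0 ≤ x.2.2.1 + y.2.2.1) && decide (o.v1 ≤ x.2.2.2.1 + y.2.2.2.1) &&
        decide (o.sl ≤ x.2.2.2.2 + y.2.2.2.2))
  else decide (o.v0 ≤ (min3 E0).1 + (min3 E1).1) && decide (o.v1 ≤ (min3 E0).2.1 + (min3 E1).2.1) &&
    decide (o.sl ≤ (min3 E0).2.2 + (min3 E1).2.2))

/-! ### Closure conditions -/

def rotL (l : ℕ) : ℕ := if l % 4 ≤ 1 then l else l + 2160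

/-- The offer seen from the previous half turn. -/
def Tab.rot (τ : Tab) (o : Off) : Off :=
  ⟨rotL o.ka, rotL o.kb, -o.di, -o.dj, τ.nq - 1 - o.q, -o.h, o.v0, o.v1, o.sl⟩

/-- The offer of a region starting in the cell `x`, seen from the half turn `0`. -/
def Tab.up (τ : Tab) (x : ℕ) (o : Off) : Off := τ.rot^[x / (τ.m + 1)] o

/-- `o` follows from `k`, an offer of the same region; `f` tells that the region is free. -/
def Dom (f : Bool) (o k : Off) : Prop :=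
  o.ka = k.ka ∧ o.kb = k.kb ∧ o.di = k.di ∧ o.dj = k.dj ∧ (f = false → o.q = k.q ∧ o.h = k.h) ∧
    o.v0 ≤ k.v0 ∧ o.v1 ≤ k.v1 ∧ o.sl ≤ k.sl

/-- `o` follows from the join of `x` and `y`; `f1`, `f2` tell that the parts are free. -/
def Cmp (f1 f2 : Bool) (o x y : Off) : Prop :=
  o.ka = x.ka ∧ x.kb = y.ka ∧ y.kb = o.kb ∧ o.di = x.di + y.di ∧ o.dj = x.dj + y.dj ∧
    (f1 = false → o.q = x.q ∧ o.h = x.h) ∧ (f2 = false → o.q = y.q ∧ o.h + x.di = y.h) ∧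
    o.v0 ≤ x.v0 + y.v0 ∧ o.v1 ≤ x.v1 + y.v1 ∧ o.sl ≤ x.sl + y.sl

/-- Three offers close up around the root. -/
def Rt3 (τ : Tab) (f1 f2 f3 : Bool) (x y z : Off) : Prop :=
  x.kb = y.ka ∧ y.kb = z.ka ∧ z.kb = rotL (rotL x.ka) ∧ x.di + y.di + z.di = 0 ∧
    x.dj + y.dj + z.dj = 0 ∧ (∃ q < τ.nq, ∃ h : ℤ, (f1 = false → q = x.q ∧ h = x.h) ∧
      (f2 = false → q = y.q ∧ h + x.di = y.h) ∧ (f3 = false → q = z.q ∧ h + x.di + y.di = z.h)) ∧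
    τ.V0 ≤ x.v0 + y.v0 + z.v0 ∧ τ.V1 ≤ x.v1 + y.v1 + z.v1 ∧ τ.S0 ≤ x.sl + y.sl + z.sl

/-- Two offers close up around the root. -/
def Rt2 (τ : Tab) (x y : Off) : Prop :=
  x.kb = y.ka ∧ y.kb = rotL (rotL x.ka) ∧ x.di + y.di = 0 ∧ x.dj + y.dj = 0 ∧ x.q < τ.nq ∧
    x.q = y.q ∧ x.h + x.di = y.h ∧ τ.V0 ≤ x.v0 + y.v0 ∧ τ.V1 ≤ x.v1 + y.v1 ∧ τ.S0 ≤ x.sl + y.sl

/-- A certificate: clique offers `K a l cl` and states `M a l cl` of the region with cells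
`(a, a + l)`, `a ≤ m`, `l ≤ m + 1`, and class `cl`. -/
structure Good (τ : Tab) (K : ℕ → ℕ → ℕ → List Off) (M : ℕ → ℕ → ℕ → List St) : Prop where
  ok : τ.ok = true
  hK : ∀ a ≤ τ.m, ∀ l ≤ τ.m + 1, ∀ cl ≤ 1, ∀ o ∈ K a l cl, ∃ w, τ.kcheck a (a + l) cl o w = true
  hV : ∀ a ≤ τ.m, ∀ l ≤ τ.m + 1, ∀ cl ≤ 1, ∀ σ ∈ M a l cl, ∀ o ∈ σ.os, τ.valid a (a + l) cl o = true
  hS : ∀ a ≤ τ.m, ∀ l ≤ τ.m + 1, τ.has a (a + l) 0 = true → ∀ j ≤ l, ∃ σ ∈ M a l 0, ∀ o ∈ σ.os,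
    (∃ k ∈ K a l 0, Dom (τ.free a (a + l)) o k) ∨ ∃ x ∈ K a j 0, ∃ y ∈ K ((a + j) % (τ.m + 1)) (l - j) 0,
      Cmp (τ.free a (a + j)) (τ.free ((a + j) % (τ.m + 1)) ((a + j) % (τ.m + 1) + (l - j))) o x
        (τ.up (a + j) y)
  hM : ∀ a ≤ τ.m, ∀ l ≤ τ.m + 1, τ.has a (a + l) 1 = true → ∀ j ≤ l, ∀ c1 ≤ 1, ∀ c2 ≤ 1,
    τ.has a (a + j) c1 = true → τ.has (a + j) (a + l) c2 = true → τ.feas a (a + l) c1 c2 = true →
    ∀ σ1 ∈ M a j c1, ∀ σ2 ∈ M ((a + j) % (τ.m + 1)) (l - j) c2, ∃ σ ∈ M a l 1,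
      (σ.ps = true → c2 = 0 ∧ (c1 = 0 ∨ σ1.ps = true)) ∧
      (σ.pt = true → c1 = 0 ∧ (c2 = 0 ∨ σ2.pt = true)) ∧ ∀ o ∈ σ.os,
      (∃ k ∈ K a l 1, Dom (τ.free a (a + l)) o k) ∨ ∃ x ∈ σ1.os, ∃ y ∈ σ2.os,
        Cmp (τ.free a (a + j)) (τ.free ((a + j) % (τ.m + 1)) ((a + j) % (τ.m + 1) + (l - j))) o x
          (τ.up (a + j) y)
  hP : ∀ σ1 ∈ M 0 (τ.m + 1) 1, ∀ σ2 ∈ M 0 (τ.m + 1) 1, (σ1.ps = true ∧ σ2.pt = true) ∨
    (σ1.pt = true ∧ σ2.ps = true) ∨ ∃ x ∈ σ1.os, ∃ y ∈ σ2.os, Rt2 τ x (τ.rot y)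
  hR : ∀ a ≤ τ.m, ∀ l1 ≤ τ.m + 1, ∀ l2 ≤ l1, ∀ l3 ≤ l1, l1 + l2 + l3 = 2 * (τ.m + 1) →
    ¬ (a = 0 ∧ l1 = τ.m + 1) → ∀ c1 ≤ 1, ∀ c2 ≤ 1, ∀ c3 ≤ 1, τ.has a (a + l1) c1 = true →
    τ.has (a + l1) (a + l1 + l2) c2 = true → τ.has (a + l1 + l2) (a + l1 + l2 + l3) c3 = true →
    ∀ σ1 ∈ M a l1 c1, ∀ σ2 ∈ M ((a + l1) % (τ.m + 1)) l2 c2,
    ∀ σ3 ∈ M ((a + l1 + l2) % (τ.m + 1)) l3 c3,
      ((c1 = 0 ∨ σ1.ps = true) ∧ (c3 = 0 ∨ σ3.pt = true) ∧ c2 = 0) ∨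
      ((c2 = 0 ∨ σ2.ps = true) ∧ (c1 = 0 ∨ σ1.pt = true) ∧ c3 = 0) ∨
      ((c3 = 0 ∨ σ3.ps = true) ∧ (c2 = 0 ∨ σ2.pt = true) ∧ c1 = 0) ∨
      ∃ x ∈ σ1.os, ∃ y ∈ σ2.os, ∃ z ∈ σ3.os,
        Rt3 τ (τ.free a (a + l1))
          (τ.free ((a + l1) % (τ.m + 1)) ((a + l1) % (τ.m + 1) + l2))
          (τ.free ((a + l1 + l2) % (τ.m + 1)) ((a + l1 + l2) % (τ.m + 1) + l3))
          x (τ.up (a + l1) y) (τ.up (a + l1 + l2) z)

/-! ### Meaning -/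

/-- The critical ratio of the radii. -/
noncomputable def Rs : ℝ := 1 + √6 - √2

noncomputable def av (t : ℝ) (a : ℕ) : ℝ :=
  (((a / 3 : ℕ) : ℝ) - 90 + (((a % 3 : ℕ) : ℝ) - 1) * t) * (Real.pi / 180)
noncomputable def lat (N : ℕ) (i j : ℤ) : ℂ := ⟨√3 * i / (2 * N), j / (2 * N)⟩
noncomputable def vec (t : ℝ) (l : ℕ) (φ : ℝ) : ℂ :=
  if l % 4 = 1 then nv φ else if l % 4 = 3 then nv (av t (l / 4)) else 0
noncomputable def ang (t : ℝ) (l : ℕ) (φ : ℝ) : ℝ := if l % 4 ≤ 1 then φ else av t (l / 4)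
noncomputable def Tab.kap (τ : Tab) (t : ℝ) (q : ℕ) : ℝ :=
  (Real.cos (av t (τ.XB q)) + Real.cos (av t (τ.XT q))) / 2
noncomputable def Tab.off (τ : Tab) (t : ℝ) (q : ℕ) : ℝ :=
  (Real.cos (av t (τ.XT q)) - Real.cos (av t (τ.XB q))) / 2
/-- Linear interpolation in `t`; for `T = 0` (and `t = 0`) this is `v0`. -/
noncomputable def itp (T : ℕ) (t : ℝ) (v0 v1 : ℤ) : ℝ := (v0 + (v1 - v0) * (t / T)) / Q

/-- Meaning of an offer for the chord `(s, e)` with root `y` and length `c`, in coordinates where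
`φ i` is the tangent angle (`φ = ψ + π / 2` less the half turns), radius `r` and `R = Rs r + δ`. -/
def Tab.SemAt (τ : Tab) (t r δ : ℝ) (φ x : ℕ → ℝ) (s e : ℕ) (y : ℂ) (c : ℝ) (o : Off) (q : ℕ)
    (h : ℤ) : Prop :=
  let C : ℂ := lat τ.N h 0 + (τ.off t q : ℝ)
  let u := C + vec t o.ka (φ s)
  let v := C + lat τ.N o.di o.dj + vec t o.kb (φ e)
  r * itp τ.T t o.v0 o.v1 + δ * (o.sl / Q) +
    ((Rs - 1) * r + δ) * (ang t o.kb (φ e) - ang t o.ka (φ s)) +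
    (x s * u.re - x e * v.re + τ.kap t q * (cum x e - cum x s)) + dot (v - u) y ≤ c

def Tab.Sem (τ : Tab) (t r δ : ℝ) (φ x : ℕ → ℝ) (s e : ℕ) (y : ℂ) (c : ℝ) (f : Bool) (o : Off) :
    Prop :=
  ∀ q h, q < τ.nq → (f = false → q = o.q ∧ h = o.h) → τ.SemAt t r δ φ x s e y c o q h

/-- What one table proves. -/
def Tab.Concl (τ : Tab) : Prop :=
  ∀ (t κ L ρ r ε : ℝ) (n : ℕ) (ψ x : ℕ → ℝ) (P : ℕ → ℂ), 0 ≤ t → t ≤ τ.T → (τ.T ≠ 0 → 0 < t) →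
    (∀ q < τ.nq, κ ≤ τ.kap t q) → 0 < L → 0 < r → r ≤ ρ → 0 < ε → ε < 1 →
    Rs * (r + (ρ + r + 2) * ε) ≤ ρ + r →
    Samp L ε n ψ x → (∀ i, P (i + n) = P i) → (∀ i, dist (P i) (smp (ρ + r) ψ x i) ≤ r + ε) →
    ∀ (a b e : ℕ) (y : ℂ) (c1 c2 c3 : ℝ) (X1 X2 X3 : Set ℂ),
      IT P a b y c1 X1 → IT P b e y c2 X2 → IT P e (a + n) y c3 X3 →
      ψ b - ψ a ≤ Real.pi → ψ e - ψ b ≤ Real.pi → ψ (a + n) - ψ e < Real.pi →
      (∃ p, FanAt P ψ n p (c1 + c2 + c3) (X1 ∪ X2 ∪ X3)) ∨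
        2 * Real.pi * (ρ - (ρ + r + 2) * ε) + 4 * L * κ +
          (r + (ρ + r + 2) * ε) * itp τ.T t τ.V0 τ.V1 +
          (ρ + r - Rs * (r + (ρ + r + 2) * ε)) * (τ.S0 / Q) ≤ c1 + c2 + c3

end Pool.Agent.Lib.MP_4b56aa_gt.Cert
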