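import Pool.Agent.Lib.MP_4b56aa_gt.Cert.CPt

/-! Soundness of the evaluation of an end jump for all tilts and on a piece of a cell. -/

namespace Pool.Agent.Lib.MP_4b56aa_gt.Cert

open Pool.Agent.Lib.MP_4b56aa_gt.Red Pool.Agent.Lib.MP_4b56aa_gt.Fan

variable {N T l μ p p1 p2 : ℕ} {i j σ : ℤ} {t φ : ℝ}

theorem av_lin (a : ℕ) (x : ℝ) : av x a = av 0 a + sg a * (Real.pi / 180) * x := by
  unfold av sg; rw [Int.cast_sub, Int.cast_natCast, Int.cast_one]; ring

theorem jd_code (x : ℝ) : jd N x l μ i j (av x p) = lat N i j +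
    ((l % 2 : ℕ) : ℝ) * nv (av x (if l % 4 ≤ 1 then p else l / 4)) -
      ((μ % 2 : ℕ) : ℝ) * nv (av x (if μ % 4 ≤ 1 then p else μ / 4)) := by
  rw [jd, vec_eq, vec_eq, ang_code, ang_code]

theorem norm_real_le {k s K : ℝ} (hs : |s| ≤ 1) (hk : |k| ≤ K) : ‖((s * k : ℝ) : ℂ)‖ ≤ K := by
  rw [Complex.norm_real, Real.norm_eq_abs]; simpa using mb hs hk

theorem sc_T_norm (a b : ℕ) (ha : a = if l % 4 ≤ 1 then p else l / 4)
    (hb : b = if μ % 4 ≤ 1 then p else μ / 4) {k : ℤ}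
    (hk : k = if (l = μ ∧ l % 2 = 1) ∨ ((i = 0 ∧ j = 0) ∧ ((l % 2 : ℕ) : ℤ) + (μ % 2 : ℕ) ≤ 1) then 0
      else (l % 2 : ℕ) * sg a * sg a + (μ % 2 : ℕ) * sg b * sg b) :
    0 ≤ k ∧ SC (fun x => -‖jd N x l μ i j (av x p)‖) (k * (Real.pi / 180) ^ 2) := by
  split_ifs at hk with c
  · rw [hk, Int.cast_zero, zero_mul]
    refine ⟨le_rfl, ?_⟩
    rcases c with ⟨rfl, -⟩ | ⟨⟨rfl, rfl⟩, c⟩
    · exact sc_lin (c := -‖lat N i j‖) (ω := 0) fun x => by simp [jd]
    · refine sc_lin (c := -(((l % 2 : ℕ) : ℝ) + (μ % 2 : ℕ))) (ω := 0) fun x => ?_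
      rw [jd_code, lat_zero]
      rcases Nat.mod_two_eq_zero_or_one l with e | e <;>
        rcases Nat.mod_two_eq_zero_or_one μ with f | f <;> rw [e, f] at c ⊢
      · simp
      · simp [norm_nv]
      · simp [norm_nv]
      · omega
  refine ⟨by rw [hk, mul_assoc, mul_assoc]; exact add_nonneg (mul_nonneg (by positivity)
    (mul_self_nonneg _)) (mul_nonneg (by positivity) (mul_self_nonneg _)), sc_norm fun e he => ?_⟩
  have n : ∀ h : ℕ, ‖((h : ℝ) : ℂ) * e‖ ≤ h := fun h => by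
    rw [norm_mul, Complex.norm_real, Real.norm_natCast]
    exact mul_le_of_le_one_right (Nat.cast_nonneg _) he
  refine ((((sc_lin (f := fun _ => dot e (lat N i j)) (ω := 0) fun x => by simp; rfl).add
    (sc_dot (n (l % 2)) (av_lin a))).add (sc_dot (V := -(((μ % 2 : ℕ) : ℝ) * e))
      ((norm_neg _).trans_le (n (μ % 2))) (av_lin b))).congr fun x => ?_).mono (le_of_eq ?_)
  · rw [jd_code, ← ha, ← hb]
    simp only [dot, Complex.sub_re, Complex.sub_im, Complex.add_re, Complex.add_im, Complex.neg_re,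
      Complex.neg_im, Complex.re_ofReal_mul, Complex.im_ofReal_mul]
    ring
  · rw [hk]; push_cast [-Int.natCast_mod, -Int.natCast_emod]; ring

theorem sc_T_dot (hN : 1 ≤ N) (hσ : σ = 1 ∨ σ = -1) (hn : n2 i j ≤ 16 * N * N) (a b : ℕ)
    (ha : a = if l % 4 ≤ 1 then p else l / 4) (hb : b = if μ % 4 ≤ 1 then p else μ / 4) {k : ℤ}
    (hk : k = (if i = 0 ∧ j = 0 then 0 else 2 * sg p * sg p) + if l = μ ∧ l % 2 = 1 then 0 else
      (l % 2 : ℕ) * (sg p - sg a) * (sg p - sg a) + (μ % 2 : ℕ) * (sg p - sg b) * (sg p - sg b)) :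
    0 ≤ k ∧ SC (fun x => σ * dot (jd N x l μ i j (av x p)) (nv (av x p - Real.pi / 2)))
      (k * (Real.pi / 180) ^ 2) := by
  have s1 : |(σ : ℝ)| ≤ 1 := by rcases hσ with rfl | rfl <;> simp
  have A : 0 ≤ (if i = 0 ∧ j = 0 then 0 else 2 * sg p * sg p) ∧
      SC (fun x => σ * dot (lat N i j) (nv (av x p - Real.pi / 2)))
      ((if i = 0 ∧ j = 0 then 0 else 2 * sg p * sg p : ℤ) * (Real.pi / 180) ^ 2) := by
    split_ifs with c
    · rw [c.1, c.2, lat_zero, Int.cast_zero, zero_mul]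
      exact ⟨le_rfl, sc_lin (c := 0) (ω := 0) fun x => by simp [dot]⟩
    · have := lat_le (k := 2) hN (i := i) (j := j) (by push_cast; linarith)
      refine ⟨by rw [mul_assoc]; exact mul_nonneg (by norm_num) (mul_self_nonneg _),
        ((sc_dot (V := (σ : ℝ) * lat N i j) (K := 2) (g := fun x => av x p - Real.pi / 2)
          (c := av 0 p - Real.pi / 2) (ω := sg p * (Real.pi / 180)) ?_ fun x => ?_).congr
          fun x => ?_).mono (le_of_eq ?_)⟩
      · rw [norm_mul, Complex.norm_real]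
        simpa using mul_le_mul s1 this (norm_nonneg _) zero_le_one
      · rw [av_lin p x]; ring
      · simp only [dot, Complex.re_ofReal_mul, Complex.im_ofReal_mul]; ring
      · push_cast; ring
  have V : ∀ (s : ℝ) (h c : ℕ), |s| ≤ 1 →
      SC (fun x => s * dot (((h : ℝ) : ℂ) * nv (av x c)) (nv (av x p - Real.pi / 2)))
        (h * ((sg p - sg c) * (Real.pi / 180)) ^ 2) := fun s h c hs =>
    (sc_dot (V := (s * h : ℝ)) (g := fun x => av x p - Real.pi / 2 - av x c)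
      (c := av 0 p - Real.pi / 2 - av 0 c) (norm_real_le hs (by simp)) fun x => by
        rw [av_lin p x, av_lin c x]; ring).congr fun x => by
      simp only [dot, Complex.re_ofReal_mul, Complex.im_ofReal_mul, Complex.ofReal_re,
        Complex.ofReal_im, nv_re, nv_im, Real.cos_sub (_ - _)]
      ring
  rw [hk]
  by_cases c : l = μ ∧ l % 2 = 1
  · rw [if_pos c, add_zero]
    exact ⟨A.1, A.2.congr fun x => by rw [c.1]; simp [jd]⟩
  rw [if_neg c]
  refine ⟨add_nonneg A.1 (by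
    rw [mul_assoc, mul_assoc]
    exact add_nonneg (mul_nonneg (by positivity) (mul_self_nonneg _))
      (mul_nonneg (by positivity) (mul_self_nonneg _))),
    (((A.2.add (V σ (l % 2) a s1)).add (V (-σ) (μ % 2) b (by rwa [abs_neg]))).congr
      fun x => ?_).mono (le_of_eq ?_)⟩
  · rw [jd_code, ← ha, ← hb]
    simp only [dot, Complex.sub_re, Complex.sub_im, Complex.add_re, Complex.add_im]
    ring
  · rw [Int.cast_add]
    generalize ((if i = 0 ∧ j = 0 then 0 else 2 * sg p * sg p : ℤ) : ℝ) = u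
    push_cast [-Int.natCast_mod, -Int.natCast_emod]; ring

theorem evalT_sound (ht : Tm T t) (hN : 1 ≤ N) (hσ : σ = 1 ∨ σ = -1) (hn : n2 i j ≤ 16 * N * N) :
    (1 - t / T) * (evalT N T l μ i j σ p).1 + t / T * (evalT N T l μ i j σ p).2.1 ≤
      Q * jG N t l μ i j σ (av t p) ∧
    ((evalT N T l μ i j σ p).2.2 : ℝ) ≤ Q * jS N t l μ i j σ (av t p) := by
  obtain ⟨x1, x2⟩ := evalPt_sound (l := l) (μ := μ) (p := p) hN (Nat.zero_le 10) hσ hn
  obtain ⟨y1, y2⟩ := evalPt_sound (l := l) (μ := μ) (p := p) hN ht.hT hσ hn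
  obtain ⟨n0, n1⟩ := sc_T_norm (N := N) (l := l) (μ := μ) (p := p) (i := i) (j := j) _ _ rfl rfl rfl
  obtain ⟨d0, d1⟩ := sc_T_dot (l := l) (μ := μ) (p := p) hN hσ hn _ _ rfl rfl rfl
  have a1 : SC (fun x => σ * (ang x l (av x p) - ang x μ (av x p))) 0 :=
    sc_lin (c := σ * (ang 0 l (av 0 p) - ang 0 μ (av 0 p))) (ω := σ * (Real.pi / 180) *
      (sg (if l % 4 ≤ 1 then p else l / 4) - sg (if μ % 4 ≤ 1 then p else μ / 4))) fun x => by
        simp only [ang_code]; rw [av_lin _ x, av_lin (if μ % 4 ≤ 1 then p else μ / 4) x]; ring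
  rw [apply_ite sg, apply_ite sg] at n0 n1 d0 d1
  simp only [evalT, decide_eq_true_eq]
  generalize (if l % 4 ≤ 1 then sg p else sg (l / 4)) = sl at n0 n1 d0 d1
  generalize (if μ % 4 ≤ 1 then sg p else sg (μ / 4)) = sm at n0 n1 d0 d1
  generalize (if (l = μ ∧ l % 2 = 1) ∨ ((i = 0 ∧ j = 0) ∧ ((l % 2 : ℕ) : ℤ) + (μ % 2 : ℕ) ≤ 1) then 0
      else (l % 2 : ℕ) * sl * sl + (μ % 2 : ℕ) * sm * sm) = mn at n0 n1
  generalize ((if i = 0 ∧ j = 0 then 0 else 2 * sg p * sg p) + if l = μ ∧ l % 2 = 1 then 0 else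
      (l % 2 : ℕ) * (sg p - sl) * (sg p - sl) + (μ % 2 : ℕ) * (sg p - sm) * (sg p - sm)) = mb
    at d0 d1
  have n0' : (0 : ℝ) ≤ mn := by exact_mod_cast n0
  have d0' : (0 : ℝ) ≤ mb := by exact_mod_cast d0
  have R := Rs_mem
  have g := ((n1.add (d1.smul (k := Rs) (by linarith))).add (a1.smul (k := Rs - 1) (by linarith))).ends
    (by have : 0 ≤ Rs := by linarith
        rw [mul_zero, add_zero]; positivity) ht
  have s := (d1.add a1).min (by rw [add_zero]; positivity) ht.h0 ht.h1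
  change _ * jG N 0 l μ i j σ (av 0 p) + _ * (jG N T l μ i j σ (av T p) - _) ≤
    jG N t l μ i j σ (av t p) at g
  change min (jS N 0 l μ i j σ (av 0 p)) (jS N T l μ i j σ (av T p)) - _ ≤
    jS N t l μ i j σ (av t p) at s
  rw [Nat.cast_zero] at x1 x2
  have k := pi_sq
  have T2 : (0 : ℝ) ≤ (T : ℝ) ^ 2 := sq_nonneg _
  have k1 := mul_le_mul_of_nonneg_left k (mul_nonneg n0' T2)
  have k2 := mul_le_mul_of_nonneg_left k (mul_nonneg d0' T2)
  have k3 := mul_le_mul R.2 k2 (by rw [Q_eq]; positivity) (by norm_num)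
  have k4 := mul_nonneg n0' T2
  have k5 := mul_nonneg d0' T2
  rw [Q_eq] at *
  push_cast
  constructor
  · have u1 := mul_le_mul_of_nonneg_left x1 (sub_nonneg.2 ht.l1)
    have u2 := mul_le_mul_of_nonneg_left (show ((evalPt N T l μ i j σ p).1 : ℝ) -
      (mn * 2556 + mb * 5203) * T * T ≤ 16777216 * (jG N T l μ i j σ (av T p) -
        (mn * (Real.pi / 180) ^ 2 + Rs * (mb * (Real.pi / 180) ^ 2) + (Rs - 1) * 0) * T ^ 2 / 2) by
          linarith) ht.l0
    linarith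
  · rcases min_cases (jS N 0 l μ i j σ (av 0 p)) (jS N T l μ i j σ (av T p)) with e | e <;>
      rw [e.1] at s
    · linarith [min_le_left ((evalPt N 0 l μ i j σ p).2 : ℝ) (evalPt N T l μ i j σ p).2]
    · linarith [min_le_right ((evalPt N 0 l μ i j σ p).2 : ℝ) (evalPt N T l μ i j σ p).2]

theorem sc_phi {B : ℂ} {k K s : ℝ} (hs : |s| ≤ 1) (hB : ‖B‖ ≤ K) :
    SC (fun x => -‖B + k * nv x‖) |k| ∧
      SC (fun x => s * dot (B + k * nv x) (nv (x - Real.pi / 2))) K := by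
  refine ⟨sc_norm fun e he => ?_, ?_⟩
  · refine (((sc_lin (f := fun _ => dot e B) (ω := 0) fun x => by simp; rfl).add
      (sc_dot (V := k * e) (K := |k|) (g := id) (c := 0) (ω := 1) ?_ fun x => by simp)).congr
        fun x => ?_).mono (by simp)
    · rw [norm_mul, Complex.norm_real]; exact mul_le_of_le_one_right (abs_nonneg _) he
    · simp only [dot, Complex.add_re, Complex.add_im, Complex.re_ofReal_mul, Complex.im_ofReal_mul, id]
      ring
  · refine ((sc_dot (V := s * B) (K := K) (g := fun x => x - Real.pi / 2) (c := -(Real.pi / 2))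
      (ω := 1) ?_ fun x => by ring).congr fun x => ?_).mono (by simp)
    · rw [norm_mul, Complex.norm_real]
      simpa using mul_le_mul hs hB (norm_nonneg _) zero_le_one
    · simp only [dot_n, Complex.add_re, Complex.add_im, Complex.re_ofReal_mul, Complex.im_ofReal_mul,
        nv_re, nv_im]
      ring

theorem sc_I (hσ : σ = 1 ∨ σ = -1) (hd : ‖jd N t l μ i j φ‖ ≤ 1) {g s : ℤ}
    (hg : g = if i = 0 ∧ j = 0 ∧ (l = μ ∨ (l % 4 ≠ 3 ∧ μ % 4 ≠ 3)) then 0
      else if (l % 4 = 1) ≠ (μ % 4 = 1) then 3241 else 1301)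
    (hs : s = if i = 0 ∧ j = 0 ∧ (l = μ ∨ (l % 4 ≠ 3 ∧ μ % 4 ≠ 3)) then 0
      else if (l % 4 = 1) ≠ (μ % 4 = 1) then 1278 else 639) :
    ∃ G S : ℝ, 0 ≤ G ∧ 0 ≤ S ∧ G * 638.83 ≤ g ∧ S * 638.83 ≤ s ∧ SC (jG N t l μ i j σ) G ∧
      SC (jS N t l μ i j σ) S := by
  have s1 : |(σ : ℝ)| ≤ 1 := by rcases hσ with rfl | rfl <;> simp
  have R := Rs_mem
  obtain ⟨B, k, e, k1, k2, k3⟩ : ∃ (B : ℂ) (k : ℝ), (∀ x, jd N t l μ i j x = B + k * nv x) ∧
      |k| ≤ 1 ∧ (¬ (l % 4 = 1) ≠ (μ % 4 = 1) → k = 0) ∧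
      (i = 0 ∧ j = 0 ∧ (l = μ ∨ (l % 4 ≠ 3 ∧ μ % 4 ≠ 3)) → B = 0) := by
    refine ⟨lat N i j + (if l % 4 = 3 then nv (av t (l / 4)) else 0) -
      (if μ % 4 = 3 then nv (av t (μ / 4)) else 0),
      (if l % 4 = 1 then 1 else 0) - (if μ % 4 = 1 then 1 else 0), fun x => ?_, ?_, fun c => ?_, ?_⟩
    · unfold jd vec
      split_ifs <;> first | omega | (push_cast; ring)
    · split_ifs <;> simp
    · rw [not_not] at c; simp [c]
    · rintro ⟨rfl, rfl, rfl | c⟩
      · simp [lat_zero]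
      · simp [lat_zero, c.1, c.2]
  have a1 : SC (fun x => σ * (ang t l x - ang t μ x)) 0 :=
    sc_lin (c := σ * (ang t l 0 - ang t μ 0))
      (ω := σ * ((if l % 4 ≤ 1 then 1 else 0) - (if μ % 4 ≤ 1 then 1 else 0))) fun x => by
        unfold ang; split_ifs <;> ring
  have fin : ∀ K U : ℝ, ‖B‖ ≤ K → SC (fun x => -‖B + k * nv x‖) U →
      SC (jG N t l μ i j σ) (U + Rs * K + (Rs - 1) * 0) ∧ SC (jS N t l μ i j σ) (K + 0) :=
    fun K U hK hU =>
      ⟨((hU.add ((sc_phi (k := k) s1 hK).2.smul (by linarith))).add (a1.smul (by linarith))).congr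
        fun x => by rw [jG, e], ((sc_phi (k := k) s1 hK).2.add a1).congr fun x => by rw [jS, e]⟩
  rw [e] at hd
  split_ifs at hg hs with c d
  · have := fin 0 0 (by rw [k3 c, norm_zero]) (sc_lin (c := -|k|) (ω := 0) fun x => by
      simp [k3 c, norm_nv])
    exact ⟨_, _, by simp, by simp, by simp [hg], by simp [hs], this⟩
  · have hB : ‖B‖ ≤ 2 := by
      have := norm_le_add_norm_add B ((k : ℂ) * nv φ)
      rw [norm_mul, norm_nv, Complex.norm_real, Real.norm_eq_abs] at this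
      linarith
    exact ⟨_, _, by linarith, by linarith, by rw [hg]; push_cast; linarith, by rw [hs]; norm_num,
      fin 2 1 hB ((sc_phi s1 hB).1.mono k1)⟩
  · have hB : ‖B‖ ≤ 1 := by simpa [k2 d] using hd
    exact ⟨_, _, by linarith, by linarith, by rw [hg]; push_cast; linarith, by rw [hs]; norm_num,
      fin 1 0 hB ((sc_phi s1 hB).1.mono (by simp [k2 d]))⟩

theorem evalI_sound (ht : Tm T t) (hN : 1 ≤ N) (hσ : σ = 1 ∨ σ = -1) (hn : n2 i j ≤ 16 * N * N)
    (h1 : av t p1 ≤ φ) (h2 : φ ≤ av t p2) (hd : ‖jd N t l μ i j φ‖ ≤ 1) :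
    (1 - t / T) * (evalI N T l μ i j σ p1 p2).1 + t / T * (evalI N T l μ i j σ p1 p2).2.1 ≤
      Q * jG N t l μ i j σ φ ∧
    ((evalI N T l μ i j σ p1 p2).2.2 : ℝ) ≤ Q * jS N t l μ i j σ φ := by
  obtain ⟨x1, x2⟩ := evalT_sound (l := l) (μ := μ) (p := p1) ht hN hσ hn
  obtain ⟨y1, y2⟩ := evalT_sound (l := l) (μ := μ) (p := p2) ht hN hσ hn
  obtain ⟨G, S, G0, S0, G1, S1, g, s⟩ := sc_I hσ hd rfl rfl
  simp only [evalI, decide_eq_true_eq]
  generalize (if i = 0 ∧ j = 0 ∧ (l = μ ∨ (l % 4 ≠ 3 ∧ μ % 4 ≠ 3)) then 0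
      else if (l % 4 = 1) ≠ (μ % 4 = 1) then 3241 else 1301 : ℤ) = pg at G1
  generalize (if i = 0 ∧ j = 0 ∧ (l = μ ∨ (l % 4 ≠ 3 ∧ μ % 4 ≠ 3)) then 0
      else if (l % 4 = 1) ≠ (μ % 4 = 1) then 1278 else 639 : ℤ) = pp at S1
  have g' := g.min G0 h1 h2
  have s' := s.min S0 h1 h2
  have l0 := ht.l0
  have l1 := sub_nonneg.2 ht.l1
  have e : av t p2 - av t p1 = Real.pi / 180 * ((1 - t / T) * ((dg 0 p2 : ℝ) - dg 0 p1) +
      t / T * ((dg T p2 : ℝ) - dg T p1)) := by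
    rw [av_itp ht, av_itp ht p1, av_dg0, av_dg0, av_dg ht.hT, av_dg ht.hT]; unfold rad; ring
  rw [e] at g' s'
  push_cast
  generalize evalT N T l μ i j σ p1 = x at x1 x2
  generalize evalT N T l μ i j σ p2 = y at y1 y2
  generalize (dg 0 p2 : ℝ) - dg 0 p1 = a at g' s'
  generalize (dg T p2 : ℝ) - dg T p1 = b at g' s'
  generalize t / T = v at x1 y1 g' s' l0 l1
  have cv : ((1 - v) * a + v * b) ^ 2 ≤ (1 - v) * (a * a) + v * (b * b) := by
    nlinarith [mul_nonneg (mul_nonneg l0 l1) (sq_nonneg (a - b))]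
  have mx : (1 - v) * (a * a) + v * (b * b) ≤ max (a * a) (b * b) := by
    nlinarith [mul_le_mul_of_nonneg_left (le_max_left (a * a) (b * b)) l1,
      mul_le_mul_of_nonneg_left (le_max_right (a * a) (b * b)) l0]
  have w0 := sq_nonneg ((1 - v) * a + v * b)
  have k := pi_sq
  have k1 := mul_le_mul_of_nonneg_left k (mul_nonneg G0 w0)
  have k2 := mul_le_mul_of_nonneg_left k (mul_nonneg S0 w0)
  have k3 := mul_le_mul G1 cv w0 (le_trans (by positivity) G1)
  have k4 := mul_le_mul S1 (cv.trans mx) w0 (le_trans (by positivity) S1)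
  rw [mul_pow] at g' s'
  rw [Q_eq] at *
  constructor
  · rcases min_cases (jG N t l μ i j σ (av t p1)) (jG N t l μ i j σ (av t p2)) with e | e <;>
      rw [e.1] at g'
    · linarith [mul_le_mul_of_nonneg_left (min_le_left (x.1 : ℝ) y.1) l1,
        mul_le_mul_of_nonneg_left (min_le_left (x.2.1 : ℝ) y.2.1) l0]
    · linarith [mul_le_mul_of_nonneg_left (min_le_right (x.1 : ℝ) y.1) l1,
        mul_le_mul_of_nonneg_left (min_le_right (x.2.1 : ℝ) y.2.1) l0]
  · rcases min_cases (jS N t l μ i j σ (av t p1)) (jS N t l μ i j σ (av t p2)) with e | e <;>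
      rw [e.1] at s'
    · linarith [min_le_left (x.2.2 : ℝ) y.2.2]
    · linarith [min_le_right (x.2.2 : ℝ) y.2.2]

theorem evalG_piece {L : List ℕ} {a b : ℕ} (h0 : L.head? = some a) (h1 : L.getLast? = some b)
    (h2 : 2 ≤ L.length) (ha : av t a ≤ φ) (hb : φ ≤ av t b) :
    ∃ p1 p2, av t p1 ≤ φ ∧ φ ≤ av t p2 ∧
      (p1, p2, evalI N T l μ i j σ p1 p2) ∈ evalG N T l μ i j σ L := by
  induction L generalizing a with
  | nil => simp at h2
  | cons x L ih =>
    obtain rfl : x = a := by simpa using h0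
    rcases L with _ | ⟨y, L⟩
    · simp at h2
    rcases le_total φ (av t y) with c | c
    · exact ⟨x, y, ha, c, List.mem_cons_self⟩
    rcases L with _ | ⟨z, L⟩
    · obtain rfl : y = b := by simpa using h1
      exact ⟨x, y, ha, hb, List.mem_cons_self⟩
    · obtain ⟨p1, p2, k1, k2, k3⟩ := ih rfl (by simpa using h1) (by simp) c
      exact ⟨p1, p2, k1, k2, List.mem_cons_of_mem _ k3⟩

theorem min3_le {L : List (ℕ × ℕ × ℤ × ℤ × ℤ)} {x : ℕ × ℕ × ℤ × ℤ × ℤ} (h : x ∈ L) :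
    (min3 L).1 ≤ x.2.2.1 ∧ (min3 L).2.1 ≤ x.2.2.2.1 ∧ (min3 L).2.2 ≤ x.2.2.2.2 := by
  induction L with
  | nil => simp at h
  | cons y L ih =>
    rcases List.mem_cons.1 h with rfl | h
    · exact ⟨min_le_left _ _, min_le_left _ _, min_le_left _ _⟩
    · obtain ⟨a, b, c⟩ := ih h
      exact ⟨(min_le_right _ _).trans a, (min_le_right _ _).trans b, (min_le_right _ _).trans c⟩

end Pool.Agent.Lib.MP_4b56aa_gt.Cert
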