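import Pool.Agent.Lib.MP_4b56aa_gt.Cert.CF2

/-! The data files hold short words; these programs spread them to words of `172` bits. -/

namespace Pool.Agent.Lib.MP_4b56aa_gt.Cert

noncomputable def fcN (x : Nat) (f : Nat → Nat) : Nat :=
  Nat.rec (motive := fun _ => Nat) 0 (fun k _ => f k) (Nat.succ x)

/-- Ones at the distance `172 * 2 ^ k` below the position `172 * 2 ^ (k + d)`. -/
noncomputable def rpN (k d : Nat) : Nat :=
  Nat.div (Nat.pred (Nat.shiftLeft 1 (Nat.shiftLeft 172 (Nat.add k d))))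
    (Nat.pred (Nat.shiftLeft 1 (Nat.shiftLeft 172 k)))
/-- Blocks of `w` ones at the distance `172 * 2 ^ k`. -/
noncomputable def mkN (w k d : Nat) : Nat := Nat.sub (Nat.shiftLeft (rpN k d) w) (rpN k d)

/-- From the distance `s` to the distance `172` for at most `2 ^ L` words. -/
noncomputable def sprN (s L : Nat) : Nat → Nat → Nat :=
  Nat.rec (motive := fun _ => Nat → Nat → Nat) (fun _ x => x) (fun k ih d x =>
    fcN (Nat.shiftLeft s k) fun w => fcN (Nat.succ k) fun k' => fcN (Nat.succ d) fun d' =>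
    fcN (Nat.add (Nat.land x (mkN w k' d))
      (Nat.shiftLeft (Nat.land (Nat.shiftRight x w) (mkN w k' d)) (Nat.shiftLeft 172 k))) (ih d')) L

noncomputable def fldN (L x a w b : Nat) : Nat :=
  Nat.shiftLeft (Nat.land (Nat.shiftRight x a) (mkN w 0 L)) b

noncomputable def kyN (L x : Nat) : Nat :=
  Nat.add (Nat.add (Nat.land x (mkN 14 0 L)) (fldN L x 14 14 15))
    (Nat.add (Nat.add (fldN L x 28 6 47) (fldN L x 34 7 54)) (fldN L x 41 7 62))

/-- A state with two values for each offer. -/
noncomputable def ex2 (c : Nat) : Nat :=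
  fcN c fun c => fcN (Nat.succ (Nat.log2 (Nat.land (Nat.shiftRight c 16) 65535))) fun L =>
  fcN (sprN 104 L 0 (Nat.shiftRight c 32)) fun x => fcN (fldN L x 48 28 79) fun v =>
  Nat.add (Nat.land c 4294967295) (Nat.shiftLeft (Nat.add (Nat.add (kyN L x) (fldN L x 76 28 141))
    (Nat.add v (Nat.shiftLeft v 31))) 32)

/-- A state with three values for each offer. -/
noncomputable def ex3 (c : Nat) : Nat :=
  fcN c fun c => fcN (Nat.succ (Nat.log2 (Nat.land (Nat.shiftRight c 16) 65535))) fun L =>
  fcN (sprN 132 L 0 (Nat.shiftRight c 32)) fun x =>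
  Nat.add (Nat.land c 4294967295) (Nat.shiftLeft (Nat.add (Nat.add (kyN L x) (fldN L x 48 28 79))
    (Nat.add (fldN L x 76 28 110) (fldN L x 104 28 141))) 32)

/-- The state `p` with its first `j` offers followed by all `n` offers of `k`. -/
noncomputable def apK (p k : Nat) : Nat :=
  fcN p fun p => fcN k fun k =>
  Nat.add (Nat.add p (Nat.land k 4294901760)) (Nat.shiftLeft (Nat.shiftRight k 32)
    (Nat.add 32 (Nat.mul 172 (Nat.land (Nat.shiftRight p 16) 65535))))

end Pool.Agent.Lib.MP_4b56aa_gt.Cert
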