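import Pool.Agent.Lib.MP_4b56aa_gt.Cert.CCore

/-! Fast programs on vectors of offers: one word of `172` bits for each offer. -/

namespace Pool.Agent.Lib.MP_4b56aa_gt.Cert

noncomputable def frc (x : Nat) (f : Nat → Bool) : Bool :=
  Nat.rec (motive := fun _ => Bool) true (fun k _ => f k) (Nat.succ x)
noncomputable def frb (x : Bool) (f : Bool → Bool) : Bool :=
  Bool.rec (motive := fun _ => Bool) (f false) (f true) x

/-- A packed state: two flags, the number of offers that come from joins, the number of offers,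
the vector. -/
def nJ (p : Nat) : Nat :=
  (Nat.land (Nat.shiftRight p (nat_lit 2)) (nat_lit 16383))
def nA (p : Nat) : Nat :=
  (Nat.land (Nat.shiftRight p (nat_lit 16)) (nat_lit 65535))
def bd (p : Nat) : Nat :=
  (Nat.shiftRight p (nat_lit 32))
/-- The vector of `n` words `1`. -/
def one (n : Nat) : Nat :=
  (Nat.div (Nat.pred (Nat.shiftLeft (nat_lit 1) (Nat.mul (nat_lit 172) n))) (nat_lit 5986310706507378352962293074805895248510699696029695))
def fm (P n M : Nat) : Nat :=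
  (Nat.land P (Nat.mul M (one n)))
noncomputable def nb (b : Bool) : Nat :=
  (Bool.rec (motive := fun _ => Nat) (nat_lit 1) (nat_lit 0) b)
def mnN (a b : Nat) : Nat :=
  (Nat.sub a (Nat.sub a b))
def mxN (a b : Nat) : Nat :=
  (Nat.add a (Nat.sub b a))
def hh (P n : Nat) : Nat :=
  (Nat.add (Nat.shiftLeft (fm P n (nat_lit 142962266571249025024)) (nat_lit 7)) (Nat.shiftLeft (fm P n (nat_lit 442721857769029238784)) (nat_lit 9)))
/-- The forms of a vector as first part, second part and result of a join. -/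
noncomputable def vL2 (f1 f2 : Bool) (P n : Nat) : Nat :=
  (Nat.sub (Nat.add (fm P n (Nat.add (nat_lit 748288835874278286895184789836313563139635270369279) (Nat.mul (nb f1) (nat_lit 585684124340278263808)))) (Nat.mul (Nat.add (nat_lit 16384) (Nat.mul (nb f2) (nat_lit 37778931862957161709568))) (one n))) (Nat.mul (nb f2) (Nat.shiftLeft (fm P n (nat_lit 8866461766385664)) (nat_lit 22))))
noncomputable def vR0 (f2 : Bool) (P n : Nat) : Nat :=
  (Nat.sub (Nat.add (Nat.add (Nat.add (fm P n (nat_lit 748288835874278286895184789836313563139634733514752)) (Nat.shiftLeft (fm P n (nat_lit 536838144)) (nat_lit 16))) (Nat.mul (nb f2) (hh P n))) (Nat.mul (Nat.add (nat_lit 70369817919488) (Nat.mul (nb f2) (nat_lit 302231454903657293676544))) (one n))) (Nat.shiftLeft (fm P n (nat_lit 16383)) (nat_lit 15)))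
noncomputable def vR1 (nq1 : Nat) (f2 : Bool) (P n : Nat) : Nat :=
  (Nat.sub (Nat.add (Nat.add (fm P n (nat_lit 748288835874278286895184789836311266444562262917120)) (Nat.shiftLeft (Nat.add (fm P n (nat_lit 536838144)) (Nat.mul (nat_lit 1080) (fm P n (nat_lit 65536)))) (nat_lit 16))) (Nat.mul (Nat.add (nat_lit 2314920578286354432) (Nat.mul (nb f2) (Nat.shiftLeft (Nat.add (Nat.mul (nat_lit 128) nq1) (nat_lit 544)) (nat_lit 69)))) (one n))) (Nat.add (Nat.add (Nat.shiftLeft (Nat.add (fm P n (nat_lit 16383)) (Nat.mul (nat_lit 1080) (fm P n (nat_lit 2)))) (nat_lit 15)) (fm P n (nat_lit 2296695072470597632))) (Nat.mul (nb f2) (hh P n))))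
noncomputable def vT2 (f1 f2 : Bool) (P n : Nat) : Nat :=
  (Nat.sub (Nat.mul (Nat.sub (nat_lit 2619010935316550033033554142182559378633937370726400) (Nat.mul (nb f2) (nat_lit 321120920835135874531328))) (one n)) (Nat.add (Nat.add (fm P n (Nat.add (nat_lit 748288835874278286895184789836313563139634733531135) (Nat.mul (nb f1) (nat_lit 585684124340278263808)))) (Nat.shiftLeft (fm P n (nat_lit 536838144)) (nat_lit 16))) (Nat.mul (nb f2) (hh P n))))
noncomputable def vD (f : Bool) (P n : Nat) : Nat :=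
  (fm P n (Nat.add (nat_lit 748288835874278286895184789836313563139635270369279) (Nat.mul (nb f) (nat_lit 585684124340278263808))))
noncomputable def sL (f1 f2 : Bool) (p : Nat) : Nat :=
  (Nat.shiftLeft (vL2 f1 f2 (bd p) (nA p)) (nat_lit 1376))
noncomputable def sR (nq1 : Nat) (f2 r : Bool) (p : Nat) : Nat :=
  (Nat.shiftLeft (Bool.rec (motive := fun _ => Nat) (vR0 f2 (bd p) (nA p)) (vR1 nq1 f2 (bd p) (nA p)) r) (nat_lit 1376))
noncomputable def sT (f1 f2 : Bool) (p : Nat) : Nat :=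
  vT2 f1 f2 (bd p) (nJ p)
noncomputable def sD (f : Bool) (p : Nat) : Nat :=
  (Nat.shiftLeft (Nat.add (vD f (bd p) (nA p)) (Nat.mul (nat_lit 16384) (one (nA p)))) (nat_lit 1376))
def mW (k : Nat) : Nat :=
  (Nat.shiftLeft (nat_lit 5986310706507378352962293074805895248510699696029695) (Nat.mul (nat_lit 172) k))
def msk (n : Nat) : Nat :=
  Nat.pred (Nat.shiftLeft (nat_lit 1) n)
/-- Eight words picked from each of two vectors and added. -/
def blk (P1 P2 b b2 m m2 s : Nat) : Nat :=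
  (Nat.add (Nat.add (Nat.add (Nat.add (Nat.land (Nat.shiftRight P1 (Nat.mul (nat_lit 172) (Nat.shiftRight (Nat.land (Nat.shiftRight s (Nat.mul (nat_lit 0) b)) m) b2))) (mW (nat_lit 0))) (Nat.land (Nat.shiftRight P2 (Nat.mul (nat_lit 172) (Nat.land (Nat.land (Nat.shiftRight s (Nat.mul (nat_lit 0) b)) m) m2))) (mW (nat_lit 0)))) (Nat.add (Nat.land (Nat.shiftRight P1 (Nat.mul (nat_lit 172) (Nat.shiftRight (Nat.land (Nat.shiftRight s (Nat.mul (nat_lit 1) b)) m) b2))) (mW (nat_lit 1))) (Nat.land (Nat.shiftRight P2 (Nat.mul (nat_lit 172) (Nat.land (Nat.land (Nat.shiftRight s (Nat.mul (nat_lit 1) b)) m) m2))) (mW (nat_lit 1))))) (Nat.add (Nat.add (Nat.land (Nat.shiftRight P1 (Nat.mul (nat_lit 172) (Nat.shiftRight (Nat.land (Nat.shiftRight s (Nat.mul (nat_lit 2) b)) m) b2))) (mW (nat_lit 2))) (Nat.land (Nat.shiftRight P2 (Nat.mul (nat_lit 172) (Nat.land (Nat.land (Nat.shiftRight s (Nat.mul (nat_lit 2) b)) m) m2))) (mW (nat_lit 2)))) (Nat.add (Nat.land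 (Nat.shiftRight P1 (Nat.mul (nat_lit 172) (Nat.shiftRight (Nat.land (Nat.shiftRight s (Nat.mul (nat_lit 3) b)) m) b2))) (mW (nat_lit 3))) (Nat.land (Nat.shiftRight P2 (Nat.mul (nat_lit 172) (Nat.land (Nat.land (Nat.shiftRight s (Nat.mul (nat_lit 3) b)) m) m2))) (mW (nat_lit 3)))))) (Nat.add (Nat.add (Nat.add (Nat.land (Nat.shiftRight P1 (Nat.mul (nat_lit 172) (Nat.shiftRight (Nat.land (Nat.shiftRight s (Nat.mul (nat_lit 4) b)) m) b2))) (mW (nat_lit 4))) (Nat.land (Nat.shiftRight P2 (Nat.mul (nat_lit 172) (Nat.land (Nat.land (Nat.shiftRight s (Nat.mul (nat_lit 4) b)) m) m2))) (mW (nat_lit 4)))) (Nat.add (Nat.land (Nat.shiftRight P1 (Nat.mul (nat_lit 172) (Nat.shiftRight (Nat.land (Nat.shiftRight s (Nat.mul (nat_lit 5) b)) m) b2))) (mW (nat_lit 5))) (Nat.land (Nat.shiftRight P2 (Nat.mul (nat_lit 172) (Nat.land (Nat.land (Nat.shiftRight s (Nat.mul (nat_lit 5) b)) m) m2))) (mW (nat_lit 5))))) (Nat.add (Nat.add (Nat.land (Nat.shiftRight P1 (Nat.mul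 (nat_lit 172) (Nat.shiftRight (Nat.land (Nat.shiftRight s (Nat.mul (nat_lit 6) b)) m) b2))) (mW (nat_lit 6))) (Nat.land (Nat.shiftRight P2 (Nat.mul (nat_lit 172) (Nat.land (Nat.land (Nat.shiftRight s (Nat.mul (nat_lit 6) b)) m) m2))) (mW (nat_lit 6)))) (Nat.add (Nat.land (Nat.shiftRight P1 (Nat.mul (nat_lit 172) (Nat.shiftRight (Nat.land (Nat.shiftRight s (Nat.mul (nat_lit 7) b)) m) b2))) (mW (nat_lit 7))) (Nat.land (Nat.shiftRight P2 (Nat.mul (nat_lit 172) (Nat.land (Nat.land (Nat.shiftRight s (Nat.mul (nat_lit 7) b)) m) m2))) (mW (nat_lit 7)))))))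
def blk1 (P1 b m s : Nat) : Nat :=
  (Nat.add (Nat.add (Nat.add (Nat.land (Nat.shiftRight P1 (Nat.mul (nat_lit 172) (Nat.land (Nat.shiftRight s (Nat.mul (nat_lit 0) b)) m))) (mW (nat_lit 0))) (Nat.land (Nat.shiftRight P1 (Nat.mul (nat_lit 172) (Nat.land (Nat.shiftRight s (Nat.mul (nat_lit 1) b)) m))) (mW (nat_lit 1)))) (Nat.add (Nat.land (Nat.shiftRight P1 (Nat.mul (nat_lit 172) (Nat.land (Nat.shiftRight s (Nat.mul (nat_lit 2) b)) m))) (mW (nat_lit 2))) (Nat.land (Nat.shiftRight P1 (Nat.mul (nat_lit 172) (Nat.land (Nat.shiftRight s (Nat.mul (nat_lit 3) b)) m))) (mW (nat_lit 3))))) (Nat.add (Nat.add (Nat.land (Nat.shiftRight P1 (Nat.mul (nat_lit 172) (Nat.land (Nat.shiftRight s (Nat.mul (nat_lit 4) b)) m))) (mW (nat_lit 4))) (Nat.land (Nat.shiftRight P1 (Nat.mul (nat_lit 172) (Nat.land (Nat.shiftRight s (Nat.mul (nat_lit 5) b)) m))) (mW (nat_lit 5)))) (Nat.add (Nat.land (Nat.shiftRight P1 (Nat.mul (nat_lit 172) (Nat.land (Nat.shiftRight s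 (Nat.mul (nat_lit 6) b)) m))) (mW (nat_lit 6))) (Nat.land (Nat.shiftRight P1 (Nat.mul (nat_lit 172) (Nat.land (Nat.shiftRight s (Nat.mul (nat_lit 7) b)) m))) (mW (nat_lit 7))))))
noncomputable def gat (P1 P2 b b2 m m2 s n : Nat) : Nat :=
  Nat.rec (motive := fun _ => Nat) (nat_lit 0) (fun g ih => (Nat.add (Nat.shiftLeft (blk P1 P2 b b2 m m2 (Nat.land (Nat.shiftRight s (Nat.mul (Nat.mul (nat_lit 8) b) g)) (msk (Nat.mul (nat_lit 8) b)))) (Nat.mul (nat_lit 1376) g)) ih)) n
noncomputable def gat1 (P1 b m s n : Nat) : Nat :=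
  Nat.rec (motive := fun _ => Nat) (nat_lit 0) (fun g ih => (Nat.add (Nat.shiftLeft (blk1 P1 b m (Nat.land (Nat.shiftRight s (Nat.mul (Nat.mul (nat_lit 8) b) g)) (msk (Nat.mul (nat_lit 8) b)))) (Nat.mul (nat_lit 1376) g)) ih)) n
def mkV (n : Nat) : Nat :=
  (Nat.mul (nat_lit 2993155354647485752038347591670246379669499070644223) (one n))
def ggV (n : Nat) : Nat :=
  (Nat.mul (nat_lit 2993155354647485752038347591065783469862184483291136) (one n))
def tsV (Z n : Nat) : Bool :=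
  (Nat.beq (Nat.land Z (mkV n)) (ggV n))
def nB (n : Nat) : Nat :=
  (Nat.shiftRight (Nat.add n (nat_lit 7)) (nat_lit 3))
/-- The first `n` words of `P` follow from words of `p`. -/
noncomputable def domV (f : Bool) (p P n b s : Nat) : Bool :=
  tsV (Nat.add (gat1 (sD f p) b (msk b) s (nB n)) (Nat.sub (Nat.mul (nat_lit 2993155354647485752038347591065783469862184483274752) (one n)) (vD f P n))) n
/-- One join: the stream starts with the index of the target (eight bits); `k` gets the rest. -/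
noncomputable def jn2 (f1 f2 : Bool) (P1 P2 : Nat) (LT : List Nat) (fl : Nat → Bool) (b b2 m m2 s : Nat)
    (k : Nat → Bool) : Bool :=
  frc (Nat.land s (nat_lit 255)) fun u => (Bool.rec (motive := fun _ => Bool) false (Bool.rec (motive := fun _ => Bool) false (Bool.rec (motive := fun _ => Bool) false (k (Nat.shiftRight s (Nat.add (Nat.mul (Nat.mul (nat_lit 8) b) (nB (nJ (nth 0 LT u)))) (nat_lit 8)))) (tsV (Nat.add (gat P1 P2 b b2 m m2 (Nat.land (Nat.shiftRight s (nat_lit 8)) (msk (Nat.mul (Nat.mul (nat_lit 8) b) (nB (nJ (nth 0 LT u)))))) (nB (nJ (nth 0 LT u)))) (sT f1 f2 (nth 0 LT u))) (nJ (nth 0 LT u)))) (fl (nth 0 LT u))) (Nat.blt u LT.length))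

noncomputable def row2 (nq1 : Nat) (f1 f2 r : Bool) (p1 : Nat) (L2 LT : List Nat) (c1 c2 b b2 m m2 : Nat) :
    Nat → Bool :=
  List.rec (motive := fun _ => Nat → Bool) (fun _ => true)
    (fun p2 _ ih s => jn2 f1 f2 (sL f1 f2 p1) (sR nq1 f2 r p2) LT (flagOK c1 c2 p1 p2) b b2 m m2 s ih) L2

/-- The joins of the large region `(a, a + l)` at the cell `a + j`, classes `c1` and `c2`. -/
noncomputable def chkM2 (τ : Tab) (DM : Nat → List Nat) (a l j c1 c2 b b2 : Nat) (W : List Nat) : Bool :=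
  frc (a + j) fun y => frc (a + l) fun z =>
  orb (!(τ.has a z 1 && τ.has a y c1 && τ.has y z c2 && τ.feas a z c1 c2))
    (frc (y % (τ.m + 1)) fun x => frc (idx τ.m x (l - j) c2) fun i2 => frc (idx τ.m a j c1) fun i1 =>
      frc (idx τ.m a l 1) fun i0 => frc (msk b) fun m => frc (msk b2) fun m2 =>
      frc (τ.nq - 1) fun nq1 => frb (τ.free a y) fun f1 => frb (τ.free x (x + (l - j))) fun f2 =>
      frb (Nat.blt τ.m y) fun r =>
      all2 (fun p1 s => row2 nq1 f1 f2 r p1 (DM i2) (DM i0) c1 c2 b b2 m m2 s) (DM i1) W)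

/-- The joins of the small region `(a, a + l)`. -/
noncomputable def chkS2 (τ : Tab) (DK : Nat → Nat) (DM : Nat → List Nat) (a l b b2 : Nat) (W : List Nat) :
    Bool :=
  orb (!τ.has a (a + l) 0) <|
  frc (msk b) fun m => frc (msk b2) fun m2 => frc (idx τ.m a l 0) fun i0 =>
  frc (τ.nq - 1) fun nq1 => allN (l + 1) fun j => frc ((a + j) % (τ.m + 1)) fun x =>
    frc (idx τ.m a j 0) fun i1 => frc (idx τ.m x (l - j) 0) fun i2 =>
    frb (τ.free a (a + j)) fun f1 => frb (τ.free x (x + (l - j))) fun f2 =>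
    frb (Nat.blt τ.m (a + j)) fun r =>
    jn2 f1 f2 (sL f1 f2 (DK i1)) (sR nq1 f2 r (DK i2)) (DM i0) (fun _ => true) b b2 m m2 (nth 0 W j)
      fun _ => true

/-! ### Distances -/

def C360 : Nat := 0x1fff60501ffd81401ffa62f01ff605c01ff069e01fe98fd01fe178101fd823501fcd92501fc1c5c01fb4beb01fa67e201f9705101f8654d01f746ea01f6153f01f4d06301f3787101f20d8101f08fb201eeff2001ed5bec01eba63501e9de1d01e803ca01e6175e01e4190101e208da01dfe71401ddb3d701db6f5101d919ae01d6b31d01d43bce01d1b3f301cf1bbd01cc736001c9bb1301c6f30a01c41b7d01c134a601be3ebd01bb39ff01b826a701b504f301b1d52201ae977201ab4c2501a7f37c01a48dbb01a11b24019d9bfe019a108d019679180192d5e8018f2744018b6d770187a8ca0183d98901800000017c1c7c01782f4a017438b901703917016c30b601681fe5016406f5015fe638015bbe0001578ea20153586f014f1bbd014ad8df0146902b014241f7013dee9801399664013539b30130d8dc012c743501280c170123a0d9011f32d4011ac26101164fd70111db8f010d65e40108ef2c010477c30100000000fb883d00f710d400f29a1c00ee2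47100e9b02900e53d9f00e0cd2c00dc5f2700d7f3e900d38bcb00cf272400cac64d00c6699c00c2116800bdbe0900b96fd500b5272100b0e44300aca79100a8715e00a4420000a019c8009bf90b0097e01b0093cf4a008fc6e9008bc7470087d0b60083e38400800000007c267700785736007492890070d8bc006d2a18006986e80065ef7300626402005ee4dc005b724500580c840054b3db0051688e004e2ade004afb0d0047d9590044c6010041c143003ecb5a003be48300390cf6003644ed00338ca00030e443002e4c0d002bc43200294ce30026e652002490af00224c29002018ec001df726001be6ff0019e8a20017fc36001621e3001459cb0012a414001100e0000f704e000df27f000c878f000b2f9d0009eac10008b91600079ab300068faf0005981e0004b4150003e3a4000326db00027dcb0001e87f000167030000f96200009fa4000059d1000027ec000009fb00000000000009fb000027ec000059d100009fa40000f962000167030001e87f00027dcb000326db0003e3a40004b4150005981e00068faf00079ab30008b9160009eac1000b2f9d000c878f000df27f000f704e001100e00012a414001459cb001621e30017fc360019e8a2001be6ff001df726002018ec00224c29002490af0026e65200294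ce3002bc432002e4c0d0030e44300338ca0003644ed00390cf6003be483003ecb5a0041c1430044c6010047d959004afb0d004e2ade0051688e0054b3db00580c84005b7245005ee4dc006264020065ef73006986e8006d2a180070d8bc0074928900785736007c2677008000000083e3840087d0b6008bc747008fc6e90093cf4a0097e01b009bf90b00a019c800a4420000a8715e00aca79100b0e44300b5272100b96fd500bdbe0900c2116800c6699c00cac64d00cf272400d38bcb00d7f3e900dc5f2700e0cd2c00e53d9f00e9b02900ee247100f29a1c00f710d400fb883d01000000010477c30108ef2c010d65e40111db8f01164fd7011ac261011f32d40123a0d901280c17012c74350130d8dc013539b301399664013dee98014241f70146902b014ad8df014f1bbd0153586f01578ea2015bbe00015fe638016406f501681fe5016c30b601703917017438b901782f4a017c1c7c018000000183d9890187a8ca018b6d77018f27440192d5e801967918019a108d019d9bfe01a11b2401a48dbb01a7f37c01ab4c2501ae977201b1d52201b504f301b826a701bb39ff01be3ebd01c134a601c41b7d01c6f30a01c9bb1301cc736001cf1bbd01d1b3f301d43bce01d6b31d01d919ae01db6f5101ddb3d701dfe71401e208da01e4190101e6175e01e803ca01e9de1d01eba63501ed5bec01eeff2001f08fb201f20d8101f3787101f4d06301f6153f01f746ea01f8654d01f9705101fa67e201fb4beb01fc1c5c01fcd92501fd823501fe178101fe98fd01ff069e01ff605c01ffa62f01ffd81401fff60502000000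
def cN (d : Nat) : Nat :=
  (Nat.land (Nat.shiftRight C360 (Nat.mul (nat_lit 32) (Nat.mod d (nat_lit 360)))) (nat_lit 4294967295))
def sN (d : Nat) : Nat :=
  (cN (Nat.add d (nat_lit 270)))
def ad (a b : Nat) : Nat :=
  (Nat.add (Nat.sub a b) (Nat.sub b a))
def n2N (i j : Nat) : Nat :=
  (Nat.add (Nat.mul (nat_lit 3) (Nat.mul (ad i (nat_lit 64)) (ad i (nat_lit 64)))) (Nat.mul (ad j (nat_lit 128)) (ad j (nat_lit 128))))
def dgN (T a : Nat) : Nat :=
  (Nat.add (Nat.add (Nat.div a (nat_lit 3)) (Nat.mul T (Nat.mod a (nat_lit 3)))) (Nat.sub (nat_lit 270) T))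
def aleN (T a b d : Nat) : Nat :=
  (Nat.add (Nat.sub (dgN (nat_lit 0) a) (Nat.add (dgN (nat_lit 0) b) d)) (Nat.sub (dgN T a) (Nat.add (dgN T b) d)))
/-- A value set is coded by a flag (the origin) and the two ends of an arc. -/
def ptB (s : Nat) : Bool :=
  (Nat.beq (Nat.land s (nat_lit 1)) (nat_lit 1))
def aF (s : Nat) : Nat :=
  (Nat.land (Nat.shiftRight s (nat_lit 1)) (nat_lit 4095))
def aG (s : Nat) : Nat :=
  (Nat.shiftRight s (nat_lit 13))
noncomputable def vsN (lo hi l : Nat) : Nat :=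
  (Bool.rec (motive := fun _ => Nat) (Bool.rec (motive := fun _ => Nat) (nat_lit 1) (Nat.mul (Nat.shiftRight l (nat_lit 2)) (nat_lit 8194)) (Nat.beq (Nat.land l (nat_lit 3)) (nat_lit 3))) (Nat.add (Nat.mul (nat_lit 2) lo) (Nat.mul (nat_lit 8192) hi)) (Nat.beq (Nat.land l (nat_lit 3)) (nat_lit 1)))
def aLo (T s : Nat) : Nat :=
  (mnN (dgN (nat_lit 0) (aF s)) (dgN T (aF s)))
def aHi (T s : Nat) : Nat :=
  (mxN (dgN (nat_lit 0) (aG s)) (dgN T (aG s)))
def aBad (T s : Nat) : Nat :=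
  (Nat.sub (aHi T s) (Nat.add (aLo T s) (nat_lit 90)))
def cU (d : Nat) : Nat :=
  (Nat.add (Nat.mul (nat_lit 16) (cN d)) (nat_lit 3987986176))
def cV (d : Nat) : Nat :=
  (Nat.add (Nat.mul (nat_lit 16) (sN d)) (nat_lit 4563402752))
def cD (d : Nat) : Nat :=
  (Nat.add (Nat.add (Nat.mul (nat_lit 34051373056) (cN d)) (Nat.mul (nat_lit 38654705664) (sN d))) (nat_lit 9146141236709834752))
def cX (s : Nat) : Nat :=
  (Nat.add (Nat.mul (nat_lit 8) (cN (dgN (nat_lit 0) (aF s)))) (nat_lit 134217728))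
def cY (s : Nat) : Nat :=
  (Nat.add (Nat.mul (nat_lit 8) (sN (dgN (nat_lit 0) (aF s)))) (nat_lit 134217728))
def xyN (T X Y s : Nat) : Nat :=
  (Nat.add (Nat.add (Nat.sub (Nat.add (Nat.add (Nat.mul X X) (Nat.mul Y Y)) (cD (aLo T s))) (Nat.add (Nat.mul X (cU (aLo T s))) (Nat.mul Y (cV (aLo T s))))) (Nat.sub (Nat.add (Nat.add (Nat.mul X X) (Nat.mul Y Y)) (cD (aHi T s))) (Nat.add (Nat.mul X (cU (aHi T s))) (Nat.mul Y (cV (aHi T s)))))) (aBad T s))
def uA (i j : Nat) : Nat := if n2N i j = 64 then unitA 4 ((i : Int) - 64) ((j : Int) - 128) else 0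
def plB (i j : Nat) : Bool := n2N i j != 0 && Nat.ble (n2N i j) 256 && uA i j == 0
def clN (i j : Nat) : Nat := if n2N i j = 0 then 0 else uA i j + 1
def ouN (T u s : Nat) : Nat :=
  (Nat.add (aleN T (aG s) u (nat_lit 60)) (aleN T u (aF s) (nat_lit 60)))
def okuN (T u s : Nat) : Nat :=
  (Nat.add (Nat.sub (nat_lit 1) u) (Nat.mul (Nat.mul (ouN T u s) (ouN T (Nat.add u (nat_lit 1080)) s)) (Nat.add (Nat.sub (nat_lit 1080) u) (ouN T (Nat.sub u (nat_lit 1080)) s))))
def fxB (s : Nat) : Bool :=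
  (Nat.beq (Nat.add (Nat.xor (aF s) (aG s)) (Nat.xor (Nat.mod (aF s) (nat_lit 3)) (nat_lit 1))) (nat_lit 0))
noncomputable def ok0N (T : Nat) (S : Bool) (x y : Nat) : Nat :=
  (Bool.rec (motive := fun _ => Nat) (Nat.add (aleN T (aG y) (aF x) (nat_lit 60)) (aleN T (aG x) (aF y) (nat_lit 60))) (nat_lit 0) S)
noncomputable def paN (T i j s : Nat) : Nat :=
  (Bool.rec (motive := fun _ => Nat) (Nat.rec (motive := fun _ => Nat) (nat_lit 0) (fun u _ => okuN T u s) (clN i j)) (xyN T (Nat.add (Nat.mul i (nat_lit 29058990)) (nat_lit 268435456)) (Nat.add (Nat.mul j (nat_lit 16777216)) (nat_lit 268435456)) s) (plB i j))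
/-- Zero if the distance test holds. -/
noncomputable def prN (T x y i j : Nat) (S : Bool) : Nat :=
  (Bool.rec (motive := fun _ => Nat) (Bool.rec (motive := fun _ => Nat) (Bool.rec (motive := fun _ => Nat) (Nat.add (Nat.sub (n2N i j) (nat_lit 576)) (Bool.rec (motive := fun _ => Nat) (Bool.rec (motive := fun _ => Nat) (nat_lit 1) (xyN T (Nat.add (Nat.mul i (nat_lit 29058990)) (cX y)) (Nat.add (Nat.mul j (nat_lit 16777216)) (cY y)) x) (fxB y)) (xyN T (Nat.add (Nat.mul (Nat.sub (nat_lit 128) i) (nat_lit 29058990)) (cX x)) (Nat.add (Nat.mul (Nat.sub (nat_lit 256) j) (nat_lit 16777216)) (cY x)) y) (fxB x))) (ok0N T S x y) (Nat.beq (n2N i j) (nat_lit 0))) (paN T i j x) (ptB y)) (Bool.rec (motive := fun _ => Nat) (paN T (Nat.sub (nat_lit 128) i) (Nat.sub (nat_lit 256) j) y) (Nat.sub (n2N i j) (nat_lit 64)) (ptB y)) (ptB x))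
noncomputable def vaN (T la ha lb hb : Nat) (S : Bool) (k : Nat) : Nat :=
  (Nat.rec (motive := fun _ => Nat) (nat_lit 1) (fun ka _ => (Nat.rec (motive := fun _ => Nat) (nat_lit 1) (fun kb _ => (Nat.rec (motive := fun _ => Nat) (nat_lit 1) (fun d _ => prN T (vsN la ha ka) (vsN lb hb kb) (Nat.add (Nat.land d (nat_lit 63)) (nat_lit 32)) (Nat.add (Nat.land (Nat.shiftRight d (nat_lit 7)) (nat_lit 127)) (nat_lit 64)) (andb S (andb (Nat.beq (Nat.land ka (nat_lit 3)) (nat_lit 1)) (Nat.beq (Nat.land kb (nat_lit 3)) (nat_lit 1))))) (Nat.succ (Nat.shiftRight k (nat_lit 47))))) (Nat.succ (Nat.land (Nat.shiftRight k (nat_lit 15)) (nat_lit 16383))))) (Nat.succ (Nat.land k (nat_lit 16383))))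
noncomputable def qOK (nq : Nat) (f : Bool) (P n : Nat) : Bool :=
  orb f (Nat.beq (Nat.land (Nat.add (fm P n (nat_lit 442721857769029238784)) (Nat.mul (Nat.shiftLeft (Nat.sub (nat_lit 4) nq) (nat_lit 67)) (one n))) (Nat.mul (nat_lit 590295810358705651712) (one n))) (nat_lit 0))
noncomputable def vb8 (F : Nat → Nat) (P : Nat) : Nat :=
  (Nat.add (Nat.add (Nat.add (Nat.rec (motive := fun _ => Nat) (nat_lit 0) (fun k _ => F k) (Nat.land (Nat.shiftRight P (nat_lit 0)) (nat_lit 4611686018427387903))) (Nat.rec (motive := fun _ => Nat) (nat_lit 0) (fun k _ => F k) (Nat.land (Nat.shiftRight P (nat_lit 172)) (nat_lit 4611686018427387903)))) (Nat.add (Nat.rec (motive := fun _ => Nat) (nat_lit 0) (fun k _ => F k) (Nat.land (Nat.shiftRight P (nat_lit 344)) (nat_lit 4611686018427387903))) (Nat.rec (motive := fun _ => Nat) (nat_lit 0) (fun k _ => F k) (Nat.land (Nat.shiftRight P (nat_lit 516)) (nat_lit 4611686018427387903))))) (Nat.add (Nat.add (Nat.rec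 (motive := fun _ => Nat) (nat_lit 0) (fun k _ => F k) (Nat.land (Nat.shiftRight P (nat_lit 688)) (nat_lit 4611686018427387903))) (Nat.rec (motive := fun _ => Nat) (nat_lit 0) (fun k _ => F k) (Nat.land (Nat.shiftRight P (nat_lit 860)) (nat_lit 4611686018427387903)))) (Nat.add (Nat.rec (motive := fun _ => Nat) (nat_lit 0) (fun k _ => F k) (Nat.land (Nat.shiftRight P (nat_lit 1032)) (nat_lit 4611686018427387903))) (Nat.rec (motive := fun _ => Nat) (nat_lit 0) (fun k _ => F k) (Nat.land (Nat.shiftRight P (nat_lit 1204)) (nat_lit 4611686018427387903))))))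
noncomputable def vaV (F : Nat → Nat) (P n : Nat) : Nat :=
  Nat.rec (motive := fun _ => Nat) (nat_lit 0) (fun g ih => (Nat.add (vb8 F (Nat.land (Nat.shiftRight (Nat.add (fm P n (nat_lit 2296695073007452159)) (one n)) (Nat.mul (nat_lit 1376) g)) (msk (nat_lit 1376)))) ih)) (nB n)

/-- Each state: the offers from joins are valid, the others follow from clique offers. -/
noncomputable def chkV2 (F : Nat → Nat) (nq c : Nat) (f : Bool) (pK : Nat) (L W : List Nat) : Bool :=
  all2 (fun p s =>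
    andb (Nat.beq (vaV F (bd p) (nJ p)) 0) <| andb (qOK nq f (bd p) (nJ p))
      (domV f pK (Nat.shiftRight (bd p) (Nat.mul 172 (nJ p))) (Nat.sub (nA p) (nJ p)) c s)) L W

/-! ### End jumps -/

noncomputable def dA (T l u : Nat) : Nat :=
  dgN T (Bool.rec (motive := fun _ => Nat) (Nat.shiftRight l (nat_lit 2)) u (Nat.ble (Nat.land l (nat_lit 3)) (nat_lit 1)))
noncomputable def eA (T l u : Nat) : Nat :=
  (Nat.mul (Nat.land l (nat_lit 1)) (Nat.succ (dA T l u)))
noncomputable def cP (T l u : Nat) : Nat :=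
  (Nat.sub (Nat.add (nat_lit 268435456) (Nat.mul (Nat.land l (nat_lit 1)) (Nat.mul (nat_lit 8) (cN (dA T l u))))) (Nat.mul (Nat.land l (nat_lit 1)) (nat_lit 134217728)))
noncomputable def cM (T l u : Nat) : Nat :=
  (Nat.sub (Nat.add (nat_lit 268435456) (Nat.mul (Nat.land l (nat_lit 1)) (nat_lit 134217728))) (Nat.mul (Nat.land l (nat_lit 1)) (Nat.mul (nat_lit 8) (cN (dA T l u)))))
noncomputable def sP (T l u : Nat) : Nat :=
  (Nat.sub (Nat.add (nat_lit 268435456) (Nat.mul (Nat.land l (nat_lit 1)) (Nat.mul (nat_lit 8) (sN (dA T l u))))) (Nat.mul (Nat.land l (nat_lit 1)) (nat_lit 134217728)))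
noncomputable def sM (T l u : Nat) : Nat :=
  (Nat.sub (Nat.add (nat_lit 268435456) (Nat.mul (Nat.land l (nat_lit 1)) (nat_lit 134217728))) (Nat.mul (Nat.land l (nat_lit 1)) (Nat.mul (nat_lit 8) (sN (dA T l u)))))
noncomputable def xO (T l μ i u : Nat) : Nat :=
  (Nat.add (Nat.add (Nat.mul i (nat_lit 29058990)) (cP T l u)) (cM T μ u))
noncomputable def yO (T l μ j u : Nat) : Nat :=
  (Nat.add (Nat.add (Nat.mul j (nat_lit 16777216)) (sP T l u)) (sM T μ u))
noncomputable def dO (T l μ i j u : Nat) : Nat :=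
  (Nat.shiftLeft (Nat.add (xO T l μ i u) (yO T l μ j u)) (nat_lit 25))
def nwN (S U : Nat) : Nat :=
  Nat.succ (Nat.shiftRight (Nat.add U (Nat.div S U)) (nat_lit 1))
def hyq (S U : Nat) : Nat :=
  nwN S (nwN S (nwN S (nwN S U)))
def hyN (x y : Nat) : Nat :=
  hyq (Nat.add (Nat.mul x x) (Nat.mul y y)) (Nat.succ (Nat.add x y))
noncomputable def hO (T l μ i j u : Nat) : Nat :=
  (Nat.add (Nat.shiftRight (hyN (ad (xO T l μ i u) (nat_lit 2396646272)) (ad (yO T l μ j u) (nat_lit 2684354560))) (nat_lit 3)) (nat_lit 8263036488))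
noncomputable def kO (T p q u : Nat) : Nat :=
  (Nat.sub (Nat.add (dA T p u) (nat_lit 2048)) (dA T q u))
noncomputable def gO (T p q u : Nat) : Nat :=
  (Nat.shiftRight (Nat.sub (Nat.add (Nat.mul (nat_lit 310422678) (kO T p q u)) (nat_lit 3762300866560)) (ad (kO T p q u) (nat_lit 2048))) (nat_lit 10))
noncomputable def sO (T p q u : Nat) : Nat :=
  (Nat.shiftRight (Nat.sub (Nat.add (Nat.mul (nat_lit 299845282) (kO T p q u)) (nat_lit 3783963373568)) (ad (kO T p q u) (nat_lit 2048))) (nat_lit 10))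
noncomputable def aO (σ : Bool) (T u : Nat) : Nat :=
  (Bool.rec (motive := fun _ => Nat) (Nat.sub (nat_lit 50331648) (sN (dgN T u))) (Nat.add (nat_lit 16777216) (sN (dgN T u))) σ)
noncomputable def bO (σ : Bool) (T u : Nat) : Nat :=
  (Bool.rec (motive := fun _ => Nat) (Nat.add (nat_lit 16777216) (cN (dgN T u))) (Nat.sub (nat_lit 50331648) (cN (dgN T u))) σ)
noncomputable def cO (σ : Bool) (T u : Nat) : Nat :=
  (Nat.sub (nat_lit 458720464471064576) (Nat.add (Nat.mul (nat_lit 2396646272) (aO σ T u)) (Nat.mul (nat_lit 2684354560) (bO σ T u))))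
noncomputable def wO (σ : Bool) (T l μ i j x u : Nat) : Nat :=
  (Nat.shiftRight (Nat.sub (Nat.add (Nat.add (Nat.mul (xO T l μ i x) (aO σ T u)) (Nat.mul (yO T l μ j x) (bO σ T u))) (cO σ T u)) (dO T l μ i j x)) (nat_lit 27))
/-- Value and slope at the angle `u`; `x` and `y` are `u` or `0`. -/
noncomputable def vG (σ : Bool) (l μ p q i j T x y u : Nat) : Nat :=
  (Nat.sub (Nat.add (gO T p q y) (Nat.shiftRight (Nat.mul (nat_lit 34146268) (wO σ T l μ i j x u)) (nat_lit 24))) (hO T l μ i j x))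
noncomputable def sG (σ : Bool) (l μ p q i j T x y u : Nat) : Nat :=
  (Nat.sub (Nat.add (sO T p q y) (wO σ T l μ i j x u)) (nat_lit 6039797760))
noncomputable def t2B (T l μ u : Nat) : Bool :=
  (Nat.beq (Nat.add (Nat.mul (eA T l u) (eA T μ u)) (Nat.xor (Nat.add (eA T l u) (eA T μ u)) (Nat.succ (dgN T u)))) (nat_lit 0))
def b3B (σ : Bool) (d h i j : Nat) : Bool :=
  decide (d % 180 = 0 ∧ (i : Int) - 64 = (1 - 2 * h) * (if d % 360 = 0 then 1 else -1) * 4 ∧
    (j : Int) - 128 = -(if σ then 1 else -1) * (if d % 360 = 0 then 1 else -1) * 4)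
noncomputable def vZ (σ : Bool) (l μ p q i j T u : Nat) : Nat :=
  (Bool.rec (motive := fun _ => Nat) (Bool.rec (motive := fun _ => Nat) (vG σ l μ p q i j T u u u) (Nat.sub (gO T p q u) (nat_lit 3909091328)) (t2B T l μ u)) (Nat.sub (gO T p q u) (nat_lit 3892314112)) (Nat.beq (eA T l u) (eA T μ u)))
noncomputable def sZ (σ : Bool) (l μ p q i j T u : Nat) : Nat :=
  (Bool.rec (motive := fun _ => Nat) (Bool.rec (motive := fun _ => Nat) (sG σ l μ p q i j T u u u) (Nat.sub (sO T p q u) (nat_lit 3892314112)) (t2B T l μ u)) (Nat.sub (sO T p q u) (nat_lit 3892314112)) (Nat.beq (eA T l u) (eA T μ u)))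
noncomputable def t3B (σ : Bool) (T l μ i j u : Nat) : Bool :=
  (Bool.rec (motive := fun _ => Bool) false (b3B σ (dgN T u) (Nat.land l (nat_lit 1)) i j) (t2B T l μ u))
noncomputable def vU (σ : Bool) (l μ p q i j T u : Nat) : Nat :=
  (Bool.rec (motive := fun _ => Nat) (vG σ l μ p q i j T u u u) (Nat.sub (gO T p q u) (nat_lit 3883925504)) (t3B σ T l μ i j u))
noncomputable def sU (σ : Bool) (l μ p q i j T u : Nat) : Nat :=
  (Bool.rec (motive := fun _ => Nat) (sG σ l μ p q i j T u u u) (Nat.sub (sO T p q u) (nat_lit 3883925504)) (t3B σ T l μ i j u))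
noncomputable def h1N (T : Nat) (G : List Nat) (k : Nat) : Nat :=
  if k + 1 < G.length then ad (dg T (nth 0 G (k + 1))) (dg T (nth 0 G k)) ^ 2 else 0
noncomputable def hN (T : Nat) (G : List Nat) (k : Nat) : Nat := max (h1N T G k) (h1N T G (k - 1))
/-- The type `t` of an end: `l % 12`, `μ % 12`, `l = μ`, zero shift, unit shift. -/
noncomputable def tyN (l μ i j : Nat) : Nat :=
  (Nat.add (Nat.add (Nat.mod l (nat_lit 12)) (Nat.mul (nat_lit 12) (Nat.mod μ (nat_lit 12)))) (Nat.add (Bool.rec (motive := fun _ => Nat) (nat_lit 0) (nat_lit 144) (Nat.beq l μ)) (Nat.add (Bool.rec (motive := fun _ => Nat) (nat_lit 0) (nat_lit 288) (Nat.beq (n2N i j) (nat_lit 0))) (Bool.rec (motive := fun _ => Nat) (nat_lit 0) (nat_lit 576) (Nat.beq (n2N i j) (nat_lit 64))))))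
def cstB (t : Nat) : Bool := t / 288 % 2 = 1 ∧ (t / 144 % 2 = 1 ∨ (t % 4 ≠ 3 ∧ t / 12 % 4 ≠ 3))
def mvB (t : Nat) : Bool := (t % 4 = 1) ≠ (t / 12 % 4 = 1)
def pgT (t : Nat) : Nat := if cstB t then 0 else if mvB t then 3241 else 1301
def ppT (t : Nat) : Nat := if cstB t then 0 else if mvB t then 1278 else 639
def cvT (t r : Nat) : Int × Int :=
  let sp := sg r
  let sl := if t % 4 ≤ 1 then sp else sg (t % 12 / 4)
  let sm := if t / 12 % 4 ≤ 1 then sp else sg (t / 12 % 12 / 4)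
  let hl : Int := (t % 2 : Nat)
  let hm : Int := (t / 12 % 2 : Nat)
  let z : Bool := t / 288 % 2 = 1
  let same : Bool := t / 144 % 2 = 1 ∧ t % 2 = 1
  (if same ∨ (z ∧ hl + hm ≤ 1) then 0 else hl * sl * sl + hm * sm * sm,
    (if z then 0 else 2 * sp * sp) +
      (if same then 0 else hl * (sp - sl) * (sp - sl) + hm * (sp - sm) * (sp - sm)))
def cv1 (T t r : Nat) : Nat := (((cvT t r).1 * 2556 + (cvT t r).2 * 5203) * T * T).toNat
def cvS (T t r : Nat) : Nat := ((cvT t r).2 * 639 * T * T).toNat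
noncomputable def cvF (f : Nat → Nat → Nat → Nat) (T t u : Nat) : Nat :=
  Nat.rec (motive := fun _ => Nat) (nat_lit 0) (fun _ _ => (Nat.rec (motive := fun _ => Nat) (nat_lit 0) (fun r _ => f T t r) (Nat.succ (Nat.mod u (nat_lit 3))))) T
noncomputable def p0N (t : Nat) (G : List Nat) (k : Nat) : Nat :=
  (Nat.mul (pgT t) (hN (nat_lit 0) G k))
noncomputable def p1N (T t : Nat) (G : List Nat) (k : Nat) : Nat :=
  (Nat.add (cvF cv1 T t (nth 0 G k)) (Nat.mul (pgT t) (hN T G k)))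
noncomputable def pSN (T t : Nat) (G : List Nat) (k : Nat) : Nat :=
  (Nat.add (cvF cvS T t (nth 0 G k)) (Nat.mul (ppT t) (mxN (hN (nat_lit 0) G k) (hN T G k))))
/-- The minimum over the points of the grid. -/
noncomputable def lpN (V S : Nat → Nat → Nat) (T t : Nat) (G : List Nat) : Nat :=
  Nat.rec (motive := fun _ => Nat → Nat → Nat → Nat)
    (fun x y z => (Nat.shiftLeft (Nat.add x (Nat.shiftLeft (Nat.add y (Nat.shiftLeft z (nat_lit 31))) (nat_lit 31))) (nat_lit 79)))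
    (fun k ih x y z => (Nat.rec (motive := fun _ => Nat) (nat_lit 0) (fun u _ => ih (Nat.sub x (Nat.sub x (Nat.sub (V (nat_lit 0) u) (p0N t G k)))) (Nat.sub y (Nat.sub y (Nat.sub (V T u) (p1N T t G k)))) (Nat.sub z (Nat.sub z (Nat.sub (Nat.sub (S (nat_lit 0) u) (Nat.sub (S (nat_lit 0) u) (S T u))) (pSN T t G k))))) (Nat.succ (nth 0 G k)))) G.length (nat_lit 536870912) (nat_lit 536870912) (nat_lit 536870912)
noncomputable def gp (G : List Nat) (k : Nat) : Nat :=
  nth 0 G (mnN k (Nat.pred G.length))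
noncomputable def z6 (σ : Bool) (T : Nat) (G : List Nat) (x y : Nat) : Nat :=
  (mnN (mnN (mnN (Nat.add (Nat.add (Nat.mul x (aO σ T (gp G (nat_lit 0)))) (Nat.mul y (bO σ T (gp G (nat_lit 0))))) (cO σ T (gp G (nat_lit 0)))) (Nat.add (Nat.add (Nat.mul x (aO σ T (gp G (nat_lit 1)))) (Nat.mul y (bO σ T (gp G (nat_lit 1))))) (cO σ T (gp G (nat_lit 1))))) (mnN (Nat.add (Nat.add (Nat.mul x (aO σ T (gp G (nat_lit 2)))) (Nat.mul y (bO σ T (gp G (nat_lit 2))))) (cO σ T (gp G (nat_lit 2)))) (Nat.add (Nat.add (Nat.mul x (aO σ T (gp G (nat_lit 3)))) (Nat.mul y (bO σ T (gp G (nat_lit 3))))) (cO σ T (gp G (nat_lit 3)))))) (mnN (Nat.add (Nat.add (Nat.mul x (aO σ T (gp G (nat_lit 4)))) (Nat.mul y (bO σ T (gp G (nat_lit 4))))) (cO σ T (gp G (nat_lit 4)))) (Nat.add (Nat.add (Nat.mul x (aO σ T (gp G (nat_lit 5)))) (Nat.mul y (bO σ T (gp G (nat_lit 5))))) (cO σ T (gp G (nat_lit 5))))))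
noncomputable def wF (σ : Bool) (T : Nat) (G : List Nat) (l μ i j : Nat) : Nat :=
  (Nat.shiftRight (Nat.sub (z6 σ T G (xO T l μ i (nat_lit 0)) (yO T l μ j (nat_lit 0))) (dO T l μ i j (nat_lit 0))) (nat_lit 27))
noncomputable def vF (σ : Bool) (T : Nat) (G : List Nat) (l μ p q i j : Nat) : Nat :=
  (Nat.sub (Nat.add (gO T p q (nat_lit 0)) (Nat.shiftRight (Nat.mul (nat_lit 34146268) (wF σ T G l μ i j)) (nat_lit 24))) (hO T l μ i j (nat_lit 0)))
noncomputable def sF (σ : Bool) (T : Nat) (G : List Nat) (l μ p q i j : Nat) : Nat :=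
  (Nat.sub (Nat.add (sO T p q (nat_lit 0)) (wF σ T G l μ i j)) (nat_lit 6039797760))
noncomputable def mxG (f : Nat → Nat) (n : Nat) : Nat :=
  Nat.rec (motive := fun _ => Nat) (nat_lit 0) (fun k ih => mxN (f k) ih) n
/-- The same if both labels are fixed and the grid is short and uniform. -/
noncomputable def ffN (σ : Bool) (T t : Nat) (G : List Nat) (l μ p q i j : Nat) : Nat :=
  (Nat.shiftLeft (Nat.add (mnN (nat_lit 536870912) (Nat.sub (vF σ (nat_lit 0) G l μ p q i j) (mxG (p0N t G) G.length))) (Nat.shiftLeft (Nat.add (mnN (nat_lit 536870912) (Nat.sub (vF σ T G l μ p q i j) (mxG (p1N T t G) G.length))) (Nat.shiftLeft (mnN (nat_lit 536870912) (Nat.sub (mnN (sF σ (nat_lit 0) G l μ p q i j) (sF σ T G l μ p q i j)) (mxG (pSN T t G) G.length))) (nat_lit 31))) (nat_lit 31))) (nat_lit 79))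
noncomputable def unK (T : Nat) (G : List Nat) (k : Nat) : Nat :=
  hN 0 G k + 65536 * (hN T G k + 65536 * T * (nth 0 G k % 3))
noncomputable def unB (T : Nat) (G : List Nat) : Bool :=
  andb (Nat.ble G.length 6) (allN G.length fun k => Nat.beq (unK T G k) (unK T G 0))
def spB (t : Nat) : Bool := t / 288 % 2 = 1 ∨ (t / 576 % 2 = 1 ∧ t % 2 ≠ t / 12 % 2)
def p1B (t : Nat) : Bool := if spB t then t / 288 % 2 = 1 else t % 4 = 1 ∨ t / 12 % 4 = 1
def p2B (t : Nat) : Bool := t % 4 = 0 ∨ t / 12 % 4 = 0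
noncomputable def enM (σ : Bool) (T t : Nat) (G : List Nat) (l μ p q i j : Nat) : Nat :=
  (Bool.rec (motive := fun _ => Nat) (Bool.rec (motive := fun _ => Nat) (Bool.rec (motive := fun _ => Nat) (Bool.rec (motive := fun _ => Nat) (lpN (fun T u => vG σ l μ p q i j T (nat_lit 0) (nat_lit 0) u) (fun T u => sG σ l μ p q i j T (nat_lit 0) (nat_lit 0) u) T t G) (ffN σ T t G l μ p q i j) (unB T G)) (lpN (fun T u => vG σ l μ p q i j T (nat_lit 0) u u) (fun T u => sG σ l μ p q i j T (nat_lit 0) u u) T t G) (p2B t)) (lpN (fun T u => vG σ l μ p q i j T u u u) (fun T u => sG σ l μ p q i j T u u u) T t G) (p1B t)) (Bool.rec (motive := fun _ => Nat) (lpN (vU σ l μ p q i j) (sU σ l μ p q i j) T t G) (lpN (vZ σ l μ p q i j) (sZ σ l μ p q i j) T t G) (p1B t)) (spB t))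
noncomputable def enN (σ : Bool) (T : Nat) (G : List Nat) (l μ p q ij : Nat) : Nat :=
  (Nat.rec (motive := fun _ => Nat) (nat_lit 0) (fun t _ => (enM σ T t G l μ p q (Nat.land ij (nat_lit 127)) (Nat.shiftRight ij (nat_lit 7)))) (Nat.succ (tyN l μ (Nat.land ij (nat_lit 127)) (Nat.shiftRight ij (nat_lit 7)))))

/-! ### Clique offers -/

/-- The mode `d` on the cell `[lc, hc]`. -/
noncomputable def muF (T l0 lc hc d : Nat) : Nat :=
  (Bool.rec (motive := fun _ => Nat) (Bool.rec (motive := fun _ => Nat) (Bool.rec (motive := fun _ => Nat) (Bool.rec (motive := fun _ => Nat) (nat_lit 0) (nat_lit 1) (Nat.beq (Nat.add (aleN T (aF d) lc (nat_lit 0)) (aleN T hc (aG d) (nat_lit 0))) (nat_lit 0))) (Nat.add (Nat.mul (nat_lit 4) (aF d)) (nat_lit 3)) (Nat.beq (aleN T hc (aF d) (nat_lit 0)) (nat_lit 0))) (Nat.add (Nat.mul (nat_lit 4) (aG d)) (nat_lit 3)) (Nat.beq (Nat.mul (Nat.xor (aF d) (aG d)) (aleN T (aG d) lc (nat_lit 0))) (nat_lit 0))) (Nat.add (Nat.mul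 (nat_lit 4) l0) (nat_lit 2)) (ptB d))
def skB (T la hb d : Nat) : Bool :=
  (Nat.beq (Nat.add (aleN T (aF d) la (nat_lit 0)) (aleN T hb (aG d) (nat_lit 0))) (nat_lit 0))
noncomputable def mdV (T la ha lb hb : Nat) (S : Bool) (d : Nat) : Nat :=
  (Nat.add (Nat.add (Nat.sub (nat_lit 1) (muF T la la ha d)) (Nat.sub (nat_lit 1) (muF T la lb hb d))) (Bool.rec (motive := fun _ => Nat) (Nat.add (aleN T (aF d) (aG d) (nat_lit 0)) (Bool.rec (motive := fun _ => Nat) (aleN T (aG d) (aF d) (nat_lit 60)) (nat_lit 0) (andb S (skB T la hb d)))) (nat_lit 0) (ptB d)))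
noncomputable def gdA (T la ha lb hb : Nat) (S : Bool) (k : Nat) : Nat :=
  (Nat.rec (motive := fun _ => Nat) (nat_lit 1) (fun l _ => (Nat.rec (motive := fun _ => Nat) (nat_lit 1) (fun d _ => (Nat.rec (motive := fun _ => Nat) (nat_lit 1) (fun ij _ => (Nat.add (Nat.add (mdV T la ha lb hb S d) (Nat.sub (n2N (Nat.land ij (nat_lit 127)) (Nat.shiftRight ij (nat_lit 7))) (nat_lit 256))) (prN T (vsN la ha l) d (Nat.sub (nat_lit 128) (Nat.land ij (nat_lit 127))) (Nat.sub (nat_lit 256) (Nat.shiftRight ij (nat_lit 7))) (andb S (andb (Nat.beq (Nat.land l (nat_lit 3)) (nat_lit 1)) (skB T la hb d)))))) (Nat.succ (Nat.shiftRight k (nat_lit 39))))) (Nat.succ (Nat.land (Nat.shiftRight k (nat_lit 14)) (nat_lit 33554431))))) (Nat.succ (Nat.land k (nat_lit 16383))))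
noncomputable def gdB (T la lb hb : Nat) (S : Bool) (k : Nat) : Nat :=
  (Nat.rec (motive := fun _ => Nat) (nat_lit 1) (fun l _ => (Nat.rec (motive := fun _ => Nat) (nat_lit 1) (fun d _ => (Nat.rec (motive := fun _ => Nat) (nat_lit 1) (fun ij _ => (Nat.add (Nat.sub (n2N (Nat.land ij (nat_lit 127)) (Nat.shiftRight ij (nat_lit 7))) (nat_lit 256)) (prN T d (vsN lb hb l) (Nat.land ij (nat_lit 127)) (Nat.shiftRight ij (nat_lit 7)) (andb S (andb (Nat.beq (Nat.land l (nat_lit 3)) (nat_lit 1)) (skB T la hb d)))))) (Nat.succ (Nat.shiftRight k (nat_lit 39))))) (Nat.succ (Nat.land (Nat.shiftRight k (nat_lit 14)) (nat_lit 33554431))))) (Nat.succ (Nat.land k (nat_lit 16383))))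
noncomputable def feA (T la lc hc : Nat) (G : List Nat) (k : Nat) : Nat :=
  (Nat.rec (motive := fun _ => Nat) (nat_lit 0) (fun l _ => (Nat.rec (motive := fun _ => Nat) (nat_lit 0) (fun d _ => (Nat.rec (motive := fun _ => Nat) (nat_lit 0) (fun ij _ => (Nat.rec (motive := fun _ => Nat) (nat_lit 0) (fun μ _ => enN true T G l μ l μ ij) (Nat.succ (muF T la lc hc d)))) (Nat.succ (Nat.shiftRight k (nat_lit 39))))) (Nat.succ (Nat.land (Nat.shiftRight k (nat_lit 14)) (nat_lit 33554431))))) (Nat.succ (Nat.land k (nat_lit 16383))))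
noncomputable def feB (T la lc hc : Nat) (G : List Nat) (k : Nat) : Nat :=
  (Nat.rec (motive := fun _ => Nat) (nat_lit 0) (fun l _ => (Nat.rec (motive := fun _ => Nat) (nat_lit 0) (fun d _ => (Nat.rec (motive := fun _ => Nat) (nat_lit 0) (fun ij _ => (Nat.rec (motive := fun _ => Nat) (nat_lit 0) (fun μ _ => enN false T G l μ μ l ij) (Nat.succ (muF T la lc hc d)))) (Nat.succ (Nat.shiftRight k (nat_lit 39))))) (Nat.succ (Nat.land (Nat.shiftRight k (nat_lit 14)) (nat_lit 33554431))))) (Nat.succ (Nat.land k (nat_lit 16383))))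
/-- The least abscissa (plus `64`) that passes the test on a side. -/
def thL (T μ al X : Nat) : Nat :=
  let b := if μ % 4 = 1 then al else μ / 4
  if μ = 0 then 1000 else
  min (if μ % 2 == 1 && ale T b (X + (al - 271)) 0 && ale T (542 - X + (al - 271)) b 0 then 64 else 1000)
    (if μ % 2 == 0 || (ale T b al 90 && ale T al b 90) then
      max 32 ((8 * ((if X % 3 = 1 then cs (dg 0 X) else Q) + 16) - 8 * (if μ % 2 = 0 then 0 else
        min (cs (dg 0 b + 360 - dg 0 al)) (cs (dg T b + 360 - dg T al))) + S3 - 1) / S3 + 64).toNat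
    else 1000)
noncomputable def tq0 (τ : Tab) (T la e : Nat) : Nat :=
  (Nat.rec (motive := fun _ => Nat) (nat_lit 1) (fun μ _ => (Nat.rec (motive := fun _ => Nat) (nat_lit 1) (fun X _ => thL T μ 271 X) (Nat.succ (τ.XB (Nat.shiftRight e (nat_lit 25)))))) (Nat.succ (muF T la (τ.lo 0) (τ.hi 0) (Nat.land e (nat_lit 33554431)))))
noncomputable def tq1 (τ : Tab) (T la e : Nat) : Nat :=
  (Nat.rec (motive := fun _ => Nat) (nat_lit 1) (fun μ _ => (Nat.rec (motive := fun _ => Nat) (nat_lit 1) (fun X _ => thL T μ 811 X) (Nat.succ (τ.XT (Nat.shiftRight e (nat_lit 25)))))) (Nat.succ (muF T la (τ.lo (τ.m + 1)) (τ.hi (τ.m + 1)) (Nat.land e (nat_lit 33554431)))))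
def iN (w v : Nat) : Nat :=
  (Nat.sub (Nat.add (Nat.land (Nat.shiftRight w (nat_lit 62)) (nat_lit 31)) (nat_lit 80)) (Nat.land (Nat.shiftRight v (nat_lit 25)) (nat_lit 63)))
noncomputable def thN (τ : Tab) (T la : Nat) (fa fb : Bool) (w v : Nat) : Nat :=
  (Nat.rec (motive := fun _ => Nat) (nat_lit 1) (fun e _ => (Nat.add (Bool.rec (motive := fun _ => Nat) (Nat.add (Nat.sub (tq0 τ T la e) (iN w v)) (Nat.sub (iN w v) (nat_lit 96))) (nat_lit 0) fa) (Bool.rec (motive := fun _ => Nat) (Nat.add (Nat.sub (tq1 τ T la e) (Nat.sub (nat_lit 128) (iN w v))) (Nat.sub (nat_lit 32) (iN w v))) (nat_lit 0) fb))) (Nat.succ (Nat.add (Nat.land v (nat_lit 33554431)) (Nat.land (Nat.shiftRight w (nat_lit 42)) (nat_lit 100663296)))))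
def kyA (w v : Nat) : Nat :=
  (Nat.add (Nat.land w (nat_lit 16383)) (Nat.shiftLeft (Nat.add v (nat_lit 275951648768)) (nat_lit 14)))
def kyB (w v : Nat) : Nat :=
  (Nat.add (Nat.land (Nat.shiftRight w (nat_lit 15)) (nat_lit 16383)) (Nat.shiftLeft (Nat.add v (Nat.land (Nat.shiftRight w (nat_lit 22)) (nat_lit 547574775808))) (nat_lit 14)))
/-- Zero if the three values of `w` are at most the sums. -/
def tfN (x y w : Nat) : Nat :=
  (Nat.xor (Nat.land (Nat.sub (Nat.add (Nat.add x y) (nat_lit 1122433257992807157014380346649668801198319181234176)) (Nat.land w (nat_lit 748288835874278286895184789836311266444562262917120))) (nat_lit 2993155354647485752038347591065783469862184483291136)) (nat_lit 2993155354647485752038347591065783469862184483291136))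
/-- The grid without the first pieces that are within sixty degrees of `p`. -/
def dropG (T p : Nat) : List Nat → List Nat
  | q1 :: q2 :: r => if ale T q2 p 60 then dropG T p (q2 :: r) else q1 :: q2 :: r
  | _ => []
noncomputable def pcG (G : List Nat) (s : Nat) : List Nat := [nth 0 G s, nth 0 G (s + 1)]
noncomputable def sfG (T : Nat) (G1 G2 : List Nat) (s : Nat) : List Nat := dropG T (nth 0 G1 s) G2
noncomputable def tcN (T la ha lb hb : Nat) (G1 G2 : List Nat) (w k1 k2 : Nat) : Nat :=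
  tfN (feA T la la ha G1 k1) (feB T la lb hb G2 k2) w
noncomputable def tdN (T la ha lb hb : Nat) (G1 G2 : List Nat) (w k1 k2 : Nat) : Nat :=
  Nat.rec (motive := fun _ => Nat) (nat_lit 0) (fun s ih => Nat.add (Bool.rec (motive := fun _ => Nat) (tfN (feA T la la ha (pcG G1 s) k1) (feB T la lb hb (sfG T G1 G2 s) k2) w) (nat_lit 0) (sfG T G1 G2 s).isEmpty) ih) (Nat.pred G1.length)
/-- Zero if the clique offer `w` with the witness `v` is correct. -/
noncomputable def koN (T la ha lb hb : Nat) (S : Bool) (f : Bool) (h : Nat → Nat → Nat)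
    (t : Nat → Nat → Nat → Nat) (w v : Nat) : Nat :=
  (Nat.add (Nat.add (Nat.rec (motive := fun _ => Nat) (nat_lit 1) (fun k _ => vaN T la ha lb hb S k) (Nat.succ (Nat.land w (nat_lit 2296695073007452159)))) (Bool.rec (motive := fun _ => Nat) (h w v) (nat_lit 0) f)) (Nat.rec (motive := fun _ => Nat) (nat_lit 1) (fun k1 _ => (Nat.rec (motive := fun _ => Nat) (nat_lit 1) (fun k2 _ => (Nat.add (Nat.add (gdA T la ha lb hb S k1) (gdB T la lb hb S k2)) (t w k1 k2))) (Nat.succ (Nat.add (Nat.land (Nat.shiftRight w (nat_lit 15)) (nat_lit 16383)) (Nat.shiftLeft (Nat.add v (Nat.land (Nat.shiftRight w (nat_lit 22)) (nat_lit 547574775808))) (nat_lit 14)))))) (Nat.succ (Nat.add (Nat.land w (nat_lit 16383)) (Nat.shiftLeft (Nat.add v (nat_lit 275951648768)) (nat_lit 14))))))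
noncomputable def lpK (F : Nat → Nat → Nat) (P W n : Nat) : Nat :=
  Nat.rec (motive := fun _ => Nat) (nat_lit 0) (fun j ih => Nat.add (Nat.rec (motive := fun _ => Nat) (nat_lit 1) (fun w _ => (Nat.rec (motive := fun _ => Nat) (nat_lit 1) (fun v _ => F w v) (Nat.succ (Nat.land (Nat.shiftRight W (Nat.mul (nat_lit 40) j)) (nat_lit 547608330239))))) (Nat.succ (Nat.land (Nat.shiftRight P (Nat.mul (nat_lit 172) j)) (nat_lit 5986310706507378352962293074805895248510699696029695)))) ih) n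
noncomputable def lqK (F : Nat → Nat → Nat) (P W n : Nat) : Nat :=
  Nat.rec (motive := fun _ => Nat) (nat_lit 0) (fun g ih => Nat.add (lpK F (Nat.land (Nat.shiftRight P (Nat.mul (nat_lit 5504) g)) (msk (nat_lit 5504))) (Nat.land (Nat.shiftRight W (Nat.mul (nat_lit 1280) g)) (msk (nat_lit 1280))) (mnN (nat_lit 32) (Nat.sub n (Nat.mul (nat_lit 32) g)))) ih) (Nat.shiftRight (Nat.add n (nat_lit 31)) (nat_lit 5))

/-- The clique offers and the states of the region with number `i`. -/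
noncomputable def fA (τ : Tab) (DK : Nat → Nat) (DM : Nat → List Nat) (i : Nat) (W : List Nat) : Bool :=
  frc (i / 2 / (τ.m + 2)) fun a => frc (a + i / 2 % (τ.m + 2)) fun b => frc τ.T fun T =>
  frc τ.nq fun nq => frc (τ.lo a) fun la => frc (τ.hi a) fun ha => frc (τ.lo b) fun lb =>
  frc (τ.hi b) fun hb => frb (i % 2 == 0) fun S => frb (τ.free a b) fun f => frb (a != 0) fun fa =>
  frb (Nat.ble b τ.m) fun fb => frc (nth 0 W 1) fun c =>
  andb (qOK nq f (bd (DK i)) (nA (DK i))) <| andb (Nat.beq (lqK (koN T la ha lb hb S f (thN τ T la fa fb)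
    (Bool.rec (motive := fun _ => Nat → Nat → Nat → Nat)
      (tcN T la ha lb hb (τ.grid false a) (τ.grid false b))
      (tdN T la ha lb hb (τ.grid true a) (τ.grid true b)) (i % 2 == 1 && τ.strad a b)))
    (bd (DK i)) (nth 0 W 0) (nA (DK i))) 0)
    (chkV2 (vaN T la ha lb hb S) nq c f (DK i) (DM i) W.tail.tail)

/-! ### Groups of states and the root -/

noncomputable def chkG2 (f : Bool) (c : Nat) (LS LG W : List Nat) : Bool :=
  all2 (fun p s => frc (Nat.land s 255) fun u => andb (Nat.blt u LG.length) <|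
    andb (Nat.ble (Nat.mod (nth 0 LG u) 2) (Nat.mod p 2)) <|
      andb (Nat.ble (bits (nth 0 LG u) 1 2) (bits p 1 2)) <|
      domV f p (bd (nth 0 LG u)) (nA (nth 0 LG u)) c (Nat.shiftRight s 8)) LS W

noncomputable def allG2 (f : Bool) (c : Nat) (LS : List Nat) (LL : List (List Nat)) :
    List (List Nat) → Bool :=
  List.rec (motive := fun _ => List (List Nat) → Bool) (fun _ => true)
    (fun L _ ih W => List.rec (motive := fun _ => Bool) false
      (fun w W' _ => andb (orb (Nat.beq L.length 0) (chkG2 f c LS L w)) (ih W')) W) LL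

def xa (w : Nat) : Nat :=
  (Nat.land w (nat_lit 16383))
def xb (w : Nat) : Nat :=
  (Nat.land (Nat.shiftRight w (nat_lit 15)) (nat_lit 16383))
def xi (w : Nat) : Nat :=
  (Nat.land (Nat.shiftRight w (nat_lit 47)) (nat_lit 63))
def xj (w : Nat) : Nat :=
  (Nat.land (Nat.shiftRight w (nat_lit 54)) (nat_lit 127))
def xh (w : Nat) : Nat :=
  (Nat.land (Nat.shiftRight w (nat_lit 62)) (nat_lit 31))
def xq (w : Nat) : Nat :=
  (Nat.land (Nat.shiftRight w (nat_lit 67)) (nat_lit 3))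
def x0 (w : Nat) : Nat :=
  (Nat.land (Nat.shiftRight w (nat_lit 79)) (nat_lit 268435455))
def x1 (w : Nat) : Nat :=
  (Nat.land (Nat.shiftRight w (nat_lit 110)) (nat_lit 268435455))
def x2 (w : Nat) : Nat :=
  (Nat.land (Nat.shiftRight w (nat_lit 141)) (nat_lit 268435455))
def roN (r l : Nat) : Nat :=
  (Nat.add l (Nat.mul (Nat.mul (nat_lit 1080) r) (Nat.land l (nat_lit 2))))
noncomputable def sgN (r c y : Nat) : Nat :=
  (Bool.rec (motive := fun _ => Nat) y (Nat.sub c y) (Nat.beq r (nat_lit 1)))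
def wdN (p j : Nat) : Nat :=
  (Nat.land (Nat.shiftRight (bd p) (Nat.mul (nat_lit 172) j)) (nat_lit 5986310706507378352962293074805895248510699696029695))
/-- Zero if three offers close up; `t0, t1, t2` are the bounds of the values. -/
noncomputable def r3N (nq t0 t1 t2 r2 r3 : Nat) (f1 f2 f3 : Bool) (x y z q h : Nat) : Nat :=
  (Nat.add (Nat.add (Nat.add (Nat.add (Nat.xor (xb x) (roN r2 (xa y))) (Nat.xor (roN r2 (xb y)) (roN r3 (xa z)))) (Nat.add (Nat.xor (roN r3 (xb z)) (roN (nat_lit 2) (xa x))) (Nat.xor (Nat.add (Nat.add (xi x) (sgN r2 (nat_lit 64) (xi y))) (sgN r3 (nat_lit 64) (xi z))) (nat_lit 96)))) (Nat.add (Nat.add (Nat.xor (Nat.add (Nat.add (xj x) (sgN r2 (nat_lit 128) (xj y))) (sgN r3 (nat_lit 128) (xj z))) (nat_lit 192)) (Nat.sub (Nat.succ q) nq)) (Nat.add (Bool.rec (motive := fun _ => Nat) (Nat.add (Nat.xor q (xq x)) (Nat.xor h (xh x))) (nat_lit 0) f1) (Bool.rec (motive := fun _ => Nat) (Nat.add (Nat.xor q (sgN r2 (Nat.pred nq)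 (xq y))) (Nat.xor (Nat.add h (xi x)) (Nat.add (sgN r2 (nat_lit 32) (xh y)) (nat_lit 32)))) (nat_lit 0) f2)))) (Nat.add (Nat.add (Bool.rec (motive := fun _ => Nat) (Nat.add (Nat.xor q (sgN r3 (Nat.pred nq) (xq z))) (Nat.xor (Nat.add (Nat.add h (xi x)) (sgN r2 (nat_lit 64) (xi y))) (Nat.add (sgN r3 (nat_lit 32) (xh z)) (nat_lit 64)))) (nat_lit 0) f3) (Nat.sub t0 (Nat.add (Nat.add (x0 x) (x0 y)) (x0 z)))) (Nat.add (Nat.sub t1 (Nat.add (Nat.add (x1 x) (x1 y)) (x1 z))) (Nat.sub t2 (Nat.add (Nat.add (x2 x) (x2 y)) (x2 z))))))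
def r2N (nq t0 t1 t2 x y : Nat) : Nat :=
  (Nat.add (Nat.add (Nat.add (Nat.add (Nat.xor (xb x) (roN (nat_lit 1) (xa y))) (Nat.xor (roN (nat_lit 1) (xb y)) (roN (nat_lit 2) (xa x)))) (Nat.add (Nat.xor (xi x) (xi y)) (Nat.xor (xj x) (xj y)))) (Nat.add (Nat.add (Nat.xor (Nat.add (Nat.add (xq x) (xq y)) (nat_lit 1)) nq) (Nat.xor (Nat.add (Nat.add (xh x) (xi x)) (xh y)) (nat_lit 64))) (Nat.add (Nat.sub t0 (Nat.add (x0 x) (x0 y))) (Nat.sub t1 (Nat.add (x1 x) (x1 y)))))) (Nat.sub t2 (Nat.add (x2 x) (x2 y))))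

noncomputable def chkR2 (F : Nat → Nat → Nat → Nat → Nat → Nat) (c1 c2 c3 : Nat) (L1 L2 L3 : List Nat)
    (s : Nat) : Bool :=
  allN L1.length fun g1 => allN L2.length fun g2 => allN L3.length fun g3 =>
    orb (fan3b c1 c2 c3 (nth 0 L1 g1) (nth 0 L2 g2) (nth 0 L3 g3)) <|
      frc (Nat.land (Nat.shiftRight s (Nat.mul 32 (Nat.add (Nat.mul (Nat.add (Nat.mul g1 L2.length) g2)
        L3.length) g3))) 4294967295) fun v =>
      frc (Nat.land v 255) fun j1 => frc (Nat.land (Nat.shiftRight v 8) 255) fun j2 =>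
      frc (Nat.land (Nat.shiftRight v 16) 255) fun j3 =>
      Nat.beq (Nat.add (Nat.add (Nat.add (Nat.sub (Nat.succ j1) (nA (nth 0 L1 g1)))
        (Nat.sub (Nat.succ j2) (nA (nth 0 L2 g2)))) (Nat.sub (Nat.succ j3) (nA (nth 0 L3 g3))))
        (F (wdN (nth 0 L1 g1) j1) (wdN (nth 0 L2 g2) j2) (wdN (nth 0 L3 g3) j3)
          (Nat.land (Nat.shiftRight v 24) 3) (Nat.shiftRight v 26))) 0

/-- The root triples with first cell `a` and lengths `l1`, `l2`. -/
noncomputable def chkC2 (τ : Tab) (DG : Nat → List (List Nat)) (a l1 l2 : Nat) (W : List Nat) : Bool :=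
  frc (2 * (τ.m + 1) - l1 - l2) fun l3 =>
    orb (Nat.blt l1 l2 || Nat.blt l1 l3 || (a == 0 && l1 == τ.m + 1)) <|
    frc (a + l1) fun y => frc (y + l2) fun z => frc (z + l3) fun e => frc (y % (τ.m + 1)) fun y' =>
    frc (z % (τ.m + 1)) fun z' => frc (y / (τ.m + 1)) fun r2 => frc (z / (τ.m + 1)) fun r3 =>
    frc τ.nq fun nq => frc (τ.V0 + 402653184).toNat fun t0 => frc (τ.V1 + 402653184).toNat fun t1 =>
    frc (τ.S0 + 402653184).toNat fun t2 => frb (τ.free a y) fun f1 =>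
    frb (τ.free y' (y' + l2)) fun f2 => frb (τ.free z' (z' + l3)) fun f3 =>
    allN 8 fun c => frc (c / 4) fun c1 => frc (c / 2 % 2) fun c2 => frc (c % 2) fun c3 =>
      orb (!(τ.has a y c1 && τ.has y z c2 && τ.has z e c3)) <|
      frc (nth 0 W c) fun s => frc (idx τ.m a l1 c1) fun i1 => frc (idx τ.m y' l2 c2) fun i2 =>
      frc (idx τ.m z' l3 c3) fun i3 => frc (s % 8) fun s1 => frc (bits s 3 8) fun s2 =>
      frc (bits s 6 8) fun s3 =>
      andb (Nat.blt 0 (nth [] (DG i1) s1).length) <| andb (Nat.blt 0 (nth [] (DG i2) s2).length) <|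
      andb (Nat.blt 0 (nth [] (DG i3) s3).length) <|
      chkR2 (r3N nq t0 t1 t2 r2 r3 f1 f2 f3) c1 c2 c3 (nth [] (DG i1) s1) (nth [] (DG i2) s2)
        (nth [] (DG i3) s3) (Nat.shiftRight s 9)

/-- The root check on two states of the strip. -/
noncomputable def chkP2 (τ : Tab) (L W : List Nat) : Bool :=
  frc τ.nq fun nq => frc (τ.V0 + 268435456).toNat fun t0 => frc (τ.V1 + 268435456).toNat fun t1 =>
  frc (τ.S0 + 268435456).toNat fun t2 =>
  all2 (fun p1 s => allN L.length fun g2 =>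
    orb (orb (andb (Nat.beq (Nat.mod p1 2) 1) (Nat.beq (bits (nth 0 L g2) 1 2) 1))
        (andb (Nat.beq (bits p1 1 2) 1) (Nat.beq (Nat.mod (nth 0 L g2) 2) 1))) <|
      frc (Nat.land (Nat.shiftRight s (Nat.mul 32 g2)) 65535) fun j1 =>
      frc (Nat.land (Nat.shiftRight s (Nat.add (Nat.mul 32 g2) 16)) 65535) fun j2 =>
      Nat.beq (Nat.add (Nat.add (Nat.sub (Nat.succ j1) (nA p1)) (Nat.sub (Nat.succ j2) (nA (nth 0 L g2))))
        (r2N nq t0 t1 t2 (wdN p1 j1) (wdN (nth 0 L g2) j2))) 0) L W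

/-! ### Ranges of checks -/

/-- The check `f` for the numbers `i, ..., j - 1`. -/
noncomputable def rng {α : Type} (f : Nat → α → Bool) (W : List α) : Nat → Nat → Bool :=
  List.rec (motive := fun _ => Nat → Nat → Bool) (fun i j => Nat.ble j i)
    (fun w _ ih i j => frc i fun i => andb (f i w) (ih (Nat.succ i) j)) W

noncomputable def fG (τ : Tab) (DM : Nat → List Nat) (DG : Nat → List (List Nat)) (i : Nat)
    (W : List (List Nat)) : Bool :=
  frb (τ.free (i / 2 / (τ.m + 2)) (i / 2 / (τ.m + 2) + i / 2 % (τ.m + 2))) fun f =>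
    frc (nth 0 (nth [] W 0) 0) fun c => allG2 f c (DM i) (DG i) W.tail
noncomputable def fS (τ : Tab) (DK : Nat → Nat) (DM : Nat → List Nat) (i : Nat) (W : List Nat) : Bool :=
  frc (i / (τ.m + 2)) fun a => frc (i % (τ.m + 2)) fun l => frc (nth 0 W 0 % 64) fun b =>
  frc (nth 0 W 0 / 64) fun b2 => chkS2 τ DK DM a l b b2 W.tail
noncomputable def fB (τ : Tab) (DM : Nat → List Nat) (i : Nat) (W : List Nat) : Bool :=
  frc (i / 4 / (τ.m + 2) % (τ.m + 2)) fun l => frc (i / 4 % (τ.m + 2)) fun j => orb (Nat.blt l j) <|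
  frc (i / 4 / (τ.m + 2) / (τ.m + 2)) fun a => frc (i / 2 % 2) fun c1 => frc (i % 2) fun c2 =>
  frc (nth 0 W 0 % 64) fun b => frc (nth 0 W 0 / 64) fun b2 => chkM2 τ DM a l j c1 c2 b b2 W.tail
noncomputable def fC (τ : Tab) (DG : Nat → List (List Nat)) (i : Nat) (W : List Nat) : Bool :=
  frc (i / (τ.m + 2) / (τ.m + 2)) fun a => frc (i / (τ.m + 2) % (τ.m + 2)) fun l1 =>
  frc (i % (τ.m + 2)) fun l2 => chkC2 τ DG a l1 l2 W

/-- Binary trees hold the data of the regions. -/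
inductive Tr (α : Type) where
  | lf : α → Tr α
  | nd : Tr α → Tr α → Tr α

noncomputable def Tr.get {α : Type} (t : Tr α) : Nat → α :=
  Tr.rec (motive := fun _ => Nat → α) (fun x _ => x) (fun _ _ l r i =>
    Nat.rec (motive := fun _ => α) (l (Nat.shiftRight i 1)) (fun _ _ => r (Nat.shiftRight i 1))
      (Nat.land i 1)) t

/-- Joins two blocks of hexadecimal digits. -/
def ct (a b : Nat) : Nat := Nat.add a (Nat.shiftLeft b 16384)

end Pool.Agent.Lib.MP_4b56aa_gt.Cert
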