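import Pool.Agent.Lib.MP_4b56aa_gt.Cert.CDefs

/-! Packed offers and the fast programs that check the closure conditions. -/

namespace Pool.Agent.Lib.MP_4b56aa_gt.Cert

def fKa (w : ℕ) : ℕ := Nat.mod w 16384
def fKb (w : ℕ) : ℕ := bits w 14 16384
def fDi (w : ℕ) : ℕ := bits w 28 64
def fDj (w : ℕ) : ℕ := bits w 34 128
def fQ (w : ℕ) : ℕ := bits w 41 4
def fH (w : ℕ) : ℕ := bits w 43 32
def fV0 (w : ℕ) : ℕ := bits w 48 268435456
def fV1 (w : ℕ) : ℕ := bits w 76 268435456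
def fSl (w : ℕ) : ℕ := bits w 104 268435456
def fMk (w : ℕ) : ℕ := bits w 132 2

def dec (w : ℕ) : Off :=
  ⟨fKa w, fKb w, (fDi w : ℤ) - 32, (fDj w : ℤ) - 64, fQ w, (fH w : ℤ) - 16,
    (fV0 w : ℤ) - 134217728, (fV1 w : ℤ) - 134217728, (fSl w : ℤ) - 134217728⟩

/-- The `j`-th word of a packed list of offers. -/
def wd (P j : ℕ) : ℕ :=
  Nat.mod (Nat.shiftRight P (Nat.mul 136 j)) 87112285931760246646623899502532662132736
noncomputable def cnt (P : ℕ) : ℕ := sel (Nat.beq P 0) 0 (Nat.succ (Nat.div (Nat.log2 P) 136))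
noncomputable def offs (P : ℕ) : List Off := (List.range (cnt P)).map fun j => dec (wd P j)
/-- A packed state: two flags, then the packed offers. -/
noncomputable def decS (p : ℕ) : St :=
  ⟨Nat.beq (Nat.mod p 2) 1, Nat.beq (bits p 1 2) 1, offs (Nat.shiftRight p 2)⟩

noncomputable def KK (m : ℕ) (DK : List ℕ) (a l cl : ℕ) : List Off := offs (nth 0 DK (idx m a l cl))
noncomputable def MM (m : ℕ) (DM : List (List ℕ)) (a l cl : ℕ) : List St :=
  (nth [] DM (idx m a l cl)).map decS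

/-- Ten digits of width `32`. -/
def dig (a0 a1 a2 a3 a4 a5 a6 a7 a8 a9 : ℕ) : ℕ :=
  Nat.add a0 (Nat.shiftLeft (Nat.add a1 (Nat.shiftLeft (Nat.add a2 (Nat.shiftLeft (Nat.add a3
    (Nat.shiftLeft (Nat.add a4 (Nat.shiftLeft (Nat.add a5 (Nat.shiftLeft (Nat.add a6
      (Nat.shiftLeft (Nat.add a7 (Nat.shiftLeft (Nat.add a8 (Nat.shiftLeft a9 32)) 32)) 32)) 32)) 32))
        32)) 32)) 32)) 32)

noncomputable def rotN (b : Bool) (l : ℕ) : ℕ := sel (andb b (Nat.ble 2 (Nat.mod l 4))) (Nat.add l 2160) l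

noncomputable def vL (f1 f2 : Bool) (w : ℕ) : ℕ :=
  dig (Nat.add (fKa w) (Nat.mul 32768 (fMk w))) (fKb w) 0 (fDi w) (fDj w)
    (sel f1 0 (Nat.add (Nat.mul 64 (fQ w)) (fH w))) (sel f2 0 (Nat.sub 64 (fDi w)))
    (fV0 w) (fV1 w) (fSl w)
noncomputable def vR (nq1 : ℕ) (f2 b : Bool) (w : ℕ) : ℕ :=
  dig 0 (Nat.sub 65536 (rotN b (fKa w))) (Nat.add (rotN b (fKb w)) (Nat.mul 32768 (fMk w)))
    (sel b (Nat.sub 64 (fDi w)) (fDi w)) (sel b (Nat.sub 128 (fDj w)) (fDj w)) 0
    (sel f2 0 (sel b (Nat.add (Nat.mul 256 (Nat.sub nq1 (fQ w))) (Nat.sub 32 (fH w)))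
      (Nat.add (Nat.mul 256 (fQ w)) (fH w)))) (fV0 w) (fV1 w) (fSl w)
noncomputable def vT (mk : ℕ) (f1 f2 : Bool) (w : ℕ) : ℕ :=
  dig (Nat.add (fKa w) (Nat.mul 32768 mk)) 65536 (Nat.add (fKb w) 32768) (Nat.add (fDi w) 32)
    (Nat.add (fDj w) 64) (sel f1 0 (Nat.add (Nat.mul 64 (fQ w)) (fH w)))
    (sel f2 0 (Nat.add (Nat.add (Nat.mul 256 (fQ w)) (fH w)) 32))
    (Nat.add (fV0 w) 134217728) (Nat.add (fV1 w) 134217728) (Nat.add (fSl w) 134217728)

def GG : ℕ := 533996759104558329730150109390562639543274086866449207149414827482081066678314407760852148027392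
def MASK : ℕ := 533996759104558329730150109417522586210424726661116222236434458155718211100854980241955758276607

noncomputable def gL (f1 f2 : Bool) (P j : ℕ) : ℕ := vL f1 f2 (wd P j)
noncomputable def gR (nq1 : ℕ) (f2 b : Bool) (P j : ℕ) : ℕ := vR nq1 f2 b (wd P j)
noncomputable def gU (f1 f2 : Bool) (P j : ℕ) : ℕ := vT (fMk (wd P j)) f1 f2 (wd P j)
noncomputable def gT (f1 f2 : Bool) (P j : ℕ) : ℕ := Nat.sub GG (vT 1 f1 f2 (wd P j))
def tst (x t : ℕ) : Bool := Nat.beq (Nat.land (Nat.add x t) MASK) GG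

/-- Checks the offers of the target `PT` with the witnesses in the stream: `b` bits each, the low
`b2` bits point into the second part (`0`: clique offer). -/
noncomputable def loopT (nq1 : ℕ) (f1 f2 r : Bool) (PK P1 P2 PT b m1 b2 m2 n : ℕ) : ℕ → Bool :=
  Nat.rec (motive := fun _ => ℕ → Bool) (fun _ => true)
    (fun i ih s => force (Nat.shiftRight (Nat.land s m1) b2) fun j1 =>
      andb (Nat.rec (motive := fun _ => Bool) (tst (gU f1 f2 PK j1) (gT f1 f2 PT i))
        (fun j2 _ => tst (Nat.add (gL f1 f2 P1 j1) (gR nq1 f2 r P2 j2)) (gT f1 f2 PT i))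
        (Nat.land s m2)) (ih (Nat.shiftRight s b))) n

/-- One join: the stream starts with the index of the target (eight bits); `k` gets the rest. -/
noncomputable def joinC (nq1 : ℕ) (f1 f2 r : Bool) (PK P1 P2 : ℕ) (LT : List ℕ) (fl : ℕ → Bool)
    (b m1 b2 m2 s : ℕ) (k : ℕ → Bool) : Bool :=
  force (Nat.mod s 256) fun u =>
    andb (Nat.blt u LT.length) (andb (fl (nth 0 LT u))
      (force (Nat.shiftRight (nth 0 LT u) 2) fun PT => force (cnt PT) fun n =>
        force (Nat.mul b n) fun bn =>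
        andb (force (Nat.mod (Nat.shiftRight s 8) (Nat.pow 2 bn)) fun s1 =>
          loopT nq1 f1 f2 r PK P1 P2 PT b m1 b2 m2 n s1)
        (force (Nat.shiftRight s (Nat.add bn 8)) k)))

noncomputable def rowC (nq1 : ℕ) (f1 f2 r : Bool) (PK p1 : ℕ) (L2 LT : List ℕ) (c1 c2 b m1 b2 m2 : ℕ) :
    ℕ → Bool :=
  List.rec (motive := fun _ => ℕ → Bool) (fun _ => true)
    (fun p2 _ ih s => joinC nq1 f1 f2 r PK (Nat.shiftRight p1 2) (Nat.shiftRight p2 2) LT
      (flagOK c1 c2 p1 p2) b m1 b2 m2 s ih) L2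

/-- All joins of the large region `(a, a + l)` at the cell `a + j`. -/
noncomputable def chkM (τ : Tab) (DK : List ℕ) (DM : List (List ℕ)) (a l j b b2 : ℕ)
    (W : List (List ℕ)) : Bool :=
  allN 4 fun c => orb (!(τ.has a (a + j) (c / 2) && τ.has (a + j) (a + l) (c % 2) &&
      τ.feas a (a + l) (c / 2) (c % 2)))
    (force ((a + j) % (τ.m + 1)) fun x => force (idx τ.m x (l - j) (c % 2)) fun i2 =>
      force (2 ^ b - 1) fun m1 => force (2 ^ b2 - 1) fun m2 =>
      all2 (fun p1 s => rowC (τ.nq - 1) (τ.free a (a + j)) (τ.free x (x + (l - j)))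
        (Nat.blt τ.m (a + j)) (nth 0 DK (idx τ.m a l 1)) p1 (nth [] DM i2) (nth [] DM (idx τ.m a l 1))
        (c / 2) (c % 2) b m1 b2 m2 s) (nth [] DM (idx τ.m a j (c / 2))) (nth [] W c))

/-- All joins of the small region `(a, a + l)`. -/
noncomputable def chkS (τ : Tab) (DK : List ℕ) (DM : List (List ℕ)) (a l b b2 : ℕ) (W : List ℕ) : Bool :=
  force (2 ^ b - 1) fun m1 => force (2 ^ b2 - 1) fun m2 =>
  allN (l + 1) fun j => force ((a + j) % (τ.m + 1)) fun x =>
    joinC (τ.nq - 1) (τ.free a (a + j)) (τ.free x (x + (l - j))) (Nat.blt τ.m (a + j))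
      (nth 0 DK (idx τ.m a l 0)) (nth 0 DK (idx τ.m a j 0)) (nth 0 DK (idx τ.m x (l - j) 0))
      (nth [] DM (idx τ.m a l 0)) (fun _ => true) b m1 b2 m2 (nth 0 W j) fun _ => true

/-! ### Clique offers and validity -/

noncomputable def forceI (x : ℤ) (f : ℤ → Bool) : Bool :=
  Int.rec (motive := fun _ => Bool) (fun n => force n fun n => f (Int.ofNat n))
    (fun n => force n fun n => f (Int.negSucc n)) x

def validF (τ : Tab) (a b cl ka kb di dj q : ℕ) : Bool :=
  τ.valid a b cl ⟨ka, kb, (di : ℤ) - 32, (dj : ℤ) - 64, q, 0, 0, 0, 0⟩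

noncomputable def chkV (τ : Tab) (DM : List (List ℕ)) (a l cl : ℕ) : Bool :=
  force (a + l) fun b => List.rec (motive := fun _ => Bool) true (fun p _ ih =>
    andb (force (Nat.shiftRight p 2) fun P => allN (cnt P) fun j => force (wd P j) fun w =>
      force (fKa w) fun ka => force (fKb w) fun kb => force (fDi w) fun di => force (fDj w) fun dj =>
      force (fQ w) fun q => validF τ a b cl ka kb di dj q) ih) (nth [] DM (idx τ.m a l cl))

def msOf (τ : Tab) (a b st b1 b2 : ℕ) : VS :=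
  if st = 1 then ⟨true, false, 0, 0⟩
  else ⟨false, ale τ.T b1 (τ.lo a) 0 && ale τ.T (τ.hi b) b2 0, b1, b2⟩
def modeF (τ : Tab) (a st b1 b2 c : ℕ) : ℕ := τ.modeAt a ⟨st == 1, b1, b2, 0, 0⟩ c
def endG (τ : Tab) (fine : Bool) (c l μ : ℕ) (ai aj σ : ℤ) : List (ℕ × ℕ × ℤ × ℤ × ℤ) :=
  evalG τ.N τ.T l μ ai aj σ (τ.grid fine c)
def endM (τ : Tab) (c l μ : ℕ) (ai aj σ : ℤ) : ℤ × ℤ × ℤ := min3 (endG τ false c l μ ai aj σ)
def okA (τ : Tab) (a b cl st b1 b2 ka : ℕ) (ai aj : ℤ) : Bool :=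
  okPair τ (τ.vsL a ka) (msOf τ a b st b1 b2) (-ai) (-aj) (cl == 0) &&
    decide (n2 ai aj ≤ 16 * τ.N * τ.N)
def okB (τ : Tab) (a b cl st b1 b2 kb : ℕ) (bi bj : ℤ) : Bool :=
  okPair τ (msOf τ a b st b1 b2) (τ.vsL b kb) bi bj (cl == 0) && decide (n2 bi bj ≤ 16 * τ.N * τ.N)
def okM (τ : Tab) (a b cl st b1 b2 : ℕ) : Bool :=
  (st == 1 || ale τ.T b1 b2 0) && okPair τ (msOf τ a b st b1 b2) (msOf τ a b st b1 b2) 0 0 (cl == 0)
def thrF (τ : Tab) (a b st b1 b2 q : ℕ) (i : ℤ) : Bool :=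
  (a != 0 || thrOK τ i (modeF τ a st b1 b2 0) 271 (τ.XB q)) &&
    (Nat.ble b τ.m || thrOK τ (-i) (modeF τ a st b1 b2 (τ.m + 1)) 811 (τ.XT q))

def decK (v : ℕ) : KW :=
  ⟨Nat.mod v 2 == 1, bits v 1 4096, bits v 13 4096, (bits v 25 64 : ℤ) - 32, (bits v 31 128 : ℤ) - 64⟩

noncomputable def kfast (τ : Tab) (a b cl : ℕ) (fine : Bool) (w v : ℕ) : Bool :=
  force (fKa w) fun ka => force (fKb w) fun kb => force (fDi w) fun di => force (fDj w) fun dj =>
  force (fQ w) fun q => force (Nat.mod v 2) fun st => force (bits v 1 4096) fun b1 =>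
  force (bits v 13 4096) fun b2 => forceI ((bits v 25 64 : ℤ) - 32) fun ai =>
  forceI ((bits v 31 128 : ℤ) - 64) fun aj => forceI (ai + ((di : ℤ) - 32)) fun bi =>
  forceI (aj + ((dj : ℤ) - 64)) fun bj => force (modeF τ a st b1 b2 a) fun μa =>
  force (modeF τ a st b1 b2 b) fun μb => forceI ((fH w : ℤ) - 16 - ai) fun i =>
  andb (validF τ a b cl ka kb di dj q) <| andb (okM τ a b cl st b1 b2) <| andb (μa != 0) <|
  andb (μb != 0) <| andb (okA τ a b cl st b1 b2 ka ai aj) <| andb (okB τ a b cl st b1 b2 kb bi bj) <|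
  andb (thrF τ a b st b1 b2 q i) <|
  Bool.rec (motive := fun _ => Bool)
    (andb (decide ((fV0 w : ℤ) - 134217728 ≤ (endM τ a ka μa ai aj 1).1 + (endM τ b kb μb bi bj (-1)).1)) <|
      andb (decide ((fV1 w : ℤ) - 134217728 ≤ (endM τ a ka μa ai aj 1).2.1 + (endM τ b kb μb bi bj (-1)).2.1))
        (decide ((fSl w : ℤ) - 134217728 ≤ (endM τ a ka μa ai aj 1).2.2 + (endM τ b kb μb bi bj (-1)).2.2)))
    ((endG τ true a ka μa ai aj 1).all fun x => (endG τ true b kb μb bi bj (-1)).all fun y =>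
      ale τ.T y.2.1 x.1 60 ||
      (decide ((fV0 w : ℤ) - 134217728 ≤ x.2.2.1 + y.2.2.1) &&
        decide ((fV1 w : ℤ) - 134217728 ≤ x.2.2.2.1 + y.2.2.2.1) &&
        decide ((fSl w : ℤ) - 134217728 ≤ x.2.2.2.2 + y.2.2.2.2))) fine

/-- The clique offers number `j0, ..., j0 + n - 1` of a region. -/
noncomputable def chkK (τ : Tab) (DK : List ℕ) (a l cl PW j0 n : ℕ) : Bool :=
  force (a + l) fun b => force (nth 0 DK (idx τ.m a l cl)) fun P =>
    allN n fun i => force (Nat.add j0 i) fun j => force (wd P j) fun w =>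
      force (bits PW (Nat.mul 40 j) 1099511627776) fun v =>
      kfast τ a b cl (cl == 1 && τ.strad a b) w v

/-! ### Groups of states and the root -/

def domb (f : Bool) (o k : Off) : Bool :=
  o.ka == k.ka && o.kb == k.kb && o.di == k.di && o.dj == k.dj && (f || (o.q == k.q && o.h == k.h)) &&
    decide (o.v0 ≤ k.v0) && decide (o.v1 ≤ k.v1) && decide (o.sl ≤ k.sl)

/-- Every state of `LS` is stronger than some group in `LG`. -/
noncomputable def chkG (f : Bool) (LS LG W : List ℕ) : Bool :=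
  all2 (fun p s => force (Nat.mod s 256) fun u => andb (Nat.blt u LG.length) <|
    force (nth 0 LG u) fun g => andb (Nat.ble (Nat.mod g 2) (Nat.mod p 2)) <|
      andb (Nat.ble (bits g 1 2) (bits p 1 2)) <|
      allN (cnt (Nat.shiftRight g 2)) fun i => force (bits s (Nat.add 8 (Nat.mul 12 i)) 4096) fun j =>
        andb (Nat.blt j (cnt (Nat.shiftRight p 2)))
          (domb f (dec (wd (Nat.shiftRight g 2) i)) (dec (wd (Nat.shiftRight p 2) j)))) LS W

def rt3b (τ : Tab) (f1 f2 f3 : Bool) (x y z : Off) (q : ℕ) (h : ℤ) : Bool :=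
  x.kb == y.ka && y.kb == z.ka && z.kb == rotL (rotL x.ka) && x.di + y.di + z.di == 0 &&
    x.dj + y.dj + z.dj == 0 && Nat.blt q τ.nq && (f1 || (q == x.q && h == x.h)) &&
    (f2 || (q == y.q && h + x.di == y.h)) && (f3 || (q == z.q && h + x.di + y.di == z.h)) &&
    decide (τ.V0 ≤ x.v0 + y.v0 + z.v0) && decide (τ.V1 ≤ x.v1 + y.v1 + z.v1) &&
    decide (τ.S0 ≤ x.sl + y.sl + z.sl)

def rt2b (τ : Tab) (x y : Off) : Bool :=
  x.kb == y.ka && y.kb == rotL (rotL x.ka) && x.di + y.di == 0 && x.dj + y.dj == 0 &&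
    Nat.blt x.q τ.nq && x.q == y.q && x.h + x.di == y.h && decide (τ.V0 ≤ x.v0 + y.v0) &&
    decide (τ.V1 ≤ x.v1 + y.v1) && decide (τ.S0 ≤ x.sl + y.sl)

/-- Root check on three lists of groups; `40` bits of the stream for each triple. -/
noncomputable def chkR (τ : Tab) (a l1 l2 l3 c1 c2 c3 : ℕ) (L1 L2 L3 : List ℕ) (s : ℕ) : Bool :=
  allN L1.length fun g1 => allN L2.length fun g2 => allN L3.length fun g3 =>
    force (nth 0 L1 g1) fun p1 => force (nth 0 L2 g2) fun p2 => force (nth 0 L3 g3) fun p3 =>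
    orb (fan3b c1 c2 c3 p1 p2 p3) <|
      force (bits s (40 * ((g1 * L2.length + g2) * L3.length + g3)) 1099511627776) fun v =>
      force (v % 1024) fun j1 => force (bits v 10 1024) fun j2 => force (bits v 20 1024) fun j3 =>
      andb (Nat.blt j1 (cnt (Nat.shiftRight p1 2))) <| andb (Nat.blt j2 (cnt (Nat.shiftRight p2 2))) <|
      andb (Nat.blt j3 (cnt (Nat.shiftRight p3 2))) <|
      rt3b τ (τ.free a (a + l1)) (τ.free ((a + l1) % (τ.m + 1)) ((a + l1) % (τ.m + 1) + l2))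
        (τ.free ((a + l1 + l2) % (τ.m + 1)) ((a + l1 + l2) % (τ.m + 1) + l3))
        (dec (wd (Nat.shiftRight p1 2) j1)) (τ.up (a + l1) (dec (wd (Nat.shiftRight p2 2) j2)))
        (τ.up (a + l1 + l2) (dec (wd (Nat.shiftRight p3 2) j3))) (bits v 30 4) ((bits v 32 32 : ℤ) - 16)

/-- Root check on two states of the strip; one stream for each first state. -/
noncomputable def chkP (τ : Tab) (L W : List ℕ) : Bool :=
  all2 (fun p1 s => allN L.length fun g2 => force (nth 0 L g2) fun p2 =>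
    orb ((p1 % 2 == 1 && bits p2 1 2 == 1) || (bits p1 1 2 == 1 && p2 % 2 == 1)) <|
      force (bits s (20 * g2) 1024) fun j1 => force (bits s (20 * g2 + 10) 1024) fun j2 =>
      andb (Nat.blt j1 (cnt (Nat.shiftRight p1 2))) <| andb (Nat.blt j2 (cnt (Nat.shiftRight p2 2))) <|
      rt2b τ (dec (wd (Nat.shiftRight p1 2) j1)) (τ.rot (dec (wd (Nat.shiftRight p2 2) j2)))) L W

/-! ### One check for each region and one for each first cell of the root -/

noncomputable def allG (f : Bool) (LS : List ℕ) (LL : List (List ℕ)) : List (List ℕ) → Bool :=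
  List.rec (motive := fun _ => List (List ℕ) → Bool) (fun _ => true)
    (fun L _ ih W => List.rec (motive := fun _ => Bool) false
      (fun w W' _ => andb (orb (Nat.beq L.length 0) (chkG f LS L w)) (ih W')) W) LL

/-- Validity, groups and (for small regions) joins of the region `(a, a + l)`, both classes. -/
noncomputable def chkA (τ : Tab) (DK : List ℕ) (DM : List (List ℕ)) (DG : List (List (List ℕ)))
    (a l b b2 : ℕ) (WS : List ℕ) (W0 W1 : List (List ℕ)) : Bool :=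
  andb (chkV τ DM a l 0) <| andb (chkV τ DM a l 1) <|
  andb (allG (τ.free a (a + l)) (nth [] DM (idx τ.m a l 0)) (nth [] DG (idx τ.m a l 0)) W0) <|
  andb (allG (τ.free a (a + l)) (nth [] DM (idx τ.m a l 1)) (nth [] DG (idx τ.m a l 1)) W1) <|
  orb (!τ.has a (a + l) 0) (chkS τ DK DM a l b b2 WS)

/-- The joins of the large region `(a, a + l)` at the cells `a + j0, ..., a + j0 + n - 1`. -/
noncomputable def chkB (τ : Tab) (DK : List ℕ) (DM : List (List ℕ)) (a l b b2 j0 n : ℕ)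
    (W : List (List (List ℕ))) : Bool :=
  orb (!τ.has a (a + l) 1) (allN n fun i => force (Nat.add j0 i) fun j =>
    chkM τ DK DM a l j b b2 (nth [] W i))

/-- All root triples with first cell `a`. -/
noncomputable def chkC (τ : Tab) (DG : List (List (List ℕ))) (a : ℕ) (W : List (List ℕ)) : Bool :=
  allN (τ.m + 2) fun l1 => allN (l1 + 1) fun l2 => force (2 * (τ.m + 1) - l1 - l2) fun l3 =>
    orb (Nat.blt l1 l3 || (a == 0 && l1 == τ.m + 1)) <| allN 8 fun c =>
      force (c / 4) fun c1 => force (c / 2 % 2) fun c2 => force (c % 2) fun c3 =>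
      orb (!(τ.has a (a + l1) c1 && τ.has (a + l1) (a + l1 + l2) c2 &&
        τ.has (a + l1 + l2) (a + l1 + l2 + l3) c3)) <|
      force (nth 0 (nth [] W (l1 * (τ.m + 2) + l2)) c) fun s =>
      force (idx τ.m ((a + l1) % (τ.m + 1)) l2 c2) fun i2 =>
      force (idx τ.m ((a + l1 + l2) % (τ.m + 1)) l3 c3) fun i3 =>
      andb (Nat.blt 0 (nth [] (nth [] DG (idx τ.m a l1 c1)) (s % 8)).length) <|
      andb (Nat.blt 0 (nth [] (nth [] DG i2) (bits s 3 8)).length) <|
      andb (Nat.blt 0 (nth [] (nth [] DG i3) (bits s 6 8)).length) <|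
      force (Nat.shiftRight s 9) fun s' =>
      chkR τ a l1 l2 l3 c1 c2 c3 (nth [] (nth [] DG (idx τ.m a l1 c1)) (s % 8))
        (nth [] (nth [] DG i2) (bits s 3 8)) (nth [] (nth [] DG i3) (bits s 6 8)) s'

end Pool.Agent.Lib.MP_4b56aa_gt.Cert
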