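import Pool.Agent.Lib.MP_4b56aa_gt.Cert.CRoot
import Pool.Agent.Lib.MP_4b56aa_gt.Out.OStrict

/-! From finitely many tables to the margin of the trees that are not fans. -/

namespace Pool.Agent.Lib.MP_4b56aa_gt.Cert

open Pool.Agent.Lib.MP_4b56aa_gt.Red Pool.Agent.Lib.MP_4b56aa_gt.Fan Pool.Agent.Lib.MP_4b56aa_gt.Out

/-- The bound with the coefficient `κ` of the straight length, the value `v` and the slope `w`. -/
def Node (κ v w : ℝ) : Prop :=
  ∀ (L ρ r ε : ℝ) (n : ℕ) (ψ x : ℕ → ℝ) (P : ℕ → ℂ), 0 < L → 0 < r → r ≤ ρ → 0 < ε → ε < 1 →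
    Rs * (r + (ρ + r + 2) * ε) ≤ ρ + r →
    Samp L ε n ψ x → (∀ i, P (i + n) = P i) → (∀ i, dist (P i) (smp (ρ + r) ψ x i) ≤ r + ε) →
    ∀ (a b e : ℕ) (y : ℂ) (c1 c2 c3 : ℝ) (X1 X2 X3 : Set ℂ),
      IT P a b y c1 X1 → IT P b e y c2 X2 → IT P e (a + n) y c3 X3 →
      ψ b - ψ a ≤ Real.pi → ψ e - ψ b ≤ Real.pi → ψ (a + n) - ψ e < Real.pi →
      (∃ p, FanAt P ψ n p (c1 + c2 + c3) (X1 ∪ X2 ∪ X3)) ∨
        2 * Real.pi * (ρ - (ρ + r + 2) * ε) + 4 * L * κ + (r + (ρ + r + 2) * ε) * v +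
          (ρ + r - Rs * (r + (ρ + r + 2) * ε)) * w ≤ c1 + c2 + c3

/-- The value of the horseshoe of tilt `θ` at the critical radius. -/
noncomputable def bt (θ : ℝ) : ℝ := -2 * (1 + (Rs - 1) * θ - Rs * Real.sin θ)

/-- A slope in the radius that is better than the slope of the horseshoe. -/
noncomputable def bs (θ : ℝ) : ℝ := -1.9 * (θ - Real.sin θ)

variable {κ v w κ1 v1 w1 κ2 v2 w2 l θ : ℝ} {τ : Tab}

theorem Node.mix (h1 : Node κ1 v1 w1) (h2 : Node κ2 v2 w2) (l0 : 0 ≤ l) (l1 : l ≤ 1)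
    (hκ : κ ≤ l * κ1 + (1 - l) * κ2) (hv : v ≤ l * v1 + (1 - l) * v2)
    (hw : w ≤ l * w1 + (1 - l) * w2) : Node κ v w := by
  intro L ρ r ε n ψ x P a1 a2 a3 a4 a5 a6 a7 a8 a9 a b e y c1 c2 c3 X1 X2 X3 b1 b2 b3 b4 b5 b6
  rcases h1 L ρ r ε n ψ x P a1 a2 a3 a4 a5 a6 a7 a8 a9 a b e y c1 c2 c3 X1 X2 X3 b1 b2 b3 b4 b5 b6
    with g1 | g1
  · exact Or.inl g1
  refine (h2 L ρ r ε n ψ x P a1 a2 a3 a4 a5 a6 a7 a8 a9 a b e y c1 c2 c3 X1 X2 X3 b1 b2 b3 b4 b5
    b6).imp_right fun g2 => ?_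
  have r0 : 0 ≤ r + (ρ + r + 2) * ε := by have := a2.le.trans a3; positivity
  linarith [mul_le_mul_of_nonneg_left g1 l0, mul_le_mul_of_nonneg_left g2 (sub_nonneg.2 l1),
    mul_le_mul_of_nonneg_left hκ a1.le, mul_le_mul_of_nonneg_left hv r0,
    mul_le_mul_of_nonneg_left hw (sub_nonneg.2 a6)]

theorem Tab.Concl.node (h : τ.Concl) {t : ℝ} (h0 : 0 ≤ t) (h1 : t ≤ τ.T) (h2 : τ.T ≠ 0 → 0 < t)
    (hκ : ∀ q < τ.nq, κ ≤ τ.kap t q) : Node κ (itp τ.T t τ.V0 τ.V1) (τ.S0 / Q) :=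
  fun L ρ r ε n ψ x P => h t κ L ρ r ε n ψ x P h0 h1 h2 hκ

/-- Coefficient and value of a table at the largest tilt. -/
def Tab.top (τ : Tab) : ℤ × ℤ :=
  (((List.range τ.nq).map fun q => (cs (dg τ.T (τ.XB q)) + cs (dg τ.T (τ.XT q))) / 2 - 1).foldr min Q,
    if τ.T = 0 then τ.V0 else τ.V1)

theorem foldr_min_le {L : List ℤ} {a b : ℤ} (h : a ∈ L) : L.foldr min b ≤ a := by
  induction L with
  | nil => simp at h
  | cons y L ih =>
    rcases List.mem_cons.1 h with rfl | h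
    exacts [min_le_left _ _, (min_le_right _ _).trans (ih h)]

theorem Tab.Concl.top (h : τ.Concl) (hT : τ.T ≤ 10) :
    Node (τ.top.1 / Q) (τ.top.2 / Q) (τ.S0 / Q) := by
  have := h.node (κ := τ.top.1 / Q) (Nat.cast_nonneg _) le_rfl (fun g => by positivity) fun q g => by
    have a : τ.top.1 ≤ (cs (dg τ.T (τ.XB q)) + cs (dg τ.T (τ.XT q))) / 2 - 1 :=
      foldr_min_le (List.mem_map.2 ⟨q, List.mem_range.2 g, rfl⟩)
    have b : 2 * τ.top.1 + 2 ≤ cs (dg τ.T (τ.XB q)) + cs (dg τ.T (τ.XT q)) := by omega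
    have c : (2 : ℝ) * τ.top.1 + 2 ≤ cs (dg τ.T (τ.XB q)) + cs (dg τ.T (τ.XT q)) := by exact_mod_cast b
    have d := abs_le.1 (cs_near (dg τ.T (τ.XB q)))
    have e := abs_le.1 (cs_near (dg τ.T (τ.XT q)))
    rw [Tab.kap, av_dg hT, av_dg hT, Real.cos_sub_two_pi, Real.cos_sub_two_pi]
    rw [Q_eq] at *
    linarith [d.2, e.2]
  rwa [show itp τ.T τ.T τ.V0 τ.V1 = τ.top.2 / Q by
    unfold itp Tab.top
    split_ifs with g
    · simp [g]
    · rw [div_self (by positivity)]; simp] at this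

theorem deg_cell (h0 : 0 ≤ θ) (h1 : θ ≤ Real.pi / 3) :
    ∃ d : ℕ, d < 60 ∧ rad d ≤ θ ∧ θ ≤ rad (d + 1 : ℕ) := by
  have pi := Real.pi_pos
  have e : θ = θ / (Real.pi / 180) * (Real.pi / 180) := by field_simp
  have u : θ / (Real.pi / 180) ≤ 60 := by rw [div_le_iff₀ (by positivity)]; linarith
  have u0 : 0 ≤ θ / (Real.pi / 180) := by positivity
  generalize θ / (Real.pi / 180) = z at e u u0
  rcases le_total 59 z with c | c
  · exact ⟨59, by omega, e ▸ rad_le (by simpa using c), e ▸ rad_le (by norm_num; exact u)⟩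
  · refine ⟨⌊z⌋₊, ?_, e ▸ rad_le (Nat.floor_le u0), e ▸ rad_le (by
      push_cast; exact (Nat.lt_floor_add_one z).le)⟩
    exact (Nat.floor_lt u0).2 (by push_cast; linarith)

/-- The line through two nodes is above the curve of the horseshoes. -/
def lineOK (a b : ℤ × ℤ) : Bool :=
  decide (b.1 < a.1) && decide (a.2 ≤ b.2) && (List.range 61).all fun d =>
    decide (4096 * (a.1 - b.1) * (RL + 1) * (sn d + 1) +
      1024 * Q * (640 * (b.2 - a.2) + 5201 * (a.1 - b.1)) ≤ 1024 * Q * (2 * a.1 * b.2 - 2 * b.1 * a.2 -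
        (b.2 - a.2) * (Q + cs d) + 4 * (a.1 - b.1) * Q) + 4 * (a.1 - b.1) * Q * RD * d)

theorem line_sound {a b : ℤ × ℤ} (h : lineOK a b = true) (h0 : 0 ≤ θ) (h1 : θ ≤ Real.pi / 3) :
    (b.1 : ℝ) < a.1 ∧ (a.1 - b.1) * (Q * bt θ) ≤
      (Q * ((1 + Real.cos θ) / 2) - b.1) * a.2 + (a.1 - Q * ((1 + Real.cos θ) / 2)) * b.2 := by
  simp only [lineOK, Bool.and_eq_true, decide_eq_true_eq, List.all_eq_true, List.mem_range] at h
  obtain ⟨⟨h2, h3⟩, h4⟩ := h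
  have D : (0 : ℝ) < a.1 - b.1 := sub_pos.2 (by exact_mod_cast h2)
  have W : (0 : ℝ) ≤ b.2 - a.2 := sub_nonneg.2 (by exact_mod_cast h3)
  have R := Rs_mem
  have pi := Real.pi_pos
  refine ⟨sub_pos.1 D, ?_⟩
  set g : ℝ → ℝ := fun x => 4 * (a.1 - b.1) * (Rs - 1) * x - (b.2 - a.2) * Real.cos x -
    4 * (a.1 - b.1) * Rs * Real.sin x with hg
  have n : ‖(⟨-(b.2 - a.2), -(4 * (a.1 - b.1) * Rs)⟩ : ℂ)‖ ≤ b.2 - a.2 + 4 * (a.1 - b.1) * Rs := by
    refine (Complex.norm_le_abs_re_add_abs_im _).trans (le_of_eq ?_)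
    simp only [abs_neg]
    rw [abs_of_nonneg W, abs_of_nonneg (by have : 0 ≤ Rs := by linarith
                                           positivity)]
  have sc : SC g (0 + (b.2 - a.2 + 4 * (a.1 - b.1) * Rs) * 1 ^ 2) :=
    ((sc_lin (f := fun x => 4 * (a.1 - b.1) * (Rs - 1) * x) (c := 0) fun x => (zero_add _).symm).add
      (sc_dot (g := id) (c := 0) (ω := 1) n fun x => by simp)).congr fun x => by
        simp only [hg, dot, nv_re, nv_im, id]; ring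
  have pt : ∀ d : ℕ, d ≤ 60 → 639 * (b.2 - a.2) + 5201 * (a.1 - b.1) ≤ 2 * a.1 * b.2 - 2 * b.1 * a.2 -
      (b.2 - a.2) * Q + 4 * (a.1 - b.1) * Q + Q * g (rad d) := fun d hd => by
    have k : (4096 : ℝ) * (a.1 - b.1) * (RL + 1) * (sn d + 1) +
      1024 * Q * (640 * (b.2 - a.2) + 5201 * (a.1 - b.1)) ≤ 1024 * Q * (2 * a.1 * b.2 - 2 * b.1 * a.2 -
        (b.2 - a.2) * (Q + cs d) + 4 * (a.1 - b.1) * Q) + 4 * (a.1 - b.1) * Q * RD * d := by
      exact_mod_cast h4 d (by omega)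
    have d0 : (0 : ℝ) ≤ d := Nat.cast_nonneg _
    have d1 : (d : ℝ) ≤ 60 := by exact_mod_cast hd
    have s0 : 0 ≤ Real.sin (rad d) := Real.sin_nonneg_of_nonneg_of_le_pi (by unfold rad; positivity)
      (by unfold rad; nlinarith)
    have k1 := mul_le_mul_of_nonneg_left (abs_le.1 (cs_near d)).1 W
    have k2 := mul_le_mul_of_nonneg_left (mul_le_mul RL_mem.2
      (show Q * Real.sin (rad d) ≤ sn d + 1 by linarith [(abs_le.1 (sn_near d)).1])
      (by rw [Q_eq]; positivity) (by norm_num [RL])) D.le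
    have k3 := mul_le_mul_of_nonneg_left RD_mem.1 (mul_nonneg D.le d0)
    simp only [hg]
    rw [show 4 * ((a.1 : ℝ) - b.1) * (Rs - 1) * rad d =
      4 * (a.1 - b.1) * (Rs - 1) * (d * (Real.pi / 180)) from rfl]
    rw [Q_eq] at *
    linarith
  obtain ⟨d, d1, d2, d3⟩ := deg_cell h0 h1
  have M0 : 0 ≤ (b.2 : ℝ) - a.2 + 4 * (a.1 - b.1) * Rs := (norm_nonneg _).trans n
  have m := sc.min (by linarith) d2 d3
  rw [show rad (d + 1 : ℕ) - rad d = Real.pi / 180 by unfold rad; push_cast; ring] at m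
  have p1 := pt d d1.le
  have p2 := pt (d + 1) d1
  have k := mul_le_mul_of_nonneg_left pi_sq M0
  have k' := mul_le_mul_of_nonneg_left R.2 D.le
  have e : g θ = 4 * (a.1 - b.1) * (Rs - 1) * θ - (b.2 - a.2) * Real.cos θ -
    4 * (a.1 - b.1) * Rs * Real.sin θ := rfl
  unfold bt
  rw [Q_eq] at *
  rcases min_cases (g (rad d)) (g (rad (d + 1 : ℕ))) with c | c <;> rw [c.1] at m <;> linarith

/-- Between two nodes the slope in the radius is good enough. -/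
def slopeOK (k1 s1 k2 s2 : ℤ) : Bool :=
  decide (s2 ≤ s1) && (List.range 60).all fun d => decide (2 * k1 + 1 < Q + cs (d + 1)) ||
    decide (Q + cs d + 1 < 2 * k2) || decide (0 ≤ 5120 * ((Q + cs (d + 1) - 1) * (s1 - s2) +
      2 * (k1 * s2 - k2 * s1)) + 19 * (k1 - k2) * (PD * d - 1024 * (sn d + 1)))

theorem slope_sound {k1 s1 k2 s2 : ℤ} (h : slopeOK k1 s1 k2 s2 = true) (h0 : 0 ≤ θ)
    (h1 : θ ≤ Real.pi / 3) (h2 : Q * ((1 + Real.cos θ) / 2) ≤ k1)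
    (h3 : k2 ≤ Q * ((1 + Real.cos θ) / 2)) : (k1 - k2) * (Q * bs θ) ≤
      (Q * ((1 + Real.cos θ) / 2) - k2) * s1 + (k1 - Q * ((1 + Real.cos θ) / 2)) * s2 := by
  simp only [slopeOK, Bool.and_eq_true, Bool.or_eq_true, decide_eq_true_eq, List.all_eq_true,
    List.mem_range] at h
  obtain ⟨d, d1, d2, d3⟩ := deg_cell h0 h1
  have pi := Real.pi_pos
  have d0 : (0 : ℝ) ≤ d := Nat.cast_nonneg _
  have d4 : ((d + 1 : ℕ) : ℝ) ≤ 60 := by exact_mod_cast d1
  have c1 := Real.cos_le_cos_of_nonneg_of_le_pi h0 (by unfold rad; nlinarith) d3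
  have c2 := Real.cos_le_cos_of_nonneg_of_le_pi (by unfold rad; positivity) (by linarith) d2
  have e1 := (abs_le.1 (cs_near (d + 1))).2
  have e2 := (abs_le.1 (cs_near d)).1
  have e3 := (abs_le.1 (sn_near d)).1
  have W : (0 : ℝ) ≤ s1 - s2 := sub_nonneg.2 (by exact_mod_cast h.1)
  rcases h.2 d d1 with (g | g) | g
  · have g' : (2 : ℝ) * k1 + 1 < Q + cs (d + 1) := by exact_mod_cast g
    rw [Q_eq] at *
    linarith
  · have g' : (Q : ℝ) + cs d + 1 < 2 * k2 := by exact_mod_cast g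
    rw [Q_eq] at *
    linarith
  have g' : (0 : ℝ) ≤ 5120 * ((Q + cs (d + 1) - 1) * (s1 - s2) + 2 * (k1 * s2 - k2 * s1)) +
    19 * (k1 - k2) * (PD * d - 1024 * (sn d + 1)) := by exact_mod_cast g
  have m := (abs_le.1 ((Real.abs_sin_sub_sin_le θ (rad d)).trans_eq (abs_of_nonneg (by linarith)))).2
  have p := mul_le_mul_of_nonneg_right PD_mem.1 d0
  have e : rad d = d * (Real.pi / 180) := rfl
  unfold bs
  rw [Q_eq] at *
  have q1 := mul_le_mul_of_nonneg_left (show (PD : ℝ) * d - 1024 * (sn d + 1) ≤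
    1024 * 16777216 * (θ - Real.sin θ) by linarith) (show (0 : ℝ) ≤ k1 - k2 by linarith)
  have q2 := mul_le_mul_of_nonneg_right (show (16777216 : ℝ) + cs (d + 1) - 1 ≤
    16777216 * (1 + Real.cos θ) by linarith) W
  linarith

theorem step_sound {a b : ℤ × ℤ} {s1 s2 : ℤ} (g1 : lineOK a b = true)
    (g2 : slopeOK a.1 s1 b.1 s2 = true) (n1 : Node (a.1 / Q) (a.2 / Q) (s1 / Q))
    (n2 : Node (b.1 / Q) (b.2 / Q) (s2 / Q)) (h0 : 0 ≤ θ) (h1 : θ ≤ Real.pi / 3)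
    (h2 : Q * ((1 + Real.cos θ) / 2) ≤ a.1) (c : (b.1 : ℝ) ≤ Q * ((1 + Real.cos θ) / 2)) :
    Node ((1 + Real.cos θ) / 2) (bt θ) (bs θ) := by
  obtain ⟨l1, l2⟩ := line_sound g1 h0 h1
  have l3 := slope_sound g2 h0 h1 h2 c
  have D := sub_pos.2 l1
  have Q0 : (0 : ℝ) < Q := by rw [Q_eq]; norm_num
  refine n1.mix n2 (l := (Q * ((1 + Real.cos θ) / 2) - b.1) / (a.1 - b.1))
    (div_nonneg (sub_nonneg.2 c) D.le) ((div_le_one D).2 (by linarith))
    (le_of_eq (by field_simp; ring)) ?_ ?_ <;>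
  refine le_of_mul_le_mul_left (a := ((a.1 : ℝ) - b.1) * Q) ?_ (mul_pos D Q0) <;>
  rw [mul_assoc]
  exacts [l2.trans_eq (by field_simp; ring), l3.trans_eq (by field_simp; ring)]

/-- Consecutive nodes cover all tilts up to sixty degrees; the last node covers the rest. -/
def chainOK : List Tab → Bool
  | a :: b :: r => lineOK a.top b.top && slopeOK a.top.1 a.S0 b.top.1 b.S0 && chainOK (b :: r)
  | [a] => lineOK a.top (12582912, a.top.2) && slopeOK a.top.1 a.S0 12582912 a.S0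
  | [] => false

theorem chain_sound {L : List Tab} {a : Tab} (h : chainOK (a :: L) = true)
    (hn : ∀ p ∈ a :: L, Node (p.top.1 / Q) (p.top.2 / Q) (p.S0 / Q)) (h0 : 0 ≤ θ)
    (h1 : θ ≤ Real.pi / 3) (h2 : Q * ((1 + Real.cos θ) / 2) ≤ a.top.1) :
    Node ((1 + Real.cos θ) / 2) (bt θ) (bs θ) := by
  induction L generalizing a with
  | nil =>
    simp only [chainOK, Bool.and_eq_true] at h
    have n := hn a List.mem_cons_self
    have c := Real.cos_le_cos_of_nonneg_of_le_pi h0 (by linarith [Real.pi_pos]) h1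
    have l := (line_sound h.1 h0 h1).1
    rw [Real.cos_pi_div_three] at c
    refine step_sound h.1 h.2 n (n.mix n zero_le_one le_rfl ?_ (by simp) (by simp)) h0 h1 h2 ?_ <;>
      rw [Q_eq] <;> push_cast at l ⊢ <;> linarith
  | cons b L ih =>
    simp only [chainOK, Bool.and_eq_true] at h
    by_cases c : (b.top.1 : ℝ) ≤ Q * ((1 + Real.cos θ) / 2)
    · exact step_sound h.1.1 h.1.2 (hn a (by simp)) (hn b (by simp)) h0 h1 h2 c
    · exact ih h.2 (fun p g => hn p (List.mem_cons_of_mem _ g)) (not_le.1 c).le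

/-- The check of the first table, which has a symbolic tilt, and of the chain of nodes. -/
def finOK (τ : Tab) (L : List Tab) : Bool :=
  τ.xb == [272] && Nat.ble 1 τ.T && decide (-2 * Q ≤ τ.V0) && decide (Q * τ.T ≤ 20 * (τ.V1 + 2 * Q)) &&
    decide (Q ≤ τ.top.1 + 2588 * τ.T * τ.T) && (τ :: L).all (fun s => Nat.ble s.T 10) &&
    chainOK (τ :: L) && decide (0 ≤ τ.S0)

theorem cos_half {x : ℝ} (h0 : 0 ≤ x) (h1 : x ≤ 1 / 4) : (1 + Real.cos x) / 2 ≤ 1 - 0.2483 * x ^ 2 := by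
  have := (abs_le.1 (Real.cos_bound (x := x) (abs_le.2 ⟨by linarith, by linarith⟩))).2
  rw [abs_of_nonneg h0] at this
  nlinarith [mul_le_mul_of_nonneg_left (show x ^ 2 ≤ 1 / 16 by nlinarith) (sq_nonneg x)]

theorem node_all {L : List Tab} (h : finOK τ L = true) (hc : ∀ s ∈ τ :: L, s.Concl) (h0 : 0 < θ)
    (h1 : θ ≤ Real.pi / 3) : Node ((1 + Real.cos θ) / 2) (bt θ) (bs θ) := by
  simp only [finOK, Bool.and_eq_true, beq_iff_eq, Nat.ble_eq, decide_eq_true_eq, List.all_eq_true] at h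
  obtain ⟨⟨⟨⟨⟨⟨⟨a1, a2⟩, a3⟩, a4⟩, a5⟩, a6⟩, a7⟩, a8⟩ := h
  have pi := Real.pi_pos
  have p1 := Real.pi_gt_d4
  have p2 := Real.pi_lt_d4
  have T0 : (1 : ℝ) ≤ τ.T := by exact_mod_cast a2
  have T1 : (τ.T : ℝ) ≤ 10 := by exact_mod_cast a6 τ List.mem_cons_self
  have b1 : τ.T * Real.pi / 126 ≤ 1 / 4 := by nlinarith
  rcases le_total θ (τ.T * Real.pi / 126) with c | c
  · have t0 : 0 < θ * 126 / Real.pi := by positivity
    have t1 : θ * 126 / Real.pi ≤ τ.T := by rw [div_le_iff₀ pi]; linarith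
    have N := (hc τ List.mem_cons_self).node (κ := (1 + Real.cos θ) / 2) t0.le t1 (fun _ => t0)
      fun q g => by
        obtain rfl : q = 0 := by simpa [Tab.nq, a1] using g
        have e : av (θ * 126 / Real.pi) 272 = 0.7 * θ := by norm_num [av]; field_simp; norm_num
        rw [Tab.kap, show τ.XB 0 = 272 by simp [Tab.XB, a1], show τ.XT 0 = 272 by
          simp [Tab.XT, Tab.nq, a1], e]
        nlinarith [cos_half h0.le (c.trans b1), Real.one_sub_sq_div_two_le_cos (x := 0.7 * θ),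
          sq_nonneg θ]
    have a8' : (0 : ℝ) ≤ τ.S0 / Q := div_nonneg (by exact_mod_cast a8) (by rw [Q_eq]; norm_num)
    refine N.mix N zero_le_one le_rfl (by simp) ?_ (by unfold bs; linarith [Real.sin_le h0.le])
    have tm : Tm τ.T (θ * 126 / Real.pi) := ⟨a6 τ List.mem_cons_self, t0.le, t1⟩
    have a3' : (-2 : ℝ) * Q ≤ τ.V0 := by exact_mod_cast a3
    have a4' : (Q : ℝ) * τ.T ≤ 20 * (τ.V1 + 2 * Q) := by exact_mod_cast a4
    have k1 := mul_le_mul_of_nonneg_left a3' (sub_nonneg.2 tm.l1)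
    have k2 := mul_le_mul_of_nonneg_left a4' tm.l0
    have k3 := tm.mul
    have k4 : 40 * θ ≤ θ * 126 / Real.pi := by rw [le_div_iff₀ pi]; nlinarith
    have k5 := mul_le_mul_of_nonneg_left (Real.sin_le h0.le) (show 0 ≤ Rs by linarith [Rs_mem.1])
    unfold bt itp
    rw [Q_eq] at *
    linarith
  · refine chain_sound a7 (fun p g => (hc p g).top (a6 p g)) h0.le h1 ?_
    · have a5' : (Q : ℝ) ≤ τ.top.1 + 2588 * τ.T * τ.T := by exact_mod_cast a5
      have u0 : 0 ≤ τ.T * Real.pi / 126 := by positivity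
      have k1 := Real.cos_le_cos_of_nonneg_of_le_pi u0 (by linarith) c
      have k2 := cos_half u0 b1
      have k3 := pow_le_pow_left₀ (by positivity) (show τ.T * 0.02493 ≤ τ.T * Real.pi / 126 by
        nlinarith) 2
      rw [Q_eq] at *
      nlinarith [sq_nonneg (τ.T : ℝ)]

theorem nonFan_of {L : List Tab} (h : finOK τ L = true) (hc : ∀ s ∈ τ :: L, s.Concl) {l ρ r : ℝ}
    (hp : Par l ρ r θ) (hρ : (√6 - √2) * r < ρ) : NonFan l ρ r θ := by
  have r0 := hp.hr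
  have ρ0 := r0.trans_le hp.hρ
  have pi := Real.pi_pos
  have Rs0 : 0 < Rs := by linarith [Rs_mem.1]
  have h1 : θ ≤ Real.pi / 3 := by
    by_contra g
    have := Real.cos_lt_cos_of_nonneg_of_le_pi (x := Real.pi / 3) (y := θ) (by positivity)
      (by linarith [hp.h1]) (not_le.1 g)
    rw [Real.cos_pi_div_three] at this
    have s := mul_pos hp.hL (Real.sin_pos_of_pos_of_lt_pi hp.h0 (by linarith [hp.h1]))
    nlinarith [hp.rel, hp.hρ]
  have N := node_all h hc hp.h0 h1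
  have d0 : 0 < ρ + r - Rs * r := by unfold Rs; linarith
  set δ := 0.1 * (ρ + r - Rs * r) * (θ - Real.sin θ) with hδ
  set e0 := (ρ + r - Rs * r) / (Rs * (ρ + r + 2)) with he
  have e1 : 0 < e0 := by positivity
  have s := sub_pos.2 (Real.sin_lt hp.h0)
  refine ⟨δ, (ρ + r + 2) * (2 * Real.pi + |bt θ|) + |Lst l ρ r θ + δ| / e0, by positivity, ?_⟩
  intro ε n ψ x P a1 a2 a3 a4 a5 a b e y c1 c2 c3 X1 X2 X3 b1 b2 b3 b4 b5 b6
  have k1 : 0 ≤ (ρ + r + 2) * (2 * Real.pi + |bt θ|) * ε := by positivity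
  have k2 : 0 ≤ |Lst l ρ r θ + δ| / e0 := by positivity
  rcases le_total ε e0 with c | c
  · rw [he, le_div_iff₀ (by positivity)] at c
    refine (N l ρ r ε n ψ x P hp.hL r0 hp.hρ a1 a2 (by linarith) a3 a4 a5 a b e y c1 c2 c3 X1 X2 X3
      b1 b2 b3 b4 b5 b6).imp_right fun g => ?_
    have k3 := mul_le_mul_of_nonneg_left (neg_abs_le (bt θ))
      (show 0 ≤ (ρ + r + 2) * ε by positivity)
    have k4 : r * bt θ = r * (-2 * (1 + (Rs - 1) * θ - Rs * Real.sin θ)) := rfl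
    have k5 : Lst l ρ r θ = 2 * (l + ρ * (Real.pi - θ)) +
      2 * (l * Real.cos θ + (ρ + r) * Real.sin θ - r) := rfl
    have k6 : 0 ≤ Rs * ((ρ + r + 2) * ε) * (θ - Real.sin θ) := by positivity
    unfold bs at g
    linarith [mul_nonneg k2 a1.le]
  · have k3 := mul_le_mul_of_nonneg_left c k2
    rw [div_mul_cancel₀ _ e1.ne'] at k3
    exact Or.inr (by linarith [b1.nonneg, b2.nonneg, b3.nonneg, le_abs_self (Lst l ρ r θ + δ)])

/-- The exact threshold from a chain of certified tables. -/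
theorem exact_of_tables {L : List Tab} (h : finOK τ L = true) (hc : ∀ s ∈ τ :: L, s.Concl) {r : ℝ}
    (hr : 0 < r) : IsLUB {C : ℝ | 1 < C ∧ ∃ a b : Plane, a ≠ b ∧ ∃ S : Set Plane,
      IsMinimizer r (stadium (C * r) a b) S ∧ ¬ IsHorseshoe r (C * r) a b S} (1 + √6 - √2) :=
  exact_of_nonFan hr fun _ _ _ hp hρ => nonFan_of h hc hp hρ

/-- The same in both readings of the word horseshoe. -/
theorem shoe_of_tables {L : List Tab} (h : finOK τ L = true) (hc : ∀ s ∈ τ :: L, s.Concl) (st : Prop)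
    {r : ℝ} (hr : 0 < r) : IsLUB {C : ℝ | 1 < C ∧ ∃ a b : Plane, a ≠ b ∧ ∃ S : Set Plane,
      IsMinimizer r (stadium (C * r) a b) S ∧ ¬ Horseshoe st r (C * r) a b S} (1 + √6 - √2) :=
  exact_shoe hr (fun _ _ _ hp hρ => core_of_nonFan hp (nonFan_of h hc hp hρ)) st

end Pool.Agent.Lib.MP_4b56aa_gt.Cert
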