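import Pool.Agent.Lib.MP_4b56aa_gt.Cert.CV6

/-! The programs on vectors give a certificate. -/

namespace Pool.Agent.Lib.MP_4b56aa_gt.Cert

def dS (p : ℕ) : St := ⟨Nat.beq (Nat.mod p 2) 1, Nat.beq (bits p 1 2) 1, ofs p⟩
def K2 (m : ℕ) (DK : ℕ → ℕ) (a l cl : ℕ) : List Off := ofs (DK (idx m a l cl))
def M2 (m : ℕ) (DM : ℕ → List ℕ) (a l cl : ℕ) : List St := (DM (idx m a l cl)).map dS

/-- `P` holds for `i, ..., j - 1`. -/
def Rng (P : ℕ → Prop) (i j : ℕ) : Prop := ∀ k, i ≤ k → k < j → P k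

theorem Rng.app {P : ℕ → Prop} {i j k : ℕ} (h1 : Rng P i j) (h2 : Rng P j k) : Rng P i k :=
  fun x a b => (lt_or_ge x j).elim (h1 x a) fun c => h2 x c b

theorem rng_sound {α : Type} {f : ℕ → α → Bool} {W : List α} {i j : ℕ} (h : rng f W i j = true) :
    Rng (fun i => ∃ w, f i w = true) i j := by
  induction W generalizing i with
  | nil => exact fun k a b => absurd (Nat.le_of_ble_eq_true h) (by omega)
  | cons w W ih =>
    rw [show rng f (w :: W) i j = andb (f i w) (rng f W (i + 1) j) from rfl, andb_eq, Bool.and_eq_true] at h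
    exact fun k a b => a.eq_or_lt.elim (fun e => ⟨w, e ▸ h.1⟩) fun e => ih h.2 k e b

variable {τ : Tab} {DK : ℕ → ℕ} {DM : ℕ → List ℕ} {DG : ℕ → List (List ℕ)} {a l j p : ℕ} {f : Bool}

theorem dm {n a l : ℕ} (h : l < n) : (n * a + l) / n = a ∧ (n * a + l) % n = l :=
  ⟨by rw [Nat.mul_add_div (by omega), Nat.div_eq_of_lt h, add_zero],
    by rw [Nat.mul_add_mod, Nat.mod_eq_of_lt h]⟩

theorem dm_lt {n a l A : ℕ} (ha : a < A) (h : l < n) : n * a + l < n * A := by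
  have := Nat.mul_le_mul_left n (Nat.succ_le_of_lt ha)
  rw [Nat.mul_succ] at this
  omega

theorem idx_dec {m cl : ℕ} (hl : l ≤ m + 1) (hc : cl ≤ 1) : idx m a l cl / 2 / (m + 2) = a ∧
    idx m a l cl / 2 % (m + 2) = l ∧ idx m a l cl % 2 = cl := by
  have e : idx m a l cl = 2 * ((m + 2) * a + l) + cl := rfl
  rw [e, (dm (Nat.lt_succ_of_le hc)).1, (dm (Nat.lt_succ_of_le hc)).2]
  exact ⟨(dm (Nat.lt_succ_of_le hl)).1, (dm (Nat.lt_succ_of_le hl)).2, rfl⟩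

/-- The offers of `p` that do not come from joins follow from offers of `k`. -/
def V2 (f : Bool) (k p : ℕ) : Prop :=
  ∀ i, nJ p ≤ i → i < nA p → ∃ x ∈ ofs k, Dom f (dc (ln (bd p) i)) x

theorem chkV2_sound {F : ℕ → ℕ} {nq c k : ℕ} {L W : List ℕ} (h : chkV2 F nq c f k L W = true) (hq : nq ≤ 4)
    (hp : p ∈ L) : (∀ i < nJ p, F (ln (bd p) i &&& KY) = 0 ∧ (f = true ∨ xq (ln (bd p) i) < nq)) ∧
      V2 f k p := by
  obtain ⟨s, e⟩ := all2_mem h hp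
  simp only [andb_eq, Bool.and_eq_true, Nat.beq_eq] at e
  refine ⟨fun i hi => ⟨vaV_sound e.1 hi, qOK_sound e.2.1 hq hi⟩, fun i h1 h2 => ?_⟩
  have := domV_sound e.2.2 (Nat.sub_lt_sub_right h1 h2)
  rwa [Nat.shiftRight_eq, Nat.mul_eq, ln_shr, Nat.add_sub_cancel' h1] at this

theorem valid_dom {b cl : ℕ} {o k : Off} (h : Dom (τ.free a b) o k) (v : τ.valid a b cl k = true) :
    τ.valid a b cl o = true := by
  obtain ⟨h1, h2, h3, h4, h5, -⟩ := h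
  unfold Tab.valid at v ⊢
  rw [h1, h2, h3, h4]
  revert h5 v
  cases τ.free a b
  · exact fun v g => by rwa [(g rfl).1]
  · exact fun v _ => v

/-- The parameters fit the fast programs. -/
def Tab.ok2 (τ : Tab) (n1 n2 n3 n4 n5 : ℕ) : Bool :=
  τ.ok && τ.N == 4 && Nat.ble τ.nq 4 && (List.range (2 * τ.m + 2)).all (fun c => Nat.blt (τ.lo c) 4096 &&
    (τ.grid false c).all (Nat.blt · 4096) && (τ.grid true c).all (Nat.blt · 4096)) &&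
  n1 == 2 * ((τ.m + 2) * (τ.m + 1)) && n2 == (τ.m + 2) * (τ.m + 1) &&
  n3 == 4 * ((τ.m + 2) * ((τ.m + 2) * (τ.m + 1))) && n4 == (τ.m + 2) * ((τ.m + 2) * (τ.m + 1)) &&
  n5 == idx τ.m 0 (τ.m + 1) 1

theorem fA_sound (hN : τ.N = 4) (hT : τ.T ≤ 10) (hq : τ.nq ≤ 4)
    (hc : ∀ c < 2 * τ.m + 2, τ.lo c < 4096 ∧ ∀ f, ∀ u ∈ τ.grid f c, u < 4096) {cl : ℕ} {W : List ℕ}
    (ha : a ≤ τ.m) (hl : l ≤ τ.m + 1) (k : cl ≤ 1) (h : fA τ DK DM (idx τ.m a l cl) W = true) :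
    (∀ o ∈ K2 τ.m DK a l cl, ∃ w, τ.kcheck a (a + l) cl o w = true) ∧ ∀ p ∈ DM (idx τ.m a l cl),
      (∀ o ∈ ofs p, τ.valid a (a + l) cl o = true) ∧ V2 (τ.free a (a + l)) (DK (idx τ.m a l cl)) p := by
  obtain ⟨e1, e2, e3⟩ := idx_dec (a := a) hl k
  simp only [fA, frc_eq, frb_eq, e1, e2, e3, andb_eq, Bool.and_eq_true, Nat.beq_eq] at h
  have c1 := hc a (by omega)
  have c2 := hc (a + l) (by omega)
  have hK : ∀ o ∈ K2 τ.m DK a l cl, ∃ w, τ.kcheck a (a + l) cl o w = true := fun o ho => by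
    obtain ⟨i, hi, rfl⟩ := of_ofs ho
    obtain ⟨v, e⟩ := lqK_sound h.2.1 hi
    exact koN_sound hN hT c1.1 c2.1 c1.2 c2.2 (qOK_sound h.1 hq hi) e
  refine ⟨hK, fun p hp => ?_⟩
  obtain ⟨g1, g2⟩ := chkV2_sound h.2.2 hq hp
  refine ⟨fun o ho => ?_, g2⟩
  obtain ⟨i, hi, rfl⟩ := of_ofs ho
  rcases lt_or_ge i (nJ p) with g | g
  · exact vaN_sound hN c1.1 c2.1 (g1 i g).1 (g1 i g).2
  · obtain ⟨x, hx, d⟩ := g2 i g hi
    obtain ⟨w, e⟩ := hK x hx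
    unfold Tab.kcheck at e
    simp only [Bool.and_eq_true] at e
    exact valid_dom d e.1.1.1.1.1.1.1.1.1.1.1

theorem J2.out {k p1 p2 : ℕ} {f1 f2 : Bool} (ha : a ≤ τ.m) (hj : j ≤ τ.m + 1)
    (h : J2 τ f1 f2 (Nat.blt τ.m (a + j)) p1 p2 p) (v : V2 f k p) : ∀ o ∈ ofs p,
    (∃ x ∈ ofs k, Dom f o x) ∨ ∃ x ∈ ofs p1, ∃ y ∈ ofs p2, Cmp f1 f2 o x (τ.up (a + j) y) := fun o ho => by
  obtain ⟨i, hi, rfl⟩ := of_ofs ho
  rcases lt_or_ge i (nJ p) with g | g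
  · exact Or.inr (by simpa only [up_eq ha hj] using h i g)
  · exact Or.inl (v i g hi)

/-- The state `p` is stronger than the group `g`. -/
def St2 (f : Bool) (g p : ℕ) : Prop :=
  (g % 2 = 1 → (dS p).ps = true) ∧ (bits g 1 2 = 1 → (dS p).pt = true) ∧
    ∀ i < nA g, ∃ k ∈ ofs p, Dom f (dc (wdN g i)) k

theorem chkG2_sound {c : ℕ} {LS LG W : List ℕ} (h : chkG2 f c LS LG W = true) (hp : p ∈ LS) :
    ∃ g ∈ LG, St2 f g p := by
  obtain ⟨s, e⟩ := all2_mem h hp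
  simp only [frc_eq, andb_eq, Bool.and_eq_true, Nat.blt_eq, Nat.ble_eq] at e
  obtain ⟨e1, e2, e3, e4⟩ := e
  have b1 : Nat.mod p 2 < 2 := Nat.mod_lt _ two_pos
  have b2 := bits_lt p 1 two_pos
  refine ⟨_, nth_mem 0 e1, fun g => Nat.beq_eq.mpr ?_, fun g => Nat.beq_eq.mpr (by omega), fun i hi => ?_⟩
  · exact le_antisymm (Nat.le_of_lt_succ b1) (g ▸ e2)
  · rw [wdN_eq]
    exact domV_sound e4 hi

theorem allG2_sound {c i : ℕ} {LS : List ℕ} {LL W : List (List ℕ)} (h : allG2 f c LS LL W = true)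
    (hi : 0 < (nth [] LL i).length) (hp : p ∈ LS) : ∃ g ∈ nth [] LL i, St2 f g p := by
  induction LL generalizing W i with
  | nil => exact absurd hi (lt_irrefl 0)
  | cons L LL ih =>
    cases W with
    | nil => exact absurd h Bool.false_ne_true
    | cons w W =>
      rw [show allG2 f c LS (L :: LL) (w :: W) = andb (orb (Nat.beq L.length 0) (chkG2 f c LS L w))
        (allG2 f c LS LL W) from rfl, andb_eq, orb_eq, Bool.and_eq_true, Bool.or_eq_true, Nat.beq_eq] at h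
      cases i with
      | zero => exact chkG2_sound (h.1.resolve_left (Nat.ne_of_gt hi)) hp
      | succ i => exact ih h.2 hi

theorem roN_two (l : ℕ) : roN 2 l = rotL (rotL l) := by
  rw [show roN 2 l = l + 1080 * 2 * (l &&& 2) from rfl, and_two, rotL, rotL]
  split_ifs <;> omega

theorem rot_dc {r : ℕ} (hr : r ≤ 2) (y : ℕ) {o : Off} (e : o = τ.rot^[r] (dc y)) :
    o.ka = roN r (xa y) ∧ o.kb = roN r (xb y) ∧ o.di = sgN r 64 (xi y) - 32 ∧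
    o.dj = sgN r 128 (xj y) - 64 ∧ (sgN r τ.nq.pred (xq y) < τ.nq → o.q = sgN r τ.nq.pred (xq y)) ∧
    o.h = sgN r 32 (xh y) - 16 ∧ o.v0 = x0 y - 134217728 ∧ o.v1 = x1 y - 134217728 ∧
    o.sl = x2 y - 134217728 := by
  have c := xlt y
  subst e
  interval_cases r
  · have z : ∀ l, l = roN 0 l := fun l => by simp [roN]
    exact ⟨z _, z _, rfl, rfl, fun _ => rfl, rfl, rfl, rfl, rfl⟩
  · simp only [roN_one, show ∀ c y, sgN 1 c y = c - y from fun _ _ => rfl, Function.iterate_one, Tab.rot, dc,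
      Nat.pred_eq_sub_one, true_and, and_true, imp_true_iff]
    omega
  · simp only [roN_two, show ∀ c y, sgN 2 c y = y from fun _ _ => rfl, Function.iterate_succ_apply,
      Function.iterate_zero_apply, Tab.rot, dc, true_and, and_true, neg_neg]
    omega

theorem r3N_sound {r2 r3 x y z q h : ℕ} {f1 f2 f3 : Bool} {x' y' z' : Off} (h2 : r2 ≤ 2) (h3 : r3 ≤ 2)
    (e : r3N τ.nq (τ.V0 + 402653184).toNat (τ.V1 + 402653184).toNat (τ.S0 + 402653184).toNat r2 r3 f1 f2 f3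
      x y z q h = 0) (hx : Dom f1 (dc x) x') (hy : Dom f2 (τ.rot^[r2] (dc y)) y')
    (hz : Dom f3 (τ.rot^[r3] (dc z)) z') : Rt3 τ f1 f2 f3 x' y' z' := by
  obtain ⟨a1, a2, a3, a4, a5, a6, a7, a8, a9⟩ := rot_dc (τ := τ) h2 y rfl
  obtain ⟨b1, b2, b3, b4, b5, b6, b7, b8, b9⟩ := rot_dc (τ := τ) h3 z rfl
  generalize τ.rot^[r2] (dc y) = Y, τ.rot^[r3] (dc z) = Z at *
  simp only [r3N, Nat.add_eq, Nat.sub_eq, Nat.add_eq_zero_iff, Nat.xor_eq, Nat.xor_eq_zero_iff, roN_two,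
    Nat.sub_eq_zero_iff_le, Int.toNat_le, Nat.succ_eq_add_one] at e
  obtain ⟨⟨⟨⟨e1, e2⟩, e3, e4⟩, ⟨e5, e6⟩, e7, e8⟩, ⟨e9, e10⟩, e11, e12⟩ := e
  obtain ⟨x1, x2, x3, x4, x5, x6, x7, x8⟩ := hx
  obtain ⟨y1, y2, y3, y4, y5, y6, y7, y8⟩ := hy
  obtain ⟨z1, z2, z3, z4, z5, z6, z7, z8⟩ := hz
  simp only [dc] at x1 x2 x3 x4 x5 x6 x7 x8
  refine ⟨by omega, by omega, by rw [← z2, ← x1, b2, e3], by omega, by omega,
    ⟨q, e6, h - 16, fun g => ?_, fun g => ?_, fun g => ?_⟩, by omega, by omega, by omega⟩ <;> subst g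
  · have := x5 rfl
    simp only [Nat.add_eq_zero_iff, Nat.xor_eq_zero_iff] at e7
    omega
  · have := y5 rfl
    simp only [Nat.add_eq_zero_iff, Nat.xor_eq_zero_iff] at e8
    omega
  · have := z5 rfl
    simp only [Nat.add_eq_zero_iff, Nat.xor_eq_zero_iff] at e9
    omega

theorem r2N_sound {x y : ℕ} (e : r2N τ.nq (τ.V0 + 268435456).toNat (τ.V1 + 268435456).toNat
    (τ.S0 + 268435456).toNat x y = 0) : Rt2 τ (dc x) (τ.rot (dc y)) := by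
  simp only [r2N, Nat.add_eq, Nat.sub_eq, Nat.add_eq_zero_iff, Nat.xor_eq, Nat.xor_eq_zero_iff, roN_two,
    roN_one, Nat.sub_eq_zero_iff_le, Int.toNat_le] at e
  simp only [Rt2, Tab.rot, dc]
  omega

theorem good_of2 {n1 n2 n3 n4 n5 : ℕ} (ok : τ.ok2 n1 n2 n3 n4 n5 = true)
    (hA : Rng (fun i => ∃ w, fA τ DK DM i w = true) 0 n1)
    (hG : Rng (fun i => ∃ w, fG τ DM DG i w = true) 0 n1)
    (hS : Rng (fun i => ∃ w, fS τ DK DM i w = true) 0 n2)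
    (hB : Rng (fun i => ∃ w, fB τ DM i w = true) 0 n3) (hC : Rng (fun i => ∃ w, fC τ DG i w = true) 0 n4)
    (hP : ∃ W, chkP2 τ (DM n5) W = true) : Good τ (K2 τ.m DK) (M2 τ.m DM) := by
  simp only [Tab.ok2, Bool.and_eq_true, beq_iff_eq, Nat.ble_eq, List.all_eq_true, List.mem_range,
    Nat.blt_eq] at ok
  obtain ⟨⟨⟨⟨⟨⟨⟨⟨ok, hN⟩, hq⟩, hc⟩, rfl⟩, rfl⟩, rfl⟩, rfl⟩, rfl⟩ := ok
  have hT : τ.T ≤ 10 := by
    simp only [Tab.ok, Bool.and_eq_true, Nat.ble_eq] at ok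
    exact ok.1.1.1.1.1.1.1.1.1.2
  have ix : ∀ a ≤ τ.m, ∀ l ≤ τ.m + 1, (τ.m + 2) * a + l < (τ.m + 2) * (τ.m + 1) := fun a ha l hl =>
    dm_lt (Nat.lt_succ_of_le ha) (Nat.lt_succ_of_le hl)
  have A := fun a ha l hl cl k => (hA (idx τ.m a l cl) (Nat.zero_le _)
    (dm_lt (ix a ha l hl) (Nat.lt_succ_of_le k))).elim fun _ => fA_sound hN hT hq
      (fun c g => ⟨(hc c g).1.1, Bool.forall_bool.2 ⟨(hc c g).1.2, (hc c g).2⟩⟩) ha hl k
  have grp : ∀ a ≤ τ.m, ∀ l ≤ τ.m + 1, ∀ c ≤ 1, ∀ i, 0 < (nth [] (DG (idx τ.m a l c)) i).length →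
      ∀ p ∈ DM (idx τ.m a l c), ∃ g ∈ nth [] (DG (idx τ.m a l c)) i, St2 (τ.free a (a + l)) g p :=
    fun a ha l hl c k i hi p hp => by
    obtain ⟨W, e⟩ := hG (idx τ.m a l c) (Nat.zero_le _) (dm_lt (ix a ha l hl) (Nat.lt_succ_of_le k))
    rw [fG, frb_eq, frc_eq, (idx_dec hl k).1, (idx_dec hl k).2.1] at e
    exact allG2_sound e hi hp
  refine ⟨ok, fun a ha l hl cl k => (A a ha l hl cl k).1, fun a ha l hl cl k σ s => ?_,
    fun a ha l hl g j hj => ?_,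
    fun a ha l hl g j hj c1 k1 c2 k2 g1 g2 g3 σ1 s1 σ2 s2 => ?_, fun σ1 s1 σ2 s2 => ?_,
    fun a ha l1 k1 l2 k2 l3 k3 hl sp c1 d1 c2 d2 c3 d3 g1 g2 g3 σ1 s1 σ2 s2 σ3 s3 => ?_⟩
  · obtain ⟨p, hp, rfl⟩ := List.mem_map.1 s
    exact ((A a ha l hl cl k).2 p hp).1
  · obtain ⟨W, e⟩ := hS _ (Nat.zero_le _) (ix a ha l hl)
    simp only [fS, chkS2, frc_eq, frb_eq, dm (Nat.lt_succ_of_le hl), g, orb_eq, Bool.not_true,
      Bool.false_or, allN_iff] at e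
    obtain ⟨⟨p, hp, -, k⟩, -⟩ := jn2_sound hq (e j (Nat.lt_succ_of_le hj))
    exact ⟨_, List.mem_map.2 ⟨p, hp, rfl⟩, k.out ha (hj.trans hl) ((A a ha l hl 0 zero_le_one).2 p hp).2⟩
  · obtain ⟨W, e⟩ := hB (4 * ((τ.m + 2) * ((τ.m + 2) * a + l) + j) + (2 * c1 + c2)) (Nat.zero_le _)
      (dm_lt (dm_lt (ix a ha l hl) (by omega)) (by omega))
    obtain ⟨p1, q1, rfl⟩ := List.mem_map.1 s1
    obtain ⟨p2, q2, rfl⟩ := List.mem_map.1 s2
    have u : ∀ x, (4 * x + (2 * c1 + c2)) / 4 = x ∧ (4 * x + (2 * c1 + c2)) / 2 % 2 = c1 ∧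
        (4 * x + (2 * c1 + c2)) % 2 = c2 := fun x => by omega
    simp only [fB, chkM2, frc_eq, frb_eq, u, dm (Nat.lt_succ_of_le hl), dm (Nat.lt_succ_of_le (hj.trans hl)),
      g, g1, g2, g3, orb_eq, Bool.and_self, Bool.not_true, Bool.false_or, Bool.or_eq_true, Nat.blt_eq] at e
    obtain ⟨s, e3⟩ := all2_mem (e.resolve_left hj.not_gt) q1
    obtain ⟨p, hp, fl, k⟩ := row2_sound hq e3 q2
    simp only [flagOK, andb_eq, orb_eq, Bool.and_eq_true, Bool.or_eq_true, Nat.beq_eq] at fl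
    refine ⟨_, List.mem_map.2 ⟨p, hp, rfl⟩, fun z => ?_, fun z => ?_,
      k.out ha (hj.trans hl) ((A a ha l hl 1 le_rfl).2 p hp).2⟩ <;> simp only [dS, Nat.beq_eq] at z ⊢
    exacts [fl.1.resolve_left (by omega), fl.2.resolve_left (by omega)]
  · obtain ⟨W, e⟩ := hP
    obtain ⟨p1, q1, rfl⟩ := List.mem_map.1 s1
    obtain ⟨p2, q2, rfl⟩ := List.mem_map.1 s2
    simp only [chkP2, frc_eq] at e
    obtain ⟨s, e1⟩ := all2_mem e q1
    obtain ⟨i, hi, rfl⟩ := nth_of_mem 0 q2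
    simp only [allN_iff, orb_eq, andb_eq, Bool.and_eq_true, Bool.or_eq_true] at e1
    rcases e1 i hi with (e2 | e2) | e2
    exacts [Or.inl e2, Or.inr (Or.inl e2), Or.inr (Or.inr (by
      simp only [Nat.beq_eq, Nat.add_eq, Nat.add_eq_zero_iff, Nat.sub_eq, Nat.sub_eq_zero_iff_le,
        wdN_eq] at e2
      exact ⟨_, mem_ofs e2.1.1, _, mem_ofs e2.1.2, r2N_sound e2.2⟩))]
  · obtain ⟨W, e⟩ := hC ((τ.m + 2) * ((τ.m + 2) * a + l1) + l2) (Nat.zero_le _)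
      (dm_lt (ix a ha l1 k1) (by omega))
    obtain ⟨p1, q1, rfl⟩ := List.mem_map.1 s1
    obtain ⟨p2, q2, rfl⟩ := List.mem_map.1 s2
    obtain ⟨p3, q3, rfl⟩ := List.mem_map.1 s3
    simp only [fC, chkC2, frc_eq, frb_eq, dm (Nat.lt_succ_of_le k1), dm (Nat.lt_succ_of_le (k2.trans k1)),
      show 2 * (τ.m + 1) - l1 - l2 = l3 by omega, allN_iff, orb_eq, andb_eq, Bool.and_eq_true,
      Bool.or_eq_true, beq_iff_eq, Nat.blt_eq] at e
    have e2 := e.resolve_left (by rintro (z | z); exacts [by omega, sp z]) (4 * c1 + 2 * c2 + c3)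
      (by omega)
    rw [show (4 * c1 + 2 * c2 + c3) / 4 = c1 by omega, show (4 * c1 + 2 * c2 + c3) / 2 % 2 = c2 by omega,
      show (4 * c1 + 2 * c2 + c3) % 2 = c3 by omega, g1, g2, g3] at e2
    obtain ⟨n1, n2, n3, e3⟩ := e2.resolve_left (by simp)
    have lt : ∀ x, x % (τ.m + 1) ≤ τ.m := fun x => Nat.le_of_lt_succ (Nat.mod_lt _ (by omega))
    have dv : ∀ x < (τ.m + 1) * 3, x / (τ.m + 1) ≤ 2 := fun x h =>
      Nat.le_of_lt_succ (Nat.div_lt_of_lt_mul h)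
    obtain ⟨u1, v1, w1⟩ := grp a ha l1 k1 c1 d1 _ n1 p1 q1
    obtain ⟨u2, v2, w2⟩ := grp _ (lt _) l2 (k2.trans k1) c2 d2 _ n2 p2 q2
    obtain ⟨u3, v3, w3⟩ := grp _ (lt _) l3 (k3.trans k1) c3 d3 _ n3 p3 q3
    obtain ⟨i1, j1, rfl⟩ := nth_of_mem 0 v1
    obtain ⟨i2, j2, rfl⟩ := nth_of_mem 0 v2
    obtain ⟨i3, j3, rfl⟩ := nth_of_mem 0 v3
    simp only [chkR2, allN_iff, frc_eq, orb_eq, Bool.and_eq_true, Bool.or_eq_true, beq_iff_eq, fan3b,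
      Nat.beq_eq, Nat.add_eq, Nat.add_eq_zero_iff, Nat.sub_eq, Nat.sub_eq_zero_iff_le] at e3
    rcases e3 i1 j1 i2 j2 i3 j3 with ((z | z) | z) | ⟨⟨⟨z1, z2⟩, z3⟩, z⟩
    · exact Or.inl ⟨z.1.1.imp_right w1.1, z.1.2.imp_right w3.2.1, z.2⟩
    · exact Or.inr (Or.inl ⟨z.1.1.imp_right w2.1, z.1.2.imp_right w1.2.1, z.2⟩)
    · exact Or.inr (Or.inr (Or.inl ⟨z.1.1.imp_right w3.1, z.1.2.imp_right w2.2.1, z.2⟩))
    · obtain ⟨x1, m1, t1⟩ := w1.2.2 _ z1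
      obtain ⟨x2, m2, t2⟩ := w2.2.2 _ z2
      obtain ⟨x3, m3, t3⟩ := w3.2.2 _ z3
      exact Or.inr (Or.inr (Or.inr ⟨x1, m1, x2, m2, x3, m3,
        r3N_sound (dv _ (by omega)) (dv _ (by omega)) z t1 (t2.up _) (t3.up _)⟩))

end Pool.Agent.Lib.MP_4b56aa_gt.Cert
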