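import Pool.Agent.Lib.MP_4b56aa_gt.Cert.CGood1

/-! The fast programs give a certificate. -/

namespace Pool.Agent.Lib.MP_4b56aa_gt.Cert

variable {τ : Tab} {DK : List ℕ} {DM : List (List ℕ)} {DG : List (List (List ℕ))} {a l j : ℕ}

theorem free_split (hj : j ≤ l) :
    (τ.free a (a + j) && τ.free ((a + j) % (τ.m + 1)) ((a + j) % (τ.m + 1) + (l - j))) =
      τ.free a (a + l) := by
  rw [Bool.eq_iff_iff]
  simp only [Tab.free, Bool.and_eq_true, Nat.ble_eq]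
  rcases le_or_gt (a + j) τ.m with g | g
  · rw [Nat.mod_eq_of_lt (Nat.lt_succ_of_le g)]; omega
  · omega

theorem up_eq (ha : a ≤ τ.m) (hj : j ≤ τ.m + 1) (y : Off) :
    cond (Nat.blt τ.m (a + j)) (τ.rot y) y = τ.up (a + j) y := by
  unfold Tab.up
  rcases le_or_gt (a + j) τ.m with g | g
  · rw [Nat.div_eq_of_lt (Nat.lt_succ_of_le g), show Nat.blt τ.m (a + j) = false from
      Bool.eq_false_iff.2 fun k => absurd (Nat.blt_eq.mp k) (Nat.not_lt.2 g)]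
    rfl
  · rw [Nat.div_eq_of_lt_le (k := 1) (by omega) (by omega), Nat.blt_eq.mpr g]
    rfl

theorem Tab.Jn.out {PK P1 P2 PT : ℕ} (ha : a ≤ τ.m) (hj : j ≤ l) (hl : l ≤ τ.m + 1)
    (h : τ.Jn (τ.free a (a + j)) (τ.free ((a + j) % (τ.m + 1)) ((a + j) % (τ.m + 1) + (l - j)))
      (Nat.blt τ.m (a + j)) PK P1 P2 PT) : ∀ o ∈ offs PT,
    (∃ k ∈ offs PK, Dom (τ.free a (a + l)) o k) ∨ ∃ x ∈ offs P1, ∃ y ∈ offs P2,
      Cmp (τ.free a (a + j)) (τ.free ((a + j) % (τ.m + 1)) ((a + j) % (τ.m + 1) + (l - j))) o x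
        (τ.up (a + j) y) := by
  simpa only [Tab.Jn, free_split hj, up_eq ha (hj.trans hl)] using h

theorem kfast_sound {b cl w v : ℕ} (h : kfast τ a b cl (cl == 1 && τ.strad a b) w v = true) :
    τ.kcheck a b cl (dec w) (decK v) = true := by
  simp only [kfast, force_eq, forceI_eq, andb_eq, Bool.and_eq_true, okM, okA, okB, thrF] at h
  obtain ⟨h1, ⟨h2, h3⟩, h4, h5, ⟨h6, h7⟩, ⟨h8, h9⟩, ⟨h10, h11⟩, h12⟩ := h
  have ms : msOf τ a b (Nat.mod v 2) (bits v 1 4096) (bits v 13 4096) =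
      if (decK v).st then ⟨true, false, 0, 0⟩ else ⟨false, ale τ.T (decK v).b1 (τ.lo a) 0 &&
        ale τ.T (τ.hi b) (decK v).b2 0, (decK v).b1, (decK v).b2⟩ := by
    simp only [msOf, decK, beq_iff_eq]
  rw [ms] at h3 h6 h8
  rw [neg_sub] at h11
  unfold Tab.kcheck
  generalize (cl == 1 && τ.strad a b) = f at h12
  simp only [Bool.and_eq_true]
  refine ⟨⟨⟨⟨⟨⟨⟨⟨⟨⟨⟨h1, h2⟩, h4⟩, h5⟩, h3⟩, h6⟩, h8⟩, h7⟩, h9⟩, h10⟩, h11⟩, ?_⟩
  cases f
  · simp only [Bool.false_eq_true, if_false, Bool.and_eq_true]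
    simp only [Bool.and_eq_true] at h12
    exact ⟨⟨h12.1, h12.2.1⟩, h12.2.2⟩
  · exact h12

theorem chkK_iff {cl PW j0 n : ℕ} : chkK τ DK a l cl PW j0 n = true ↔ ∀ i < n,
    kfast τ a (a + l) cl (cl == 1 && τ.strad a (a + l)) (wd (nth 0 DK (idx τ.m a l cl)) (j0 + i))
      (bits PW (40 * (j0 + i)) 1099511627776) = true := by
  simp only [chkK, force_eq, allN_iff, Nat.add_eq, Nat.mul_eq]

theorem chkK_add {cl PW j0 n k : ℕ} (h1 : chkK τ DK a l cl PW j0 n = true)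
    (h2 : chkK τ DK a l cl PW (j0 + n) k = true) : chkK τ DK a l cl PW j0 (n + k) = true := by
  rw [chkK_iff] at *
  intro i hi
  rcases lt_or_ge i n with g | g
  · exact h1 i g
  · obtain ⟨i, rfl⟩ := Nat.exists_eq_add_of_le g
    rw [← add_assoc]
    exact h2 i (by omega)

theorem chkV_sound {cl : ℕ} (h : chkV τ DM a l cl = true) :
    ∀ σ ∈ MM τ.m DM a l cl, ∀ o ∈ σ.os, τ.valid a (a + l) cl o = true := by
  rw [chkV, force_eq] at h
  unfold MM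
  generalize nth [] DM (idx τ.m a l cl) = L at h
  induction L with
  | nil => simp
  | cons p L ih =>
    have e := (andb_eq _ _).symm.trans h
    simp only [Bool.and_eq_true, force_eq, allN_iff] at e
    intro σ hσ o ho
    rcases List.mem_cons.1 hσ with rfl | hσ
    · obtain ⟨i, hi, rfl⟩ := of_mem_offs ho
      exact e.1 i hi
    · exact ih (by simpa only [force_eq] using e.2) σ hσ o ho

theorem domb_sound {f : Bool} {o k : Off} (h : domb f o k = true) : Dom f o k := by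
  simp only [domb, Bool.and_eq_true, Bool.or_eq_true, beq_iff_eq, decide_eq_true_eq] at h
  obtain ⟨⟨⟨⟨⟨⟨⟨h1, h2⟩, h3⟩, h4⟩, h5⟩, h6⟩, h7⟩, h8⟩ := h
  exact ⟨h1, h2, h3, h4, fun g => h5.resolve_left (by simp [g]), h6, h7, h8⟩

/-- The state `p` is stronger than the group `g`. -/
def Str (f : Bool) (g p : ℕ) : Prop :=
  (g % 2 = 1 → (decS p).ps = true) ∧ (bits g 1 2 = 1 → (decS p).pt = true) ∧
    ∀ i < cnt (Nat.shiftRight g 2), ∃ k ∈ (decS p).os, Dom f (dec (wd (Nat.shiftRight g 2) i)) k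

theorem chkG_sound {f : Bool} {LS LG W : List ℕ} (h : chkG f LS LG W = true) {p : ℕ} (hp : p ∈ LS) :
    ∃ g ∈ LG, Str f g p := by
  obtain ⟨s, e⟩ := all2_mem h hp
  simp only [force_eq, andb_eq, Bool.and_eq_true, Nat.blt_eq, Nat.ble_eq, allN_iff] at e
  obtain ⟨e1, e2, e3, e4⟩ := e
  have b1 : Nat.mod p 2 < 2 := Nat.mod_lt _ two_pos
  have b2 := bits_lt p 1 two_pos
  refine ⟨_, nth_mem 0 e1, fun g => Nat.beq_eq.mpr ?_, fun g => Nat.beq_eq.mpr (by omega), fun i hi =>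
    ⟨_, mem_offs (e4 i hi).1, domb_sound (e4 i hi).2⟩⟩
  exact le_antisymm (Nat.le_of_lt_succ b1) (g ▸ e2)

theorem allG_sound {f : Bool} {LS : List ℕ} {LL W : List (List ℕ)} (h : allG f LS LL W = true) {i p : ℕ}
    (hi : 0 < (nth [] LL i).length) (hp : p ∈ LS) : ∃ g ∈ nth [] LL i, Str f g p := by
  induction LL generalizing W i with
  | nil => exact absurd hi (lt_irrefl 0)
  | cons L LL ih =>
    cases W with
    | nil => exact absurd h Bool.false_ne_true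
    | cons w W =>
      rw [show allG f LS (L :: LL) (w :: W) = andb (orb (Nat.beq L.length 0) (chkG f LS L w))
        (allG f LS LL W) from rfl, andb_eq, orb_eq, Bool.and_eq_true, Bool.or_eq_true, Nat.beq_eq] at h
      cases i with
      | zero => exact chkG_sound (h.1.resolve_left (Nat.ne_of_gt hi)) hp
      | succ i => exact ih h.2 hi

theorem Dom.up {f : Bool} {o k : Off} (h : Dom f o k) (x : ℕ) : Dom f (τ.up x o) (τ.up x k) := by
  unfold Tab.up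
  induction x / (τ.m + 1) with
  | zero => exact h
  | succ n ih =>
    rw [Function.iterate_succ_apply', Function.iterate_succ_apply']
    obtain ⟨h1, h2, h3, h4, h5, h6⟩ := ih
    exact ⟨congrArg rotL h1, congrArg rotL h2, congrArg Neg.neg h3, congrArg Neg.neg h4,
      fun g => ⟨congrArg (τ.nq - 1 - ·) (h5 g).1, congrArg Neg.neg (h5 g).2⟩, h6⟩

theorem rt3_sound {f1 f2 f3 : Bool} {x y z x' y' z' : Off} {q : ℕ} {h : ℤ}
    (e : rt3b τ f1 f2 f3 x y z q h = true) (hx : Dom f1 x x') (hy : Dom f2 y y') (hz : Dom f3 z z') :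
    Rt3 τ f1 f2 f3 x' y' z' := by
  simp only [rt3b, Bool.and_eq_true, Bool.or_eq_true, beq_iff_eq, decide_eq_true_eq, Nat.blt_eq] at e
  obtain ⟨⟨⟨⟨⟨⟨⟨⟨⟨⟨⟨e1, e2⟩, e3⟩, e4⟩, e5⟩, e6⟩, e7⟩, e8⟩, e9⟩, e10⟩, e11⟩, e12⟩ := e
  obtain ⟨x1, x2, x3, x4, x5, x6, x7, x8⟩ := hx
  obtain ⟨y1, y2, y3, y4, y5, y6, y7, y8⟩ := hy
  obtain ⟨z1, z2, z3, z4, z5, z6, z7, z8⟩ := hz
  refine ⟨by omega, by omega, by rw [← z2, ← x1, e3], by omega, by omega,
    ⟨q, e6, h, fun g => ?_, fun g => ?_, fun g => ?_⟩, by omega, by omega, by omega⟩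
  · have := e7.resolve_left (by simp [g]); have := x5 g; omega
  · have := e8.resolve_left (by simp [g]); have := y5 g; omega
  · have := e9.resolve_left (by simp [g]); have := z5 g; omega

theorem rt2_sound {x y : Off} (e : rt2b τ x y = true) : Rt2 τ x y := by
  simpa only [Rt2, rt2b, Bool.and_eq_true, beq_iff_eq, decide_eq_true_eq, Nat.blt_eq, and_assoc] using e

theorem good_of (ok : τ.ok = true) (hq : τ.nq ≤ 1024)
    (hK : ∀ a ≤ τ.m, ∀ l ≤ τ.m + 1, ∀ cl ≤ 1,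
      ∃ PW, chkK τ DK a l cl PW 0 (cnt (nth 0 DK (idx τ.m a l cl))) = true)
    (hA : ∀ a ≤ τ.m, ∀ l ≤ τ.m + 1, ∃ b b2 WS W0 W1, chkA τ DK DM DG a l b b2 WS W0 W1 = true)
    (hB : ∀ a ≤ τ.m, ∀ l ≤ τ.m + 1, ∀ j ≤ l, ∃ b b2 j0 n W, j0 ≤ j ∧ j < j0 + n ∧
      chkB τ DK DM a l b b2 j0 n W = true)
    (hC : ∀ a ≤ τ.m, ∃ W, chkC τ DG a W = true)
    (hP : ∃ W, chkP τ (nth [] DM (idx τ.m 0 (τ.m + 1) 1)) W = true) :
    Good τ (KK τ.m DK) (MM τ.m DM) := by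
  simp only [chkA, andb_eq, orb_eq, Bool.and_eq_true, Bool.or_eq_true, Bool.not_eq_true'] at hA
  have grp : ∀ a ≤ τ.m, ∀ l ≤ τ.m + 1, ∀ c ≤ 1, ∀ i, 0 < (nth [] (nth [] DG (idx τ.m a l c)) i).length →
      ∀ p ∈ nth [] DM (idx τ.m a l c), ∃ g ∈ nth [] (nth [] DG (idx τ.m a l c)) i,
        Str (τ.free a (a + l)) g p := fun a ha l hl c hc i hi p hp => by
    obtain ⟨b, b2, WS, W0, W1, -, -, e1, e2, -⟩ := hA a ha l hl
    rcases Nat.le_one_iff_eq_zero_or_eq_one.1 hc with rfl | rfl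
    exacts [allG_sound e1 hi hp, allG_sound e2 hi hp]
  refine ⟨ok, fun a ha l hl cl hc o ho => ?_, fun a ha l hl cl hc => ?_, fun a ha l hl g j hj => ?_,
    fun a ha l hl g j hj c1 k1 c2 k2 g1 g2 g3 σ1 s1 σ2 s2 => ?_, fun σ1 s1 σ2 s2 => ?_,
    fun a ha l1 k1 l2 k2 l3 k3 hl sp c1 d1 c2 d2 c3 d3 g1 g2 g3 σ1 s1 σ2 s2 σ3 s3 => ?_⟩
  · obtain ⟨PW, e⟩ := hK a ha l hl cl hc
    obtain ⟨i, hi, rfl⟩ := of_mem_offs ho
    have := kfast_sound (chkK_iff.1 e i hi)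
    rw [zero_add] at this
    exact ⟨_, this⟩
  · obtain ⟨b, b2, WS, W0, W1, e1, e2, -⟩ := hA a ha l hl
    rcases Nat.le_one_iff_eq_zero_or_eq_one.1 hc with rfl | rfl
    exacts [chkV_sound e1, chkV_sound e2]
  · obtain ⟨b, b2, WS, W0, W1, -, -, -, -, e⟩ := hA a ha l hl
    have e' := e.resolve_left (by simp [g])
    simp only [chkS, force_eq, allN_iff] at e'
    obtain ⟨⟨p, hp, -, k⟩, -⟩ := join_sound hq (e' j (Nat.lt_succ_of_le hj))
    exact ⟨_, List.mem_map.2 ⟨p, hp, rfl⟩, k.out ha hj hl⟩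
  · obtain ⟨b, b2, j0, n, W, e1, e2, e⟩ := hB a ha l hl j hj
    obtain ⟨i, rfl⟩ := Nat.exists_eq_add_of_le e1
    obtain ⟨p1, q1, rfl⟩ := List.mem_map.1 s1
    obtain ⟨p2, q2, rfl⟩ := List.mem_map.1 s2
    simp only [chkB, g, orb_eq, Bool.not_true, Bool.false_or, allN_iff, force_eq, chkM,
      Nat.add_eq] at e
    have e' := e i (by omega) (2 * c1 + c2) (by omega)
    rw [show (2 * c1 + c2) / 2 = c1 by omega, show (2 * c1 + c2) % 2 = c2 by omega, g1, g2, g3] at e'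
    obtain ⟨s, e3⟩ := all2_mem e' q1
    obtain ⟨p, hp, fl, k⟩ := row_sound hq e3 q2
    simp only [flagOK, andb_eq, orb_eq, Bool.and_eq_true, Bool.or_eq_true, Nat.beq_eq] at fl
    refine ⟨_, List.mem_map.2 ⟨p, hp, rfl⟩, fun z => ?_, fun z => ?_, k.out ha hj hl⟩ <;>
      simp only [decS, Nat.beq_eq] at z ⊢
    exacts [fl.1.resolve_left (by omega), fl.2.resolve_left (by omega)]
  · obtain ⟨W, e⟩ := hP
    obtain ⟨p1, q1, rfl⟩ := List.mem_map.1 s1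
    obtain ⟨p2, q2, rfl⟩ := List.mem_map.1 s2
    obtain ⟨s, e1⟩ := all2_mem e q1
    obtain ⟨i, hi, rfl⟩ := nth_of_mem 0 q2
    simp only [allN_iff, force_eq, orb_eq, andb_eq, Bool.and_eq_true, Bool.or_eq_true, beq_iff_eq,
      Nat.blt_eq] at e1
    rcases e1 i hi with (e2 | e2) | e2
    · exact Or.inl ⟨Nat.beq_eq.mpr e2.1, Nat.beq_eq.mpr e2.2⟩
    · exact Or.inr (Or.inl ⟨Nat.beq_eq.mpr e2.1, Nat.beq_eq.mpr e2.2⟩)
    · exact Or.inr (Or.inr ⟨_, mem_offs e2.1, _, mem_offs e2.2.1, rt2_sound e2.2.2⟩)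
  · obtain ⟨W, e⟩ := hC a ha
    obtain ⟨p1, q1, rfl⟩ := List.mem_map.1 s1
    obtain ⟨p2, q2, rfl⟩ := List.mem_map.1 s2
    obtain ⟨p3, q3, rfl⟩ := List.mem_map.1 s3
    simp only [chkC, allN_iff, force_eq, orb_eq, andb_eq, Bool.and_eq_true, Bool.or_eq_true, beq_iff_eq,
      Nat.blt_eq] at e
    have e1 := e l1 (by omega) l2 (by omega)
    rw [show 2 * (τ.m + 1) - l1 - l2 = l3 by omega] at e1
    have e2 := e1.resolve_left (by rintro (z | z); exacts [by omega, sp z]) (4 * c1 + 2 * c2 + c3)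
      (by omega)
    rw [show (4 * c1 + 2 * c2 + c3) / 4 = c1 by omega, show (4 * c1 + 2 * c2 + c3) / 2 % 2 = c2 by omega,
      show (4 * c1 + 2 * c2 + c3) % 2 = c3 by omega, g1, g2, g3] at e2
    obtain ⟨n1, n2, n3, e3⟩ := e2.resolve_left (by simp)
    have lt : ∀ x, x % (τ.m + 1) ≤ τ.m := fun x => Nat.le_of_lt_succ (Nat.mod_lt _ (by omega))
    obtain ⟨u1, v1, w1⟩ := grp a ha l1 k1 c1 d1 _ n1 p1 q1
    obtain ⟨u2, v2, w2⟩ := grp _ (lt _) l2 (k2.trans k1) c2 d2 _ n2 p2 q2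
    obtain ⟨u3, v3, w3⟩ := grp _ (lt _) l3 (k3.trans k1) c3 d3 _ n3 p3 q3
    obtain ⟨i1, j1, rfl⟩ := nth_of_mem 0 v1
    obtain ⟨i2, j2, rfl⟩ := nth_of_mem 0 v2
    obtain ⟨i3, j3, rfl⟩ := nth_of_mem 0 v3
    simp only [chkR, allN_iff, force_eq, orb_eq, andb_eq, Bool.and_eq_true, Bool.or_eq_true, beq_iff_eq,
      Nat.blt_eq, fan3b] at e3
    rcases e3 i1 j1 i2 j2 i3 j3 with ((z | z) | z) | ⟨z1, z2, z3, z⟩
    · exact Or.inl ⟨z.1.1.imp_right w1.1, z.1.2.imp_right w3.2.1, z.2⟩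
    · exact Or.inr (Or.inl ⟨z.1.1.imp_right w2.1, z.1.2.imp_right w1.2.1, z.2⟩)
    · exact Or.inr (Or.inr (Or.inl ⟨z.1.1.imp_right w3.1, z.1.2.imp_right w2.2.1, z.2⟩))
    · obtain ⟨x1, m1, t1⟩ := w1.2.2 _ z1
      obtain ⟨x2, m2, t2⟩ := w2.2.2 _ z2
      obtain ⟨x3, m3, t3⟩ := w3.2.2 _ z3
      exact Or.inr (Or.inr (Or.inr ⟨x1, m1, x2, m2, x3, m3, rt3_sound z t1 (t2.up _) (t3.up _)⟩))

end Pool.Agent.Lib.MP_4b56aa_gt.Cert
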