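import Pool.Agent.Lib.MP_4b56aa_gt.Cert.CFast

/-! Soundness of the packed test and of the joins. -/

namespace Pool.Agent.Lib.MP_4b56aa_gt.Cert

theorem force_eq (x : ℕ) (f : ℕ → Bool) : force x f = f x := by cases x <;> rfl
theorem forceI_eq (x : ℤ) (f : ℤ → Bool) : forceI x f = f x := by
  cases x with
  | ofNat n => exact force_eq n fun n => f (Int.ofNat n)
  | negSucc n => exact force_eq n fun n => f (Int.negSucc n)
theorem andb_eq (a b : Bool) : andb a b = (a && b) := by cases a <;> rfl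
theorem orb_eq (a b : Bool) : orb a b = (a || b) := by cases a <;> rfl
theorem sel_t (x y : ℕ) : sel true x y = x := rfl
theorem sel_f (x y : ℕ) : sel false x y = y := rfl

theorem allN_iff {n : ℕ} {f : ℕ → Bool} : allN n f = true ↔ ∀ i < n, f i = true := by
  induction n with
  | zero => exact ⟨fun _ _ h => absurd h (Nat.not_lt_zero _), fun _ => rfl⟩
  | succ n ih =>
    rw [show allN (n + 1) f = andb (f n) (allN n f) from rfl, andb_eq, Bool.and_eq_true, ih,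
      Nat.forall_lt_succ_right, and_comm]

theorem nth_eq {α : Type} (d : α) (L : List α) (i : ℕ) : nth d L i = L.getD i d := by
  induction L generalizing i with
  | nil => rfl
  | cons x L ih =>
    cases i with
    | zero => rfl
    | succ i => exact ih i

theorem nth_mem {α : Type} (d : α) {L : List α} {i : ℕ} (h : i < L.length) : nth d L i ∈ L := by
  rw [nth_eq, List.getD_eq_getElem _ _ h]; exact List.getElem_mem h

theorem nth_of_mem {α : Type} (d : α) {L : List α} {x : α} (h : x ∈ L) :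
    ∃ i < L.length, nth d L i = x := by
  obtain ⟨i, g, rfl⟩ := List.getElem_of_mem h
  exact ⟨i, g, by rw [nth_eq, List.getD_eq_getElem _ _ g]⟩

theorem all2_mem {α : Type} {f : α → ℕ → Bool} {L : List α} {W : List ℕ} (h : all2 f L W = true)
    {x : α} (hx : x ∈ L) : ∃ w, f x w = true := by
  induction L generalizing W with
  | nil => simp at hx
  | cons y L ih =>
    cases W with
    | nil => exact absurd h Bool.false_ne_true
    | cons w W =>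
      rw [show all2 f (y :: L) (w :: W) = andb (f y w) (all2 f L W) from rfl, andb_eq,
        Bool.and_eq_true] at h
      rcases List.mem_cons.1 hx with rfl | hx
      exacts [⟨w, h.1⟩, ih h.2 hx]

theorem dig_eq (a0 a1 a2 a3 a4 a5 a6 a7 a8 a9 : ℕ) : dig a0 a1 a2 a3 a4 a5 a6 a7 a8 a9 =
    a0 + 2 ^ 32 * (a1 + 2 ^ 32 * (a2 + 2 ^ 32 * (a3 + 2 ^ 32 * (a4 + 2 ^ 32 * (a5 + 2 ^ 32 *
      (a6 + 2 ^ 32 * (a7 + 2 ^ 32 * (a8 + 2 ^ 32 * a9)))))))) := by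
  have e : ∀ a b : ℕ, Nat.add a (Nat.shiftLeft b 32) = a + 2 ^ 32 * b := fun a b => by
    rw [Nat.add_eq, Nat.shiftLeft_eq', Nat.shiftLeft_eq, mul_comm]
  unfold dig
  rw [e, e, e, e, e, e, e, e, e]

theorem dig_add (a0 a1 a2 a3 a4 a5 a6 a7 a8 a9 b0 b1 b2 b3 b4 b5 b6 b7 b8 b9 : ℕ) :
    Nat.add (dig a0 a1 a2 a3 a4 a5 a6 a7 a8 a9) (dig b0 b1 b2 b3 b4 b5 b6 b7 b8 b9) =
      dig (a0 + b0) (a1 + b1) (a2 + b2) (a3 + b3) (a4 + b4) (a5 + b5) (a6 + b6) (a7 + b7) (a8 + b8)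
        (a9 + b9) := by
  simp only [dig_eq, Nat.add_eq]; ring

theorem dstep {a b X Y : ℕ} (ha : a < 2 ^ 30) (hb : b < 2 ^ 30)
    (h : a + 2 ^ 32 * X = b + 2 ^ 32 * Y) : a = b ∧ X = Y := by omega

theorem tst_bits {Z : ℕ} (h : Z &&& MASK = GG) : ∃ W, Z = 2 ^ 224 * W ∧ W / 2 ^ 30 % 2 = 1 ∧
    W / 2 ^ 62 % 2 = 1 ∧ W / 2 ^ 94 % 2 = 1 := by
  have a : Z % 2 ^ 224 = 0 := by
    have := congrArg (· % 2 ^ 224) h
    simp only [Nat.and_mod_two_pow] at this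
    rwa [show MASK % 2 ^ 224 = 2 ^ 224 - 1 by decide +kernel, Nat.and_two_pow_sub_one_eq_mod,
      Nat.mod_mod, show GG % 2 ^ 224 = 0 by decide +kernel] at this
  obtain ⟨W, rfl⟩ := Nat.dvd_of_mod_eq_zero a
  have b : ∀ i, GG.testBit (224 + i) = true → W / 2 ^ i % 2 = 1 := fun i g => by
    rw [← h, Nat.testBit_and, Bool.and_eq_true, Nat.testBit_eq_decide_div_mod_eq, pow_add,
      Nat.mul_div_mul_left _ _ (by positivity)] at g
    exact of_decide_eq_true g.1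
  exact ⟨W, rfl, b 30 (by decide +kernel), b 62 (by decide +kernel), b 94 (by decide +kernel)⟩

theorem tst_dig {x0 x1 x2 x3 x4 x5 x6 x7 x8 x9 t0 t1 t2 t3 t4 t5 t6 t7 t8 t9 : ℕ}
    (h : tst (dig x0 x1 x2 x3 x4 x5 x6 x7 x8 x9) (Nat.sub GG (dig t0 t1 t2 t3 t4 t5 t6 t7 t8 t9)) = true)
    (hx : x0 < 2 ^ 30 ∧ x1 < 2 ^ 30 ∧ x2 < 2 ^ 30 ∧ x3 < 2 ^ 30 ∧ x4 < 2 ^ 30 ∧ x5 < 2 ^ 30 ∧
      x6 < 2 ^ 30 ∧ x7 < 2 ^ 30 ∧ x8 < 2 ^ 30 ∧ x9 < 2 ^ 30)
    (ht : t0 < 2 ^ 30 ∧ t1 < 2 ^ 30 ∧ t2 < 2 ^ 30 ∧ t3 < 2 ^ 30 ∧ t4 < 2 ^ 30 ∧ t5 < 2 ^ 30 ∧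
      t6 < 2 ^ 30 ∧ t7 < 2 ^ 30 ∧ t8 < 2 ^ 30 ∧ t9 < 2 ^ 30) :
    x0 = t0 ∧ x1 = t1 ∧ x2 = t2 ∧ x3 = t3 ∧ x4 = t4 ∧ x5 = t5 ∧ x6 = t6 ∧ t7 ≤ x7 ∧ t8 ≤ x8 ∧
      t9 ≤ x9 := by
  obtain ⟨a0, a1, a2, a3, a4, a5, a6, a7, a8, a9⟩ := hx
  obtain ⟨b0, b1, b2, b3, b4, b5, b6, b7, b8, b9⟩ := ht
  obtain ⟨W, e, c1, c2, c3⟩ := tst_bits (Nat.eq_of_beq_eq_true h)
  have le : dig t0 t1 t2 t3 t4 t5 t6 t7 t8 t9 ≤ GG := by rw [dig_eq, GG]; omega
  have e' : dig x0 x1 x2 x3 x4 x5 x6 (x7 + 2 ^ 30) (x8 + 2 ^ 30) (x9 + 2 ^ 30) =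
      dig t0 t1 t2 t3 t4 t5 t6 (t7 + W) t8 t9 := by
    rw [Nat.add_eq, Nat.sub_eq, ← Nat.add_sub_assoc le, Nat.sub_eq_iff_eq_add (le.trans
      (Nat.le_add_left _ _))] at e
    simp only [dig_eq, GG] at e ⊢
    linarith
  simp only [dig_eq] at e'
  obtain ⟨k0, e'⟩ := dstep a0 b0 e'
  obtain ⟨k1, e'⟩ := dstep a1 b1 e'
  obtain ⟨k2, e'⟩ := dstep a2 b2 e'
  obtain ⟨k3, e'⟩ := dstep a3 b3 e'
  obtain ⟨k4, e'⟩ := dstep a4 b4 e'
  obtain ⟨k5, e'⟩ := dstep a5 b5 e'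
  obtain ⟨k6, e'⟩ := dstep a6 b6 e'
  refine ⟨k0, k1, k2, k3, k4, k5, k6, ?_⟩
  clear h e le k0 k1 k2 k3 k4 k5 k6 a0 a1 a2 a3 a4 a5 a6 b0 b1 b2 b3 b4 b5 b6
  omega

theorem bits_lt (w s : ℕ) {n : ℕ} (h : 0 < n) : bits w s n < n := Nat.mod_lt _ h

theorem fld (w : ℕ) : fKa w < 16384 ∧ fKb w < 16384 ∧ fDi w < 64 ∧ fDj w < 128 ∧ fQ w < 4 ∧
    fH w < 32 ∧ fV0 w < 268435456 ∧ fV1 w < 268435456 ∧ fSl w < 268435456 ∧ fMk w < 2 :=
  ⟨Nat.mod_lt _ (by norm_num), bits_lt _ _ (by norm_num), bits_lt _ _ (by norm_num),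
    bits_lt _ _ (by norm_num), bits_lt _ _ (by norm_num), bits_lt _ _ (by norm_num),
    bits_lt _ _ (by norm_num), bits_lt _ _ (by norm_num), bits_lt _ _ (by norm_num),
    bits_lt _ _ (by norm_num)⟩

theorem rotN_f (l : ℕ) : rotN false l = l := rfl

theorem rotN_t (l : ℕ) : rotN true l = rotL l := by
  unfold rotN rotL
  split_ifs with h
  · rw [show Nat.ble 2 (Nat.mod l 4) = false from
      Bool.eq_false_iff.2 fun g => absurd (Nat.le_of_ble_eq_true g) (Nat.not_le.2 (Nat.lt_succ_of_le h))]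
    rfl
  · rw [show Nat.ble 2 (Nat.mod l 4) = true from Nat.ble_eq_true_of_le (Nat.not_le.1 h)]
    rfl

theorem rotL_le (l : ℕ) : rotL l ≤ l + 2160 := by unfold rotL; split_ifs <;> omega

theorem tst_dom {f1 f2 : Bool} {k o : ℕ}
    (h : tst (vT (fMk k) f1 f2 k) (Nat.sub GG (vT 1 f1 f2 o)) = true) :
    fMk k = 1 ∧ Dom (f1 && f2) (dec o) (dec k) := by
  have a := fld k
  have b := fld o
  cases f1 <;> cases f2 <;>
  · have := tst_dig h (by simp only [sel_t, sel_f, Nat.add_eq, Nat.mul_eq]; omega)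
      (by simp only [sel_t, sel_f, Nat.add_eq, Nat.mul_eq]; omega)
    simp only [sel_t, sel_f, Nat.add_eq, Nat.mul_eq] at this
    simp only [Dom, dec, Bool.and_self, Bool.and_true, Bool.and_false, forall_const, Bool.true_eq_false,
      false_imp_iff, true_and]
    omega

variable {τ : Tab}

theorem tst_cmp (hq : τ.nq ≤ 1024) {f1 f2 r : Bool} {x y o : ℕ}
    (h : tst (Nat.add (vL f1 f2 x) (vR (τ.nq - 1) f2 r y)) (Nat.sub GG (vT 1 f1 f2 o)) = true) :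
    fMk x = 1 ∧ fMk y = 1 ∧ Cmp f1 f2 (dec o) (dec x) (cond r (τ.rot (dec y)) (dec y)) := by
  have a := fld x
  have b := fld y
  have c := fld o
  have d := rotL_le (fKa y)
  have e := rotL_le (fKb y)
  rw [vL, vR, dig_add] at h
  cases f1 <;> cases f2 <;> cases r <;>
  · have := tst_dig h
      (by simp only [sel_t, sel_f, rotN_t, rotN_f, Nat.add_eq, Nat.mul_eq, Nat.sub_eq]; omega)
      (by simp only [sel_t, sel_f, Nat.add_eq, Nat.mul_eq]; omega)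
    simp only [sel_t, sel_f, rotN_t, rotN_f, Nat.add_eq, Nat.mul_eq, Nat.sub_eq] at this
    simp only [Cmp, dec, Tab.rot, cond_true, cond_false, forall_const, Bool.true_eq_false,
      false_imp_iff, true_and]
    omega

theorem mem_offs {P j : ℕ} (h : j < cnt P) : dec (wd P j) ∈ offs P :=
  List.mem_map.2 ⟨j, List.mem_range.2 h, rfl⟩

theorem of_mem_offs {P : ℕ} {o : Off} (h : o ∈ offs P) : ∃ j < cnt P, dec (wd P j) = o := by
  obtain ⟨j, g, rfl⟩ := List.mem_map.1 h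
  exact ⟨j, List.mem_range.1 g, rfl⟩

theorem mk_offs {P j : ℕ} (h : fMk (wd P j) = 1) : dec (wd P j) ∈ offs P := by
  refine mem_offs ?_
  have a : 2 ^ (136 * j) ≤ P := not_lt.1 fun g => by
    rw [wd, Nat.shiftRight_eq, Nat.mul_eq, Nat.shiftRight_eq_div_pow, Nat.div_eq_of_lt g] at h
    exact absurd h (by decide)
  have b : P ≠ 0 := (Nat.lt_of_lt_of_le (by positivity) a).ne'
  have c := (Nat.le_log2 b).2 a
  rw [cnt, show Nat.beq P 0 = false from Bool.eq_false_iff.2 fun g => b (Nat.eq_of_beq_eq_true g), sel_f]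
  exact Nat.lt_succ_of_le ((Nat.le_div_iff_mul_le (by norm_num)).2 (by omega))

/-- Every offer of `PT` follows from a clique offer or from a join. -/
def Tab.Jn (τ : Tab) (f1 f2 r : Bool) (PK P1 P2 PT : ℕ) : Prop :=
  ∀ o ∈ offs PT, (∃ k ∈ offs PK, Dom (f1 && f2) o k) ∨
    ∃ x ∈ offs P1, ∃ y ∈ offs P2, Cmp f1 f2 o x (cond r (τ.rot y) y)

theorem loop_sound (hq : τ.nq ≤ 1024) {f1 f2 r : Bool} {PK P1 P2 PT b m1 b2 m2 s : ℕ}
    (h : loopT (τ.nq - 1) f1 f2 r PK P1 P2 PT b m1 b2 m2 (cnt PT) s = true) :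
    τ.Jn f1 f2 r PK P1 P2 PT := by
  intro o ho
  obtain ⟨i, hi, rfl⟩ := of_mem_offs ho
  clear ho
  generalize cnt PT = n at h hi
  induction n generalizing s with
  | zero => omega
  | succ n ih =>
    have e : force (Nat.shiftRight (Nat.land s m1) b2) (fun j1 =>
      andb (Nat.rec (motive := fun _ => Bool) (tst (gU f1 f2 PK j1) (gT f1 f2 PT n))
        (fun j2 _ => tst (Nat.add (gL f1 f2 P1 j1) (gR (τ.nq - 1) f2 r P2 j2)) (gT f1 f2 PT n))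
        (Nat.land s m2)) (loopT (τ.nq - 1) f1 f2 r PK P1 P2 PT b m1 b2 m2 n (Nat.shiftRight s b))) =
        true := h
    rw [force_eq, andb_eq, Bool.and_eq_true] at e
    rcases Nat.lt_succ_iff_lt_or_eq.1 hi with g | rfl
    · exact ih e.2 g
    have e1 := e.1
    generalize Nat.land s m2 = u, Nat.shiftRight (Nat.land s m1) b2 = j at e1
    cases u with
    | zero =>
      obtain ⟨k1, k2⟩ := tst_dom (k := wd PK j) (o := wd PT i) e1
      exact Or.inl ⟨_, mk_offs k1, k2⟩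
    | succ u =>
      obtain ⟨k1, k2, k3⟩ := tst_cmp hq (x := wd P1 j) (y := wd P2 u) (o := wd PT i) e1
      exact Or.inr ⟨_, mk_offs k1, _, mk_offs k2, k3⟩

theorem join_sound (hq : τ.nq ≤ 1024) {f1 f2 r : Bool} {PK P1 P2 b m1 b2 m2 s : ℕ} {LT : List ℕ}
    {fl k : ℕ → Bool} (h : joinC (τ.nq - 1) f1 f2 r PK P1 P2 LT fl b m1 b2 m2 s k = true) :
    (∃ p ∈ LT, fl p = true ∧ τ.Jn f1 f2 r PK P1 P2 (Nat.shiftRight p 2)) ∧ ∃ s', k s' = true := by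
  simp only [joinC, force_eq, andb_eq, Bool.and_eq_true, Nat.blt_eq] at h
  exact ⟨⟨_, nth_mem 0 h.1, h.2.1, loop_sound hq h.2.2.1⟩, _, h.2.2.2⟩

theorem row_sound (hq : τ.nq ≤ 1024) {f1 f2 r : Bool} {PK p1 c1 c2 b m1 b2 m2 s p2 : ℕ}
    {L2 LT : List ℕ} (h : rowC (τ.nq - 1) f1 f2 r PK p1 L2 LT c1 c2 b m1 b2 m2 s = true)
    (h2 : p2 ∈ L2) : ∃ p ∈ LT, flagOK c1 c2 p1 p2 p = true ∧
      τ.Jn f1 f2 r PK (Nat.shiftRight p1 2) (Nat.shiftRight p2 2) (Nat.shiftRight p 2) := by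
  induction L2 generalizing s with
  | nil => simp at h2
  | cons y L ih =>
    obtain ⟨g, s', g'⟩ := join_sound hq h
    rcases List.mem_cons.1 h2 with rfl | h2
    exacts [g, ih g' h2]

end Pool.Agent.Lib.MP_4b56aa_gt.Cert
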