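import Pool.Agent.Lib.MP_4b56aa_gt.Cert.CRot

/-! Every tree over at most a half turn is in one of the states of the certificate. -/

namespace Pool.Agent.Lib.MP_4b56aa_gt.Cert

open Pool.Agent.Lib.MP_4b56aa_gt.Red Pool.Agent.Lib.MP_4b56aa_gt.Fan

variable {τ : Tab} {K : ℕ → ℕ → ℕ → List Off} {M : ℕ → ℕ → ℕ → List St} {t L R r ε c : ℝ}
  {n s e a b l j cl' : ℕ} {ψ ψ' x : ℕ → ℝ} {P : ℕ → ℂ} {y u : ℂ} {X : Set ℂ} {o : Off}

theorem valid_q (h : τ.valid a b cl' o = true) (g : τ.free a b = false) : o.q < τ.nq := by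
  simp only [Tab.valid, Bool.and_eq_true, Bool.or_eq_true, Nat.blt_eq] at h
  exact h.2.resolve_left (by simp [g])

theorem free_parts (h : j ≤ l) : (τ.free a (a + j) = false → τ.free a (a + l) = false) ∧
    (τ.free ((a + j) % (τ.m + 1)) ((a + j) % (τ.m + 1) + (l - j)) = false →
      τ.free a (a + l) = false) := by
  simp only [← Bool.not_eq_true, Tab.free, Bool.and_eq_true, Nat.ble_eq]
  refine ⟨fun p q => p ⟨q.1, by omega⟩, fun p q => p ?_⟩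
  rw [Nat.mod_eq_of_lt (by omega)]
  omega

theorem Fr.small (F : Fr τ t L R r ε n ψ P u ψ' x) (h0 : 0 ≤ ph ψ' s)
    (ha : a = τ.cell t (ph ψ' s)) (hb : b = τ.cell t (ph ψ' e)) (h : τ.Cls a b (ψ e - ψ s) 0) :
    Sm ψ s e := by
  rw [← F.dif] at h
  exact (F.dif s e).symm.trans_le
    (h.small F.ctx.tm (ha ▸ F.ctx.ok.cell_lo h0) (hb ▸ F.ctx.ok.cell_hi))

theorem Good.kN (G : Good τ K M) (F : Fr τ t L R r ε n ψ P u ψ' x) (T : IT P s e y c X)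
    (h0 : 0 ≤ ph ψ' s) (h1 : a ≤ τ.m) (h2 : l ≤ τ.m + 1) (ha : a = τ.cell t (ph ψ' s))
    (hb : a + l = τ.cell t (ph ψ' e)) (h3 : cl' ≤ 1) (hS : cl' = 0 → Sm ψ s e)
    (hL : cl' = 1 → τ.strad a (a + l) = true → Real.pi / 3 < ψ e - ψ s) (ho : o ∈ K a l cl') :
    τ.Sem t (r + (R + 2) * ε) (R - Rs * (r + (R + 2) * ε)) (ph ψ') x s e (u * y) c
      (τ.free a (a + l)) o := by
  obtain ⟨w, k⟩ := G.hK a h1 l h2 cl' h3 o ho
  obtain ⟨X', T'⟩ := F.tree T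
  exact F.ctx.clique T' h0 ha hb (by omega) k (by rwa [F.dif]) (by rwa [F.dif])

theorem Good.kU (G : Good τ K M) (F : Fr τ t L R r ε n ψ P u ψ' x) (T : IT P s e y c X)
    (h0 : 0 ≤ ph ψ' s) (h2 : l ≤ τ.m + 1) (ha : b = τ.cell t (ph ψ' s))
    (hb : b + l = τ.cell t (ph ψ' e)) (hS : Sm ψ s e) (ho : o ∈ K (b % (τ.m + 1)) l 0) :
    τ.Sem t (r + (R + 2) * ε) (R - Rs * (r + (R + 2) * ε)) (ph ψ') x s e (u * y) c
      (τ.free (b % (τ.m + 1)) (b % (τ.m + 1) + l)) (τ.up b o) := by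
  obtain ⟨u1, ψ1, x1, F1, a1, a2, a3⟩ := F.norm h0 ha
  have lt : b % (τ.m + 1) ≤ τ.m := Nat.lt_succ_iff.1 (Nat.mod_lt _ (by omega))
  obtain ⟨w, k⟩ := G.hK _ lt l h2 0 zero_le_one o ho
  simp only [Tab.kcheck, Bool.and_eq_true] at k
  exact a3 _ _ _ _ _ (valid_q k.1.1.1.1.1.1.1.1.1.1.1) (G.kN F1 T a1 lt h2 (a2 s 0 le_rfl ha)
    (a2 e l T.lt.le hb) zero_le_one (fun _ => hS) (by simp) ho)

/-- The tree is in a state of its region, in every frame. -/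
def Res (τ : Tab) (M : ℕ → ℕ → ℕ → List St) (t L R r ε : ℝ) (n : ℕ) (ψ : ℕ → ℝ) (P : ℕ → ℂ)
    (s e : ℕ) (y : ℂ) (c : ℝ) (X : Set ℂ) : Prop :=
  ∀ u ψ' x a l cl, Fr τ t L R r ε n ψ P u ψ' x → 0 ≤ ph ψ' s → a ≤ τ.m → l ≤ τ.m + 1 →
    a = τ.cell t (ph ψ' s) → a + l = τ.cell t (ph ψ' e) → τ.Cls a (a + l) (ψ e - ψ s) cl →
    ∃ σ ∈ M a l cl, (∀ o ∈ σ.os, τ.Sem t (r + (R + 2) * ε) (R - Rs * (r + (R + 2) * ε)) (ph ψ') x s e
      (u * y) c (τ.free a (a + l)) o) ∧ (cl = 0 ∨ σ.ps = true → FL P ψ s e y c X) ∧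
        (cl = 0 ∨ σ.pt = true → FR P ψ s e y c X)

theorem Res.up (G : Good τ K M) (h : Res τ M t L R r ε n ψ P s e y c X) (hse : s ≤ e)
    (F : Fr τ t L R r ε n ψ P u ψ' x) (h0 : 0 ≤ ph ψ' s) (h2 : l ≤ τ.m + 1)
    (ha : b = τ.cell t (ph ψ' s)) (hb : b + l = τ.cell t (ph ψ' e))
    (hc : τ.Cls b (b + l) (ψ e - ψ s) cl') :
    ∃ σ ∈ M (b % (τ.m + 1)) l cl', (∀ o ∈ σ.os, τ.Sem t (r + (R + 2) * ε)
      (R - Rs * (r + (R + 2) * ε)) (ph ψ') x s e (u * y) c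
        (τ.free (b % (τ.m + 1)) (b % (τ.m + 1) + l)) (τ.up b o)) ∧
      (cl' = 0 ∨ σ.ps = true → FL P ψ s e y c X) ∧ (cl' = 0 ∨ σ.pt = true → FR P ψ s e y c X) := by
  obtain ⟨u1, ψ1, x1, F1, a1, a2, a3⟩ := F.norm h0 ha
  have lt : b % (τ.m + 1) ≤ τ.m := Nat.lt_succ_iff.1 (Nat.mod_lt _ (by omega))
  obtain ⟨σ, b1, b2, b3⟩ := h u1 ψ1 x1 _ l cl' F1 a1 lt h2 (a2 s 0 le_rfl ha) (a2 e l hse hb)
    (F.ctx.ok.cls_mod.2 hc)
  exact ⟨σ, b1, fun o g => a3 _ _ _ _ _ (valid_q (G.hV _ lt l h2 cl' hc.le σ b1 o g)) (b2 o g), b3⟩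

theorem Good.res (G : Good τ K M) (hm : Monotone ψ) (T : IT P s e y c X) :
    Res τ M t L R r ε n ψ P s e y c X := by
  induction T with
  | leaf s =>
    intro u ψ' x a l cl F h0 h1 h2 ha hb hc
    have ok := F.ctx.ok
    have pi := Real.pi_pos
    obtain rfl : cl = 0 := by
      rcases hc with hc | ⟨-, hc, -⟩
      · exact hc.1
      have g := ale_zero F.ctx.tm ((ok.gap a h1 l h2).resolve_left (by simp [hc]))
      rw [show 48 = 3 * 16 by norm_num, av_add] at g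
      have g1 : ph ψ' s ≤ av t (τ.hi a) := ha ▸ ok.cell_hi
      have g2 : av t (τ.lo (a + l)) ≤ ph ψ' (s + 1) :=
        hb ▸ ok.cell_lo (h0.trans (F.ctx.mono (Nat.le_succ s)))
      unfold rad ph at *
      push_cast at g
      rcases F.ctx.samp.step s with ⟨-, -, -, -, k, k1, k2⟩ | ⟨k, -⟩ <;> linarith
    have sm := F.small h0 ha hb hc
    obtain ⟨σ, b1, b2⟩ := G.hS a h1 l h2 hc.has 0 (Nat.zero_le l)
    refine ⟨σ, b1, fun o g => ?_, fun _ => .base hm (.leaf s) sm, fun _ => .base hm (.leaf s) sm⟩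
    rcases b2 o g with ⟨k, k1, k2⟩ | ⟨k, k1, k', k2, k3⟩
    · exact (G.kN F (.leaf s) h0 h1 h2 ha hb zero_le_one (fun _ => sm) (by simp) k1).dom F.ctx.tm
        F.ctx.r1 (sub_nonneg.2 F.ctx.big) k2
    · obtain ⟨w, kw⟩ := G.hK a h1 0 (Nat.zero_le _) 0 zero_le_one k k1
      exact ((F.ctx.point h0 ha kw _).cmp F.ctx.tm F.ctx.r1 (sub_nonneg.2 F.ctx.big) k3
        (free_parts (Nat.zero_le l)).1 (free_parts (Nat.zero_le l)).2
        (G.kU F (.leaf s) h0 h2 ha hb sm k2)).mono (by simp)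
  | @move s e y c X z T ih =>
    intro u ψ' x a l cl F h0 h1 h2 ha hb hc
    obtain ⟨σ, b1, b2, b3, b4⟩ := ih u ψ' x a l cl F h0 h1 h2 ha hb hc
    have ok := F.ctx.ok
    have m := F.ctx.mono T.lt.le
    refine ⟨σ, b1, fun o g => ?_, fun g => (b3 g).move z, fun g => (b4 g).move z⟩
    rw [← F.dist]
    exact (b2 o g).move _ (valid_sound ok F.ctx.tm (G.hV a h1 l h2 cl hc.le σ b1 o g)
      (ha ▸ ok.cell_lo h0) (ha ▸ ok.cell_hi) (hb ▸ ok.cell_lo (h0.trans m)) (hb ▸ ok.cell_hi) m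
      fun k => by rw [F.dif]; exact F.small h0 ha hb (k ▸ hc)).1
  | spur d Y T hd hY ih =>
    intro u ψ' x a l cl F h0 h1 h2 ha hb hc
    obtain ⟨σ, b1, b2, b3, b4⟩ := ih u ψ' x a l cl F h0 h1 h2 ha hb hc
    exact ⟨σ, b1, fun o g => (b2 o g).mono (by linarith), fun g => (b3 g).spur d Y hd hY,
      fun g => (b4 g).spur d Y hd hY⟩
  | @join s m e y c d X Y T1 T2 ih1 ih2 =>
    intro u ψ' x a l cl F h0 h1 h2 ha hb hc
    have ok := F.ctx.ok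
    have m1 := F.ctx.mono T1.lt.le
    have m2 := F.ctx.mono T2.lt.le
    obtain ⟨j, hj⟩ := Nat.exists_eq_add_of_le (show a ≤ τ.cell t (ph ψ' m) from ha ▸ ok.cell_mono m1)
    have jl : j ≤ l := by have := ok.cell_mono (t := t) m2; omega
    have hb' : a + j + (l - j) = τ.cell t (ph ψ' e) := by omega
    have T := T1.join T2
    have tm := F.ctx.tm
    have r1 := F.ctx.r1
    have δ0 := sub_nonneg.2 F.ctx.big
    obtain rfl | rfl : cl = 0 ∨ cl = 1 := by have := hc.le; omega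
    · have sm := F.small h0 ha hb hc
      obtain ⟨σ, b1, b2⟩ := G.hS a h1 l h2 hc.has j jl
      refine ⟨σ, b1, fun o g => ?_, fun _ => .base hm T sm, fun _ => .base hm T sm⟩
      rcases b2 o g with ⟨k, k1, k2⟩ | ⟨k, k1, k', k2, k3⟩
      · exact (G.kN F T h0 h1 h2 ha hb zero_le_one (fun _ => sm) (by simp) k1).dom tm r1 δ0 k2
      · exact (G.kN F T1 h0 h1 (by omega) ha hj.symm zero_le_one
          (fun _ => sm.sub hm le_rfl T2.lt.le) (by simp) k1).cmp tm r1 δ0 k3 (free_parts jl).1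
          (free_parts jl).2 (G.kU F T2 (h0.trans m1) (by omega) hj.symm hb'
            (sm.sub hm T1.lt.le le_rfl) k2)
    obtain ⟨c1, hc1⟩ := exists_cls τ a (a + j) (ψ m - ψ s)
    obtain ⟨c2, hc2⟩ := exists_cls τ (a + j) (a + l) (ψ e - ψ m)
    obtain ⟨σ1, p1, p2, p3, p4⟩ := ih1 u ψ' x a j c1 F h0 h1 (by omega) ha hj.symm hc1
    obtain ⟨σ2, q1, q2, q3, q4⟩ := ih2.up G T2.lt.le F (h0.trans m1) (l := l - j) (by omega) hj.symm hb'
      (by rwa [hb', ← hb])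
    obtain ⟨σ, b1, b2, b3, b4⟩ := G.hM a h1 l h2 hc.has j jl c1 hc1.le c2 hc2.le hc1.has hc2.has (by
      simp only [Tab.feas, Bool.not_eq_true', ← Bool.not_eq_true, Bool.and_eq_true, beq_iff_eq]
      rintro ⟨⟨⟨f1, rfl⟩, rfl⟩, f2⟩
      rw [← F.dif] at hc1 hc2
      have g1 := hc1.large tm f1 (ha ▸ ok.cell_hi) (hj ▸ ok.cell_lo (h0.trans m1))
      have g2 := hc2.large tm f1 (hj ▸ ok.cell_hi) (hb ▸ ok.cell_lo ((h0.trans m1).trans m2))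
      have g3 := ale_sound tm f2
      have g4 : av t (τ.lo a) ≤ ph ψ' s := ha ▸ ok.cell_lo h0
      have g5 : ph ψ' e ≤ av t (τ.hi (a + l)) := hb ▸ ok.cell_hi
      unfold rad at g3
      push_cast at g3
      linarith [Real.pi_pos]) σ1 p1 σ2 q1
    refine ⟨σ, b1, fun o g => ?_, fun g => ?_, fun g => ?_⟩
    · rcases b4 o g with ⟨k, k1, k2⟩ | ⟨k, k1, k', k2, k3⟩
      · exact (G.kN F T h0 h1 h2 ha hb le_rfl (by simp)
          (fun _ => (hc.resolve_left (by simp)).2.2) k1).dom tm r1 δ0 k2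
      · exact (p2 k k1).cmp tm r1 δ0 k3 (free_parts jl).1 (free_parts jl).2 (q2 k' k2)
    · obtain ⟨rfl, g'⟩ := b2 (g.resolve_left (by simp))
      exact (p3 g').join hm T2 (F.small (h0.trans m1) hj.symm hb hc2)
    · obtain ⟨rfl, g'⟩ := b3 (g.resolve_left (by simp))
      exact FR.join hm T1 (F.small h0 ha hj.symm hc1) (q4 g')

end Pool.Agent.Lib.MP_4b56aa_gt.Cert
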