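import Pool.Agent.Lib.MP_4b56aa_gt.Cert.CMode

/-! Clique offers hold for every tree. -/

namespace Pool.Agent.Lib.MP_4b56aa_gt.Cert

open Pool.Agent.Lib.MP_4b56aa_gt.Red Pool.Agent.Lib.MP_4b56aa_gt.Fan

/-- Tangent angles. -/
noncomputable def ph (ψ : ℕ → ℝ) (i : ℕ) : ℝ := ψ i + Real.pi / 2

/-- Standing assumptions. -/
structure Ctx (τ : Tab) (t L R r ε : ℝ) (n : ℕ) (ψ x : ℕ → ℝ) (P : ℕ → ℂ) : Prop where
  ok : Ok τ
  tm : Tm τ.T t
  samp : Samp L ε n ψ x
  r0 : 0 ≤ r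
  rR : r ≤ R
  e0 : 0 < ε
  e1 : ε < 1
  near : ∀ i, dist (P i) (smp R ψ x i) ≤ r + ε
  big : Rs * (r + (R + 2) * ε) ≤ R

variable {τ : Tab} {t L R r ε c : ℝ} {n s e cl' : ℕ} {ψ x : ℕ → ℝ} {P : ℕ → ℂ} {y : ℂ} {X : Set ℂ}
  {o : Off} {w : KW}

theorem Ctx.mono (h : Ctx τ t L R r ε n ψ x P) {i k : ℕ} (g : i ≤ k) : ph ψ i ≤ ph ψ k :=
  add_le_add_left (h.samp.monotone g) _

theorem Ctx.r1 (h : Ctx τ t L R r ε n ψ x P) : 0 ≤ r + (R + 2) * ε := by
  have := h.r0; have := h.r0.trans h.rR; have := h.e0; positivity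

theorem cl_ph (α β : ℝ) (i : ℕ) :
    cl (α - Real.pi / 2) (β - Real.pi / 2) (ψ i) = cl α β (ph ψ i) - Real.pi / 2 := by
  unfold cl ph
  rw [← max_sub_sub_right, ← min_sub_sub_right, add_sub_cancel_right]

theorem tg_sub (a : ℝ) : tg (a - Real.pi / 2) = nv a := by rw [tg, sub_add_cancel]

theorem Ctx.clique (h : Ctx τ t L R r ε n ψ x P) (T : IT P s e y c X) (h0 : 0 ≤ ph ψ s) {a b : ℕ}
    (ha : a = τ.cell t (ph ψ s)) (hb : b = τ.cell t (ph ψ e)) (h1 : b ≤ 2 * τ.m + 1)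
    (k : τ.kcheck a b cl' o w = true) (hS : cl' = 0 → ph ψ e - ph ψ s ≤ Real.pi / 3)
    (hL : cl' = 1 → τ.strad a b = true → Real.pi / 3 < ph ψ e - ph ψ s) :
    τ.Sem t (r + (R + 2) * ε) (R - Rs * (r + (R + 2) * ε)) (ph ψ) x s e y c (τ.free a b) o := by
  intro q g hq hf
  have m := h.mono T.lt.le
  obtain ⟨α, β, U, V, D, K⟩ := kcheck_num h.ok h.tm k (ha ▸ h.ok.cell_lo h0) (ha ▸ h.ok.cell_hi)
    (hb ▸ h.ok.cell_lo (h0.trans m)) (hb ▸ h.ok.cell_hi) m hS hL
  unfold Tab.SemAt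
  simp only []
  set C : ℂ := lat τ.N g 0 + (τ.off t q : ℝ) with hC
  set u := C + vec t o.ka (ph ψ s) with hu
  set v := C + lat τ.N o.di o.dj + vec t o.kb (ph ψ e) with hv
  have ev : v = u - U + V := by rw [hu, hv]; linear_combination -K.dif
  have e1 : ∀ z, u - (u - U + D + z) = U - (D + z) := fun z => by ring
  have e2 : ∀ z, v - (u - U + D + z) = V - (D + z) := fun z => by rw [ev]; ring
  have pi := Real.pi_pos
  have B := base_val (α := α - Real.pi / 2) (β := β - Real.pi / 2) h.samp h.r0 h.rR h.e0 h.e1 h.near T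
    u v (u - U + D) (τ.kap t q) (by rw [cl_ph, cl_ph]; linarith [K.turn])
    (by rw [ev, show u - (u - U + V) = U - V by ring]; exact K.uv)
    (fun φ a b => by
      rw [cl_ph] at a b; rw [e1]; exact K.hu _ (by linarith) (by linarith))
    (fun φ a b => by
      rw [cl_ph] at a b; rw [e2]; exact K.hv _ (by linarith) (by linarith))
    (fun i i1 i2 => by
      rcases h.samp.step i with ⟨a, -⟩ | ⟨a1, a2, a3⟩
      · simp [a]
      have l1 := h.mono i1
      have l2 := h.mono i2.le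
      have l3 := h.ok.cell_lt (hb ▸ h1)
      have sn : Real.sin (ph ψ i) = 0 := by rw [ph, Real.sin_add_pi_div_two, a2]
      have cn : Real.sin (ψ i) = -Real.cos (ph ψ i) := by rw [ph, Real.cos_add_pi_div_two, neg_neg]
      rw [cl_ph, tg_sub, show ph ψ (i + 1) = ph ψ i by rw [ph, ph, a1]]
      have re : ∀ z : ℂ, (u - U + D + z).re =
          (lat τ.N g 0 + vec t o.ka (ph ψ s) - U + D + z).re + τ.off t q := fun z => by
        simp only [hu, hC, Complex.add_re, Complex.sub_re, Complex.ofReal_re]; ring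
      rcases (h0.trans l1).eq_or_lt with z | z
      · have a0 : a = 0 := by rw [ha, le_antisymm (z ▸ l1) h0, h.ok.cell_zero]
        obtain ⟨rfl, rfl⟩ := hf (by simp [Tab.free, a0])
        rw [cn, ← z, Real.cos_zero] at a3
        rw [abs_of_pos (by linarith), re, ← z]
        exact mul_le_mul_of_nonneg_right (by unfold Tab.kap Tab.off; linarith [K.bot a0]) (by linarith)
      · have z' : ph ψ i = Real.pi := sub_eq_zero.1 ((Real.sin_eq_zero_iff_of_lt_of_lt
          (by linarith) (by linarith)).1 (by rw [Real.sin_sub_pi, sn, neg_zero]))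
        have b0 : τ.m < b := hb ▸ h.ok.cell_ge (z' ▸ l2)
        obtain ⟨rfl, rfl⟩ := hf (by
          rw [Tab.free, Bool.and_eq_false_iff, ← Bool.not_eq_true (Nat.ble b _), Nat.ble_eq]
          exact Or.inr b0.not_ge)
        rw [cn, z', Real.cos_pi] at a3
        rw [abs_of_neg (by linarith), re, z', ← neg_mul_neg (_ + _)]
        exact mul_le_mul_of_nonneg_right (by unfold Tab.kap Tab.off; linarith [K.top b0]) (by linarith))
  rw [cl_ph, cl_ph, tg_sub, tg_sub, e1, ← norm_neg (_ - v), ← neg_sub v, neg_neg, e2,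
    show nv (ψ s) = nv (ph ψ s - Real.pi / 2) by rw [ph, add_sub_cancel_right],
    show nv (ψ e) = nv (ph ψ e - Real.pi / 2) by rw [ph, add_sub_cancel_right],
    show ∀ a b : ℂ, dot (-a) b = -dot a b from fun a b => by simp [dot]; ring] at B
  linarith [mul_le_mul_of_nonneg_left K.val h.r1, mul_le_mul_of_nonneg_left K.sl (sub_nonneg.2 h.big)]

theorem Ctx.point (h : Ctx τ t L R r ε n ψ x P) (h0 : 0 ≤ ph ψ s) {a : ℕ}
    (ha : a = τ.cell t (ph ψ s)) (k : τ.kcheck a a 0 o w = true) (f : Bool) :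
    τ.Sem t (r + (R + 2) * ε) (R - Rs * (r + (R + 2) * ε)) (ph ψ) x s s (P s) 0 f o := by
  intro q g _ _
  obtain ⟨α, β, U, V, D, K⟩ := kcheck_num h.ok h.tm k (ha ▸ h.ok.cell_lo h0) (ha ▸ h.ok.cell_hi)
    (ha ▸ h.ok.cell_lo h0) (ha ▸ h.ok.cell_hi) le_rfl (fun _ => by rw [sub_self]; positivity) (by simp)
  unfold Tab.SemAt
  simp only []
  set C : ℂ := lat τ.N g 0 + (τ.off t q : ℝ) with hC
  set u := C + vec t o.ka (ph ψ s) with hu
  set v := C + lat τ.N o.di o.dj + vec t o.kb (ph ψ s) with hv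
  have ev : v = u - U + V := by rw [hu, hv]; linear_combination -K.dif
  have d : ‖P s - smp R ψ x s‖ ≤ r + (R + 2) * ε := by
    rw [← dist_eq_norm]; nlinarith [h.near s, h.r0.trans h.rR, h.e0]
  have j := (dot_le (V - U) (P s - smp R ψ x s)).trans (mul_le_mul_of_nonneg_left d (norm_nonneg _))
  have s1 := dot_smp (R := R) (ψ := ψ) (x := x) (V - U) s
  have tr := norm_sub_le_norm_sub_add_norm_sub V (D + nv (cl α β (ph ψ s))) U
  rw [norm_sub_rev (D + _) U] at tr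
  have k1 := mul_le_mul_of_nonneg_left K.val h.r1
  have k2 := mul_le_mul_of_nonneg_left K.sl (sub_nonneg.2 h.big)
  have k3 := mul_le_mul_of_nonneg_left tr h.r1
  rw [show nv (ψ s) = nv (ph ψ s - Real.pi / 2) by rw [ph, add_sub_cancel_right]] at s1
  rw [ev]
  simp only [dot, Complex.sub_re, Complex.sub_im, Complex.add_re, Complex.add_im] at j s1 k1 k2 ⊢
  linarith

end Pool.Agent.Lib.MP_4b56aa_gt.Cert
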