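import Pool.Agent.Lib.MP_4b56aa_gt.Cert.CEval

/-! Modes, thresholds on the straight sides and the numerical content of a clique offer. -/

namespace Pool.Agent.Lib.MP_4b56aa_gt.Cert

open Pool.Agent.Lib.MP_4b56aa_gt.Red Pool.Agent.Lib.MP_4b56aa_gt.Fan

variable {τ : Tab} {t φ p q : ℝ} {a b c cl' : ℕ} {w : KW} {o : Off}

theorem av_neg {X : ℕ} (h : X ≤ 542) : av t (542 - X) = -av t X := by
  unfold av
  rw [show (542 - X) / 3 = 180 - X / 3 by omega, show (542 - X) % 3 = 2 - X % 3 by omega,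
    Nat.cast_sub (by omega), Nat.cast_sub (by omega)]
  push_cast; ring

theorem cos_code {T a b : ℕ} (hT : T ≤ 10) (h : dg T a ≤ dg T b + 90) :
    (cs (dg T b + 360 - dg T a) : ℝ) - 1 ≤ Q * Real.cos (av T b - av T a) := by
  have := abs_le.1 (cs_near (dg T b + 360 - dg T a))
  rw [show rad (dg T b + 360 - dg T a : ℕ) = av T b - av T a + 2 * Real.pi by
    rw [Nat.cast_sub (by omega), av_dg hT, av_dg hT]; unfold rad; push_cast; ring,
    Real.cos_add_two_pi] at this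
  linarith [this.2]

theorem thr_sound (h : Ok τ) (ht : Tm τ.T t) {i : ℤ} {μ al X : ℕ} (k : ℕ) (hal : al = 271 + 540 * k)
    (e : thrOK τ i μ al X = true) (x1 : ale τ.T X 271 90 = true) :
    Real.cos (av t X) ≤ (lat τ.N i 0).re +
      ((μ % 2 : ℕ) : ℝ) * Real.cos (ang t μ (k * Real.pi) - k * Real.pi) := by
  have N0 : (1 : ℝ) ≤ τ.N := by exact_mod_cast h.N1
  have ea : ∀ s, av s al = k * Real.pi := fun s => by rw [hal, av_540, av_271, zero_add]
  have eb : μ % 2 = 1 → ang t μ (k * Real.pi) = av t (if μ % 4 = 1 then al else μ / 4) := fun g => by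
    rw [← ea t, ang_code]; congr 1; split_ifs <;> omega
  have pi := Real.pi_pos
  simp only [thrOK, Bool.and_eq_true, Bool.or_eq_true, beq_iff_eq, decide_eq_true_eq] at e
  generalize (if μ % 4 = 1 then al else μ / 4) = b at e eb
  rcases e.2 with ⟨⟨⟨e1, e2⟩, e3⟩, e4⟩ | ⟨⟨⟨e1, e2⟩, e3⟩, e4⟩
  · have X1 : X ≤ 542 := by
      simp only [ale, Bool.and_eq_true, Nat.ble_eq, dg] at x1; omega
    have k3 := ale_zero ht e3
    have k4 := ale_zero ht e4
    rw [show al - 271 = 540 * k by omega, av_540] at k3 k4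
    rw [av_neg X1] at k4
    have := Real.cos_le_cos_of_nonneg_of_le_pi (abs_nonneg (av t b - k * Real.pi))
      (show av t X ≤ Real.pi by linarith [ale_90 ht x1, av_271 t])
      (abs_le.2 ⟨by linarith, by linarith⟩)
    have i0 : (0 : ℝ) ≤ i := by exact_mod_cast e2
    have : 0 ≤ (lat τ.N i 0).re := by simp only [lat]; positivity
    rw [eb e1, e1]
    rw [Real.cos_abs] at *
    push_cast; linarith
  · have c1 : Q * Real.cos (av t X) ≤ (if X % 3 = 1 then cs (dg 0 X) else Q : ℤ) + 1 := by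
      split_ifs with g
      · rw [av_fix g, Real.cos_sub_two_pi]; linarith [(abs_le.1 (cs_near (dg 0 X))).1]
      · rw [Q_eq]; linarith [Real.cos_le_one (av t X)]
    have c2 : ((if μ % 2 = 0 then 0 else min (cs (dg 0 b + 360 - dg 0 al))
        (cs (dg τ.T b + 360 - dg τ.T al)) : ℤ) : ℝ) - 1 ≤
        Q * (((μ % 2 : ℕ) : ℝ) * Real.cos (ang t μ (k * Real.pi) - k * Real.pi)) := by
      split_ifs with g
      · simp [g]
      obtain ⟨f1, f2⟩ := e1.resolve_left g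
      have u0 := ale_90 ht.zero f1
      have u1 := ale_90 ht.zero f2
      have u2 := ale_90 ht.top f1
      have u3 := ale_90 ht.top f2
      simp only [ale, Bool.and_eq_true, Nat.ble_eq] at f2
      have v0 := cos_code (Nat.zero_le 10) f2.1
      have v1 := cos_code ht.hT f2.2
      rw [Nat.cast_zero] at v0
      rw [ea] at u0 u1 u2 u3 v0 v1
      have := strictConcaveOn_cos_Icc.concaveOn.2 (x := av 0 b - k * Real.pi)
        (y := av τ.T b - k * Real.pi) ⟨by linarith, by linarith⟩ ⟨by linarith, by linarith⟩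
        (sub_nonneg.2 ht.l1) ht.l0 (by ring)
      simp only [smul_eq_mul] at this
      rw [show (1 - t / τ.T) * (av 0 b - k * Real.pi) + t / τ.T * (av τ.T b - k * Real.pi) =
        av t b - k * Real.pi by rw [av_itp ht b]; ring] at this
      have g1 : μ % 2 = 1 := by omega
      rw [eb g1, g1]
      rw [Q_eq] at v0 v1 ⊢
      push_cast
      linarith [mul_le_mul_of_nonneg_left ((sub_le_sub_right (min_le_left _
          (cs (dg τ.T b + 360 - dg τ.T al) : ℝ)) 1).trans v0) (sub_nonneg.2 ht.l1),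
        mul_le_mul_of_nonneg_left ((sub_le_sub_right (min_le_right
          (cs (dg 0 b + 360 - dg 0 al) : ℝ) _) 1).trans v1) ht.l0]
    generalize (if X % 3 = 1 then cs (dg 0 X) else Q : ℤ) = u at c1 e2
    generalize (if μ % 2 = 0 then 0 else min (cs (dg 0 b + 360 - dg 0 al))
        (cs (dg τ.T b + 360 - dg τ.T al)) : ℤ) = v at c2 e2
    have e2' : (2 : ℝ) * τ.N * (u + 16) ≤ i * S3 + 2 * τ.N * v := by exact_mod_cast e2
    have e3' : (-8 : ℝ) * τ.N ≤ i := by exact_mod_cast e3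
    have e4' : (i : ℝ) ≤ 8 * τ.N := by exact_mod_cast e4
    have s := abs_le.1 (mb (show |(i : ℝ)| ≤ 8 * τ.N from abs_le.2 ⟨by linarith, e4'⟩)
      (show |√3 * Q - S3| ≤ 1 from abs_le.2 ⟨by linarith [S3_mem.1], by linarith [S3_mem.2]⟩))
    have l := lat_re h.N1 i 0
    refine le_of_mul_le_mul_left (a := (2 * τ.N * Q : ℝ)) ?_ (by rw [Q_eq]; positivity)
    linarith [mul_le_mul_of_nonneg_left c1 (zero_le_one.trans N0),
      mul_le_mul_of_nonneg_left c2 (zero_le_one.trans N0), s.1]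

/-- Ends of the clamp and shift of the centre of the mode. -/
noncomputable def mA (τ : Tab) (t : ℝ) (a : ℕ) (w : KW) : ℝ := av t (if w.st then τ.lo a else w.b1)
noncomputable def mB (τ : Tab) (t : ℝ) (a : ℕ) (w : KW) : ℝ := av t (if w.st then τ.lo a else w.b2)
noncomputable def mD (τ : Tab) (t : ℝ) (a : ℕ) (w : KW) : ℂ :=
  if w.st then -nv (av t (τ.lo a)) else 0

theorem mode_spec (ht : Tm τ.T t) (hw : (w.st || ale τ.T w.b1 w.b2 0) = true)
    (hμ : τ.modeAt a w c ≠ 0) (h1 : av t (τ.lo c) ≤ φ) (h2 : φ ≤ av t (τ.hi c)) :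
    ang t (τ.modeAt a w c) φ = cl (mA τ t a w) (mB τ t a w) φ ∧
      vec t (τ.modeAt a w c) φ = mD τ t a w + nv (cl (mA τ t a w) (mB τ t a w) φ) := by
  have fx : ∀ k, ang t (4 * k + 3) φ = av t k ∧ vec t (4 * k + 3) φ = 0 + nv (av t k) := fun k => by
    unfold ang vec
    rw [show (4 * k + 3) % 4 = 3 by omega, show (4 * k + 3) / 4 = k by omega]; simp
  unfold Tab.modeAt mA mB mD at *
  cases e : w.st
  · simp only [e, Bool.false_or, Bool.false_eq_true, if_false] at hw hμ ⊢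
    have l := ale_zero ht hw
    split_ifs at hμ ⊢ with c1 c2 c3
    · rw [show cl (av t w.b1) (av t w.b2) φ = av t w.b2 by
        rcases c1 with c1 | c1
        · rw [c1]; exact le_antisymm (cl_mem le_rfl φ).2 (cl_mem le_rfl φ).1
        · exact cl_hi l ((ale_zero ht c1).trans h1)]
      exact fx _
    · rw [cl_lo (h2.trans (ale_zero ht c2))]; exact fx _
    · rw [cl, min_eq_left (h2.trans (ale_zero ht c3.2)), max_eq_right ((ale_zero ht c3.1).trans h1)]
      simp [ang, vec]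
    · exact absurd rfl hμ
  · simp only [if_true]
    rw [le_antisymm (cl_mem le_rfl φ).2 (cl_mem le_rfl φ).1]
    unfold ang vec
    rw [show (4 * τ.lo a + 2) % 4 = 2 by omega, show (4 * τ.lo a + 2) / 4 = τ.lo a by omega]; simp

theorem mode_mem (ht : Tm τ.T t) (hw : (w.st || ale τ.T w.b1 w.b2 0) = true)
    (h1 : av t (τ.lo a) ≤ p) (h2 : p ≤ q) (h3 : q ≤ av t (τ.hi b))
    (g1 : cl (mA τ t a w) (mB τ t a w) p ≤ φ) (g2 : φ ≤ cl (mA τ t a w) (mB τ t a w) q) :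
    VS.Mem (if w.st then ⟨true, false, 0, 0⟩ else
      ⟨false, ale τ.T w.b1 (τ.lo a) 0 && ale τ.T (τ.hi b) w.b2 0, w.b1, w.b2⟩) t p q
      (mD τ t a w + nv φ) := by
  unfold mA mB mD at *
  cases e : w.st
  · simp only [e, Bool.false_or, Bool.false_eq_true, if_false] at hw g1 g2 ⊢
    have l := ale_zero ht hw
    refine Or.inr ⟨rfl, φ, (cl_mem l p).1.trans g1, g2.trans (cl_mem l q).2, fun s => ?_, zero_add _⟩
    simp only [Bool.and_eq_true] at s
    have s1 := ale_zero ht s.1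
    have s2 := ale_zero ht s.2
    rw [cl, min_eq_left (by linarith), max_eq_right (by linarith)] at g1 g2
    exact ⟨g1, g2⟩
  · simp only [e, if_true] at g1 g2 ⊢
    rw [le_antisymm (g2.trans (cl_mem le_rfl q).2) ((cl_mem le_rfl p).1.trans g1)]
    exact Or.inl ⟨rfl, neg_add_cancel _⟩

theorem Ok.piece (h : Ok τ) (f : Bool) (h1 : av t (τ.lo c) ≤ φ) (h2 : φ ≤ av t (τ.hi c))
    (l μ : ℕ) (i j σ : ℤ) : ∃ p1 p2, av t p1 ≤ φ ∧ φ ≤ av t p2 ∧
      (p1, p2, evalI τ.N τ.T l μ i j σ p1 p2) ∈ evalG τ.N τ.T l μ i j σ (τ.grid f c) := by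
  have lt := Nat.mod_lt c (show 0 < τ.m + 1 by omega)
  obtain ⟨g1, g2, g3⟩ := h.grid (c % (τ.m + 1)) (by omega) f
  rw [h.lo_eq] at g1
  rw [h.hi_eq] at g2
  unfold Tab.grid at g1 g2 g3
  simp only [Nat.mod_mod, Nat.div_eq_of_lt lt, mul_zero, add_zero, List.map_id'] at g1 g2 g3
  refine evalG_piece ?_ ?_ ?_ h1 h2
  · rw [Tab.grid, List.head?_map, g1, h.lo_eq]; rfl
  · rw [Tab.grid, List.getLast?_map, g2, h.hi_eq]; rfl
  · rwa [Tab.grid, List.length_map]

theorem valid_sound (h : Ok τ) (ht : Tm τ.T t) (e : τ.valid a b cl' o = true)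
    (h1 : av t (τ.lo a) ≤ p) (h2 : p ≤ av t (τ.hi a)) (h3 : av t (τ.lo b) ≤ q)
    (h4 : q ≤ av t (τ.hi b)) (h5 : p ≤ q) (hS : cl' = 0 → q - p ≤ Real.pi / 3) :
    ‖vec t o.ka p - (lat τ.N o.di o.dj + vec t o.kb q)‖ ≤ 1 ∧ (τ.free a b = false → o.q < τ.nq) := by
  simp only [Tab.valid, Bool.and_eq_true, Bool.or_eq_true, Nat.blt_eq] at e
  exact ⟨okPair_sound h ht e.1 (fun g => hS (by simpa using g)) (vsL_mem h1 h2 le_rfl h5)
    (vsL_mem h3 h4 h5 le_rfl), fun g => e.2.resolve_left (by simp [g])⟩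

/-- The numerical content of a clique offer at the tangent angles `p ≤ q`. -/
structure KNum (τ : Tab) (t : ℝ) (a b : ℕ) (o : Off) (p q α β : ℝ) (U V D : ℂ) : Prop where
  turn : cl α β q - cl α β p ≤ Real.pi / 3
  dif : V - U = lat τ.N o.di o.dj + vec t o.kb q - vec t o.ka p
  uv : ‖U - V‖ ≤ 1
  hu : ∀ φ, cl α β p ≤ φ → φ ≤ cl α β q → ‖U - (D + nv φ)‖ ≤ 1
  hv : ∀ φ, cl α β p ≤ φ → φ ≤ cl α β q → ‖V - (D + nv φ)‖ ≤ 1
  bot : a = 0 → Real.cos (av t (τ.XB o.q)) ≤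
    (lat τ.N o.h 0 + vec t o.ka p - U + D + nv (cl α β 0)).re
  top : τ.m < b → Real.cos (av t (τ.XT o.q)) ≤
    -(lat τ.N o.h 0 + vec t o.ka p - U + D + nv (cl α β Real.pi)).re
  val : itp τ.T t o.v0 o.v1 ≤ -‖U - (D + nv (cl α β p))‖ - ‖V - (D + nv (cl α β q))‖ +
    Rs * (dot (U - (D + nv (cl α β p))) (nv (p - Real.pi / 2)) -
      dot (V - (D + nv (cl α β q))) (nv (q - Real.pi / 2))) +
    (Rs - 1) * (ang t o.ka p - cl α β p - (ang t o.kb q - cl α β q))
  sl : o.sl / Q ≤ dot (U - (D + nv (cl α β p))) (nv (p - Real.pi / 2)) -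
      dot (V - (D + nv (cl α β q))) (nv (q - Real.pi / 2)) +
    (ang t o.ka p - cl α β p - (ang t o.kb q - cl α β q))

theorem kcheck_num (h : Ok τ) (ht : Tm τ.T t) (e : τ.kcheck a b cl' o w = true)
    (h1 : av t (τ.lo a) ≤ p) (h2 : p ≤ av t (τ.hi a)) (h3 : av t (τ.lo b) ≤ q)
    (h4 : q ≤ av t (τ.hi b)) (h5 : p ≤ q) (hS : cl' = 0 → q - p ≤ Real.pi / 3)
    (hL : cl' = 1 → τ.strad a b = true → Real.pi / 3 < q - p) :
    ∃ α β U V D, KNum τ t a b o p q α β U V D := by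
  simp only [Tab.kcheck, Bool.and_eq_true, bne_iff_ne, decide_eq_true_eq] at e
  obtain ⟨⟨⟨⟨⟨⟨⟨⟨⟨⟨⟨e1, e2⟩, e3⟩, e4⟩, e5⟩, e6⟩, e7⟩, e8⟩, e9⟩, e10⟩, e11⟩, e12⟩ := e
  obtain ⟨v1, v2⟩ := valid_sound h ht e1 h1 h2 h3 h4 h5 hS
  have hS' : (cl' == 0) = true → q - p ≤ Real.pi / 3 := fun g => hS (by simpa using g)
  obtain ⟨a1, a2⟩ := mode_spec ht e2 e3 h1 h2
  obtain ⟨b1, b2⟩ := mode_spec ht e2 e4 h3 h4
  have mo := cl_step (α := mA τ t a w) (β := mB τ t a w) h5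
  have hu : ∀ φ, cl (mA τ t a w) (mB τ t a w) p ≤ φ → φ ≤ cl (mA τ t a w) (mB τ t a w) q →
      ‖lat τ.N w.ai w.aj + vec t o.ka p - (mD τ t a w + nv φ)‖ ≤ 1 := fun φ g1 g2 => by
    have := okPair_sound h ht e6 hS' (vsL_mem h1 h2 le_rfl h5) (mode_mem ht e2 h1 h5 h4 g1 g2)
    rwa [lat_neg, show ∀ x y z : ℂ, x - (-y + z) = y + x - z from fun _ _ _ => by ring] at this
  have hv : ∀ φ, cl (mA τ t a w) (mB τ t a w) p ≤ φ → φ ≤ cl (mA τ t a w) (mB τ t a w) q →
      ‖lat τ.N (w.ai + o.di) (w.aj + o.dj) + vec t o.kb q - (mD τ t a w + nv φ)‖ ≤ 1 :=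
    fun φ g1 g2 => by
      rw [norm_sub_rev]
      exact okPair_sound h ht e7 hS' (mode_mem ht e2 h1 h5 h4 g1 g2) (vsL_mem h3 h4 h5 le_rfl)
  have re : ∀ z : ℂ, (lat τ.N o.h 0 + vec t o.ka p - (lat τ.N w.ai w.aj + vec t o.ka p) +
      mD τ t a w + z).re = (lat τ.N (o.h - w.ai) 0).re + (mD τ t a w + z).re := fun z => by
    simp only [Complex.add_re, Complex.sub_re, lat]; push_cast; ring
  obtain ⟨p1, p2, r1, r2, r3⟩ := h.piece (cl' == 1 && τ.strad a b) h1 h2 o.ka (τ.modeAt a w a)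
    w.ai w.aj 1
  obtain ⟨q1, q2, s1, s2, s3⟩ := h.piece (cl' == 1 && τ.strad a b) h3 h4 o.kb (τ.modeAt a w b)
    (w.ai + o.di) (w.aj + o.dj) (-1)
  obtain ⟨x1, x2⟩ := evalI_sound (l := o.ka) (μ := τ.modeAt a w a) ht h.N1 (Or.inl rfl) e8 r1 r2
    (by rw [jd, a2]; exact hu _ le_rfl mo.1)
  obtain ⟨y1, y2⟩ := evalI_sound (l := o.kb) (μ := τ.modeAt a w b) ht h.N1 (Or.inr rfl) e9 s1 s2
    (by rw [jd, b2]; exact hv _ mo.1 le_rfl)
  generalize evalI τ.N τ.T o.ka (τ.modeAt a w a) w.ai w.aj 1 p1 p2 = x at r3 x1 x2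
  generalize evalI τ.N τ.T o.kb (τ.modeAt a w b) (w.ai + o.di) (w.aj + o.dj) (-1) q1 q2 = y
    at s3 y1 y2
  have z : o.v0 ≤ x.1 + y.1 ∧ o.v1 ≤ x.2.1 + y.2.1 ∧ o.sl ≤ x.2.2 + y.2.2 := by
    split_ifs at e12 with f
    · simp only [List.all_eq_true, Bool.or_eq_true, Bool.and_eq_true, decide_eq_true_eq] at e12
      rcases e12 _ r3 _ s3 with g | g
      · linarith [ale_60 ht g, hL (by simpa using f.1) f.2]
      · exact ⟨g.1.1, g.1.2, g.2⟩
    · simp only [Bool.and_eq_true, decide_eq_true_eq] at e12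
      obtain ⟨m1, m2, m3⟩ := min3_le r3
      obtain ⟨n1, n2, n3⟩ := min3_le s3
      exact ⟨e12.1.1.trans (add_le_add m1 n1), e12.1.2.trans (add_le_add m2 n2),
        e12.2.trans (add_le_add m3 n3)⟩
  have z1 : (o.v0 : ℝ) ≤ x.1 + y.1 := by exact_mod_cast z.1
  have z2 : (o.v1 : ℝ) ≤ x.2.1 + y.2.1 := by exact_mod_cast z.2.1
  have z3 : (o.sl : ℝ) ≤ x.2.2 + y.2.2 := by exact_mod_cast z.2.2
  simp only [jG, jS, jd, a1, a2, b1, b2] at x1 x2 y1 y2
  have Q0 : (0 : ℝ) < Q := by rw [Q_eq]; norm_num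
  refine ⟨_, _, _, _, _, ?_, by rw [lat_add]; ring, ?_, hu, hv, fun g => ?_, fun g => ?_, ?_, ?_⟩
  · cases f : w.st
    · simp only [f, Bool.false_eq_true, if_false, okPair, and_self, if_true, Bool.or_eq_true,
        Bool.and_eq_true, Bool.false_or] at e5 e2
      rcases e5 with e5 | e5
      · linarith [hS' e5.1.1, mo.2.1]
      · have l := ale_zero ht e2
        simp only [mA, mB, f, Bool.false_eq_true, if_false]
        linarith [ale_60 ht e5, (cl_mem l p).1, (cl_mem l q).2]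
    · simp only [mA, mB, f, if_true]
      linarith [(cl_mem (le_refl (av t (τ.lo a))) p).1, (cl_mem (le_refl (av t (τ.lo a))) q).2,
        Real.pi_pos]
  · rwa [lat_add, show ∀ x y z u : ℂ, x + y - (x + z + u) = y - (z + u) from fun _ _ _ _ => by ring]
  · have f : thrOK τ (o.h - w.ai) (τ.modeAt a w 0) 271 (τ.XB o.q) = true := by simpa [g] using e10
    have := thr_sound h ht 0 rfl f (h.xb o.q (v2 (by simp [Tab.free, g]))).2
    simp only [thrOK, Bool.and_eq_true, bne_iff_ne] at f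
    obtain ⟨c1, c2⟩ := mode_spec (φ := 0) ht e2 f.1 (by rw [h.lo0.1, av_271]) (by rw [h.lo0.2, av_271])
    rw [re, ← c2, vec_eq, Complex.re_ofReal_mul, nv_re]
    simpa using this
  · have f : thrOK τ (w.ai - o.h) (τ.modeAt a w (τ.m + 1)) 811 (τ.XT o.q) = true :=
      (Bool.or_eq_true _ _ ▸ e11).resolve_left (by rw [Nat.ble_eq]; omega)
    have := thr_sound h ht 1 rfl f (h.xb (τ.nq - 1 - o.q) (by have := h.nq1; omega)).2
    change Real.cos (av t (τ.XT o.q)) ≤ _ at this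
    simp only [thrOK, Bool.and_eq_true, bne_iff_ne] at f
    obtain ⟨c1, c2⟩ := mode_spec (φ := Real.pi) ht e2 f.1 (by rw [h.lo1.1, av_811])
      (by rw [h.lo1.2, av_811])
    rw [re, ← c2, vec_eq, Complex.re_ofReal_mul, nv_re]
    rw [Nat.cast_one, one_mul, Real.cos_sub_pi] at this
    simp only [lat] at this ⊢
    push_cast at this ⊢
    linear_combination this
  · rw [itp, div_le_iff₀ Q0]
    push_cast at x1 y1
    linarith [mul_le_mul_of_nonneg_left z1 (sub_nonneg.2 ht.l1), mul_le_mul_of_nonneg_left z2 ht.l0]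
  · rw [div_le_iff₀ Q0]
    push_cast at x2 y2
    linarith

end Pool.Agent.Lib.MP_4b56aa_gt.Cert
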