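import Pool.Agent.Lib.MP_4b56aa_gt.Cert.CAng

/-! Soundness of the distance tests. -/

namespace Pool.Agent.Lib.MP_4b56aa_gt.Cert

open Pool.Agent.Lib.MP_4b56aa_gt.Red Pool.Agent.Lib.MP_4b56aa_gt.Fan

theorem mb {a b A B : ℝ} (h1 : |a| ≤ A) (h2 : |b| ≤ B) : |a * b| ≤ A * B := by
  rw [abs_mul]; exact mul_le_mul h1 h2 (abs_nonneg _) ((abs_nonneg _).trans h1)

theorem xy_core {x y x' y' c s C S : ℝ} (hC : |C| ≤ 1) (hS : |S| ≤ 1)
    (hc : |c - 16777216 * C| ≤ 1) (hs : |s - 16777216 * S| ≤ 1) (hx : |x' - x| ≤ 20)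
    (hy : |y' - y| ≤ 20) (h : x * x + y * y + 4 * 16777216 * 400 ≤ 4 * (x * c + y * s)) :
    x' * x' + y' * y' ≤ 4 * 16777216 * (x' * C + y' * S) := by
  have c1 : |c| ≤ 16777217 := abs_le.2 ⟨by linarith [(abs_le.1 hc).1, (abs_le.1 hC).1],
    by linarith [(abs_le.1 hc).2, (abs_le.1 hC).2]⟩
  have s1 : |s| ≤ 16777217 := abs_le.2 ⟨by linarith [(abs_le.1 hs).1, (abs_le.1 hS).1],
    by linarith [(abs_le.1 hs).2, (abs_le.1 hS).2]⟩
  have k1 := (le_abs_self _).trans (mb (le_refl |x|) c1)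
  have k2 := (le_abs_self _).trans (mb (le_refl |y|) s1)
  have q1 := abs_mul_abs_self x
  have q2 := abs_mul_abs_self y
  have x1 : |x| ≤ 5 * 16777216 := by
    by_contra g
    nlinarith [sq_nonneg (|y| - 2 * 16777217)]
  have y1 : |y| ≤ 5 * 16777216 := by
    by_contra g
    nlinarith [sq_nonneg (|x| - 2 * 16777217)]
  nlinarith [abs_le.1 (mb x1 hx), abs_le.1 (mb y1 hy), abs_le.1 (mb hx hx), abs_le.1 (mb hy hy),
    abs_le.1 (mb x1 hc), abs_le.1 (mb y1 hs), abs_le.1 (mb hx hC), abs_le.1 (mb hy hS)]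

theorem near_iff (V : ℂ) (w : ℝ) : ‖V - nv w‖ ≤ 1 ↔
    V.re * V.re + V.im * V.im ≤ 2 * (V.re * Real.cos w + V.im * Real.sin w) := by
  rw [← sq_le_one_iff₀ (norm_nonneg _), Complex.sq_norm, Complex.normSq_apply]
  simp only [Complex.sub_re, Complex.sub_im, nv_re, nv_im]
  have := Real.sin_sq_add_cos_sq w
  constructor <;> intro h <;> nlinarith

theorem near_arc {V : ℂ} {a b w : ℝ} (h1 : a ≤ w) (h2 : w ≤ b) (h3 : b ≤ a + Real.pi / 2)
    (ha : ‖V - nv a‖ ≤ 1) (hb : ‖V - nv b‖ ≤ 1) : ‖V - nv w‖ ≤ 1 := by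
  rcases h1.eq_or_lt with rfl | l
  · exact ha
  have pi := Real.pi_pos
  rw [near_iff] at *
  have p0 : 0 < Real.sin (b - a) := Real.sin_pos_of_pos_of_lt_pi (by linarith) (by linarith)
  have p1 : 0 ≤ Real.sin (b - w) := Real.sin_nonneg_of_nonneg_of_le_pi (by linarith) (by linarith)
  have p2 : 0 ≤ Real.sin (w - a) := Real.sin_nonneg_of_nonneg_of_le_pi (by linarith) (by linarith)
  have e : Real.sin (b - a) ≤ Real.sin (b - w) + Real.sin (w - a) := by
    rw [show b - a = b - w + (w - a) by ring, Real.sin_add]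
    nlinarith [Real.cos_le_one (b - w), Real.cos_le_one (w - a)]
  have ec : Real.sin (b - a) * Real.cos w =
      Real.sin (b - w) * Real.cos a + Real.sin (w - a) * Real.cos b := by
    simp only [Real.sin_sub]; ring
  have es : Real.sin (b - a) * Real.sin w =
      Real.sin (b - w) * Real.sin a + Real.sin (w - a) * Real.sin b := by
    simp only [Real.sin_sub]; ring
  refine le_of_mul_le_mul_left ?_ p0
  have n := add_nonneg (mul_self_nonneg V.re) (mul_self_nonneg V.im)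
  have := mul_le_mul_of_nonneg_left ha p1
  have := mul_le_mul_of_nonneg_left hb p2
  have := mul_le_mul_of_nonneg_right e n
  linear_combination this + ‹_ * _ ≤ Real.sin (b - w) * _› + ‹_ * _ ≤ Real.sin (w - a) * _› -
    2 * V.re * ec - 2 * V.im * es

variable {τ : Tab} {t p q : ℝ}

theorem nv_sub_two_pi (a : ℝ) : nv (a - 2 * Real.pi) = nv a := by
  rw [← nv_two_pi, sub_add_cancel]

theorem xy_end (h : Ok τ) {X Y : ℤ} {V : ℂ} (hx : |2 * τ.N * Q * V.re - X| ≤ 20 * τ.N)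
    (hy : |2 * τ.N * Q * V.im - Y| ≤ 20 * τ.N) {a : ℕ}
    (e : X * X + Y * Y + 4 * τ.N * τ.N * Q * 400 ≤ 4 * τ.N * (X * cs a + Y * sn a)) :
    ‖V - nv (rad a - 2 * Real.pi)‖ ≤ 1 := by
  have N : (0 : ℝ) < τ.N := by exact_mod_cast h.N1
  have e' : (X : ℝ) * X + Y * Y + 4 * τ.N * τ.N * Q * 400 ≤ 4 * τ.N * (X * cs a + Y * sn a) := by
    exact_mod_cast e
  have c := cs_near a
  have s := sn_near a
  rw [Q_eq] at *
  have dv : ∀ u v : ℝ, |2 * τ.N * 16777216 * u - v| ≤ 20 * τ.N → |2 * 16777216 * u - v / τ.N| ≤ 20 :=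
    fun u v g => by
      rw [show 2 * 16777216 * u - v / τ.N = (2 * τ.N * 16777216 * u - v) / τ.N by field_simp,
        abs_div, abs_of_pos N, div_le_iff₀ N]
      exact g
  have := xy_core (Real.abs_cos_le_one _) (Real.abs_sin_le_one _) c s (dv _ _ hx) (dv _ _ hy) (by
    refine le_of_mul_le_mul_left (le_of_eq_of_le ?_ (e'.trans_eq ?_)) (mul_pos N N) <;> field_simp)
  rw [nv_sub_two_pi, near_iff]
  linarith

theorem okXY_sound (h : Ok τ) (ht : Tm τ.T t) {X Y : ℤ} {s : VS} (e : okXY τ X Y s = true) {V : ℂ}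
    (hx : |2 * τ.N * Q * V.re - X| ≤ 20 * τ.N) (hy : |2 * τ.N * Q * V.im - Y| ≤ 20 * τ.N) {w : ℝ}
    (h1 : av t s.r1 ≤ w) (h2 : w ≤ av t s.r2) : ‖V - nv w‖ ≤ 1 := by
  simp only [okXY, Bool.and_eq_true, Nat.ble_eq, decide_eq_true_eq] at e
  obtain ⟨⟨e1, e2⟩, e3⟩ := e
  have l0 := ht.l0
  have l1 := sub_nonneg.2 ht.l1
  rw [av_itp ht, av_dg0, av_dg ht.hT] at h1 h2
  refine near_arc ?_ ?_ ?_ (xy_end h hx hy e2) (xy_end h hx hy e3)
  · have a := rad_le (Nat.cast_le.2 (min_le_left (dg 0 s.r1) (dg τ.T s.r1)))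
    have b := rad_le (Nat.cast_le.2 (min_le_right (dg 0 s.r1) (dg τ.T s.r1)))
    nlinarith [mul_nonneg l1 (sub_nonneg.2 a), mul_nonneg l0 (sub_nonneg.2 b)]
  · have a := rad_le (Nat.cast_le.2 (le_max_left (dg 0 s.r2) (dg τ.T s.r2)))
    have b := rad_le (Nat.cast_le.2 (le_max_right (dg 0 s.r2) (dg τ.T s.r2)))
    nlinarith [mul_nonneg l1 (sub_nonneg.2 a), mul_nonneg l0 (sub_nonneg.2 b)]
  · have a := rad_le (Nat.cast_le.2 e1)
    unfold rad at a ⊢
    rw [Nat.cast_add] at a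
    push_cast [-Nat.cast_min, -Nat.cast_max] at a
    linarith

theorem nv_near {a b : ℝ} (h1 : a ≤ b + Real.pi / 3) (h2 : b ≤ a + Real.pi / 3) :
    ‖nv a - nv b‖ ≤ 1 := by
  simpa [tg] using chord_one (a := a - Real.pi / 2) (b := b - Real.pi / 2)
    (abs_le.2 ⟨by linarith, by linarith⟩)

theorem lat_sq {N : ℕ} (i j : ℤ) : ‖lat N i j‖ ^ 2 = n2 i j / (2 * N) ^ 2 := by
  rw [Complex.sq_norm, Complex.normSq_apply]
  simp only [lat, n2]
  push_cast
  have := Real.mul_self_sqrt (show (0 : ℝ) ≤ 3 by norm_num)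
  linear_combination (i * i / (2 * N) ^ 2 : ℝ) * this

theorem lat_le {N : ℕ} (hN : 1 ≤ N) {i j : ℤ} {k : ℕ} (h : n2 i j ≤ 4 * k * k * N * N) :
    ‖lat N i j‖ ≤ k := by
  have N0 : (0 : ℝ) < N := by exact_mod_cast hN
  have h' : (n2 i j : ℝ) ≤ 4 * k * k * N * N := by exact_mod_cast h
  refine le_of_sq_le_sq₀' (Nat.cast_nonneg _) ?_
  rw [lat_sq, div_le_iff₀ (by positivity)]
  linarith

theorem lat_zero (N : ℕ) : lat N 0 0 = 0 := by apply Complex.ext <;> simp [lat]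

theorem lat_add (N : ℕ) (i j i' j' : ℤ) : lat N (i + i') (j + j') = lat N i j + lat N i' j' := by
  apply Complex.ext <;> simp [lat] <;> ring

theorem lat_neg (N : ℕ) (i j : ℤ) : lat N (-i) (-j) = -lat N i j := by
  apply Complex.ext <;> simp [lat] <;> ring

theorem lat_re {N : ℕ} (hN : 1 ≤ N) (i j : ℤ) : 2 * N * Q * (lat N i j).re = i * (√3 * Q) := by
  have N0 : (0 : ℝ) < N := by exact_mod_cast hN
  simp only [lat]; field_simp

theorem lat_im {N : ℕ} (hN : 1 ≤ N) (i j : ℤ) : 2 * N * Q * (lat N i j).im = j * Q := by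
  have N0 : (0 : ℝ) < N := by exact_mod_cast hN
  simp only [lat]; field_simp

theorem lat_err {N : ℕ} {i j : ℤ} (h : n2 i j ≤ 16 * N * N) : |i * (√3 * Q) - i * S3| ≤ 3 * N := by
  have a : |(i : ℝ)| ≤ 3 * N := by
    have h' : (3 : ℝ) * i * i + j * j ≤ 16 * N * N := by exact_mod_cast h
    refine abs_le_of_sq_le_sq ?_ (by positivity)
    nlinarith [mul_self_nonneg (j : ℝ), mul_self_nonneg (N : ℝ)]
  rw [← mul_sub]
  simpa using mb a (show |√3 * Q - S3| ≤ 1 from abs_le.2 ⟨by linarith [S3_mem.1], by linarith [S3_mem.2]⟩)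

theorem lat_err' {N : ℕ} {i j : ℤ} (h : n2 i j ≤ 36 * N * N) : |i * (√3 * Q) - i * S3| ≤ 4 * N := by
  have a : |(i : ℝ)| ≤ 4 * N := by
    have h' : (3 : ℝ) * i * i + j * j ≤ 36 * N * N := by exact_mod_cast h
    refine abs_le_of_sq_le_sq ?_ (by positivity)
    nlinarith [mul_self_nonneg (j : ℝ), mul_self_nonneg (N : ℝ)]
  rw [← mul_sub]
  simpa using mb a (show |√3 * Q - S3| ≤ 1 from abs_le.2 ⟨by linarith [S3_mem.1], by linarith [S3_mem.2]⟩)

theorem unitA_spec {N : ℕ} (hN : 1 ≤ N) {i j : ℤ} (h : unitA N i j ≠ 0) (t : ℝ) :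
    lat N i j = nv (av t (unitA N i j)) := by
  have N0 : (N : ℝ) ≠ 0 := by positivity
  have c6 := Real.cos_pi_div_six
  have s6 := Real.sin_pi_div_six
  unfold unitA at h ⊢
  split_ifs at h ⊢ with a a a a a a
  · rw [show av t 541 = Real.pi / 2 by norm_num [av]; ring, a.1, a.2]
    apply Complex.ext <;> simp [lat, nv_re, nv_im, N0]
  · rw [show av t 1081 = Real.pi / 2 + Real.pi by norm_num [av]; ring, a.1, a.2]
    apply Complex.ext <;> simp [lat, nv_re, nv_im, Real.cos_add_pi, Real.sin_add_pi]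
    field_simp
  · rw [show av t 361 = Real.pi / 6 by norm_num [av]; ring, a.1, a.2]
    apply Complex.ext <;> simp [lat, nv_re, nv_im] <;> field_simp
  · rw [show av t 1261 = 2 * Real.pi - Real.pi / 6 by norm_num [av]; ring, a.1, a.2]
    apply Complex.ext <;> simp [lat, nv_re, nv_im] <;> field_simp
  · rw [show av t 721 = Real.pi - Real.pi / 6 by norm_num [av]; ring, a.1, a.2]
    apply Complex.ext <;> simp [lat, nv_re, nv_im] <;> field_simp
  · rw [show av t 901 = Real.pi / 6 + Real.pi by norm_num [av]; ring, a.1, a.2]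
    apply Complex.ext <;> simp [lat, nv_re, nv_im, Real.cos_add_pi, Real.sin_add_pi] <;> field_simp
  · exact absurd rfl h

theorem okU_sound (ht : Tm τ.T t) {u : ℕ} {s : VS} (e : okU τ.T u s = true) {w : ℝ}
    (h1 : av t s.r1 ≤ w) (h2 : w ≤ av t s.r2) : ‖nv (av t u) - nv w‖ ≤ 1 := by
  simp only [okU, Bool.and_eq_true] at e
  exact nv_near (by linarith [ale_60 ht e.2]) (by linarith [ale_60 ht e.1])

theorem nv_1080 (t : ℝ) (u : ℕ) : nv (av t (u + 1080)) = nv (av t u) := by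
  rw [show 1080 = 540 * 2 by norm_num, av_540, ← nv_two_pi (av t u)]; push_cast; rfl

theorem okPA_sound (h : Ok τ) (ht : Tm τ.T t) {i j : ℤ} {s : VS} (e : okPA τ i j s = true) {w : ℝ}
    (h1 : av t s.r1 ≤ w) (h2 : w ≤ av t s.r2) : ‖lat τ.N i j - nv w‖ ≤ 1 := by
  unfold okPA at e
  split_ifs at e with a b
  · rw [a.1, a.2, lat_zero, zero_sub, norm_neg, norm_nv]
  · rw [unitA_spec h.N1 b t]
    simp only [Bool.or_eq_true, Bool.and_eq_true, Nat.ble_eq] at e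
    rcases e with (e | e) | ⟨g, e⟩
    · exact okU_sound ht e h1 h2
    · rw [← nv_1080]; exact okU_sound ht e h1 h2
    · rw [← Nat.sub_add_cancel g, nv_1080]; exact okU_sound ht e h1 h2
  · simp only [Bool.and_eq_true, decide_eq_true_eq] at e
    have N : (0 : ℝ) ≤ τ.N := Nat.cast_nonneg _
    refine okXY_sound h ht e.2 ?_ ?_ h1 h2
    · rw [lat_re h.N1]; push_cast; linarith [lat_err e.1]
    · rw [lat_im h.N1]; push_cast; simp

/-- The points of a value set; `[p, q]` is the range of the tangent angle. -/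
def VS.Mem (x : VS) (t p q : ℝ) (z : ℂ) : Prop :=
  (x.pt = true ∧ z = 0) ∨ (x.pt = false ∧ ∃ w, av t x.r1 ≤ w ∧ w ≤ av t x.r2 ∧
    (x.sky = true → p ≤ w ∧ w ≤ q) ∧ z = nv w)

theorem fix_err (h : Ok τ) {a : ℕ} (ha : a % 3 = 1) {i j : ℤ} (hn : n2 i j ≤ 36 * τ.N * τ.N) :
    |2 * τ.N * Q * (nv (av t a) + lat τ.N i j).re - (2 * τ.N * cs (dg 0 a) + i * S3 : ℤ)| ≤ 20 * τ.N ∧
    |2 * τ.N * Q * (nv (av t a) + lat τ.N i j).im - (2 * τ.N * sn (dg 0 a) + j * Q : ℤ)| ≤ 20 * τ.N := by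
  have N : (0 : ℝ) ≤ τ.N := Nat.cast_nonneg _
  have c := abs_le.1 (mb (le_of_eq (abs_of_nonneg N)) (cs_near (dg 0 a)))
  have s := abs_le.1 (mb (le_of_eq (abs_of_nonneg N)) (sn_near (dg 0 a)))
  have e := abs_le.1 (lat_err' hn)
  rw [av_fix ha, nv_sub_two_pi, Complex.add_re, Complex.add_im, mul_add, mul_add, lat_re h.N1,
    lat_im h.N1, nv_re, nv_im]
  push_cast
  exact ⟨abs_le.2 ⟨by linarith [c.2, e.1], by linarith [c.1, e.2]⟩,
    abs_le.2 ⟨by linarith [s.2], by linarith [s.1]⟩⟩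

theorem okPair_sound (h : Ok τ) (ht : Tm τ.T t) {x y : VS} {i j : ℤ} {S : Bool}
    (e : okPair τ x y i j S = true) (hS : S = true → q - p ≤ Real.pi / 3) {u v : ℂ}
    (hu : x.Mem t p q u) (hv : y.Mem t p q v) : ‖u - (lat τ.N i j + v)‖ ≤ 1 := by
  unfold okPair at e
  rcases hu with ⟨a, rfl⟩ | ⟨a, w, w1, w2, w3, rfl⟩ <;> rcases hv with ⟨b, rfl⟩ | ⟨b, z, z1, z2, z3, rfl⟩ <;>
    simp only [a, b, if_true, Bool.false_eq_true, if_false] at e
  · rw [add_zero, zero_sub, norm_neg]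
    simpa using lat_le (k := 1) h.N1 (by simpa using e)
  · have := okPA_sound h ht e z1 z2
    rwa [lat_neg, ← neg_add', ← zero_sub] at this
  · rw [add_zero, norm_sub_rev]; exact okPA_sound h ht e w1 w2
  split_ifs at e with c d f g
  · rw [c.1, c.2, lat_zero, zero_add]
    simp only [Bool.or_eq_true, Bool.and_eq_true] at e
    rcases e with ⟨⟨e1, e2⟩, e3⟩ | e
    · exact nv_near (by linarith [hS e1, w3 e2, z3 e3]) (by linarith [hS e1, w3 e2, z3 e3])
    · exact nv_near (by linarith [ale_60 ht e.2]) (by linarith [ale_60 ht e.1])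
  · obtain rfl : w = av t x.r1 := le_antisymm (f.1 ▸ w2) w1
    have n : n2 (-i) (-j) ≤ 36 * τ.N * τ.N := by simpa [n2] using d
    obtain ⟨k1, k2⟩ := fix_err (t := t) h f.2 n
    rw [neg_mul, ← sub_eq_add_neg] at k1 k2
    have := okXY_sound h ht e k1 k2 z1 z2
    rwa [lat_neg, ← sub_eq_add_neg, sub_sub] at this
  · obtain rfl : z = av t y.r1 := le_antisymm (g.1 ▸ z2) z1
    obtain ⟨k1, k2⟩ := fix_err (t := t) h g.2 (not_lt.1 d)
    have := okXY_sound h ht e k1 k2 w1 w2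
    rwa [norm_sub_rev, add_comm] at this

theorem vsL_mem {c l : ℕ} {φ : ℝ} (h1 : av t (τ.lo c) ≤ φ) (h2 : φ ≤ av t (τ.hi c)) (h3 : p ≤ φ)
    (h4 : φ ≤ q) : (τ.vsL c l).Mem t p q (vec t l φ) := by
  unfold Tab.vsL vec
  split_ifs
  · exact Or.inr ⟨rfl, φ, h1, h2, fun _ => ⟨h3, h4⟩, rfl⟩
  · exact Or.inr ⟨rfl, _, le_rfl, le_rfl, by simp, rfl⟩
  · exact Or.inl ⟨rfl, rfl⟩

end Pool.Agent.Lib.MP_4b56aa_gt.Cert
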