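import Pool.Agent.Lib.MP_4b56aa_gt.Cert.CSemi

/-! Soundness of the evaluation of an end jump at one angle. -/

namespace Pool.Agent.Lib.MP_4b56aa_gt.Cert

open Pool.Agent.Lib.MP_4b56aa_gt.Red Pool.Agent.Lib.MP_4b56aa_gt.Fan

/-- The jump from the mode `μ` to the label `l`. -/
noncomputable def jd (N : ℕ) (t : ℝ) (l μ : ℕ) (i j : ℤ) (φ : ℝ) : ℂ :=
  lat N i j + vec t l φ - vec t μ φ

/-- Slope of the value of a jump in the radius. -/
noncomputable def jS (N : ℕ) (t : ℝ) (l μ : ℕ) (i j σ : ℤ) (φ : ℝ) : ℝ :=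
  σ * dot (jd N t l μ i j φ) (nv (φ - Real.pi / 2)) + σ * (ang t l φ - ang t μ φ)

/-- Value of a jump at the critical radius. -/
noncomputable def jG (N : ℕ) (t : ℝ) (l μ : ℕ) (i j σ : ℤ) (φ : ℝ) : ℝ :=
  -‖jd N t l μ i j φ‖ + Rs * (σ * dot (jd N t l μ i j φ) (nv (φ - Real.pi / 2))) +
    (Rs - 1) * (σ * (ang t l φ - ang t μ φ))

theorem vec_eq (t : ℝ) (l : ℕ) (φ : ℝ) : vec t l φ = ((l % 2 : ℕ) : ℝ) * nv (ang t l φ) := by
  unfold vec ang
  split_ifs with a b c d e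
  · simp [show l % 2 = 1 by omega]
  · omega
  · omega
  · simp [show l % 2 = 1 by omega]
  · simp [show l % 2 = 0 by omega]
  · simp [show l % 2 = 0 by omega]

theorem ang_code (t : ℝ) (l p : ℕ) : ang t l (av t p) = av t (if l % 4 ≤ 1 then p else l / 4) := by
  unfold ang; split_ifs <;> rfl

theorem dot_n (d : ℂ) (φ : ℝ) :
    dot d (nv (φ - Real.pi / 2)) = d.re * Real.sin φ - d.im * Real.cos φ := by
  rw [dot, nv_re, nv_im, Real.cos_sub_pi_div_two, Real.sin_sub_pi_div_two]; ring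

theorem div_le' (a : ℤ) {b : ℤ} (h : 0 < b) : ((a / b : ℤ) : ℝ) ≤ a / b := by
  have b0 : (0 : ℝ) < b := by exact_mod_cast h
  rw [le_div_iff₀ b0]
  exact_mod_cast Int.ediv_mul_le a h.ne'

theorem ang_le {K : ℤ} {x : ℝ} (h : (K : ℝ) ≤ x * 1024 * Q ∧ x * 1024 * Q ≤ K + 1) (a : ℤ) :
    (((K * a - |a|) / 1024 : ℤ) : ℝ) ≤ Q * (x * a) := by
  refine (div_le' _ (by norm_num)).trans ?_
  push_cast
  have := abs_le.1 (mb (le_refl |(a : ℝ)|) (show |x * 1024 * Q - K| ≤ 1 from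
    abs_le.2 ⟨by linarith [h.1], by linarith [h.2]⟩))
  linarith [this.1]

theorem nwt_sq (S U : ℕ) (h : 0 < U) : S ≤ nwt S U * nwt S U := by
  have a := Nat.lt_mul_div_succ S h
  unfold nwt
  generalize S / U = k at a
  have b : U + k + 1 ≤ 2 * ((U + k) / 2 + 1) := by omega
  generalize (U + k) / 2 + 1 = v at b
  zify at *
  nlinarith [sq_nonneg ((U : ℤ) - (k + 1)), mul_self_le_mul_self (by positivity) b]

theorem hyp_ge (X Y : ℤ) : ‖(⟨X, Y⟩ : ℂ)‖ ≤ hyp X.natAbs Y.natAbs := by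
  refine le_of_sq_le_sq₀' (Nat.cast_nonneg _) ?_
  have := nwt_sq (X.natAbs * X.natAbs + Y.natAbs * Y.natAbs) _
    (show 0 < nwt (X.natAbs * X.natAbs + Y.natAbs * Y.natAbs) (nwt (X.natAbs * X.natAbs +
      Y.natAbs * Y.natAbs) (nwt (X.natAbs * X.natAbs + Y.natAbs * Y.natAbs)
        (X.natAbs + Y.natAbs + 1))) from Nat.succ_pos _)
  have h : X * X + Y * Y ≤ (hyp X.natAbs Y.natAbs : ℤ) * hyp X.natAbs Y.natAbs := by
    rw [← Int.natAbs_mul_self' X, ← Int.natAbs_mul_self' Y]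
    exact_mod_cast this
  rw [Complex.sq_norm, Complex.normSq_apply, sq]
  dsimp only
  exact_mod_cast h

theorem gen_le {N : ℕ} (hN : 1 ≤ N) {d : ℂ} (hd : ‖d‖ ≤ 4) {X Y σ : ℤ} (hσ : σ = 1 ∨ σ = -1)
    (hx : |2 * N * Q * d.re - X| ≤ 7 * N) (hy : |2 * N * Q * d.im - Y| ≤ 7 * N) (a : ℕ) {w : ℤ}
    (hw : w = σ * (X * sn a - Y * cs a) / (2 * N * Q) - 64) :
    (w : ℝ) ≤ Q * (σ * (d.re * Real.sin (rad a) - d.im * Real.cos (rad a))) ∧
    ((-(hyp X.natAbs Y.natAbs / (2 * N) + 64 : ℕ) + (RL * w / Q - 8) : ℤ) : ℝ) ≤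
      Q * (-‖d‖ + Rs * (σ * (d.re * Real.sin (rad a) - d.im * Real.cos (rad a)))) := by
  have N0 : (1 : ℝ) ≤ N := by exact_mod_cast hN
  have s1 : |(σ : ℝ)| ≤ 1 := by rcases hσ with rfl | rfl <;> simp
  have c := cs_near a
  have s := sn_near a
  have q0 : (0 : ℤ) < Q := by norm_num [Q]
  have re := (Complex.abs_re_le_norm d).trans hd
  have im := (Complex.abs_im_le_norm d).trans hd
  have w1 : (w : ℝ) ≤ Q * (σ * (d.re * Real.sin (rad a) - d.im * Real.cos (rad a))) := by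
    have k := div_le' (σ * (X * sn a - Y * cs a)) (b := 2 * N * Q) (by positivity)
    rw [hw, Int.cast_sub]
    refine (sub_le_sub_right k _).trans ?_
    push_cast
    rw [sub_le_iff_le_add, div_le_iff₀ (by rw [Q_eq]; positivity)]
    have c1 : |(cs a : ℝ)| ≤ Q + 1 := by
      have := abs_le.1 (Real.abs_cos_le_one (rad a))
      rw [Q_eq] at c ⊢
      exact abs_le.2 ⟨by linarith [(abs_le.1 c).1], by linarith [(abs_le.1 c).2]⟩
    have c2 : |(sn a : ℝ)| ≤ Q + 1 := by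
      have := abs_le.1 (Real.abs_sin_le_one (rad a))
      rw [Q_eq] at s ⊢
      exact abs_le.2 ⟨by linarith [(abs_le.1 s).1], by linarith [(abs_le.1 s).2]⟩
    have n : |(N : ℝ)| ≤ N := (abs_of_nonneg (by linarith)).le
    have k1 := abs_le.1 (mb s1 (mb hx c2))
    have k2 := abs_le.1 (mb s1 (mb hy c1))
    have k3 := abs_le.1 (mb s1 (mb n (mb re s)))
    have k4 := abs_le.1 (mb s1 (mb n (mb im c)))
    rw [Q_eq] at *
    linarith [k1.1, k2.2, k3.2, k4.1]
  refine ⟨w1, ?_⟩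
  have D1 := abs_le.1 (mb re (Real.abs_sin_le_one (rad a)))
  have D2 := abs_le.1 (mb im (Real.abs_cos_le_one (rad a)))
  have D : |σ * (d.re * Real.sin (rad a) - d.im * Real.cos (rad a))| ≤ 1 * 8 :=
    mb s1 (abs_le.2 ⟨by linarith [D1.1, D2.2], by linarith [D1.2, D2.1]⟩)
  generalize σ * (d.re * Real.sin (rad a) - d.im * Real.cos (rad a)) = D' at w1 D ⊢
  have k1 := div_le' (RL * w) q0
  have k2 := abs_le.1 (mb (show |Rs * Q - RL| ≤ 1 from
    abs_le.2 ⟨by linarith [RL_mem.1], by linarith [RL_mem.2]⟩) D)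
  have k3 : (RL : ℝ) * w ≤ RL * (Q * D') := mul_le_mul_of_nonneg_left w1 (by norm_num [RL])
  have k4 : ((RL * w / Q : ℤ) : ℝ) ≤ RL * D' := by
    refine k1.trans ?_
    push_cast
    rw [div_le_iff₀ (by rw [Q_eq]; norm_num)]
    linarith
  have k5 : 2 * N * Q * ‖d‖ ≤ hyp X.natAbs Y.natAbs + 14 * N := by
    have p : (0 : ℝ) ≤ 2 * N * Q := by rw [Q_eq]; positivity
    have t := norm_le_norm_add_norm_sub' (((2 * N * Q : ℝ) : ℂ) * d) ⟨X, Y⟩
    have u := Complex.norm_le_abs_re_add_abs_im (((2 * N * Q : ℝ) : ℂ) * d - ⟨X, Y⟩)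
    rw [norm_mul, Complex.norm_real, Real.norm_of_nonneg p] at t
    rw [Complex.sub_re, Complex.sub_im, Complex.re_ofReal_mul, Complex.im_ofReal_mul] at u
    linarith [hyp_ge X Y]
  have k6 : (hyp X.natAbs Y.natAbs : ℝ) ≤ 2 * N * ((hyp X.natAbs Y.natAbs / (2 * N) : ℕ) + 1) := by
    exact_mod_cast (Nat.lt_mul_div_succ (hyp X.natAbs Y.natAbs) (show 0 < 2 * N by omega)).le
  have k7 : Q * ‖d‖ ≤ (hyp X.natAbs Y.natAbs / (2 * N) : ℕ) + 8 :=
    le_of_mul_le_mul_left (a := (2 * N : ℝ)) (by linarith) (by linarith)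
  rw [Int.cast_add, Int.cast_neg, Int.cast_natCast, Int.cast_sub, Nat.cast_add]
  generalize ((hyp X.natAbs Y.natAbs / (2 * N) : ℕ) : ℝ) = H at k7 ⊢
  generalize ((RL * w / Q : ℤ) : ℝ) = H' at k4 ⊢
  have k8 : (Rs * Q - RL) * D' ≥ -8 := by linarith [k2.1]
  push_cast
  linarith

theorem half_norm {x y : ℝ} (h : x * x + y * y = 2 - √3) : ‖(⟨x, y⟩ : ℂ)‖ = (Rs - 1) / 2 := by
  have a := Real.mul_self_sqrt (show (0 : ℝ) ≤ 2 by norm_num)
  have b := Real.mul_self_sqrt (show (0 : ℝ) ≤ 3 by norm_num)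
  have c : √6 = √2 * √3 := by rw [← Real.sqrt_mul (by norm_num)]; norm_num
  rw [← sq_eq_sq₀ (norm_nonneg _) (by linarith [Rs_mem.1]), Complex.sq_norm, Complex.normSq_apply, h,
    Rs, c]
  linear_combination (-(√3 * √3) / 4 + √3 / 2 - 1 / 4) * a - (1 / 2) * b

theorem evalPt_sound {N T l μ p : ℕ} {i j σ : ℤ} (hN : 1 ≤ N) (hT : T ≤ 10) (hσ : σ = 1 ∨ σ = -1)
    (hn : n2 i j ≤ 16 * N * N) :
    ((evalPt N T l μ i j σ p).1 : ℝ) ≤ Q * jG N T l μ i j σ (av T p) ∧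
      ((evalPt N T l μ i j σ p).2 : ℝ) ≤ Q * jS N T l μ i j σ (av T p) := by
  have el : ang T l (av T p) = rad (if l % 4 ≤ 1 then dg T p else dg T (l / 4) : ℕ) - 2 * Real.pi := by
    rw [ang_code, av_dg hT, apply_ite (dg T)]
  have em : ang T μ (av T p) = rad (if μ % 4 ≤ 1 then dg T p else dg T (μ / 4) : ℕ) - 2 * Real.pi := by
    rw [ang_code, av_dg hT, apply_ite (dg T)]
  have l2 := Nat.mod_two_eq_zero_or_one l
  have m2 := Nat.mod_two_eq_zero_or_one μ
  unfold evalPt jG jS jd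
  rw [vec_eq, vec_eq, el, em, dot_n, av_dg hT, nv_sub_two_pi, nv_sub_two_pi, Real.sin_sub_two_pi,
    Real.cos_sub_two_pi]
  simp only []
  generalize (if l % 4 ≤ 1 then dg T p else dg T (l / 4)) = dl
  generalize (if μ % 4 ≤ 1 then dg T p else dg T (μ / 4)) = dm
  generalize dg T p = dp
  generalize l % 2 = hl at l2
  generalize μ % 2 = hm at m2
  have g := ang_le (x := (Rs - 1) * (Real.pi / 180)) RD_mem (σ * ((dl : ℤ) - dm))
  have s := ang_le (x := Real.pi / 180) PD_mem (σ * ((dl : ℤ) - dm))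
  generalize (RD * (σ * ((dl : ℤ) - dm)) - |σ * ((dl : ℤ) - dm)|) / 1024 = g' at g
  generalize (PD * (σ * ((dl : ℤ) - dm)) - |σ * ((dl : ℤ) - dm)|) / 1024 = s' at s
  have ea : σ * (rad dl - 2 * Real.pi - (rad dm - 2 * Real.pi)) =
      Real.pi / 180 * (σ * ((dl : ℤ) - dm) : ℤ) := by unfold rad; push_cast; ring
  rw [ea]
  rw [mul_assoc] at g
  generalize Real.pi / 180 * (σ * ((dl : ℤ) - dm) : ℤ) = A at g s
  set d := lat N i j + ((hl : ℝ) : ℂ) * nv (rad dl) - ((hm : ℝ) : ℂ) * nv (rad dm) with hd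
  have one : hl ≠ hm → (if hl = 1 then dl else dm) = dp →
      d = lat N i j + ((hl : ℝ) - hm : ℝ) * nv (rad dp) ∧ ((hl : ℝ) - hm = 1 ∨ (hl : ℝ) - hm = -1) := by
    rcases l2 with rfl | rfl <;> rcases m2 with rfl | rfl <;> intro a b
    · exact absurd rfl a
    · obtain rfl : dm = dp := by simpa using b
      exact ⟨by rw [hd]; push_cast; ring, by simp⟩
    · obtain rfl : dl = dp := by simpa using b
      exact ⟨by rw [hd]; push_cast; ring, by simp⟩
    · exact absurd rfl a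
  by_cases c1 : i = 0 ∧ j = 0 ∧ hl = hm ∧ (hl = 0 ∨ dl = dm)
  · rw [if_pos c1]
    obtain ⟨rfl, rfl, rfl, c⟩ := c1
    have : d = 0 := by rw [hd, lat_zero]; rcases c with rfl | rfl <;> simp
    rw [this]; simp only [norm_zero, Complex.zero_re, Complex.zero_im]
    exact ⟨by linarith, by linarith⟩
  rw [if_neg c1]
  by_cases c2 : i = 0 ∧ j = 0 ∧ hl ≠ hm ∧ (if hl = 1 then dl else dm) = dp
  · rw [if_pos c2]
    obtain ⟨rfl, rfl, a, b⟩ := c2
    obtain ⟨e, k⟩ := one a b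
    rw [e, lat_zero, zero_add, norm_mul, norm_nv, Complex.norm_real, Complex.re_ofReal_mul,
      Complex.im_ofReal_mul, nv_re, nv_im, show ‖(hl : ℝ) - hm‖ = 1 by
        rcases k with k | k <;> rw [k] <;> simp]
    push_cast
    exact ⟨by linarith, by linarith⟩
  rw [if_neg c2]
  by_cases c3 : hl ≠ hm ∧ (if hl = 1 then dl else dm) = dp ∧ dp % 180 = 0 ∧
      i = ((hm : ℤ) - hl) * (if dp % 360 = 0 then 1 else -1) * N ∧
      j = -σ * (if dp % 360 = 0 then 1 else -1) * N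
  · rw [if_pos c3]
    obtain ⟨a, b, c, hi, hj⟩ := c3
    obtain ⟨e, k⟩ := one a b
    have N0 : (N : ℝ) ≠ 0 := by positivity
    have tr : Real.sin (rad dp) = 0 ∧
        Real.cos (rad dp) = ((if dp % 360 = 0 then 1 else -1 : ℤ) : ℝ) ∧
        ((if dp % 360 = 0 then 1 else -1 : ℤ) = 1 ∨ (if dp % 360 = 0 then 1 else -1 : ℤ) = -1) := by
      split_ifs with f
      · rw [show rad dp = 0 + (dp / 360 : ℕ) * (2 * Real.pi) by
          conv_lhs => rw [← Nat.mod_add_div dp 360, f]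
          unfold rad; push_cast; ring,
          Real.sin_add_nat_mul_two_pi, Real.cos_add_nat_mul_two_pi]; simp
      · rw [show rad dp = Real.pi + (dp / 360 : ℕ) * (2 * Real.pi) by
          conv_lhs => rw [← Nat.mod_add_div dp 360, show dp % 360 = 180 by omega]
          unfold rad; push_cast; ring,
          Real.sin_add_nat_mul_two_pi, Real.cos_add_nat_mul_two_pi]; simp
    generalize (if dp % 360 = 0 then 1 else -1 : ℤ) = u at hi hj tr
    have e' : d = ⟨((hl : ℝ) - hm) * u * (1 - √3 / 2), -σ * u / 2⟩ := by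
      rw [e, hi, hj]
      apply Complex.ext
      · simp only [Complex.add_re, Complex.re_ofReal_mul, nv_re, tr.2.1, lat]; push_cast; field_simp
        ring
      · simp only [Complex.add_im, Complex.im_ofReal_mul, nv_im, tr.1, lat]; push_cast; field_simp
        ring
    have b3 := Real.mul_self_sqrt (show (0 : ℝ) ≤ 3 by norm_num)
    have u2 : (u : ℝ) * u = 1 := by rcases tr.2.2 with rfl | rfl <;> simp
    have σ2 : (σ : ℝ) * σ = 1 := by rcases hσ with rfl | rfl <;> simp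
    have k2 : ((hl : ℝ) - hm) * (hl - hm) = 1 := by rcases k with k | k <;> rw [k] <;> simp
    rw [e', half_norm (by
      linear_combination (u * u * (1 - √3 / 2) ^ 2) * k2 + ((1 - √3 / 2) ^ 2 + σ * σ / 4) * u2 +
        (1 / 4) * σ2 + (1 / 4) * b3), tr.1, tr.2.1]
    simp only []
    rw [show σ * (((hl : ℝ) - hm) * u * (1 - √3 / 2) * 0 - -σ * u / 2 * u) = 1 / 2 by
      linear_combination (u * u / 2) * σ2 + (1 / 2) * u2, show Q / 2 = 8388608 by decide]
    push_cast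
    rw [Q_eq] at *
    exact ⟨by linarith, by linarith⟩
  rw [if_neg c3]
  have N0 : (0 : ℝ) ≤ N := Nat.cast_nonneg _
  have n : |(N : ℝ)| ≤ N := (abs_of_nonneg N0).le
  have a1 : |(hl : ℝ)| ≤ 1 := by rcases l2 with rfl | rfl <;> simp
  have a2 : |(hm : ℝ)| ≤ 1 := by rcases m2 with rfl | rfl <;> simp
  have hd4 : ‖d‖ ≤ 4 := by
    have := lat_le (k := 2) hN (i := i) (j := j) (by push_cast; linarith)
    refine (norm_sub_le _ _).trans ((add_le_add (norm_add_le _ _) le_rfl).trans ?_)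
    rw [norm_mul, norm_mul, norm_nv, norm_nv, Complex.norm_real, Complex.norm_real, Real.norm_eq_abs,
      Real.norm_eq_abs]
    push_cast at this
    linarith
  obtain ⟨k1, k2⟩ := gen_le hN hd4 hσ (X := i * S3 + 2 * N * (hl * cs dl - hm * cs dm))
    (Y := j * Q + 2 * N * (hl * sn dl - hm * sn dm)) (by
      have e := abs_le.1 (lat_err hn)
      have c1 := abs_le.1 (mb n (mb a1 (cs_near dl)))
      have c2 := abs_le.1 (mb n (mb a2 (cs_near dm)))
      rw [hd, Complex.sub_re, Complex.add_re, mul_sub, mul_add, lat_re hN, Complex.re_ofReal_mul,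
        Complex.re_ofReal_mul, nv_re, nv_re]
      push_cast
      exact abs_le.2 ⟨by linarith [e.1, c1.2, c2.1], by linarith [e.2, c1.1, c2.2]⟩) (by
      have c1 := abs_le.1 (mb n (mb a1 (sn_near dl)))
      have c2 := abs_le.1 (mb n (mb a2 (sn_near dm)))
      rw [hd, Complex.sub_im, Complex.add_im, mul_sub, mul_add, lat_im hN, Complex.im_ofReal_mul,
        Complex.im_ofReal_mul, nv_im, nv_im]
      push_cast
      exact abs_le.2 ⟨by linarith [c1.2, c2.1], by linarith [c1.1, c2.2]⟩) dp rfl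
  rw [Int.cast_add, Int.cast_neg] at k2
  simp only []
  rw [Int.cast_add, Int.cast_sub, Int.cast_add]
  exact ⟨by linarith, by linarith⟩

end Pool.Agent.Lib.MP_4b56aa_gt.Cert
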