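import Pool.Agent.Lib.MP_4b56aa_gt.Cert.CInd

/-! Closing up around the root. -/

namespace Pool.Agent.Lib.MP_4b56aa_gt.Cert

open Pool.Agent.Lib.MP_4b56aa_gt.Red Pool.Agent.Lib.MP_4b56aa_gt.Fan

variable {τ : Tab} {K : ℕ → ℕ → ℕ → List Off} {M : ℕ → ℕ → ℕ → List St} {t κ L R r ε c c1 c2 c3 : ℝ}
  {n a b e : ℕ} {ψ ψ' x : ℕ → ℝ} {P : ℕ → ℂ} {y u : ℂ} {X1 X2 X3 : Set ℂ} {o : Off}

theorem Ctx.per (h : Ctx τ t L R r ε n ψ x P) (i : ℕ) : ph ψ (i + n) = ph ψ i + Real.pi + Real.pi := by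
  unfold ph; rw [h.samp.perψ]; ring

theorem Ctx.cell_per (h : Ctx τ t L R r ε n ψ x P) (h0 : 0 ≤ ph ψ a) :
    τ.cell t (ph ψ (a + n)) = τ.cell t (ph ψ a) + 2 * (τ.m + 1) := by
  rw [h.per, h.ok.cell_pi (by linarith [Real.pi_pos]), h.ok.cell_pi h0]; ring

theorem Ctx.close (h : Ctx τ t L R r ε n ψ x P) (hL : 0 ≤ L) (hκ : ∀ q < τ.nq, κ ≤ τ.kap t q)
    (S : τ.Sem t (r + (R + 2) * ε) (R - Rs * (r + (R + 2) * ε)) (ph ψ) x a (a + n) y c false o)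
    (h1 : o.q < τ.nq) (h2 : o.kb = rotL (rotL o.ka)) (h3 : o.di = 0) (h4 : o.dj = 0)
    (h5 : τ.V0 ≤ o.v0) (h6 : τ.V1 ≤ o.v1) (h7 : τ.S0 ≤ o.sl) :
    2 * Real.pi * (R - (r + (R + 2) * ε)) + 4 * L * κ +
      (r + (R + 2) * ε) * itp τ.T t τ.V0 τ.V1 + (R - Rs * (r + (R + 2) * ε)) * (τ.S0 / Q) ≤ c := by
  have s := S o.q o.h h1 fun _ => ⟨rfl, rfl⟩
  have tv : cum x (a + n) - cum x a = ∑ i ∈ Finset.range n, |x (i + 1) - x i| := by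
    clear S s
    induction a with
    | zero => simp [cum]
    | succ a ih =>
      rw [← ih, add_right_comm]
      unfold cum
      rw [Finset.sum_range_succ, Finset.sum_range_succ, add_right_comm a n 1, h.samp.perx, h.samp.perx]
      ring
  have cs : ∀ q < τ.nq, 0 ≤ Real.cos (av t (τ.XB q)) := fun q g =>
    Real.cos_nonneg_of_neg_pi_div_two_le_of_le
      (by linarith [ale_zero h.tm (h.ok.xb q g).1, av_271 t, Real.pi_pos])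
      (by linarith [ale_90 h.tm (h.ok.xb q g).2, av_271 t])
  have k0 : 0 ≤ τ.kap t o.q := div_nonneg (add_nonneg (cs _ h1)
    (cs (τ.nq - 1 - o.q) (by omega))) (by norm_num)
  have i := itp_le h.tm (a2 := 0) (b2 := 0) (h5.trans_eq (add_zero _).symm)
    (h6.trans_eq (add_zero _).symm)
  rw [show itp τ.T t 0 0 = 0 by simp [itp]] at i
  have j : (τ.S0 : ℝ) / Q ≤ o.sl / Q :=
    div_le_div_of_nonneg_right (by exact_mod_cast h7) (by rw [Q_eq]; norm_num)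
  simp only [Tab.SemAt, h2, h3, h4, lat_zero, (vec_rot _ _ _).1, (vec_rot _ _ _).2, h.per,
    add_sub_cancel_right, neg_neg, add_zero, sub_self, tv, h.samp.perx, dot, Complex.zero_re,
    Complex.zero_im] at s
  linarith [mul_le_mul_of_nonneg_left i h.r1, mul_le_mul_of_nonneg_left j (sub_nonneg.2 h.big),
    mul_le_mul_of_nonneg_left h.samp.tv k0, mul_le_mul_of_nonneg_left (hκ _ h1) hL]

theorem Tab.Sem.sum {δ d : ℝ} {φ : ℕ → ℝ} {f1 f2 : Bool} {k k' : Off} (ht : Tm τ.T t) (hr : 0 ≤ r)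
    (hδ : 0 ≤ δ) (h1 : τ.Sem t r δ φ x a b y c f1 k) (h2 : τ.Sem t r δ φ x b e y d f2 k') (q : ℕ)
    (h : ℤ) (g : k.kb = k'.ka) (g1 : f1 = false → q = k.q ∧ h = k.h)
    (g2 : f2 = false → q = k'.q ∧ h + k.di = k'.h) :
    τ.Sem t r δ φ x a e y (c + d) false ⟨k.ka, k'.kb, k.di + k'.di, k.dj + k'.dj, q, h, k.v0 + k'.v0,
      k.v1 + k'.v1, k.sl + k'.sl⟩ :=
  Tab.Sem.cmp (k := k) (k' := k') ht hr hδ ⟨rfl, g, rfl, rfl, rfl, g1, g2, le_rfl, le_rfl, le_rfl⟩ (fun _ => rfl)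
    (fun _ => rfl) h1 h2

theorem Good.root (G : Good τ K M) (hm : Monotone ψ) (hP : ∀ i, P (i + n) = P i)
    (hψ : ∀ i, ψ (i + n) = ψ i + 2 * Real.pi) (hL : 0 ≤ L) (hκ : ∀ q < τ.nq, κ ≤ τ.kap t q)
    (F0 : Fr τ t L R r ε n ψ P u ψ' x) (h00 : 0 ≤ ph ψ' a) (T1 : IT P a b y c1 X1)
    (T2 : IT P b e y c2 X2) (T3 : IT P e (a + n) y c3 X3) {B l1 l2 l3 : ℕ}
    (gA : B = τ.cell t (ph ψ' a)) (gB : B + l1 = τ.cell t (ph ψ' b))
    (gE : B + (l1 + l2) = τ.cell t (ph ψ' e)) (hl : l1 + l2 + l3 = 2 * (τ.m + 1))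
    (k1 : l1 ≤ τ.m + 1) (k2 : l2 ≤ l1) (k3 : l3 ≤ l1) :
    (∃ p, FanAt P ψ n p (c1 + c2 + c3) (X1 ∪ X2 ∪ X3)) ∨
      2 * Real.pi * (R - (r + (R + 2) * ε)) + 4 * L * κ +
        (r + (R + 2) * ε) * itp τ.T t τ.V0 τ.V1 +
        (R - Rs * (r + (R + 2) * ε)) * (τ.S0 / Q) ≤ c1 + c2 + c3 := by
  obtain ⟨u1, ψ1, x1, F, h0, a2, -⟩ := F0.norm (r' := 0) (δ := 0) h00 gA
  have hA := a2 a 0 le_rfl gA
  have hB := a2 b l1 T1.lt.le gB
  have hE := a2 e _ (T1.lt.trans T2.lt).le gE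
  have lt : B % (τ.m + 1) ≤ τ.m := Nat.lt_succ_iff.1 (Nat.mod_lt _ (by omega))
  generalize B % (τ.m + 1) = A at hA hB hE lt
  rw [add_zero] at hA
  rw [← add_assoc] at hE
  have hZ : A + l1 + l2 + l3 = τ.cell t (ph ψ1 (a + n)) := by rw [F.ctx.cell_per h0]; omega
  have ok := F.ctx.ok
  have tm := F.ctx.tm
  have r1 := F.ctx.r1
  have δ0 := sub_nonneg.2 F.ctx.big
  have m1 := h0.trans (F.ctx.mono T1.lt.le)
  have m2 := m1.trans (F.ctx.mono T2.lt.le)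
  have pi := Real.pi_pos
  obtain ⟨d1, hc1⟩ := exists_cls τ A (A + l1) (ψ b - ψ a)
  obtain ⟨σ1, p1, p2, p3, p4⟩ := G.res hm T1 u1 ψ1 x1 A l1 d1 F h0 lt k1 hA hB hc1
  by_cases sp : A = 0 ∧ l1 = τ.m + 1
  · obtain ⟨rfl, rfl⟩ := sp
    rw [zero_add] at hB
    have z1 : ph ψ1 a ≤ av t (τ.hi 0) := hA ▸ ok.cell_hi
    have z2 : av t (τ.lo (τ.m + 1)) ≤ ph ψ1 b := hB ▸ ok.cell_lo m1
    have z3 : ph ψ1 b ≤ av t (τ.hi (τ.m + 1)) := hB ▸ ok.cell_hi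
    rw [ok.lo0.2, av_271] at z1
    rw [ok.lo1.1, av_811] at z2
    rw [ok.lo1.2, av_811] at z3
    have hZ' : τ.m + 1 + (τ.m + 1) = τ.cell t (ph ψ1 (a + n)) := by omega
    obtain ⟨d2, hc2⟩ := exists_cls τ (τ.m + 1) (τ.m + 1 + (τ.m + 1)) (ψ (a + n) - ψ b)
    obtain ⟨σ2, q1, q2, q3, q4⟩ := (G.res hm (T2.join T3)).up G (T2.join T3).lt.le F m1 le_rfl hB hZ' hc2
    obtain rfl : d1 = 1 := (Nat.le_one_iff_eq_zero_or_eq_one.1 hc1.le).resolve_left fun g => by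
      have := F.small h0 hA (by rwa [zero_add]) (g ▸ hc1)
      rw [Sm, ← F.dif] at this; linarith
    obtain rfl : d2 = 1 := (Nat.le_one_iff_eq_zero_or_eq_one.1 hc2.le).resolve_left fun g => by
      have := F.small m1 hB hZ' (g ▸ hc2)
      rw [Sm, ← F.dif, F.ctx.per] at this; linarith
    rw [Nat.mod_self] at q1 q2
    rcases G.hP σ1 p1 σ2 q1 with g | g | ⟨o1, g1, o2, g2, g3, g4, g5, g6, g7, g8, g9, g10, g11, g12⟩
    · exact Or.inl ⟨a, b, y, _, _, _, _, p3 (Or.inr g.1), q4 (Or.inr g.2), by ring,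
        (Set.union_assoc _ _ _).symm⟩
    · exact Or.inl ⟨b, a + n, y, _, _, _, _, q3 (Or.inr g.2), (p4 (Or.inr g.1)).shift hP hψ, by ring,
        by rw [Set.union_comm, Set.union_assoc]⟩
    · have s2 := q2 o2 g2
      rw [Tab.up, Nat.div_self (by omega), Function.iterate_one] at s2
      rw [add_assoc]
      exact Or.inr (F.ctx.close hL hκ ((p2 o1 g1).sum tm r1 δ0 s2 o1.q o1.h g3 (fun _ => ⟨rfl, rfl⟩)
        fun _ => ⟨g8, g9⟩) g7 g4 g5 g6 g10 g11 g12)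
  obtain ⟨d2, hc2⟩ := exists_cls τ (A + l1) (A + l1 + l2) (ψ e - ψ b)
  obtain ⟨d3, hc3⟩ := exists_cls τ (A + l1 + l2) (A + l1 + l2 + l3) (ψ (a + n) - ψ e)
  obtain ⟨σ2, q1, q2, q3, q4⟩ := (G.res hm T2).up G T2.lt.le F m1 (k2.trans k1) hB hE hc2
  obtain ⟨σ3, s1, s2, s3, s4⟩ := (G.res hm T3).up G T3.lt.le F m2 (k3.trans k1) hE hZ hc3
  rcases G.hR A lt l1 k1 l2 k2 l3 k3 hl sp d1 hc1.le d2 hc2.le d3 hc3.le hc1.has hc2.has hc3.has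
    σ1 p1 σ2 q1 σ3 s1 with ⟨g1, g2, rfl⟩ | ⟨g1, g2, rfl⟩ | ⟨g1, g2, rfl⟩ |
      ⟨o1, g1, o2, g2, o3, g3, f1, f2, f3, f4, f5, ⟨q, f6, h, f7, f8, f9⟩, f10, f11, f12⟩
  · exact Or.inl ⟨a, fan_a hm (p3 g1) T2 (F.small m1 hB hE hc2) (s4 g2)⟩
  · exact Or.inl ⟨b, fan_b hm hP hψ (p4 g2) (q3 g1) T3 (F.small m2 hE hZ hc3)⟩
  · exact Or.inl ⟨e, fan_e hm hP hψ T1 (F.small h0 hA hB hc1) (q4 g2) (s3 g1)⟩
  · exact Or.inr (F.ctx.close hL hκ (((p2 o1 g1).sum tm r1 δ0 (q2 o2 g2) q h f1 f7 f8).sum tm r1 δ0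
      (s2 o3 g3) q h f2 (fun _ => ⟨rfl, rfl⟩) fun z => ⟨(f9 z).1, (add_assoc _ _ _).symm.trans
        (f9 z).2⟩) f6 f3 f4 f5 f10 f11 f12)

theorem Good.concl (G : Good τ K M) : τ.Concl := by
  intro t κ L ρ r ε n ψ x P t0 t1 _ hκ hL hr hρ e0 e1 big S hP near a b e y c1 c2 c3 X1 X2 X3 T1 T2 T3
    w1 w2 w3
  have ok := ok_of G.ok
  have pi := Real.pi_pos
  obtain ⟨k, hk⟩ := exists_nat_gt (-(ψ a) / (2 * Real.pi))
  rw [div_lt_iff₀ (by positivity)] at hk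
  have F : Fr τ t L (ρ + r) r ε n ψ P 1 (fun i => ψ i - (-k : ℤ) * (2 * Real.pi)) x :=
    ⟨⟨ok, ⟨ok.T10, t0, t1⟩, S.sub _, hr.le, by linarith, e0, e1, fun i => by
      rw [one_mul, smp, nv, show ((ψ i - (-k : ℤ) * (2 * Real.pi) : ℝ) : ℂ) * Complex.I =
        ψ i * Complex.I + k * (2 * Real.pi * Complex.I) by push_cast; ring, Complex.exp_add,
        Complex.exp_nat_mul_two_pi_mul_I, mul_one]
      exact near i, big⟩, Or.inl rfl, fun i k => by unfold ph; ring⟩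
  have h0 : 0 ≤ ph (fun i => ψ i - (-k : ℤ) * (2 * Real.pi)) a := by
    unfold ph; push_cast; linarith
  generalize (fun i => ψ i - (-k : ℤ) * (2 * Real.pi)) = ψ' at F h0
  have m1 := F.ctx.mono T1.lt.le
  have m2 := F.ctx.mono T2.lt.le
  have m3 := F.ctx.mono T3.lt.le
  have half : ∀ i j, 0 ≤ ph ψ' i → ψ j - ψ i ≤ Real.pi →
      τ.cell t (ph ψ' j) ≤ τ.cell t (ph ψ' i) + (τ.m + 1) := fun i j g1 g2 => by
    rw [← ok.cell_pi g1]; exact ok.cell_mono (by linarith [F.dif i j])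
  have b1 := half a b h0 w1
  have b2 := half b e (h0.trans m1) w2
  have b3 := half e (a + n) ((h0.trans m1).trans m2) w3.le
  have pa := F.ctx.cell_per h0
  have pb := F.ctx.cell_per (h0.trans m1)
  obtain ⟨l1, g1⟩ := Nat.exists_eq_add_of_le (ok.cell_mono (t := t) m1)
  obtain ⟨l2, g2⟩ := Nat.exists_eq_add_of_le (ok.cell_mono (t := t) m2)
  obtain ⟨l3, g3⟩ := Nat.exists_eq_add_of_le (ok.cell_mono (t := t) m3)
  rw [show ρ - (ρ + r + 2) * ε = ρ + r - (r + (ρ + r + 2) * ε) by ring]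
  have H := fun {a b e c1 c2 c3 X1 X2 X3} => G.root (a := a) (b := b) (e := e) (y := y) (c1 := c1)
    (c2 := c2) (c3 := c3) (X1 := X1) (X2 := X2) (X3 := X3) S.monotone hP S.perψ hL.le hκ F
  by_cases d1 : l2 ≤ l1 ∧ l3 ≤ l1
  · exact H h0 T1 T2 T3 rfl g1.symm (by omega) (l3 := l3) (by omega) (by omega) d1.1 d1.2
  by_cases d2 : l3 ≤ l2
  · have := H (h0.trans m1) T2 T3 (T1.shift hP) rfl g2.symm (l2 := l3) (by omega) (l3 := l1)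
      (by omega) (by omega) d2 (by omega)
    rwa [show c2 + c3 + c1 = c1 + c2 + c3 by ring, Set.union_comm, ← Set.union_assoc] at this
  · have := H ((h0.trans m1).trans m2) T3 (T1.shift hP) (T2.shift hP) rfl g3.symm (l2 := l1)
      (by omega) (l3 := l2) (by omega) (by omega) (by omega) (by omega)
    rwa [show c3 + c1 + c2 = c1 + c2 + c3 by ring, Set.union_assoc, Set.union_comm] at this

end Pool.Agent.Lib.MP_4b56aa_gt.Cert
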