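import Pool.Agent.Lib.MP_4b56aa_gt.Cert.CK
import Pool.Agent.Lib.MP_4b56aa_gt.Fan.FCore

/-! Half turns, joins and moves of offers. -/

namespace Pool.Agent.Lib.MP_4b56aa_gt.Cert

open Pool.Agent.Lib.MP_4b56aa_gt.Red Pool.Agent.Lib.MP_4b56aa_gt.Fan

variable {τ : Tab} {t L R r r' δ ε c d : ℝ} {n s m e : ℕ} {ψ ψ' φ x : ℕ → ℝ} {P : ℕ → ℂ} {y u : ℂ}
  {X : Set ℂ} {o k k' : Off} {f f1 f2 : Bool}

theorem nv_sub_pi (a : ℝ) : nv (a - Real.pi) = -nv a := by
  apply Complex.ext <;> simp [nv_re, nv_im]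

theorem vec_rot (t : ℝ) (l : ℕ) (a : ℝ) :
    vec t (rotL l) a = -vec t l (a - Real.pi) ∧ ang t (rotL l) a = ang t l (a - Real.pi) + Real.pi := by
  have e : av t ((l + 2160) / 4) = av t (l / 4) + Real.pi := by
    rw [show (l + 2160) / 4 = l / 4 + 540 * 1 by omega, av_540]; simp
  unfold rotL
  split_ifs with h
  · unfold vec ang
    rw [if_pos h, if_pos h, if_neg (show ¬ l % 4 = 3 by omega), nv_sub_pi]
    exact ⟨by split_ifs <;> simp, by ring⟩
  · unfold vec ang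
    rw [show (l + 2160) % 4 = l % 4 by omega, if_neg h, if_neg h, e, if_neg (show ¬ l % 4 = 1 by omega),
      if_neg (show ¬ l % 4 = 1 by omega), ← neg_neg (nv (_ + _)), ← nv_sub_pi, add_sub_cancel_right]
    exact ⟨by split_ifs <;> simp, rfl⟩

theorem Tab.Sem.rot (hq : f = false → o.q < τ.nq)
    (h : τ.Sem t r δ (fun i => φ i - Real.pi) (fun i => -x i) s e (-y) c f o) :
    τ.Sem t r δ φ x s e y c f (τ.rot o) := by
  intro q g q1 hf
  have := h (τ.nq - 1 - q) (-g) (by omega) fun a => by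
    obtain ⟨b1, b2⟩ := hf a
    have := hq a
    simp only [Tab.rot] at b1 b2
    omega
  have e1 : τ.XB (τ.nq - 1 - q) = τ.XT q := rfl
  have e2 : τ.XT (τ.nq - 1 - q) = τ.XB q := by
    unfold Tab.XT Tab.XB; rw [show τ.nq - 1 - (τ.nq - 1 - q) = q by omega]
  have e3 : ∀ i, cum (fun i => -x i) i = cum x i := fun i =>
    Finset.sum_congr rfl fun j _ => by rw [neg_sub_neg, abs_sub_comm]
  simp only [Tab.SemAt, Tab.rot, Tab.kap, Tab.off, e1, e2, e3, (vec_rot _ _ _).1, (vec_rot _ _ _).2, dot,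
    lat, Complex.add_re, Complex.add_im, Complex.sub_re, Complex.sub_im, Complex.neg_re,
    Complex.neg_im, Complex.ofReal_re, Complex.ofReal_im] at this ⊢
  push_cast at this ⊢
  linear_combination this

theorem itp_le {T : ℕ} (ht : Tm T t) {a b a1 b1 a2 b2 : ℤ} (h1 : a ≤ a1 + a2) (h2 : b ≤ b1 + b2) :
    itp T t a b ≤ itp T t a1 b1 + itp T t a2 b2 := by
  have g1 : (a : ℝ) ≤ a1 + a2 := by exact_mod_cast h1
  have g2 : (b : ℝ) ≤ b1 + b2 := by exact_mod_cast h2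
  unfold itp
  rw [Q_eq]
  linarith [mul_le_mul_of_nonneg_left g1 (sub_nonneg.2 ht.l1), mul_le_mul_of_nonneg_left g2 ht.l0]

theorem sl_le {a a1 a2 : ℤ} (h : a ≤ a1 + a2) : (a : ℝ) / Q ≤ a1 / Q + a2 / Q := by
  have g : (a : ℝ) ≤ a1 + a2 := by exact_mod_cast h
  rw [Q_eq]; linarith

theorem Tab.Sem.dom (ht : Tm τ.T t) (hr : 0 ≤ r) (hδ : 0 ≤ δ) (D : Dom f o k)
    (h : τ.Sem t r δ φ x s e y c f k) : τ.Sem t r δ φ x s e y c f o := by
  obtain ⟨a1, a2, a3, a4, a5, a6, a7, a8⟩ := D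
  intro q g q1 hf
  have := h q g q1 fun a => ⟨(hf a).1.trans (a5 a).1, (hf a).2.trans (a5 a).2⟩
  have i := itp_le ht (a2 := 0) (b2 := 0) (a6.trans_eq (add_zero _).symm) (a7.trans_eq (add_zero _).symm)
  have j := sl_le (a2 := 0) (a8.trans_eq (add_zero _).symm)
  rw [show itp τ.T t 0 0 = 0 by simp [itp]] at i
  simp only [Tab.SemAt, a1, a2, a3, a4] at this ⊢
  rw [Int.cast_zero, zero_div] at j
  linarith [mul_le_mul_of_nonneg_left i hr, mul_le_mul_of_nonneg_left j hδ]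

theorem Tab.Sem.cmp (ht : Tm τ.T t) (hr : 0 ≤ r) (hδ : 0 ≤ δ) (D : Cmp f1 f2 o k k')
    (g1 : f1 = false → f = false) (g2 : f2 = false → f = false)
    (h1 : τ.Sem t r δ φ x s m y c f1 k) (h2 : τ.Sem t r δ φ x m e y d f2 k') :
    τ.Sem t r δ φ x s e y (c + d) f o := by
  obtain ⟨a1, a2, a3, a4, a5, a6, a7, a8, a9, a10⟩ := D
  intro q g q1 hf
  have b1 := h1 q g q1 fun a => ⟨(hf (g1 a)).1.trans (a6 a).1, (hf (g1 a)).2.trans (a6 a).2⟩
  have b2 := h2 q (g + k.di) q1 fun a => ⟨(hf (g2 a)).1.trans (a7 a).1, (hf (g2 a)).2 ▸ (a7 a).2⟩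
  have i := mul_le_mul_of_nonneg_left (itp_le ht a8 a9) hr
  have j := mul_le_mul_of_nonneg_left (sl_le a10) hδ
  simp only [Tab.SemAt, a1, a2, ← a3, a4, a5, dot, lat, Complex.add_re, Complex.add_im,
    Complex.sub_re, Complex.sub_im, Complex.ofReal_re, Complex.ofReal_im] at b1 b2 ⊢
  push_cast at b1 b2 ⊢
  linear_combination b1 + b2 + i + j

theorem Tab.Sem.mono (h : τ.Sem t r δ φ x s e y c f o) (g : c ≤ d) : τ.Sem t r δ φ x s e y d f o :=
  fun q k a b => le_trans (h q k a b) g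

theorem Tab.Sem.move (h : τ.Sem t r δ φ x s e y c f o) (z : ℂ)
    (g : ‖vec t o.ka (φ s) - (lat τ.N o.di o.dj + vec t o.kb (φ e))‖ ≤ 1) :
    τ.Sem t r δ φ x s e z (c + dist y z) f o := by
  intro q k a b
  have := h q k a b
  have j := dot_le_dist (x := y) (y := z) g
  simp only [Tab.SemAt, dot, Complex.add_re, Complex.add_im, Complex.sub_re, Complex.sub_im]
    at this j ⊢
  linarith

/-- A frame: the data turned by some half turns. -/
structure Fr (τ : Tab) (t L R r ε : ℝ) (n : ℕ) (ψ : ℕ → ℝ) (P : ℕ → ℂ) (u : ℂ) (ψ' x : ℕ → ℝ) :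
    Prop where
  ctx : Ctx τ t L R r ε n ψ' x fun i => u * P i
  hu : u = 1 ∨ u = -1
  dif : ∀ i k, ph ψ' k - ph ψ' i = ψ k - ψ i

theorem Fr.next (F : Fr τ t L R r ε n ψ P u ψ' x) :
    Fr τ t L R r ε n ψ P (-u) (fun i => ψ' i - Real.pi) fun i => -x i := by
  have c := F.ctx
  refine ⟨⟨c.ok, c.tm, ?_, c.r0, c.rR, c.e0, c.e1, fun i => ?_, c.big⟩,
    by rcases F.hu with a | a <;> simp [a], fun i k => by rw [← F.dif]; unfold ph; ring⟩
  · have := c.samp.neg.sub 1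
    rwa [show (fun i => ψ' i + Real.pi - (1 : ℤ) * (2 * Real.pi)) = fun i => ψ' i - Real.pi from
      funext fun i => by push_cast; ring] at this
  · have := c.near i
    rw [← dist_neg_neg] at this
    rwa [neg_mul, show smp R (fun i => ψ' i - Real.pi) (fun i => -x i) i = -smp R ψ' x i by
      simp only [smp, nv_sub_pi]; push_cast; ring]

theorem Fr.tree (F : Fr τ t L R r ε n ψ P u ψ' x) (T : IT P s e y c X) :
    ∃ X', IT (fun i => u * P i) s e (u * y) c X' := by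
  rcases F.hu with rfl | rfl
  · exact ⟨X, by simpa using T⟩
  · exact ⟨_, by simpa using (itr_of_it T).neg.it⟩

theorem Fr.dist (F : Fr τ t L R r ε n ψ P u ψ' x) (y z : ℂ) : dist (u * y) (u * z) = dist y z := by
  rcases F.hu with rfl | rfl <;> simp

theorem Fr.norm (F : Fr τ t L R r ε n ψ P u ψ' x) (h0 : 0 ≤ ph ψ' s) {b : ℕ}
    (hb : b = τ.cell t (ph ψ' s)) : ∃ u1 ψ1 x1, Fr τ t L R r ε n ψ P u1 ψ1 x1 ∧ 0 ≤ ph ψ1 s ∧
      (∀ i l, s ≤ i → b + l = τ.cell t (ph ψ' i) → b % (τ.m + 1) + l = τ.cell t (ph ψ1 i)) ∧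
      ∀ e y c f o, (f = false → o.q < τ.nq) → τ.Sem t r' δ (ph ψ1) x1 s e (u1 * y) c f o →
        τ.Sem t r' δ (ph ψ') x s e (u * y) c f (τ.up b o) := by
  induction b using Nat.strong_induction_on generalizing u ψ' x with
  | _ b ih =>
  rcases lt_or_ge b (τ.m + 1) with g | g
  · exact ⟨u, ψ', x, F, h0, fun i l _ a => by rwa [Nat.mod_eq_of_lt g], fun e y c f o _ a => by
      rwa [Tab.up, Nat.div_eq_of_lt g]⟩
  obtain ⟨b, rfl⟩ := Nat.exists_eq_add_of_le' g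
  have ok := F.ctx.ok
  have p : Real.pi ≤ ph ψ' s := not_lt.1 fun a => by have := ok.cell_le (t := t) a; omega
  have ep : ph (fun i => ψ' i - Real.pi) = fun i => ph ψ' i - Real.pi :=
    funext fun i => by unfold ph; ring
  have cl : ∀ i, s ≤ i → τ.cell t (ph ψ' i) =
      τ.cell t (ph (fun i => ψ' i - Real.pi) i) + (τ.m + 1) := fun i a => by
    rw [ep, ← ok.cell_pi (by linarith [F.ctx.mono a]), sub_add_cancel]
  obtain ⟨u1, ψ1, x1, F1, a1, a2, a3⟩ := ih b (by omega) F.next (by rw [ep]; linarith)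
    (by have := cl s le_rfl; omega)
  refine ⟨u1, ψ1, x1, F1, a1, fun i l a g => ?_, fun e y c f o a g => ?_⟩
  · rw [Nat.add_mod_right]; exact a2 i l a (by have := cl i a; omega)
  · have := a3 e y c f o a g
    rw [ep, neg_mul] at this
    rw [Tab.up, Nat.add_div_right _ (by omega), Function.iterate_succ_apply']
    refine this.rot fun z => ?_
    rcases b / (τ.m + 1) with _ | k
    · exact a z
    · rw [Function.iterate_succ_apply']
      have := ok.nq1
      simp only [Tab.rot]; omega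

theorem Ok.cls_mod (h : Ok τ) {b l cl : ℕ} {w : ℝ} :
    τ.Cls (b % (τ.m + 1)) (b % (τ.m + 1) + l) w cl ↔ τ.Cls b (b + l) w cl := by
  induction b using Nat.strong_induction_on with
  | _ b ih =>
  rcases lt_or_ge b (τ.m + 1) with g | g
  · rw [Nat.mod_eq_of_lt g]
  obtain ⟨b, rfl⟩ := Nat.exists_eq_add_of_le' g
  rw [Nat.add_mod_right, ih b (by omega), add_right_comm, h.cls_add]

end Pool.Agent.Lib.MP_4b56aa_gt.Cert
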