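import Pool.Agent.Lib.MP_4b56aa_gt.Cert.CPair

/-! Functions with a second derivative bounded above. -/

namespace Pool.Agent.Lib.MP_4b56aa_gt.Cert

open Pool.Agent.Lib.MP_4b56aa_gt.Red Pool.Agent.Lib.MP_4b56aa_gt.Fan

/-- `f x - M x ^ 2 / 2` is concave. -/
def SC (f : ℝ → ℝ) (M : ℝ) : Prop :=
  ∀ a b l : ℝ, 0 ≤ l → l ≤ 1 →
    (1 - l) * f a + l * f b - M * (l * (1 - l) * (b - a) ^ 2 / 2) ≤ f ((1 - l) * a + l * b)

variable {f g : ℝ → ℝ} {M M' : ℝ}

theorem SC.add (h : SC f M) (h' : SC g M') : SC (fun x => f x + g x) (M + M') := fun a b l p q => by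
  linarith [h a b l p q, h' a b l p q]

theorem SC.mono (h : SC f M) (e : M ≤ M') : SC f M' := fun a b l p q => by
  have : 0 ≤ l * (1 - l) * (b - a) ^ 2 / 2 := by have := sub_nonneg.2 q; positivity
  linarith [h a b l p q, mul_le_mul_of_nonneg_right e this]

theorem SC.smul (h : SC f M) {k : ℝ} (e : 0 ≤ k) : SC (fun x => k * f x) (k * M) := fun a b l p q => by
  linarith [mul_le_mul_of_nonneg_left (h a b l p q) e]

theorem SC.congr (h : SC f M) (e : ∀ x, g x = f x) : SC g M := funext e ▸ h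

theorem sc_lin {c ω : ℝ} (e : ∀ x, f x = c + ω * x) : SC f 0 := fun a b l _ _ => by
  rw [e, e, e]; linarith

theorem sc_cos : SC Real.cos 1 := fun a b l p q => by
  have d : ∀ x, HasDerivAt (fun x => x ^ 2 / 2 - Real.cos x) (x + Real.sin x) x := fun x => by
    exact (((hasDerivAt_pow 2 x).div_const 2).fun_sub (Real.hasDerivAt_cos x)).congr_deriv (by simp)
  have c : ConvexOn ℝ Set.univ (fun x => x ^ 2 / 2 - Real.cos x) :=
    Monotone.convexOn_univ_of_deriv (fun x => (d x).differentiableAt) fun x y h => by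
      rw [(d x).deriv, (d y).deriv]
      have := (le_abs_self _).trans (Real.abs_sin_sub_sin_le x y)
      rw [abs_of_nonpos (sub_nonpos.2 h)] at this
      linarith
  have := c.2 (Set.mem_univ a) (Set.mem_univ b) (sub_nonneg.2 q) p (by ring)
  simp only [smul_eq_mul] at this
  linarith

theorem sc_dot {V : ℂ} {K c ω : ℝ} (hV : ‖V‖ ≤ K) (e : ∀ x, g x = c + ω * x) :
    SC (fun x => dot V (nv (g x))) (K * ω ^ 2) := by
  have k : ∀ x, dot V (nv (g x)) = ‖V‖ * Real.cos (c - V.arg + ω * x) := fun x => by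
    rw [e, show c - V.arg + ω * x = c + ω * x - V.arg by ring, Real.cos_sub, dot, nv_re, nv_im]
    linear_combination -Real.cos (c + ω * x) * Complex.norm_mul_cos_arg V -
      Real.sin (c + ω * x) * Complex.norm_mul_sin_arg V
  have : SC (fun x => Real.cos (c - V.arg + ω * x)) (ω ^ 2) := fun a b l p q => by
    have := sc_cos (c - V.arg + ω * a) (c - V.arg + ω * b) l p q
    rw [show (1 - l) * (c - V.arg + ω * a) + l * (c - V.arg + ω * b) =
      c - V.arg + ω * ((1 - l) * a + l * b) by ring] at this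
    linarith
  exact ((this.smul (norm_nonneg V)).congr k).mono (mul_le_mul_of_nonneg_right hV (sq_nonneg _))

theorem sc_norm {d : ℝ → ℂ} (h : ∀ e : ℂ, ‖e‖ ≤ 1 → SC (fun x => dot e (d x)) M) :
    SC (fun x => -‖d x‖) M := fun a b l p q => by
  obtain ⟨e, e1, e2⟩ : ∃ e : ℂ, ‖e‖ ≤ 1 ∧ dot e (d ((1 - l) * a + l * b)) =
      -‖d ((1 - l) * a + l * b)‖ := by
    generalize d ((1 - l) * a + l * b) = z
    refine ⟨-nv z.arg, by rw [norm_neg, norm_nv], ?_⟩
    simp only [dot, Complex.neg_re, Complex.neg_im, nv_re, nv_im]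
    linear_combination Real.cos z.arg * Complex.norm_mul_cos_arg z +
      Real.sin z.arg * Complex.norm_mul_sin_arg z - ‖z‖ * Real.sin_sq_add_cos_sq z.arg
  have k : ∀ x, -‖d x‖ ≤ dot e (d x) := fun x => by
    have := (dot_le (-e) (d x)).trans
      (mul_le_mul_of_nonneg_right (show ‖-e‖ ≤ 1 by rwa [norm_neg]) (norm_nonneg _))
    simp only [dot, Complex.neg_re, Complex.neg_im] at this ⊢
    linarith
  have := h e e1 a b l p q
  simp only [e2] at this
  linarith [mul_le_mul_of_nonneg_left (k a) (sub_nonneg.2 q), mul_le_mul_of_nonneg_left (k b) p]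

theorem SC.ends (h : SC f M) (hM : 0 ≤ M) {T : ℕ} {t : ℝ} (ht : Tm T t) :
    (1 - t / T) * f 0 + t / T * (f T - M * T ^ 2 / 2) ≤ f t := by
  have := h 0 T _ ht.l0 ht.l1
  rw [mul_zero, zero_add, ht.mul] at this
  nlinarith [mul_nonneg hM (sq_nonneg (t / T * T))]

theorem SC.min (h : SC f M) (hM : 0 ≤ M) {a b x : ℝ} (h1 : a ≤ x) (h2 : x ≤ b) :
    min (f a) (f b) - M * (b - a) ^ 2 / 8 ≤ f x := by
  have nn : 0 ≤ M * (b - a) ^ 2 := by positivity
  rcases (h1.trans h2).eq_or_lt with rfl | l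
  · rw [le_antisymm h2 h1]; linarith [min_le_left (f a) (f a)]
  have p := sub_pos.2 l
  have l0 : 0 ≤ (x - a) / (b - a) := div_nonneg (sub_nonneg.2 h1) p.le
  have l1 : (x - a) / (b - a) ≤ 1 := (div_le_one p).2 (by linarith)
  have := h a b _ l0 l1
  rw [show (1 - (x - a) / (b - a)) * a + (x - a) / (b - a) * b = x by field_simp; ring] at this
  generalize (x - a) / (b - a) = l at this l0 l1
  nlinarith [mul_le_mul_of_nonneg_left (min_le_left (f a) (f b)) (sub_nonneg.2 l1),
    mul_le_mul_of_nonneg_left (min_le_right (f a) (f b)) l0, mul_nonneg nn (sq_nonneg (l - 1 / 2))]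

end Pool.Agent.Lib.MP_4b56aa_gt.Cert
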