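import Pool.Agent.Lib.MP_4b56aa_gt.Cert.CDefs

/-! Accuracy of the constants and of the trigonometric table. -/

namespace Pool.Agent.Lib.MP_4b56aa_gt.Cert

open Pool.Agent.Lib.MP_4b56aa_gt.Red Pool.Agent.Lib.MP_4b56aa_gt.Fan Pool.Agent.Lib.MP_4b56aa_gt.Out

/-- Degrees to radians. -/
noncomputable def rad (d : ℝ) : ℝ := d * (Real.pi / 180)

theorem Q_eq : ((Q : ℤ) : ℝ) = 16777216 := by norm_num [Q]

theorem sqrt_mem {x a b : ℝ} (ha : a ^ 2 ≤ x) (hb : 0 ≤ b) (h : x ≤ b ^ 2) : a ≤ √x ∧ √x ≤ b :=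
  ⟨Real.le_sqrt_of_sq_le ha, Real.sqrt_le_iff.2 ⟨hb, h⟩⟩

theorem s2 : 1.41421356237309 ≤ √2 ∧ √2 ≤ 1.41421356237310 :=
  sqrt_mem (by norm_num) (by norm_num) (by norm_num)

theorem s3 : 1.73205080756887 ≤ √3 ∧ √3 ≤ 1.73205080756888 :=
  sqrt_mem (by norm_num) (by norm_num) (by norm_num)

theorem s6 : 2.44948974278317 ≤ √6 ∧ √6 ≤ 2.44948974278318 :=
  sqrt_mem (by norm_num) (by norm_num) (by norm_num)

theorem Rs_mem : 2.03527618041007 ≤ Rs ∧ Rs ≤ 2.03527618041009 := by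
  unfold Rs; constructor <;> linarith [s2.1, s2.2, s6.1, s6.2]

theorem pi_mem : 0.01745329251994329 ≤ Real.pi / 180 ∧ Real.pi / 180 ≤ 0.0174532925199433 := by
  constructor <;> linarith [Real.pi_gt_d20, Real.pi_lt_d20]

theorem S3_mem : (S3 : ℝ) ≤ √3 * Q ∧ √3 * Q ≤ S3 + 1 := by
  rw [Q_eq]; norm_num [S3]; constructor <;> linarith [s3.1, s3.2]

theorem RL_mem : (RL : ℝ) ≤ Rs * Q ∧ Rs * Q ≤ RL + 1 := by
  rw [Q_eq]; norm_num [RL]; constructor <;> linarith [Rs_mem.1, Rs_mem.2]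

theorem PD_mem : (PD : ℝ) ≤ Real.pi / 180 * 1024 * Q ∧ Real.pi / 180 * 1024 * Q ≤ PD + 1 := by
  rw [Q_eq]; norm_num [PD]; constructor <;> linarith [pi_mem.1, pi_mem.2]

theorem RD_mem : (RD : ℝ) ≤ (Rs - 1) * (Real.pi / 180) * 1024 * Q ∧
    (Rs - 1) * (Real.pi / 180) * 1024 * Q ≤ RD + 1 := by
  have a := mul_le_mul (sub_le_sub_right Rs_mem.1 1) pi_mem.1 (by norm_num) (by linarith [Rs_mem.1])
  have b := mul_le_mul (sub_le_sub_right Rs_mem.2 1) pi_mem.2 (by positivity) (by norm_num)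
  rw [Q_eq]; norm_num [RD] at a b ⊢; constructor <;> linarith

theorem pi_sq : (Real.pi / 180) ^ 2 * Q ≤ 5110.64 := by
  have := pow_le_pow_left₀ (by positivity) pi_mem.2 2
  rw [Q_eq]; norm_num at this ⊢; linarith

/-- Powers of a Gaussian integer close to `2 ^ 50` times the rotation by one degree. -/
def gpw : ℕ → ℤ × ℤ
  | 0 => (1, 0)
  | d + 1 => ((gpw d).1 * 1125728426833393 - (gpw d).2 * 19649662781917,
      (gpw d).1 * 19649662781917 + (gpw d).2 * 1125728426833393)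

theorem gp_chk : (List.range 91).all (fun d =>
    decide (4 * |c90 d * (2 ^ 50) ^ d - Q * (gpw d).1| ≤ 3 * (2 ^ 50) ^ d)) = true := by
  decide +kernel

noncomputable def w1 : ℂ := ⟨1125728426833393 / 2 ^ 50, 19649662781917 / 2 ^ 50⟩

theorem w1_pow (d : ℕ) : w1 ^ d = ⟨(gpw d).1 / (2 ^ 50) ^ d, (gpw d).2 / (2 ^ 50) ^ d⟩ := by
  induction d with
  | zero => apply Complex.ext <;> simp [gpw]
  | succ d ih =>
    rw [pow_succ, ih]
    apply Complex.ext <;> simp only [gpw, w1, Complex.mul_re, Complex.mul_im] <;> push_cast <;>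
      rw [pow_succ _ d] <;> field_simp

theorem w1_near : ‖w1 - nv (rad 1)‖ ≤ 1e-12 := by
  set x : ℝ := 0.0174532925199433 with hx
  have a : ‖nv x - nv (rad 1)‖ ≤ 1e-16 := (norm_nv_sub _ _).trans
    (abs_le.2 ⟨by unfold rad; linarith [pi_mem.2], by unfold rad; linarith [pi_mem.1]⟩)
  have nx : ‖(x : ℂ) * Complex.I‖ = x := by
    rw [norm_mul, Complex.norm_I, mul_one, Complex.norm_real, Real.norm_of_nonneg (by norm_num [hx])]
  have b := Complex.exp_bound (x := x * Complex.I) (by rw [nx]; norm_num [hx]) (n := 6) (by norm_num)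
  rw [nx] at b
  have e : ∑ m ∈ Finset.range 6, ((x : ℂ) * Complex.I) ^ m / (m.factorial : ℂ) =
      ⟨1 - x ^ 2 / 2 + x ^ 4 / 24, x - x ^ 3 / 6 + x ^ 5 / 120⟩ := by
    apply Complex.ext <;>
      simp [Finset.sum_range_succ, Nat.factorial, pow_succ, Complex.div_ofNat_re,
        Complex.div_ofNat_im] <;> ring
  rw [e] at b
  have c : ‖w1 - ⟨1 - x ^ 2 / 2 + x ^ 4 / 24, x - x ^ 3 / 6 + x ^ 5 / 120⟩‖ ≤ 1e-13 := by
    refine (Complex.norm_le_abs_re_add_abs_im _).trans ?_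
    simp only [Complex.sub_re, Complex.sub_im, w1, hx]
    norm_num [abs_of_nonneg, abs_of_nonpos]
  have d : x ^ 6 * (((6 : ℕ).succ : ℝ) * (((6 : ℕ).factorial : ℝ) * (6 : ℕ))⁻¹) ≤ 1e-13 := by
    norm_num [hx, Nat.factorial]
  have t := norm_sub_le_norm_sub_add_norm_sub w1 ⟨1 - x ^ 2 / 2 + x ^ 4 / 24, x - x ^ 3 / 6 + x ^ 5 / 120⟩
    (nv x)
  have t2 := norm_sub_le_norm_sub_add_norm_sub w1 (nv x) (nv (rad 1))
  rw [norm_sub_rev] at b
  unfold nv at t t2 a ⊢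
  norm_num at a c d t t2 b ⊢
  linarith

theorem w1_err (d : ℕ) (h : d ≤ 90) : ‖w1 ^ d - nv (rad d)‖ ≤ 2 * d * 1e-12 := by
  induction d with
  | zero => simp [rad, nv_zero]
  | succ d ih =>
    have ih := ih (by omega)
    have e : w1 ^ (d + 1) - nv (rad (d + 1 : ℕ)) =
        (w1 ^ d - nv (rad d)) * (w1 - nv (rad 1)) + (w1 ^ d - nv (rad d)) * nv (rad 1) +
          nv (rad d) * (w1 - nv (rad 1)) := by
      rw [show rad (d + 1 : ℕ) = rad d + rad 1 by unfold rad; push_cast; ring, nv_add]; ring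
    have hd : (d : ℝ) ≤ 90 := by exact_mod_cast (by omega : d ≤ 90)
    have := norm_add₃_le (a := (w1 ^ d - nv (rad d)) * (w1 - nv (rad 1)))
      (b := (w1 ^ d - nv (rad d)) * nv (rad 1)) (c := nv (rad d) * (w1 - nv (rad 1)))
    rw [norm_mul, norm_mul, norm_mul, norm_nv, norm_nv] at this
    have k := mul_le_mul (show ‖w1 ^ d - nv (rad d)‖ ≤ 1 by norm_num at ih ⊢; linarith) w1_near
      (norm_nonneg _) zero_le_one
    rw [e]; push_cast
    have := w1_near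
    norm_num at *
    linarith

theorem c90_near {d : ℕ} (h : d ≤ 90) : |(c90 d : ℝ) - Q * Real.cos (rad d)| ≤ 1 := by
  have a := of_decide_eq_true (List.all_eq_true.1 gp_chk d (List.mem_range.2 (by omega)))
  have a' : 4 * |(c90 d : ℝ) * (2 ^ 50) ^ d - Q * (gpw d).1| ≤ 3 * (2 ^ 50) ^ d := by exact_mod_cast a
  have b := (Complex.abs_re_le_norm _).trans (w1_err d h)
  rw [w1_pow, Complex.sub_re, nv_re] at b
  have p : (0 : ℝ) < (2 ^ 50) ^ d := by positivity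
  have hd : (d : ℝ) ≤ 90 := by exact_mod_cast h
  have e : (c90 d : ℝ) * (2 ^ 50) ^ d - Q * (gpw d).1 =
      (c90 d - Q * ((gpw d).1 / (2 ^ 50) ^ d)) * (2 ^ 50) ^ d := by field_simp
  rw [e, abs_mul, abs_of_pos p, ← mul_assoc, mul_le_mul_iff_left₀ p] at a'
  have a1 := abs_le.1 (show |(c90 d : ℝ) - Q * ((gpw d).1 / (2 ^ 50) ^ d)| ≤ 3 / 4 by linarith)
  have b1 := abs_le.1 b
  rw [Q_eq] at a1 ⊢
  norm_num at b1
  exact abs_le.2 ⟨by norm_num at a1 ⊢; linarith [a1.1, b1.1, b1.2], by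
    norm_num at a1 ⊢; linarith [a1.2, b1.1, b1.2]⟩

theorem cs_near (d : ℕ) : |(cs d : ℝ) - Q * Real.cos (rad d)| ≤ 1 := by
  have e : Real.cos (rad d) = Real.cos (rad (d % 360 : ℕ)) := by
    conv_lhs => rw [← Nat.mod_add_div d 360]
    rw [← Real.cos_add_nat_mul_two_pi (rad (d % 360 : ℕ)) (d / 360)]
    congr 1; unfold rad; push_cast; ring
  have lt := Nat.mod_lt d (show 0 < 360 by norm_num)
  rw [e]
  simp only [cs]
  generalize d % 360 = k at lt
  split_ifs with h1 h2 h3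
  · exact c90_near h1
  · have := c90_near (d := 180 - k) (by omega)
    rw [show rad (180 - k : ℕ) = Real.pi - rad k by
      rw [Nat.cast_sub h2]; unfold rad; push_cast; ring, Real.cos_pi_sub] at this
    rw [← abs_neg]; push_cast; convert this using 2; ring
  · have := c90_near (d := k - 180) (by omega)
    rw [show rad (k - 180 : ℕ) = rad k - Real.pi by
      rw [Nat.cast_sub (by omega)]; unfold rad; push_cast; ring, Real.cos_sub_pi] at this
    rw [← abs_neg]; push_cast; convert this using 2; ring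
  · have := c90_near (d := 360 - k) (by omega)
    rwa [show rad (360 - k : ℕ) = 2 * Real.pi - rad k by
      rw [Nat.cast_sub lt.le]; unfold rad; push_cast; ring, Real.cos_two_pi_sub] at this

theorem sn_near (d : ℕ) : |(sn d : ℝ) - Q * Real.sin (rad d)| ≤ 1 := by
  have := cs_near (d + 270)
  rwa [show rad (d + 270 : ℕ) = rad d - Real.pi / 2 + 2 * Real.pi by unfold rad; push_cast; ring,
    Real.cos_add_two_pi, Real.cos_sub_pi_div_two] at this

end Pool.Agent.Lib.MP_4b56aa_gt.Cert
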