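import Pool.Agent.Lib.MP_4b56aa_gt.Cert.CGood
import Pool.Agent.Lib.MP_4b56aa_gt.Cert.CF2

/-! Vectors of words. -/

namespace Pool.Agent.Lib.MP_4b56aa_gt.Cert

theorem frc_eq (x : ℕ) (f : ℕ → Bool) : frc x f = f x := Eq.trans rfl rfl
theorem frb_eq (x : Bool) (f : Bool → Bool) : frb x f = f x := by cases x <;> rfl

/-- The word number `j` of a vector. -/
def ln (P j : ℕ) : ℕ := P / 2 ^ (172 * j) % 2 ^ 172
/-- The vector with the words `f 0, ..., f (n - 1)`. -/
def sv (f : ℕ → ℕ) (n : ℕ) : ℕ := ∑ j ∈ Finset.range n, f j * 2 ^ (172 * j)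

variable {f g : ℕ → ℕ} {n P : ℕ}

theorem ln_lt (P j : ℕ) : ln P j < 2 ^ 172 := Nat.mod_lt _ (by positivity)

theorem ln_bit (P j i : ℕ) : (ln P j).testBit i = (decide (i < 172) && P.testBit (i + 172 * j)) := by
  rw [ln, Nat.testBit_mod_two_pow, Nat.testBit_div_two_pow]

theorem sv_succ (f : ℕ → ℕ) (n : ℕ) : sv f (n + 1) = sv f n + f n * 2 ^ (172 * n) :=
  Finset.sum_range_succ _ _

theorem sv_congr (h : ∀ j < n, f j = g j) : sv f n = sv g n :=
  Finset.sum_congr rfl fun j hj => by rw [h j (Finset.mem_range.1 hj)]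

theorem sv_lt (h : ∀ j < n, f j < 2 ^ 172) : sv f n < 2 ^ (172 * n) := by
  induction n with
  | zero => simp [sv]
  | succ n ih =>
    have a := ih fun j hj => h j (by omega)
    have b := Nat.mul_le_mul_right (2 ^ (172 * n)) (Nat.succ_le_of_lt (h n (by omega)))
    rw [sv_succ, mul_add, pow_add, mul_comm (2 ^ (172 * n)), mul_one]
    rw [Nat.succ_mul] at b
    omega

theorem ln_add {S : ℕ} (h : S < 2 ^ (172 * n)) (c j : ℕ) :
    ln (S + c * 2 ^ (172 * n)) j = if j < n then ln S j else ln c (j - n) := by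
  refine Nat.eq_of_testBit_eq fun i => ?_
  rw [ln_bit, add_comm S, mul_comm c, Nat.testBit_two_pow_mul_add _ h]
  by_cases k : i < 172
  · by_cases l : j < n
    · rw [if_pos l, if_pos (by omega), ln_bit]
    · rw [if_neg l, if_neg (by omega), ln_bit, show i + 172 * j - 172 * n = i + 172 * (j - n) by omega]
  · split_ifs <;> simp [ln_bit, k]

theorem ln_small {c : ℕ} (h : c < 2 ^ 172) (j : ℕ) : ln c j = if j = 0 then c else 0 := by
  split_ifs with k
  · rw [k, ln, mul_zero, pow_zero, Nat.div_one, Nat.mod_eq_of_lt h]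
  · rw [ln, Nat.div_eq_of_lt (h.trans_le (Nat.pow_le_pow_right two_pos (by omega))), Nat.zero_mod]

theorem ln_sv (h : ∀ j < n, f j < 2 ^ 172) (j : ℕ) : ln (sv f n) j = if j < n then f j else 0 := by
  induction n with
  | zero => simp [sv, ln]
  | succ n ih =>
    have a : ∀ j < n, f j < 2 ^ 172 := fun j hj => h j (by omega)
    rw [sv_succ, ln_add (sv_lt a), ih a, ln_small (h n (by omega))]
    rcases lt_trichotomy j n with k | rfl | k
    · rw [if_pos k, if_pos k, if_pos (by omega)]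
    · simp
    · rw [if_neg (by omega), if_neg (by omega), if_neg (by omega)]

theorem mod_sv (P n : ℕ) : P % 2 ^ (172 * n) = sv (ln P) n := by
  induction n with
  | zero => simp [sv, Nat.mod_one]
  | succ n ih => rw [sv_succ, ← ih, mul_add, pow_add, mul_one, Nat.mod_mul, mul_comm (ln P n), ln]

theorem ln_and (a b j : ℕ) : ln (a &&& b) j = ln a j &&& ln b j := by
  rw [ln, Nat.and_div_two_pow, Nat.and_mod_two_pow, ln, ln]

theorem and_sv (h : ∀ j < n, g j < 2 ^ 172) : P &&& sv g n = sv (fun j => ln P j &&& g j) n := by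
  rw [← Nat.mod_eq_of_lt (Nat.and_lt_two_pow P (sv_lt h)), mod_sv]
  exact sv_congr fun j hj => by rw [ln_and, ln_sv h, if_pos hj]

theorem sv_add (f g : ℕ → ℕ) (n : ℕ) : sv f n + sv g n = sv (fun j => f j + g j) n := by
  simp only [sv, add_mul, Finset.sum_add_distrib]

theorem mul_sv (c : ℕ) (f : ℕ → ℕ) (n : ℕ) : c * sv f n = sv (fun j => c * f j) n := by
  simp only [sv, Finset.mul_sum, mul_assoc]

theorem sv_shl (f : ℕ → ℕ) (n k : ℕ) : sv f n <<< k = sv (fun j => 2 ^ k * f j) n := by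
  rw [Nat.shiftLeft_eq, mul_comm, mul_sv]

theorem sv_sub {h : ℕ → ℕ} (e : ∀ j, (f j : ℤ) - g j = h j) : sv f n - sv g n = sv h n := by
  rw [Nat.sub_eq_iff_eq_add', sv_add]
  · exact sv_congr fun j _ => by have := e j; omega
  · exact Finset.sum_le_sum fun j _ => Nat.mul_le_mul_right _ (by have := e j; omega)

theorem one_eq (n : ℕ) : one n = sv (fun _ => 1) n := by
  have := Nat.geomSum_eq (m := 2 ^ 172) (by norm_num) n
  simp only [sv, one_mul, pow_mul, this]
  exact congrArg (· / (2 ^ 172 - 1)) (congrArg Nat.pred ((Nat.one_shiftLeft _).trans (pow_mul _ _ _)))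

theorem mul_one_eq (c n : ℕ) : c * one n = sv (fun _ => c) n := by simp only [one_eq, mul_sv, mul_one]

theorem fm_eq {M : ℕ} (h : M < 2 ^ 172) : fm P n M = sv (fun j => ln P j &&& M) n :=
  (congrArg (P &&& ·) (mul_one_eq M n)).trans (and_sv fun _ _ => h)

theorem msk_eq (n : ℕ) : msk n = 2 ^ n - 1 := congrArg Nat.pred (Nat.one_shiftLeft n)

theorem and_fld (w s k : ℕ) : w &&& (2 ^ k - 1) * 2 ^ s = w / 2 ^ s % 2 ^ k * 2 ^ s := by
  refine Nat.eq_of_testBit_eq fun i => ?_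
  rw [Nat.testBit_and, Nat.testBit_mul_two_pow, Nat.testBit_mul_two_pow, Nat.testBit_two_pow_sub_one,
    Nat.testBit_mod_two_pow, Nat.testBit_div_two_pow]
  by_cases h : s ≤ i
  · rw [Nat.sub_add_cancel h, decide_eq_true h, Bool.true_and, Bool.true_and, Bool.and_comm]
  · simp [h]

theorem ln_shr (P a j : ℕ) : ln (P >>> (172 * a)) j = ln P (a + j) := by
  rw [ln, Nat.shiftRight_eq_div_pow, Nat.div_div_eq_div_mul, ← pow_add, ← mul_add, ln]

theorem ln_cut {c j : ℕ} (h : j < c) : ln (P &&& msk (172 * c)) j = ln P j := by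
  rw [msk_eq, Nat.and_two_pow_sub_one_eq_mod, mod_sv, ln_sv fun _ _ => ln_lt _ _, if_pos h]

theorem pick_eq (P u k : ℕ) : Nat.land (Nat.shiftRight P (Nat.mul (nat_lit 172) u)) (mW k) =
    ln P (u + k) * 2 ^ (172 * k) := by
  rw [← ln_shr]
  exact (congrArg (P >>> (172 * u) &&& ·) (Nat.shiftLeft_eq (2 ^ 172 - 1) (172 * k))).trans
    (and_fld _ _ _)

theorem wdN_eq (p j : ℕ) : wdN p j = ln (bd p) j :=
  (Nat.and_two_pow_sub_one_eq_mod _ 172).trans (congrArg (· % 2 ^ 172) (Nat.shiftRight_eq_div_pow _ _))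

/-- `Z` is a vector of `n` words with the property `R`. -/
def VR (R : ℕ → Prop) (Z n : ℕ) : Prop := ∃ f, Z = sv f n ∧ ∀ i, R (f i)

theorem VR.app {R : ℕ → Prop} {Y Z k : ℕ} (h1 : VR R Y n) (h2 : VR R Z k) :
    VR R (Z <<< (172 * n) + Y) (n + k) := by
  obtain ⟨f, rfl, a⟩ := h1
  obtain ⟨g, rfl, b⟩ := h2
  refine ⟨fun i => if i < n then f i else g (i - n), ?_, fun i => by dsimp only; split_ifs; exacts [a _, b _]⟩
  rw [sv, sv, sv, Finset.sum_range_add, add_comm, Nat.shiftLeft_eq, Finset.sum_mul]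
  refine congrArg₂ _ (Finset.sum_congr rfl fun j hj => by rw [if_pos (Finset.mem_range.1 hj)])
    (Finset.sum_congr rfl fun j _ => ?_)
  rw [if_neg (by omega), Nat.add_sub_cancel_left, mul_add, pow_add]
  ring

theorem gat_vr (P1 P2 b b2 m m2 s n : ℕ) :
    VR (fun x => ∃ u v, x = ln P1 u + ln P2 v) (gat P1 P2 b b2 m m2 s n) (8 * n) := by
  induction n with
  | zero => exact ⟨fun _ => ln P1 0 + ln P2 0, rfl, fun _ => ⟨0, 0, rfl⟩⟩
  | succ n ih =>
    have : ∀ t, VR (fun x => ∃ u v, x = ln P1 u + ln P2 v) (blk P1 P2 b b2 m m2 t) 8 := fun t =>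
      ⟨fun k => ln P1 ((t >>> (k * b) &&& m) >>> b2 + k) + ln P2 ((t >>> (k * b) &&& m &&& m2) + k), by
        unfold blk
        repeat rw [pick_eq]
        simp only [sv, Finset.sum_range_succ, Finset.sum_range_zero, Nat.add_eq, Nat.mul_eq, Nat.land_eq,
          Nat.shiftRight_eq, add_mul, zero_add, add_assoc], fun _ => ⟨_, _, rfl⟩⟩
    have e := ih.app (this (s >>> (8 * b * n) &&& msk (8 * b)))
    rwa [← mul_assoc] at e

theorem gat1_vr (P1 b m s n : ℕ) : VR (fun x => ∃ u, x = ln P1 u) (gat1 P1 b m s n) (8 * n) := by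
  induction n with
  | zero => exact ⟨fun _ => ln P1 0, rfl, fun _ => ⟨0, rfl⟩⟩
  | succ n ih =>
    have : ∀ t, VR (fun x => ∃ u, x = ln P1 u) (blk1 P1 b m t) 8 := fun t =>
      ⟨fun k => ln P1 ((t >>> (k * b) &&& m) + k), by
        unfold blk1
        repeat rw [pick_eq]
        simp only [sv, Finset.sum_range_succ, Finset.sum_range_zero, Nat.add_eq, Nat.mul_eq, Nat.land_eq,
          Nat.shiftRight_eq, zero_add, add_assoc], fun _ => ⟨_, rfl⟩⟩
    have e := ih.app (this (s >>> (8 * b * n) &&& msk (8 * b)))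
    rwa [← mul_assoc] at e

theorem le_nB (n : ℕ) : n ≤ 8 * nB n := by
  rw [show nB n = (n + 7) / 2 ^ 3 from Nat.shiftRight_eq_div_pow _ _]; omega

/-- The two constants of the test. -/
def GW : ℕ := 2993155354647485752038347591065783469862184483291136
def MW : ℕ := 2993155354647485752038347591670246379669499070644223

theorem tsV_sound {R : ℕ → Prop} {Z : ℕ} (h1 : VR R Z (8 * nB n))
    (h2 : ∀ x, R x → x < 2 ^ 170) (h3 : ∀ i, g i < 2 ^ 171 + 2 ^ 170)
    (h : tsV (Nat.add Z (sv g n)) n = true) {i : ℕ} (hi : i < n) : ∃ x, R x ∧ (x + g i) &&& MW = GW := by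
  obtain ⟨f, rfl, a⟩ := h1
  have e : sv g n = sv (fun j => if j < n then g j else 0) (8 * nB n) := by
    rw [← Nat.mod_eq_of_lt ((sv_lt fun j _ => (h3 j).trans (by norm_num)).trans_le
      (Nat.pow_le_pow_right two_pos (Nat.mul_le_mul_left 172 (le_nB n)))), mod_sv]
    exact sv_congr fun j _ => ln_sv (fun j _ => (h3 j).trans (by norm_num)) j
  have k := congrArg (ln · i) (show (sv f (8 * nB n) + sv g n) &&& MW * one n = GW * one n from
    Nat.eq_of_beq_eq_true h)
  simp only [ln_and, mul_one_eq] at k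
  rw [e, sv_add, ln_sv fun j _ => ?_, ln_sv fun _ _ => by decide, ln_sv fun _ _ => by decide,
    if_pos (hi.trans_le (le_nB n)), if_pos hi, if_pos hi, if_pos hi] at k
  · exact ⟨_, a i, k⟩
  · have := h2 _ (a j)
    have := h3 j
    split_ifs <;> omega

theorem ln_up (h : ∀ j, f j < 2 ^ 172) (c u : ℕ) :
    ln (sv f n <<< (172 * c)) u = 0 ∨ ∃ j < n, ln (sv f n <<< (172 * c)) u = f j := by
  have := ln_add (S := 0) (n := c) (Nat.two_pow_pos _) (sv f n) u
  rw [zero_add, ← Nat.shiftLeft_eq, ln_sv fun j _ => h j] at this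
  rw [this]
  split_ifs with a b
  exacts [Or.inl (by simp [ln]), Or.inr ⟨_, b, rfl⟩, Or.inl rfl]

theorem sum_zero {F : ℕ → ℕ}
    (h : Nat.rec (motive := fun _ => ℕ) (nat_lit 0) (fun g ih => Nat.add (F g) ih) n = 0) :
    ∀ g < n, F g = 0 := by
  induction n with
  | zero => exact fun _ k => absurd k (Nat.not_lt_zero _)
  | succ n ih =>
    have e := Nat.add_eq_zero_iff.1 h
    exact Nat.forall_lt_succ_right.2 ⟨ih e.2, e.1⟩

/-- The labels and the shift of a word. -/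
def KY : ℕ := 2296695073007452159

theorem vb8_zero {F : ℕ → ℕ} {Y k : ℕ} (e : vb8 F Y = 0) (hk : k < 8) :
    Nat.rec (motive := fun _ => ℕ) (nat_lit 0) (fun k _ => F k) (Y >>> (172 * k) &&& (2 ^ 62 - 1)) = 0 := by
  simp only [vb8, Nat.add_eq, Nat.add_eq_zero_iff] at e
  obtain ⟨⟨⟨e0, e1⟩, e2, e3⟩, ⟨e4, e5⟩, e6, e7⟩ := e
  interval_cases k
  exacts [e0, e1, e2, e3, e4, e5, e6, e7]

theorem vaV_sound {F : ℕ → ℕ} (h : vaV F P n = 0) {j : ℕ} (hj : j < n) : F (ln P j &&& KY) = 0 := by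
  have b : ∀ j, (ln P j &&& KY) + 1 < 2 ^ 62 := fun j =>
    (Nat.succ_le_succ Nat.and_le_right).trans_lt (by decide)
  have e := sum_zero h (j / 8) (by have := le_nB n; omega)
  set Y := Nat.land (Nat.shiftRight _ _) (msk _) with hY
  have k : ∀ k < 8, 8 * (j / 8) + k < n →
      Y >>> (172 * k) &&& (2 ^ 62 - 1) = (ln P (8 * (j / 8) + k) &&& KY) + 1 := fun k hk g => by
    have : ln Y k = (ln P (8 * (j / 8) + k) &&& KY) + 1 := by
      rw [show Y = (fm P n KY + one n) >>> (1376 * (j / 8)) &&& msk (172 * 8) from rfl, ln_cut hk,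
        show 1376 * (j / 8) = 172 * (8 * (j / 8)) by omega, ln_shr, fm_eq (by decide), one_eq, sv_add,
        ln_sv fun j _ => (b j).trans (by norm_num), if_pos g]
    rw [Nat.and_two_pow_sub_one_eq_mod, Nat.shiftRight_eq_div_pow,
      ← Nat.mod_mod_of_dvd _ (pow_dvd_pow 2 (show 62 ≤ 172 by omega)), ← ln, this, Nat.mod_eq_of_lt (b _)]
  have := vb8_zero e (Nat.mod_lt j (by norm_num))
  rwa [k _ (Nat.mod_lt _ (by norm_num)) (by omega), Nat.div_add_mod] at this

/-- The mask of a witness. -/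
def VK : ℕ := 547608330239

theorem lpK_sound {F : ℕ → ℕ → ℕ} {W : ℕ} (h : lpK F P W n = 0) {j : ℕ} (hj : j < n) :
    ∃ v, F (ln P j) (v &&& VK) = 0 := by
  have k : P >>> (172 * j) &&& (2 ^ 172 - 1) = ln P j := by
    rw [Nat.and_two_pow_sub_one_eq_mod, Nat.shiftRight_eq_div_pow, ln]
  exact ⟨_, k ▸ sum_zero (F := fun j => F (P >>> (172 * j) &&& (2 ^ 172 - 1)) (W >>> (40 * j) &&& VK)) h j hj⟩

theorem lqK_sound {F : ℕ → ℕ → ℕ} {W : ℕ} (h : lqK F P W n = 0) {j : ℕ} (hj : j < n) :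
    ∃ v, F (ln P j) (v &&& VK) = 0 := by
  have e := lpK_sound (sum_zero (F := fun g => lpK F (P >>> (5504 * g) &&& msk (172 * 32))
    (W >>> (1280 * g) &&& msk 1280) (32 - (32 - (n - 32 * g)))) (n := (n + 31) >>> 5) h (j / 32) (by
      rw [Nat.shiftRight_eq_div_pow]; omega)) (j := j % 32) (by omega)
  rwa [ln_cut (Nat.mod_lt _ (by norm_num)), show 5504 * (j / 32) = 172 * (32 * (j / 32)) by omega, ln_shr,
    Nat.div_add_mod] at e

end Pool.Agent.Lib.MP_4b56aa_gt.Cert
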