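import Pool.Agent.Lib.MP_4b56aa_gt.Cert.CV1

/-! Fields of a word, the packed test, joins and domination. -/

namespace Pool.Agent.Lib.MP_4b56aa_gt.Cert

theorem fld_eq (w s k : ℕ) : w >>> s &&& (2 ^ k - 1) = w / 2 ^ s % 2 ^ k := by
  rw [Nat.and_two_pow_sub_one_eq_mod, Nat.shiftRight_eq_div_pow]

theorem and_add {w A B : ℕ} (k : ℕ) (hA : A < 2 ^ k) (hB : B % 2 ^ k = 0) :
    w &&& (A + B) = (w &&& A) + (w &&& B) := by
  obtain ⟨C, rfl⟩ := Nat.dvd_of_mod_eq_zero hB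
  have e : w &&& 2 ^ k * C = 2 ^ k * (w / 2 ^ k &&& C) := Nat.eq_of_testBit_eq fun i => by
    rw [Nat.testBit_and, Nat.testBit_two_pow_mul, Nat.testBit_two_pow_mul, Nat.testBit_and,
      Nat.testBit_div_two_pow]
    by_cases h : k ≤ i
    · rw [Nat.sub_add_cancel h, decide_eq_true h, Bool.true_and, Bool.true_and]
    · simp [h]
  rw [add_comm A, Nat.two_pow_add_eq_or_of_lt hA, Nat.and_or_distrib_left, add_comm, e,
    Nat.two_pow_add_eq_or_of_lt (Nat.and_lt_two_pow _ hA)]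

theorem xa_eq (w : ℕ) : xa w = w / 2 ^ 0 % 2 ^ 14 := fld_eq w 0 14
theorem xb_eq (w : ℕ) : xb w = w / 2 ^ 15 % 2 ^ 14 := fld_eq w 15 14
theorem xi_eq (w : ℕ) : xi w = w / 2 ^ 47 % 2 ^ 6 := fld_eq w 47 6
theorem xj_eq (w : ℕ) : xj w = w / 2 ^ 54 % 2 ^ 7 := fld_eq w 54 7
theorem xh_eq (w : ℕ) : xh w = w / 2 ^ 62 % 2 ^ 5 := fld_eq w 62 5
theorem xq_eq (w : ℕ) : xq w = w / 2 ^ 67 % 2 ^ 2 := fld_eq w 67 2
theorem x0_eq (w : ℕ) : x0 w = w / 2 ^ 79 % 2 ^ 28 := fld_eq w 79 28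
theorem x1_eq (w : ℕ) : x1 w = w / 2 ^ 110 % 2 ^ 28 := fld_eq w 110 28
theorem x2_eq (w : ℕ) : x2 w = w / 2 ^ 141 % 2 ^ 28 := fld_eq w 141 28

theorem xlt (w : ℕ) : xa w < 16384 ∧ xb w < 16384 ∧ xi w < 64 ∧ xj w < 128 ∧ xh w < 32 ∧ xq w < 4 ∧
    x0 w < 268435456 ∧ x1 w < 268435456 ∧ x2 w < 268435456 := by
  simp only [xa_eq, xb_eq, xi_eq, xj_eq, xh_eq, xq_eq, x0_eq, x1_eq, x2_eq]; omega

theorem ma (w : ℕ) : w &&& 16383 = xa w * 2 ^ 0 := by
  rw [xa_eq, ← and_fld]; rfl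
theorem mbw (w : ℕ) : w &&& 536838144 = xb w * 2 ^ 15 := by
  rw [xb_eq, ← and_fld]; rfl
theorem mi (w : ℕ) : w &&& 8866461766385664 = xi w * 2 ^ 47 := by
  rw [xi_eq, ← and_fld]; rfl
theorem mj (w : ℕ) : w &&& 2287828610704211968 = xj w * 2 ^ 54 := by
  rw [xj_eq, ← and_fld]; rfl
theorem mh (w : ℕ) : w &&& 142962266571249025024 = xh w * 2 ^ 62 := by
  rw [xh_eq, ← and_fld]; rfl
theorem mq (w : ℕ) : w &&& 442721857769029238784 = xq w * 2 ^ 67 := by
  rw [xq_eq, ← and_fld]; rfl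
theorem m0 (w : ℕ) : w &&& 162259276224750453584263422935040 = x0 w * 2 ^ 79 := by
  rw [x0_eq, ← and_fld]; rfl
theorem m1 (w : ℕ) : w &&& 348449142428966771952788690877506566225920 = x1 w * 2 ^ 110 := by
  rw [x1_eq, ← and_fld]; rfl
theorem m2 (w : ℕ) : w &&& 748288835525829144303958741658772121982792273756160 = x2 w * 2 ^ 141 := by
  rw [x2_eq, ← and_fld]; rfl
theorem mV (w : ℕ) : w &&& 748288835874278286895184789836311266444562262917120 =
    x0 w * 2 ^ 79 + x1 w * 2 ^ 110 + x2 w * 2 ^ 141 := by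
  rw [show 748288835874278286895184789836311266444562262917120 = 162259276224750453584263422935040 + (348449142428966771952788690877506566225920 + 748288835525829144303958741658772121982792273756160) from rfl,
    and_add 110 (by decide) (by decide), and_add 141 (by decide) (by decide)]
  simp only [m0, m1, m2, add_assoc]
theorem mIJ (w : ℕ) : w &&& 2296695072470597632 =
    xi w * 2 ^ 47 + xj w * 2 ^ 54 := by
  rw [show 2296695072470597632 = 8866461766385664 + 2287828610704211968 from rfl,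
    and_add 54 (by decide) (by decide)]
  simp only [mi, mj]
theorem mK (w : ℕ) : w &&& 2296695073007452159 =
    xa w * 2 ^ 0 + xb w * 2 ^ 15 + xi w * 2 ^ 47 + xj w * 2 ^ 54 := by
  rw [show 2296695073007452159 = 16383 + (536838144 + (8866461766385664 + 2287828610704211968)) from rfl,
    and_add 15 (by decide) (by decide), and_add 47 (by decide) (by decide), and_add 54 (by decide) (by decide)]
  simp only [ma, mbw, mi, mj, add_assoc]
theorem mR (w : ℕ) : w &&& 748288835874278286895184789836313563139634733514752 =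
    xi w * 2 ^ 47 + xj w * 2 ^ 54 + x0 w * 2 ^ 79 + x1 w * 2 ^ 110 + x2 w * 2 ^ 141 := by
  rw [show 748288835874278286895184789836313563139634733514752 = 8866461766385664 + (2287828610704211968 + (162259276224750453584263422935040 + (348449142428966771952788690877506566225920 + 748288835525829144303958741658772121982792273756160))) from rfl,
    and_add 54 (by decide) (by decide), and_add 79 (by decide) (by decide), and_add 110 (by decide) (by decide), and_add 141 (by decide) (by decide)]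
  simp only [mi, mj, m0, m1, m2, add_assoc]
theorem mA0 (w : ℕ) : w &&& 748288835874278286895184789836313563139635270369279 =
    xa w * 2 ^ 0 + xb w * 2 ^ 15 + xi w * 2 ^ 47 + xj w * 2 ^ 54 + x0 w * 2 ^ 79 + x1 w * 2 ^ 110 + x2 w * 2 ^ 141 := by
  rw [show 748288835874278286895184789836313563139635270369279 = 16383 + (536838144 + (8866461766385664 + (2287828610704211968 + (162259276224750453584263422935040 + (348449142428966771952788690877506566225920 + 748288835525829144303958741658772121982792273756160))))) from rfl,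
    and_add 15 (by decide) (by decide), and_add 47 (by decide) (by decide), and_add 54 (by decide) (by decide), and_add 79 (by decide) (by decide), and_add 110 (by decide) (by decide), and_add 141 (by decide) (by decide)]
  simp only [ma, mbw, mi, mj, m0, m1, m2, add_assoc]
theorem mA1 (w : ℕ) : w &&& 748288835874278286895184789836899247263975548633087 =
    xa w * 2 ^ 0 + xb w * 2 ^ 15 + xi w * 2 ^ 47 + xj w * 2 ^ 54 + xh w * 2 ^ 62 + xq w * 2 ^ 67 + x0 w * 2 ^ 79 + x1 w * 2 ^ 110 + x2 w * 2 ^ 141 := by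
  rw [show 748288835874278286895184789836899247263975548633087 = 16383 + (536838144 + (8866461766385664 + (2287828610704211968 + (142962266571249025024 + (442721857769029238784 + (162259276224750453584263422935040 + (348449142428966771952788690877506566225920 + 748288835525829144303958741658772121982792273756160))))))) from rfl,
    and_add 15 (by decide) (by decide), and_add 47 (by decide) (by decide), and_add 54 (by decide) (by decide), and_add 62 (by decide) (by decide), and_add 67 (by decide) (by decide), and_add 79 (by decide) (by decide), and_add 110 (by decide) (by decide), and_add 141 (by decide) (by decide)]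
  simp only [ma, mbw, mi, mj, mh, mq, m0, m1, m2, add_assoc]
theorem mT0 (w : ℕ) : w &&& 748288835874278286895184789836313563139634733531135 =
    xa w * 2 ^ 0 + xi w * 2 ^ 47 + xj w * 2 ^ 54 + x0 w * 2 ^ 79 + x1 w * 2 ^ 110 + x2 w * 2 ^ 141 := by
  rw [show 748288835874278286895184789836313563139634733531135 = 16383 + (8866461766385664 + (2287828610704211968 + (162259276224750453584263422935040 + (348449142428966771952788690877506566225920 + 748288835525829144303958741658772121982792273756160)))) from rfl,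
    and_add 47 (by decide) (by decide), and_add 54 (by decide) (by decide), and_add 79 (by decide) (by decide), and_add 110 (by decide) (by decide), and_add 141 (by decide) (by decide)]
  simp only [ma, mi, mj, m0, m1, m2, add_assoc]
theorem mT1 (w : ℕ) : w &&& 748288835874278286895184789836899247263975011794943 =
    xa w * 2 ^ 0 + xi w * 2 ^ 47 + xj w * 2 ^ 54 + xh w * 2 ^ 62 + xq w * 2 ^ 67 + x0 w * 2 ^ 79 + x1 w * 2 ^ 110 + x2 w * 2 ^ 141 := by
  rw [show 748288835874278286895184789836899247263975011794943 = 16383 + (8866461766385664 + (2287828610704211968 + (142962266571249025024 + (442721857769029238784 + (162259276224750453584263422935040 + (348449142428966771952788690877506566225920 + 748288835525829144303958741658772121982792273756160)))))) from rfl,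
    and_add 47 (by decide) (by decide), and_add 54 (by decide) (by decide), and_add 62 (by decide) (by decide), and_add 67 (by decide) (by decide), and_add 79 (by decide) (by decide), and_add 110 (by decide) (by decide), and_add 141 (by decide) (by decide)]
  simp only [ma, mi, mj, mh, mq, m0, m1, m2, add_assoc]

/-- Ten signed digits. -/
def pk (s0 s1 s2 s3 s4 s5 s6 t0 t1 t2 : ℤ) : ℤ :=
  s0 + 2 ^ 15 * s1 + 2 ^ 31 * s2 + 2 ^ 47 * s3 + 2 ^ 54 * s4 + 2 ^ 62 * s5 + 2 ^ 69 * s6 +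
    2 ^ 79 * t0 + 2 ^ 110 * t1 + 2 ^ 141 * t2

theorem top_test {Z : ℕ} {t0 t1 t2 : ℤ} (h : Z &&& GW = GW) (e : (Z : ℤ) = pk 0 0 0 0 0 0 0 t0 t1 t2)
    (b : 0 ≤ t0 ∧ t0 < 2 ^ 31 ∧ 0 ≤ t1 ∧ t1 < 2 ^ 31 ∧ 0 ≤ t2 ∧ t2 < 2 ^ 31) :
    2 ^ 30 ≤ t0 ∧ 2 ^ 30 ≤ t1 ∧ 2 ^ 30 ≤ t2 := by
  obtain ⟨W, rfl⟩ : ∃ W, Z = 2 ^ 79 * W := ⟨Z / 2 ^ 79, by unfold pk at e; omega⟩
  have c : ∀ i, GW.testBit (79 + i) = true → W / 2 ^ i % 2 = 1 := fun i g => by
    rw [← h, Nat.testBit_and, Bool.and_eq_true, Nat.testBit_eq_decide_div_mod_eq, pow_add,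
      Nat.mul_div_mul_left _ _ (by positivity)] at g
    exact of_decide_eq_true g.1
  have c1 := c 30 (by decide +kernel)
  have c2 := c 61 (by decide +kernel)
  have c3 := c 92 (by decide +kernel)
  have e' : (W : ℤ) = t0 + 2 ^ 31 * t1 + 2 ^ 62 * t2 := by unfold pk at e; push_cast at e; linarith
  clear h e c
  omega

theorem lane_test {Z : ℕ} {s0 s1 s2 s3 s4 s5 s6 t0 t1 t2 : ℤ} (h : Z &&& MW = GW)
    (e : (Z : ℤ) = pk s0 s1 s2 s3 s4 s5 s6 t0 t1 t2)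
    (b : (-32768 < s0 ∧ s0 < 32768 ∧ -65536 < s1 ∧ s1 < 65536 ∧ -65536 < s2 ∧ s2 < 65536 ∧ -128 < s3 ∧
      s3 < 128 ∧ -256 < s4 ∧ s4 < 256 ∧ -128 < s5 ∧ s5 < 128 ∧ -1024 < s6 ∧ s6 < 1024) ∧
      0 ≤ t0 ∧ t0 < 2 ^ 31 ∧ 0 ≤ t1 ∧ t1 < 2 ^ 31 ∧ 0 ≤ t2 ∧ t2 < 2 ^ 31) :
    (s0 = 0 ∧ s1 = 0 ∧ s2 = 0 ∧ s3 = 0 ∧ s4 = 0 ∧ s5 = 0 ∧ s6 = 0) ∧
      2 ^ 30 ≤ t0 ∧ 2 ^ 30 ≤ t1 ∧ 2 ^ 30 ≤ t2 := by
  have a : Z % 2 ^ 79 = 0 := by
    have := congrArg (· % 2 ^ 79) h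
    simp only [Nat.and_mod_two_pow] at this
    rwa [show MW % 2 ^ 79 = 2 ^ 79 - 1 by decide +kernel, Nat.and_two_pow_sub_one_eq_mod,
      Nat.mod_mod, show GW % 2 ^ 79 = 0 by decide +kernel] at this
  have g : Z &&& GW = GW := by
    rw [← show MW &&& GW = GW by decide +kernel, ← Nat.and_assoc, h]; decide +kernel
  have z : s0 = 0 ∧ s1 = 0 ∧ s2 = 0 ∧ s3 = 0 ∧ s4 = 0 ∧ s5 = 0 ∧ s6 = 0 := by
    obtain ⟨W, rfl⟩ := Nat.dvd_of_mod_eq_zero a
    have b1 := b.1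
    clear h g a b
    unfold pk at e
    push_cast at e
    omega
  obtain ⟨rfl, rfl, rfl, rfl, rfl, rfl, rfl⟩ := z
  exact ⟨by simp, top_test g e b.2⟩

/-- `Z` is the vector of the values of `φ` on the first `n` words of `P`. -/
def Fm (P n Z : ℕ) (φ : ℕ → ℤ) : Prop := ∃ F : ℕ → ℕ, Z = sv F n ∧ ∀ j, (F j : ℤ) = φ (ln P j)

variable {P n Y Z : ℕ} {φ ψ : ℕ → ℤ}

theorem Fm.add (a : Fm P n Y φ) (b : Fm P n Z ψ) : Fm P n (Nat.add Y Z) fun w => φ w + ψ w := by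
  obtain ⟨F, rfl, a⟩ := a
  obtain ⟨G, rfl, b⟩ := b
  exact ⟨_, sv_add F G n, fun j => by rw [Nat.cast_add, a, b]⟩

theorem Fm.sub {χ : ℕ → ℤ} (a : Fm P n Y φ) (b : Fm P n Z ψ) (e : ∀ w, φ w - ψ w = χ w) (p : ∀ w, 0 ≤ χ w) :
    Fm P n (Nat.sub Y Z) χ := by
  obtain ⟨F, rfl, a⟩ := a
  obtain ⟨G, rfl, b⟩ := b
  exact ⟨fun j => (χ (ln P j)).toNat, sv_sub fun j => by rw [a, b, e, Int.toNat_of_nonneg (p _)],
    fun j => Int.toNat_of_nonneg (p _)⟩

theorem Fm.mul (c : ℕ) (a : Fm P n Y φ) : Fm P n (Nat.mul c Y) fun w => c * φ w := by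
  obtain ⟨F, rfl, a⟩ := a
  exact ⟨_, mul_sv c F n, fun j => by rw [Nat.cast_mul, a]⟩

theorem Fm.shl (k : ℕ) (a : Fm P n Y φ) : Fm P n (Nat.shiftLeft Y k) fun w => (2 ^ k : ℕ) * φ w := by
  obtain ⟨F, rfl, a⟩ := a
  exact ⟨_, sv_shl F n k, fun j => by rw [Nat.cast_mul, a]⟩

theorem Fm.cst (c : ℕ) : Fm P n (Nat.mul c (one n)) fun _ => c := ⟨_, mul_one_eq c n, fun _ => rfl⟩

theorem Fm.msk {M : ℕ} {F : ℕ → ℕ} (e : ∀ w, w &&& M = F w) (h : M < 2 ^ 172) :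
    Fm P n (fm P n M) fun w => F w := ⟨_, fm_eq h, fun _ => by rw [e]⟩

theorem nb_t : nb true = 0 := rfl
theorem nb_f : nb false = 1 := rfl
theorem nb_le (f : Bool) : nb f ≤ 1 := by cases f <;> decide

theorem mAf (f : Bool) (w : ℕ) : w &&& Nat.add 748288835874278286895184789836313563139635270369279 (Nat.mul (nb f) 585684124340278263808) =
    xa w * 2 ^ 0 + xb w * 2 ^ 15 + xi w * 2 ^ 47 + xj w * 2 ^ 54 + nb f * (xh w * 2 ^ 62 + xq w * 2 ^ 67) +
      x0 w * 2 ^ 79 + x1 w * 2 ^ 110 + x2 w * 2 ^ 141 := by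
  cases f
  · exact (mA1 w).trans (by rw [nb_f]; ring)
  · exact (mA0 w).trans (by rw [nb_t]; ring)

theorem mT (f : Bool) (w : ℕ) : w &&& Nat.add 748288835874278286895184789836313563139634733531135 (Nat.mul (nb f) 585684124340278263808) =
    xa w * 2 ^ 0 + xi w * 2 ^ 47 + xj w * 2 ^ 54 + nb f * (xh w * 2 ^ 62 + xq w * 2 ^ 67) +
      x0 w * 2 ^ 79 + x1 w * 2 ^ 110 + x2 w * 2 ^ 141 := by
  cases f
  · exact (mT1 w).trans (by rw [nb_f]; ring)
  · exact (mT0 w).trans (by rw [nb_t]; ring)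

theorem and_two (l : ℕ) : l &&& 2 = l / 2 % 2 * 2 := and_fld l 1 1

theorem roN_one (l : ℕ) : roN 1 l = rotL l := by
  rw [show roN 1 l = l + 1080 * 1 * (l &&& 2) from rfl, and_two, rotL]
  split_ifs <;> omega

theorem rot_a (w : ℕ) : (rotL (xa w) : ℤ) = xa w + 1080 * (w &&& 2 : ℕ) := by
  rw [← roN_one, show roN 1 (xa w) = xa w + 1080 * 1 * (xa w &&& 2) from rfl, and_two, and_two, xa_eq]
  omega

theorem rot_b (w : ℕ) : (rotL (xb w) : ℤ) * 2 ^ 15 = xb w * 2 ^ 15 + 1080 * (w &&& 65536 : ℕ) := by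
  rw [← roN_one, show roN 1 (xb w) = xb w + 1080 * 1 * (xb w &&& 2) from rfl, and_two,
    show w &&& 65536 = _ from and_fld w 16 1, xb_eq]
  omega

theorem hh_fm : Fm P n (hh P n) fun w => 2 ^ 69 * (xh w + 128 * xq w) := by
  obtain ⟨F, e, h⟩ := ((Fm.msk mh (by decide)).shl 7).add ((Fm.msk (P := P) (n := n) mq (by decide)).shl 9)
  exact ⟨F, e, fun j => (h j).trans (by push_cast; ring)⟩

/-- The forms of a word. -/
noncomputable def pL (f1 f2 : Bool) (w : ℕ) : ℤ :=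
  pk (xa w + 16384) (xb w) 0 (xi w) (xj w) (nb f1 * (xh w + 32 * xq w)) (nb f2 * (64 - xi w)) (x0 w) (x1 w)
    (x2 w)
noncomputable def pR0 (f2 : Bool) (w : ℕ) : ℤ :=
  pk 0 (32768 - xa w) (xb w + 32768) (xi w) (xj w) 0 (nb f2 * (xh w + 128 * xq w + 512)) (x0 w) (x1 w) (x2 w)
noncomputable def pR1 (q : ℕ) (f2 : Bool) (w : ℕ) : ℤ :=
  pk 0 (32768 - rotL (xa w)) (rotL (xb w) + 32768) (64 - xi w) (128 - xj w) 0
    (nb f2 * (128 * q + 544 - xh w - 128 * xq w)) (x0 w) (x1 w) (x2 w)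
noncomputable def pT (f1 f2 : Bool) (w : ℕ) : ℤ :=
  pk (-16384 - xa w) (-32768) (-32768 - xb w) (-32 - xi w) (-64 - xj w) (-(nb f1 * (xh w + 32 * xq w)))
    (-(nb f2 * (544 + xh w + 128 * xq w))) (939524096 - x0 w) (939524096 - x1 w) (939524096 - x2 w)
noncomputable def pD (f : Bool) (w : ℕ) : ℤ :=
  pk (xa w) (xb w) 0 (xi w) (xj w) (nb f * (xh w + 32 * xq w)) 0 (x0 w) (x1 w) (x2 w)

variable {f f1 f2 r : Bool} {q : ℕ}

theorem p_bd (hq : q ≤ 3) (w : ℕ) : (0 ≤ pL f1 f2 w ∧ pL f1 f2 w < 2 ^ 169) ∧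
    (0 ≤ pR0 f2 w ∧ pR0 f2 w < 2 ^ 169) ∧ (0 ≤ pR1 q f2 w ∧ pR1 q f2 w < 2 ^ 169) ∧
    (0 ≤ pT f1 f2 w ∧ pT f1 f2 w < 2 ^ 171) ∧ 0 ≤ pD f1 w ∧ pD f1 w < 2 ^ 169 := by
  have := xlt w
  have := rotL_le (xa w)
  have := rotL_le (xb w)
  cases f1 <;> cases f2 <;>
  · simp only [pL, pR0, pR1, pT, pD, pk, nb_t, nb_f, Nat.cast_one, Nat.cast_zero, one_mul, zero_mul]
    omega

theorem mlt {A B : ℕ} (h : A + B < 2 ^ 172) : Nat.add A (Nat.mul (nb f) B) < 2 ^ 172 :=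
  (Nat.add_le_add_left ((Nat.mul_le_mul_right B (nb_le f)).trans_eq (one_mul B)) A).trans_lt h

theorem vL_fm : Fm P n (vL2 f1 f2 P n) (pL f1 f2) :=
  ((Fm.msk (mAf f1) (mlt (by decide))).add (Fm.cst _)).sub (((Fm.msk mi (by decide)).shl 22).mul _)
    (fun w => by simp only [pL, pk, Nat.add_eq, Nat.mul_eq]; push_cast; ring)
    fun w => (p_bd (q := 0) (by decide) w).1.1

theorem vR0_fm : Fm P n (vR0 f2 P n) (pR0 f2) :=
  ((((Fm.msk mR (by decide)).add ((Fm.msk mbw (by decide)).shl 16)).add (hh_fm.mul _)).add (Fm.cst _)).sub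
    ((Fm.msk ma (by decide)).shl 15)
    (fun w => by simp only [pR0, pk, Nat.add_eq, Nat.mul_eq]; push_cast; ring)
    fun w => (p_bd (q := 0) (f1 := true) (by decide) w).2.1.1

theorem vR1_fm (hq : q ≤ 3) : Fm P n (vR1 q f2 P n) (pR1 q f2) :=
  (((Fm.msk mV (by decide)).add (((Fm.msk mbw (by decide)).add
    ((Fm.msk (fun _ => rfl) (by decide)).mul 1080)).shl 16)).add (Fm.cst _)).sub
    (((((Fm.msk ma (by decide)).add ((Fm.msk (fun _ => rfl) (by decide)).mul 1080)).shl 15).add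
      (Fm.msk mIJ (by decide))).add (hh_fm.mul _))
    (fun w => by
      simp only [pR1, pk, Nat.add_eq, Nat.mul_eq, Nat.shiftLeft_eq', Nat.shiftLeft_eq]
      have a := rot_a w
      have b := rot_b w
      generalize w &&& 2 = x, w &&& 65536 = y at *
      push_cast
      linear_combination 2 ^ 15 * a - 2 ^ 16 * b)
    fun w => (p_bd (f1 := true) hq w).2.2.1.1

theorem vT_fm : Fm P n (vT2 f1 f2 P n) (pT f1 f2) :=
  (Fm.cst _).sub (((Fm.msk (mT f1) (mlt (by decide))).add ((Fm.msk mbw (by decide)).shl 16)).add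
    (hh_fm.mul _))
    (fun w => by cases f2 <;> simp only [pT, pk, nb_t, nb_f, Nat.sub_eq, Nat.mul_eq] <;> push_cast <;> ring)
    fun w => (p_bd (q := 0) (by decide) w).2.2.2.1.1

theorem vD_fm : Fm P n (vD f P n) (pD f) := by
  obtain ⟨F, e, h⟩ := Fm.msk (P := P) (n := n) (mAf f) (mlt (by decide))
  exact ⟨F, e, fun j => (h j).trans (by simp only [pD, pk]; push_cast; ring)⟩

theorem Fm.up (a : Fm P n Y φ) (b : ∀ w, φ w < 2 ^ 169 + 2 ^ 15) (u : ℕ) :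
    ln (Y <<< (172 * 8)) u = 0 ∨ ∃ j < n, (ln (Y <<< (172 * 8)) u : ℤ) = φ (ln P j) := by
  obtain ⟨F, rfl, a⟩ := a
  exact (ln_up (fun j => by have := a j; have := b (ln P j); omega) 8 u).imp_right
    fun ⟨j, g, e⟩ => ⟨j, g, by rw [e, a]⟩

/-- The offer in a word. -/
def dc (w : ℕ) : Off :=
  ⟨xa w, xb w, (xi w : ℤ) - 32, (xj w : ℤ) - 64, xq w, (xh w : ℤ) - 16, (x0 w : ℤ) - 134217728,
    (x1 w : ℤ) - 134217728, (x2 w : ℤ) - 134217728⟩
def ofs (p : ℕ) : List Off := (List.range (nA p)).map fun j => dc (ln (bd p) j)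

theorem mem_ofs {p j : ℕ} (h : j < nA p) : dc (ln (bd p) j) ∈ ofs p :=
  List.mem_map.2 ⟨j, List.mem_range.2 h, rfl⟩

theorem of_ofs {p : ℕ} {o : Off} (h : o ∈ ofs p) : ∃ j < nA p, dc (ln (bd p) j) = o := by
  obtain ⟨j, g, rfl⟩ := List.mem_map.1 h
  exact ⟨j, List.mem_range.1 g, rfl⟩

theorem nbm (f : Bool) {z : ℤ} (h : 0 ≤ z) : 0 ≤ nb f * z ∧ nb f * z ≤ z := by
  cases f <;> simp [nb_t, nb_f, h]

theorem tri_test {x y t : ℕ} {l0 l1 l3 l4 l5 l6 a0 a1 a2 r1 r2 r3 r4 r6 b0 b1 b2 t0 t1 t2 t3 t4 t5 t6 c0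
    c1 c2 : ℤ} (h : (x + y + t) &&& MW = GW) (hx : (x : ℤ) = pk l0 l1 0 l3 l4 l5 l6 a0 a1 a2)
    (hy : (y : ℤ) = pk 0 r1 r2 r3 r4 0 r6 b0 b1 b2) (ht : (t : ℤ) = pk t0 t1 t2 t3 t4 t5 t6 c0 c1 c2)
    (bx : 0 ≤ l0 ∧ l0 < 32768 ∧ 0 ≤ l1 ∧ l1 < 16384 ∧ 0 ≤ l3 ∧ l3 < 64 ∧ 0 ≤ l4 ∧ l4 < 128 ∧ 0 ≤ l5 ∧
      l5 < 128 ∧ 0 ≤ l6 ∧ l6 ≤ 64 ∧ 0 ≤ a0 ∧ a0 < 2 ^ 28 ∧ 0 ≤ a1 ∧ a1 < 2 ^ 28 ∧ 0 ≤ a2 ∧ a2 < 2 ^ 28)
    (by' : 0 ≤ r1 ∧ r1 ≤ 32768 ∧ 0 ≤ r2 ∧ r2 < 65536 ∧ 0 ≤ r3 ∧ r3 ≤ 64 ∧ 0 ≤ r4 ∧ r4 ≤ 128 ∧ 0 ≤ r6 ∧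
      r6 < 960 ∧ 0 ≤ b0 ∧ b0 < 2 ^ 28 ∧ 0 ≤ b1 ∧ b1 < 2 ^ 28 ∧ 0 ≤ b2 ∧ b2 < 2 ^ 28)
    (bt : -32768 < t0 ∧ t0 ≤ 0 ∧ -65536 < t1 ∧ t1 ≤ 0 ∧ -65536 < t2 ∧ t2 ≤ 0 ∧ -128 < t3 ∧ t3 ≤ 0 ∧
      -256 < t4 ∧ t4 ≤ -1 + 1 ∧ -128 < t5 ∧ t5 ≤ 0 ∧ -1024 < t6 ∧ t6 ≤ 0 ∧ 0 ≤ c0 ∧ c0 ≤ 2 ^ 30 ∧ 0 ≤ c1 ∧
      c1 ≤ 2 ^ 30 ∧ 0 ≤ c2 ∧ c2 ≤ 2 ^ 30) :
    (l0 + t0 = 0 ∧ l1 + r1 + t1 = 0 ∧ r2 + t2 = 0 ∧ l3 + r3 + t3 = 0 ∧ l4 + r4 + t4 = 0 ∧ l5 + t5 = 0 ∧
      l6 + r6 + t6 = 0) ∧ 2 ^ 30 ≤ a0 + b0 + c0 ∧ 2 ^ 30 ≤ a1 + b1 + c1 ∧ 2 ^ 30 ≤ a2 + b2 + c2 :=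
  lane_test h (by rw [Nat.cast_add, Nat.cast_add, hx, hy, ht]; simp only [pk]; ring) (by omega)

theorem pk_zero : ((0 : ℕ) : ℤ) = pk 0 0 0 0 0 0 0 0 0 0 := by simp [pk]

theorem domV_sound {p b s i : ℕ} (h : domV f p P n b s = true) (hi : i < n) :
    ∃ k ∈ ofs p, Dom f (dc (ln P i)) k := by
  have bn := fun w => (p_bd (f1 := f) (f2 := f) (q := 0) (by decide) w).2.2.2.2
  obtain ⟨G, e, hG⟩ := (Fm.cst (P := P) (n := n) 2993155354647485752038347591065783469862184483274752).sub (vD_fm (f := f))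
    (χ := fun w => 2993155354647485752038347591065783469862184483274752 - pD f w) (fun _ => rfl) fun w => by have := bn w; omega
  have u : ∀ v, ln (sD f p) v = 0 ∨ ∃ j < nA p, (ln (sD f p) v : ℤ) = pD f (ln (bd p) j) + 16384 :=
    ((vD_fm (f := f)).add (Fm.cst 16384)).up fun w => by have := bn w; omega
  rw [domV, e] at h
  beta_reduce at hG
  obtain ⟨x, ⟨v, rfl⟩, t⟩ := tsV_sound (gat1_vr _ _ _ _ _) (fun x ⟨v, k⟩ => by
    rcases u v with g | ⟨j, -, g⟩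
    · omega
    · have := bn (ln (bd p) j)
      omega) (fun j => by have := hG j; have := bn (ln P j); omega) h hi
  have ht := hG i
  generalize ln P i = o at ht ⊢
  have a := xlt o
  have a' := nbm f (z := xh o + 32 * xq o) (by omega)
  replace ht : (G i : ℤ) = pk (-16384 - xa o) (-xb o) 0 (-xi o) (-xj o) (-(nb f * (xh o + 32 * xq o))) 0
      (2 ^ 30 - x0 o) (2 ^ 30 - x1 o) (2 ^ 30 - x2 o) := ht.trans (by simp only [pD, pk]; ring)
  rw [← add_zero (ln _ v)] at t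
  rcases u v with g | ⟨j, hj, g⟩
  · have := tri_test t (g ▸ pk_zero) pk_zero ht (by omega) (by omega) (by omega)
    omega
  · refine ⟨_, mem_ofs hj, ?_⟩
    generalize ln (bd p) j = k at g
    have c := xlt k
    have c' := nbm f (z := xh k + 32 * xq k) (by omega)
    have := tri_test t (g.trans (show _ = pk (xa k + 16384) (xb k) 0 (xi k) (xj k)
      (nb f * (xh k + 32 * xq k)) 0 (x0 k) (x1 k) (x2 k) by simp only [pD, pk]; ring)) pk_zero ht
      (by omega) (by omega) (by omega)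
    cases f <;> simp only [nb_t, nb_f, Nat.cast_one, Nat.cast_zero, one_mul, zero_mul] at this <;>
      simp only [Dom, dc, forall_const, Bool.true_eq_false, false_imp_iff, true_and] <;> omega

variable {τ : Tab}

/-- The offers of `p` that come from joins follow from joins of offers of `p1` and `p2`. -/
def J2 (τ : Tab) (f1 f2 r : Bool) (p1 p2 p : ℕ) : Prop :=
  ∀ i < nJ p, ∃ x ∈ ofs p1, ∃ y ∈ ofs p2, Cmp f1 f2 (dc (ln (bd p) i)) x (cond r (τ.rot y) y)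

theorem join_vec (hq : τ.nq ≤ 4) {p1 p2 p b b2 m m2 s : ℕ}
    (h : tsV (Nat.add (gat (sL f1 f2 p1) (sR (τ.nq - 1) f2 r p2) b b2 m m2 s (nB (nJ p))) (sT f1 f2 p))
      (nJ p) = true) : J2 τ f1 f2 r p1 p2 p := fun i hi => by
  have bn := fun w => p_bd (f1 := f1) (f2 := f2) (q := τ.nq - 1) (by omega) w
  obtain ⟨G, e, hG⟩ := vT_fm (P := bd p) (n := nJ p) (f1 := f1) (f2 := f2)
  have u : ∀ v, ln (sL f1 f2 p1) v = 0 ∨ ∃ j < nA p1, (ln (sL f1 f2 p1) v : ℤ) = pL f1 f2 (ln (bd p1) j) :=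
    vL_fm.up fun w => by have := bn w; omega
  have u' : ∀ v, ln (sR (τ.nq - 1) f2 r p2) v = 0 ∨ ∃ j < nA p2, (ln (sR (τ.nq - 1) f2 r p2) v : ℤ) =
      cond r (pR1 (τ.nq - 1) f2 (ln (bd p2) j)) (pR0 f2 (ln (bd p2) j)) := by
    cases r
    · exact vR0_fm.up fun w => by have := bn w; omega
    · exact (vR1_fm (by omega)).up fun w => by have := bn w; omega
  rw [sT, e] at h
  obtain ⟨x, ⟨v, v', rfl⟩, t⟩ := tsV_sound (gat_vr _ _ _ _ _ _ _ _) (fun x ⟨v, v', k⟩ => by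
    have a : ln (sL f1 f2 p1) v < 2 ^ 169 := by
      rcases u v with g | ⟨j, -, g⟩
      · omega
      · have := bn (ln (bd p1) j)
        omega
    have c : ln (sR (τ.nq - 1) f2 r p2) v' < 2 ^ 169 := by
      rcases u' v' with g | ⟨j, -, g⟩
      · omega
      · have := bn (ln (bd p2) j)
        cases r <;> simp only [cond_true, cond_false] at g <;> omega
    omega) (fun j => by have := hG j; have := bn (ln (bd p) j); omega) h hi
  have ht := hG i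
  have hx := u v
  have hy := u' v'
  generalize ln (bd p) i = o, ln (sL f1 f2 p1) v = X, ln (sR (τ.nq - 1) f2 r p2) v' = Y at *
  clear u u' bn h e hG
  have a := xlt o
  have a1 := nbm f1 (z := xh o + 32 * xq o) (by omega)
  have a2 := nbm f2 (z := 544 + xh o + 128 * xq o) (by omega)
  have k0 := fun w => nbm f2 (z := xh w + 128 * xq w + 512) (by omega)
  have k1 := fun w => nbm f2 (z := 128 * (τ.nq - 1 : ℕ) + 544 - xh w - 128 * xq w) (by have := xlt w; omega)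
  rcases hx with g | ⟨j, hj, g⟩
  · rcases hy with g' | ⟨j', -, g'⟩
    · have := tri_test t (g ▸ pk_zero) (g' ▸ pk_zero) ht (by omega) (by omega) (by omega)
      omega
    · generalize ln (bd p2) j' = y at g'
      have := xlt y
      have := k0 y
      have := k1 y
      have := rotL_le (xa y)
      have := rotL_le (xb y)
      cases r <;>
      · have := tri_test t (g ▸ pk_zero) g' ht (by omega) (by omega) (by omega)
        omega
  refine ⟨_, mem_ofs hj, ?_⟩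
  generalize ln (bd p1) j = x at g
  have c := xlt x
  have c1 := nbm f1 (z := xh x + 32 * xq x) (by omega)
  have c2 := nbm f2 (z := 64 - xi x) (by omega)
  rcases hy with g' | ⟨j', hj', g'⟩
  · have := tri_test t g (g' ▸ pk_zero) ht (by omega) (by omega) (by omega)
    omega
  refine ⟨_, mem_ofs hj', ?_⟩
  generalize ln (bd p2) j' = y at g'
  have d := xlt y
  have := k0 y
  have := k1 y
  have := rotL_le (xa y)
  have := rotL_le (xb y)
  cases r <;>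
  · have z := tri_test t g g' ht (by omega) (by omega) (by omega)
    clear * - z a c d hq
    cases f1 <;> cases f2 <;>
    · simp only [nb_t, nb_f, Nat.cast_one, Nat.cast_zero, one_mul, zero_mul] at z
      simp only [Cmp, dc, Tab.rot, cond_true, cond_false, forall_const, Bool.true_eq_false, false_imp_iff,
        true_and]
      omega

theorem brec_t {a b : Bool} (h : Bool.rec (motive := fun _ => Bool) false b a = true) :
    a = true ∧ b = true := by cases a; exacts [absurd h Bool.false_ne_true, ⟨rfl, h⟩]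

theorem jn2_sound (hq : τ.nq ≤ 4) {p1 p2 b b2 m m2 s : ℕ} {LT : List ℕ} {fl k : ℕ → Bool}
    (h : jn2 f1 f2 (sL f1 f2 p1) (sR (τ.nq - 1) f2 r p2) LT fl b b2 m m2 s k = true) :
    (∃ p ∈ LT, fl p = true ∧ J2 τ f1 f2 r p1 p2 p) ∧ ∃ s', k s' = true := by
  rw [jn2, frc_eq] at h
  obtain ⟨h1, h⟩ := brec_t h
  obtain ⟨h2, h⟩ := brec_t h
  obtain ⟨h3, h⟩ := brec_t h
  exact ⟨⟨_, nth_mem 0 (Nat.blt_eq.mp h1), h2, join_vec hq h3⟩, _, h⟩

theorem row2_sound (hq : τ.nq ≤ 4) {p1 p2 c1 c2 b b2 m m2 s : ℕ} {L2 LT : List ℕ}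
    (h : row2 (τ.nq - 1) f1 f2 r p1 L2 LT c1 c2 b b2 m m2 s = true) (h2 : p2 ∈ L2) :
    ∃ p ∈ LT, flagOK c1 c2 p1 p2 p = true ∧ J2 τ f1 f2 r p1 p2 p := by
  induction L2 generalizing s with
  | nil => simp at h2
  | cons y L ih =>
    obtain ⟨g, s', g'⟩ := jn2_sound hq h
    rcases List.mem_cons.1 h2 with rfl | h2
    exacts [g, ih g' h2]

theorem qOK_sound {nq i : ℕ} (h : qOK nq f P n = true) (hq : nq ≤ 4) (hi : i < n) :
    f = true ∨ xq (ln P i) < nq := by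
  rw [qOK, orb_eq, Bool.or_eq_true] at h
  refine h.imp_right fun h => ?_
  obtain ⟨F, e, hF⟩ := (Fm.msk (P := P) (n := n) mq (by decide)).add (Fm.cst ((4 - nq) <<< 67))
  have b : ∀ j, F j = (xq (ln P j) + (4 - nq)) * 2 ^ 67 := fun j => by
    have := hF j
    rw [Nat.shiftLeft_eq] at this
    beta_reduce at this
    omega
  have k := congrArg (ln · i) (show sv F n &&& 2 ^ 69 * one n = 0 from e ▸ Nat.eq_of_beq_eq_true h)
  have c := xlt (ln P i)
  simp only [ln_and, mul_one_eq] at k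
  rw [ln_sv fun j _ => by have := xlt (ln P j); have := b j; omega, ln_sv fun _ _ => by norm_num,
    if_pos hi, if_pos hi, b, show ln 0 i = 0 by simp [ln], show _ &&& 2 ^ 69 = _ from and_fld _ 69 1] at k
  omega

end Pool.Agent.Lib.MP_4b56aa_gt.Cert
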