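import Pool.Agent.Lib.MP_4b56aa_gt.Cert.CV2

/-! The fast distance test. -/

namespace Pool.Agent.Lib.MP_4b56aa_gt.Cert

theorem br_eq {α : Type} (a b : α) (c : Bool) :
    Bool.rec (motive := fun _ => α) a b c = if c = true then b else a := by cases c <;> rfl

theorem nmod (a b : ℕ) : Nat.mod a b = a % b := rfl
theorem ndiv (a b : ℕ) : Nat.div a b = a / b := rfl
theorem and3 (l : ℕ) : l &&& 3 = l % 4 := Nat.and_two_pow_sub_one_eq_mod l 2

theorem cN_tab : ∀ e < 360, ((C360 >>> (32 * e) &&& 4294967295 : ℕ) : ℤ) = cs e + 16777216 ∧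
    cs e ≤ 16777216 := by decide +kernel

theorem cN_eq (d : ℕ) : (cN d : ℤ) = cs d + 16777216 ∧ cs d ≤ 16777216 := by
  rw [show cs d = cs (d % 360) by simp only [cs, Nat.mod_mod]]
  exact cN_tab _ (Nat.mod_lt _ (by norm_num))

theorem sN_eq (d : ℕ) : (sN d : ℤ) = sn d + 16777216 ∧ sn d ≤ 16777216 := cN_eq (d + 270)

theorem ad_eq (a b : ℕ) : ad a b = ((a : ℤ) - b).natAbs := by
  rw [show ad a b = a - b + (b - a) from rfl]; omega

theorem n2N_eq (i j : ℕ) : (n2N i j : ℤ) = n2 ((i : ℤ) - 64) ((j : ℤ) - 128) := by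
  rw [show n2N i j = 3 * (ad i 64 * ad i 64) + ad j 128 * ad j 128 from rfl, ad_eq, ad_eq]
  push_cast
  rw [abs_mul_abs_self, abs_mul_abs_self, n2, mul_assoc]

theorem dgN_eq (T a : ℕ) : dgN T a = dg T a := rfl

theorem aleN_eq {T a b d : ℕ} : aleN T a b d = 0 ↔ ale T a b d = true := by
  rw [show aleN T a b d = dg 0 a - (dg 0 b + d) + (dg T a - (dg T b + d)) from rfl]
  simp only [ale, Bool.and_eq_true, Nat.ble_eq]
  omega

theorem mnN_eq (a b : ℕ) : mnN a b = min a b := by rw [show mnN a b = a - (a - b) from rfl]; omega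
theorem mxN_eq (a b : ℕ) : mxN a b = max a b := by rw [show mxN a b = a + (b - a) from rfl]; omega

theorem ptB_eq (s : ℕ) : ptB s = true ↔ s % 2 = 1 := by
  rw [ptB, Nat.beq_eq, Nat.land_eq, Nat.and_one_is_mod]
theorem aF_eq (s : ℕ) : aF s = s / 2 % 4096 := fld_eq s 1 12
theorem aG_eq (s : ℕ) : aG s = s / 8192 := Nat.shiftRight_eq_div_pow s 13

/-- The number `x` codes the value set `X`. -/
def Cd (x : ℕ) (X : VS) : Prop := X.pt = ptB x ∧ (X.pt = false → X.r1 = aF x ∧ X.r2 = aG x)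

variable {τ : Tab} {X Y : VS} {x y s i j : ℕ}

theorem vsN_cd {c l : ℕ} (h : τ.lo c < 4096) (hl : l < 16384) :
    Cd (vsN (τ.lo c) (τ.hi c) l) (τ.vsL c l) ∧ ((τ.vsL c l).sky = true ↔ l % 4 = 1) := by
  simp only [Cd, vsN, Tab.vsL, br_eq, Nat.beq_eq, Nat.land_eq, and3, aF_eq, aG_eq, Nat.add_eq, Nat.mul_eq,
    Nat.shiftRight_eq, Nat.shiftRight_eq_div_pow, Bool.eq_iff_iff (b := ptB _), ptB_eq]
  split_ifs with a b <;> simp only [false_iff, forall_const, false_imp_iff, and_true, a] <;> omega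

theorem xyN_sound (hN : τ.N = 4) (h1 : X.r1 = aF s) (h2 : X.r2 = aG s) {A B : ℕ} {U V : ℤ}
    (hA : (A : ℤ) = U + 2128210816) (hB : (B : ℤ) = V + 2415919104) (h : xyN τ.T A B s = 0) :
    okXY τ U V X = true := by
  have k : ∀ d, A * A + B * B + cD d - (A * cU d + B * cV d) = 0 →
      U * U + V * V + 4 * τ.N * τ.N * Q * 400 ≤ 4 * τ.N * (U * cs d + V * sn d) := fun d g => by
    have e := Int.ofNat_le.2 (Nat.sub_eq_zero_iff_le.1 g)
    simp only [cD, cU, cV, Nat.add_eq, Nat.mul_eq] at e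
    push_cast at e
    rw [hA, hB, (cN_eq d).1, (sN_eq d).1] at e
    rw [hN, Q]
    push_cast
    linarith
  simp only [xyN, aBad, aLo, aHi, mnN_eq, mxN_eq, dgN_eq, Nat.add_eq, Nat.mul_eq, Nat.sub_eq,
    Nat.add_eq_zero_iff, ← h1, ← h2] at h
  simp only [okXY, Bool.and_eq_true, Nat.ble_eq, decide_eq_true_eq]
  exact ⟨⟨Nat.sub_eq_zero_iff_le.1 h.2, k _ h.1.1⟩, k _ h.1.2⟩

theorem unitA_n2 {a b : ℤ} (h : n2 a b ≠ 64) : unitA 4 a b = 0 := by
  unfold unitA
  split_ifs with h1 h2 h3 h4 h5 h6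
  any_goals rfl
  all_goals
    refine absurd ?_ h
    simp only [*]
    decide

theorem n2_zero {a b : ℤ} : n2 a b = 0 ↔ a = 0 ∧ b = 0 :=
  ⟨fun h => by unfold n2 at h; constructor <;> nlinarith [sq_nonneg a, sq_nonneg b],
    fun h => by simp [n2, h]⟩

theorem paN_sound (hN : τ.N = 4) (h1 : X.r1 = aF s) (h2 : X.r2 = aG s) (h : paN τ.T i j s = 0) :
    okPA τ ((i : ℤ) - 64) ((j : ℤ) - 128) X = true := by
  have e := n2N_eq i j
  have u : uA i j = unitA 4 ((i : ℤ) - 64) ((j : ℤ) - 128) := by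
    unfold uA
    split_ifs with g
    exacts [rfl, (unitA_n2 (by omega)).symm]
  have o : ∀ v, ouN τ.T v s = 0 → okU τ.T v X = true := fun v g => by
    simpa only [ouN, okU, Nat.add_eq, Nat.add_eq_zero_iff, aleN_eq, Bool.and_eq_true, h1, h2] using g
  rw [paN, br_eq] at h
  rw [okPA, hN, ← u]
  by_cases a : (i : ℤ) - 64 = 0 ∧ (j : ℤ) - 128 = 0
  · rw [if_pos a]
  rw [if_neg a]
  by_cases g : plB i j = true
  · rw [if_pos g] at h
    simp only [plB, Bool.and_eq_true, Nat.ble_eq, beq_iff_eq] at g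
    rw [if_neg (not_not.2 g.2), Bool.and_eq_true, decide_eq_true_eq]
    exact ⟨by have := g.1.2; omega, xyN_sound hN h1 h2 (by simp only [Nat.add_eq, Nat.mul_eq, S3]; omega)
      (by simp only [Nat.add_eq, Nat.mul_eq, Q]; omega) h⟩
  rw [if_neg g, clN, if_neg fun z => a (n2_zero.1 (by omega))] at h
  replace h : 1 - uA i j + ouN τ.T (uA i j) s * ouN τ.T (uA i j + 1080) s *
    (1080 - uA i j + ouN τ.T (uA i j - 1080) s) = 0 := h
  simp only [Nat.add_eq_zero_iff, Nat.mul_eq_zero] at h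
  rw [if_pos (by omega)]
  simp only [Bool.or_eq_true, Bool.and_eq_true, Nat.ble_eq]
  exact h.2.imp (Or.imp (o _) (o _)) fun z => ⟨by omega, o _ z.2⟩

theorem fxB_eq : fxB s = true ↔ aF s = aG s ∧ aF s % 3 = 1 := by
  simp only [fxB, Nat.beq_eq, Nat.add_eq, Nat.add_eq_zero_iff, Nat.xor_eq, Nat.xor_eq_zero_iff, nmod]

theorem prN_sound (hN : τ.N = 4) (hx : Cd x X) (hy : Cd y Y) (hi : i ≤ 128) (hj : j ≤ 256) {S S' : Bool}
    (hS : X.pt = false → Y.pt = false → S' = true → (S && X.sky && Y.sky) = true)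
    (h : prN τ.T x y i j S' = 0) : okPair τ X Y ((i : ℤ) - 64) ((j : ℤ) - 128) S = true := by
  have e := n2N_eq i j
  simp only [prN, ok0N, br_eq, ← hx.1, ← hy.1, Nat.beq_eq, fxB_eq, Nat.add_eq, Nat.mul_eq, Nat.sub_eq] at h
  rw [okPair, hN]
  by_cases a : X.pt = true <;> by_cases b : Y.pt = true
  · rw [if_pos a, if_pos b] at h ⊢
    rw [decide_eq_true_eq]
    omega
  · rw [if_pos a, if_neg b] at h ⊢
    have k := hy.2 (Bool.eq_false_iff.2 b)
    have := paN_sound hN k.1 k.2 h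
    rwa [show ((128 - i : ℕ) : ℤ) - 64 = -(i - 64) by omega,
      show ((256 - j : ℕ) : ℤ) - 128 = -(j - 128) by omega] at this
  · rw [if_neg a, if_pos b] at h ⊢
    have k := hx.2 (Bool.eq_false_iff.2 a)
    exact paN_sound hN k.1 k.2 h
  rw [if_neg a, if_neg b] at h ⊢
  have k := hx.2 (Bool.eq_false_iff.2 a)
  have l := hy.2 (Bool.eq_false_iff.2 b)
  rw [← k.1, ← k.2, ← l.1, ← l.2] at h
  by_cases z : n2N i j = 0
  · rw [if_pos z] at h
    rw [if_pos (n2_zero.1 (by omega)), Bool.or_eq_true]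
    split_ifs at h with g
    · exact Or.inl (hS (Bool.eq_false_iff.2 a) (Bool.eq_false_iff.2 b) g)
    · exact Or.inr (by simpa only [Nat.add_eq_zero_iff, aleN_eq, Bool.and_eq_true] using h)
  rw [if_neg z, Nat.add_eq_zero_iff] at h
  rw [if_neg fun g => z (by have := n2_zero.2 g; omega), if_neg (by omega)]
  have c : ∀ s, (cX s : ℤ) = 8 * cs (dg 0 (aF s)) + 268435456 ∧
      (cY s : ℤ) = 8 * sn (dg 0 (aF s)) + 268435456 := fun s => by
    have := (cN_eq (dg 0 (aF s))).1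
    have := (sN_eq (dg 0 (aF s))).1
    simp only [cX, cY, dgN_eq, Nat.add_eq, Nat.mul_eq]
    omega
  have c1 := c x
  have c2 := c y
  rw [← k.1] at c1
  rw [← l.1] at c2
  have h2 := h.2
  split_ifs at h2 ⊢
  · exact xyN_sound hN l.1 l.2 (by simp only [S3]; omega) (by simp only [Q]; omega) h2
  · exact xyN_sound hN k.1 k.2 (by simp only [S3]; omega) (by simp only [Q]; omega) h2

theorem vaN_sound (hN : τ.N = 4) {a b cl w : ℕ} (ha : τ.lo a < 4096) (hb : τ.lo b < 4096)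
    (h : vaN τ.T (τ.lo a) (τ.hi a) (τ.lo b) (τ.hi b) (cl == 0) (w &&& KY) = 0)
    (hq : τ.free a b = true ∨ xq w < τ.nq) : τ.valid a b cl (dc w) = true := by
  have c := xlt w
  have k : w &&& KY = _ := mK w
  generalize w &&& KY = v at h k
  have e1 : xa v = xa w := by rw [xa_eq v]; omega
  have e2 : xb v = xb w := by rw [xb_eq v]; omega
  have e3 : v >>> 47 &&& 63 = xi w := (xi_eq v).trans (by omega)
  have e4 : (v >>> 47) >>> 7 &&& 127 = xj w := by
    rw [← Nat.shiftRight_add]; exact (xj_eq v).trans (by omega)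
  have u := vsN_cd ha c.1
  have u' := vsN_cd hb c.2.1
  replace h : prN τ.T (vsN _ _ (xa v)) (vsN _ _ (xb v)) ((v >>> 47 &&& 63) + 32)
    (((v >>> 47) >>> 7 &&& 127) + 64) (andb _ (andb (Nat.beq (Nat.land (xa v) 3) 1)
      (Nat.beq (Nat.land (xb v) 3) 1))) = 0 := h
  rw [e1, e2, e3, e4] at h
  have := prN_sound (S := cl == 0) hN u.1 u'.1 (by omega) (by omega) (fun _ _ g => by
    simpa only [andb_eq, Bool.and_eq_true, Nat.beq_eq, Nat.land_eq, and3, u.2, u'.2, and_assoc] using g) h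
  rw [show ((xi w + 32 : ℕ) : ℤ) - 64 = xi w - 32 by omega,
    show ((xj w + 64 : ℕ) : ℤ) - 128 = xj w - 64 by omega] at this
  rw [Tab.valid, Bool.and_eq_true, Bool.or_eq_true, Nat.blt_eq]
  exact ⟨this, hq⟩

end Pool.Agent.Lib.MP_4b56aa_gt.Cert
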