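import Pool.Agent.Lib.MP_4b56aa_gt.Cert.CV3

/-! The fast evaluation of an end jump at one angle. -/

namespace Pool.Agent.Lib.MP_4b56aa_gt.Cert

variable {σ : Bool} {T l μ p q i j u x y : ℕ}

theorem dA_eq (T l u : ℕ) : dA T l u = if l % 4 ≤ 1 then dg T u else dg T (l / 4) := by
  simp only [dA, br_eq, Nat.ble_eq, Nat.land_eq, and3, dgN_eq, Nat.shiftRight_eq,
    Nat.shiftRight_eq_div_pow]
  split_ifs <;> rfl

theorem dA_lt (hT : T ≤ 10) (hl : l < 16384) (hu : u < 4096) : dA T l u < 2048 := by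
  have : ∀ a < 4096, dg T a < 2048 := fun a h => by
    have := Nat.mul_le_mul hT (show a % 3 ≤ 2 by omega)
    unfold dg; omega
  rw [dA_eq]
  split_ifs
  exacts [this _ hu, this _ (by omega)]

theorem pm_eq (l : ℕ) {c : ℕ} {z : ℤ} (h : (c : ℤ) = z + 16777216 ∧ z ≤ 16777216) :
    ((268435456 + (l &&& 1) * (8 * c) - (l &&& 1) * 134217728 : ℕ) : ℤ) =
      268435456 + 8 * ((l % 2 : ℕ) * z) ∧
    ((268435456 + (l &&& 1) * 134217728 - (l &&& 1) * (8 * c) : ℕ) : ℤ) =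
      268435456 - 8 * ((l % 2 : ℕ) * z) ∧ -16777216 ≤ (l % 2 : ℕ) * z ∧ (l % 2 : ℕ) * z ≤ 16777216 := by
  rw [Nat.and_one_is_mod]
  rcases Nat.mod_two_eq_zero_or_one l with g | g <;> rw [g] <;> omega

/-- The pieces of the exact evaluation. -/
def sgn (σ : Bool) : ℤ := if σ then 1 else -1
noncomputable def eX (T l μ i u : ℕ) : ℤ := ((i : ℤ) - 64) * S3 +
  2 * (4 : ℕ) * ((l % 2 : ℕ) * cs (dA T l u) - (μ % 2 : ℕ) * cs (dA T μ u))
noncomputable def eY (T l μ j u : ℕ) : ℤ := ((j : ℤ) - 128) * Q +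
  2 * (4 : ℕ) * ((l % 2 : ℕ) * sn (dA T l u) - (μ % 2 : ℕ) * sn (dA T μ u))
noncomputable def eD (σ : Bool) (T l μ u : ℕ) : ℤ := sgn σ * ((dA T l u : ℤ) - dA T μ u)
noncomputable def eG (σ : Bool) (T l μ u : ℕ) : ℤ := (RD * eD σ T l μ u - |eD σ T l μ u|) / 1024
noncomputable def eS (σ : Bool) (T l μ u : ℕ) : ℤ := (PD * eD σ T l μ u - |eD σ T l μ u|) / 1024
noncomputable def eW (σ : Bool) (T l μ i j u : ℕ) : ℤ :=
  sgn σ * (eX T l μ i u * sn (dg T u) - eY T l μ j u * cs (dg T u)) / (2 * (4 : ℕ) * Q) - 64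
def C1 (T l μ u : ℕ) : Prop := l % 2 = μ % 2 ∧ (l % 2 = 0 ∨ dA T l u = dA T μ u)
def C2 (T l μ u : ℕ) : Prop := l % 2 ≠ μ % 2 ∧ (if l % 2 = 1 then dA T l u else dA T μ u) = dg T u
def C3 (σ : Bool) (T l μ i j u : ℕ) : Prop := dg T u % 180 = 0 ∧
  (i : ℤ) - 64 = (((μ % 2 : ℕ) : ℤ) - (l % 2 : ℕ)) * (if dg T u % 360 = 0 then 1 else -1) * (4 : ℕ) ∧
  (j : ℤ) - 128 = -sgn σ * (if dg T u % 360 = 0 then 1 else -1) * (4 : ℕ)

open Classical in
theorem evalPt_eq (σ : Bool) (T l μ i j u : ℕ) :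
    evalPt 4 T l μ ((i : ℤ) - 64) ((j : ℤ) - 128) (sgn σ) u =
    if ((i : ℤ) - 64 = 0 ∧ (j : ℤ) - 128 = 0) ∧ C1 T l μ u then (eG σ T l μ u, eS σ T l μ u)
    else if ((i : ℤ) - 64 = 0 ∧ (j : ℤ) - 128 = 0) ∧ C2 T l μ u then (eG σ T l μ u - Q, eS σ T l μ u)
    else if C2 T l μ u ∧ C3 σ T l μ i j u then (eG σ T l μ u + Q / 2, eS σ T l μ u + Q / 2)
    else (eG σ T l μ u - (hyp (eX T l μ i u).natAbs (eY T l μ j u).natAbs / (2 * 4) + 64 : ℕ) +
      (RL * eW σ T l μ i j u / Q - 8), eS σ T l μ u + eW σ T l μ i j u) := by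
  simp only [evalPt, ← dA_eq, C1, C2, C3, and_assoc]
  congr

theorem xO_eq (T l μ i u : ℕ) : (xO T l μ i u : ℤ) = eX T l μ i u + 2396646272 ∧
    (55 ≤ i → i ≤ 73 → -2 ^ 30 ≤ eX T l μ i u ∧ eX T l μ i u ≤ 2 ^ 30) := by
  have a := pm_eq l (cN_eq (dA T l u))
  have b := pm_eq μ (cN_eq (dA T μ u))
  simp only [xO, cP, cM, eX, S3, Nat.add_eq, Nat.mul_eq, Nat.sub_eq, Nat.land_eq]
  omega

theorem yO_eq (T l μ j u : ℕ) : (yO T l μ j u : ℤ) = eY T l μ j u + 2684354560 ∧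
    (112 ≤ j → j ≤ 144 → -2 ^ 30 ≤ eY T l μ j u ∧ eY T l μ j u ≤ 2 ^ 30) := by
  have a := pm_eq l (sN_eq (dA T l u))
  have b := pm_eq μ (sN_eq (dA T μ u))
  simp only [yO, sP, sM, eY, Q, Nat.add_eq, Nat.mul_eq, Nat.sub_eq, Nat.land_eq]
  omega

/-- The data of an end. -/
structure En (σ : Bool) (l μ p q i j : ℕ) : Prop where
  hl : l < 16384
  hm : μ < 16384
  hp : p = cond σ l μ
  hq : q = cond σ μ l
  hn : n2N i j ≤ 256

theorem En.rng (h : En σ l μ p q i j) : 55 ≤ i ∧ i ≤ 73 ∧ 112 ≤ j ∧ j ≤ 144 := by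
  have a := n2N_eq i j
  have b := h.hn
  unfold n2 at a
  have c : ((i : ℤ) - 64) * (i - 64) ≤ 85 := by nlinarith [mul_self_nonneg ((j : ℤ) - 128)]
  have d : ((j : ℤ) - 128) * (j - 128) ≤ 256 := by nlinarith [mul_self_nonneg ((i : ℤ) - 64)]
  have e := abs_le_of_sq_le_sq' (a := (i : ℤ) - 64) (b := 10) (by nlinarith) (by norm_num)
  have f := abs_le_of_sq_le_sq' (a := (j : ℤ) - 128) (b := 16) (by nlinarith) (by norm_num)
  have : (i : ℤ) ≠ 54 := fun g => by rw [g] at c; omega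
  have : (i : ℤ) ≠ 74 := fun g => by rw [g] at c; omega
  omega

theorem gO_eq (h : En σ l μ p q i j) (hT : T ≤ 10) (hu : u < 4096) :
    (gO T p q u : ℤ) = eG σ T l μ u + 4294967296 ∧ (sO T p q u : ℤ) = eS σ T l μ u + 4294967296 := by
  have a := dA_lt hT h.hl hu
  have b := dA_lt hT h.hm hu
  have k : (kO T p q u : ℤ) = eD σ T l μ u + 2048 ∧ kO T p q u < 4096 := by
    rw [h.hp, h.hq]
    cases σ <;> simp only [kO, eD, sgn, cond_true, cond_false, Nat.add_eq, Nat.sub_eq, if_true,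
      Bool.false_eq_true, if_false] <;> omega
  simp only [gO, sO, eG, eS, RD, PD, ad_eq, ← Int.natCast_natAbs, Nat.add_eq, Nat.mul_eq, Nat.sub_eq,
    Nat.shiftRight_eq, Nat.shiftRight_eq_div_pow]
  omega

theorem zb {x a : ℤ} (hx : -2 ^ 30 ≤ x ∧ x ≤ 2 ^ 30) (ha : -16777216 ≤ a ∧ a ≤ 16777216) :
    -2 ^ 54 ≤ x * a := by nlinarith [hx.1, hx.2, ha.1, ha.2]

theorem w_core {A B a b : ℕ} {X Y α β : ℤ} (hA : (A : ℤ) = X + 2396646272) (hB : (B : ℤ) = Y + 2684354560)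
    (ha : (a : ℤ) = α + 33554432) (hb : (b : ℤ) = β + 33554432) (x : -2 ^ 30 ≤ X ∧ X ≤ 2 ^ 30)
    (y : -2 ^ 30 ≤ Y ∧ Y ≤ 2 ^ 30) (c : -16777216 ≤ α ∧ α ≤ 16777216) (d : -16777216 ≤ β ∧ β ≤ 16777216) :
    (((A * a + B * b + (458720464471064576 - (2396646272 * a + 2684354560 * b)) - (A + B) <<< 25) >>> 27 :
      ℕ) : ℤ) = (X * α + Y * β) / (2 * (4 : ℕ) * Q) - 64 + 2147483648 := by
  have b1 := zb x c
  have b2 := zb y d
  have e : ((A * a + B * b : ℕ) : ℤ) = X * α + Y * β + 33554432 * (X + Y) + 2396646272 * a +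
      2684354560 * b := by
    push_cast
    rw [hA, hB, ha, hb]
    ring
  rw [Nat.shiftRight_eq_div_pow, Nat.shiftLeft_eq, Q]
  generalize A * a + B * b = Z, X * α = U, Y * β = V at *
  omega

theorem wO_eq (h : En σ l μ p q i j) : (wO σ T l μ i j u u : ℤ) = eW σ T l μ i j u + 2147483648 ∧
    (hO T l μ i j u : ℤ) = (hyp (eX T l μ i u).natAbs (eY T l μ j u).natAbs / (2 * 4) + 64 : ℕ) +
      8263036424 := by
  obtain ⟨r1, r2, r3, r4⟩ := h.rng
  obtain ⟨x1, x2⟩ := xO_eq T l μ i u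
  obtain ⟨y1, y2⟩ := yO_eq T l μ j u
  have c := cN_eq (dg T u)
  have s := sN_eq (dg T u)
  constructor
  · rw [eW, show sgn σ * (eX T l μ i u * sn (dg T u) - eY T l μ j u * cs (dg T u)) =
      eX T l μ i u * (sgn σ * sn (dg T u)) + eY T l μ j u * -(sgn σ * cs (dg T u)) by ring]
    refine w_core (a := aO σ T u) (b := bO σ T u) x1 y1 ?_ ?_ (x2 r1 r2) (y2 r3 r4) ?_ ?_ <;> cases σ <;>
      simp only [aO, bO, sgn, dgN_eq, Nat.add_eq, Nat.sub_eq, if_true, Bool.false_eq_true, if_false] <;>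
      omega
  · rw [show hO T l μ i j u = hyp (ad (xO T l μ i u) 2396646272) (ad (yO T l μ j u) 2684354560) >>> 3 +
      8263036488 from rfl, ad_eq, ad_eq, x1, y1, Nat.shiftRight_eq_div_pow]
    simp only [Nat.cast_ofNat, add_sub_cancel_right]
    omega

theorem sG_eq : sG σ l μ p q i j T x y u = sO T p q y + wO σ T l μ i j x u - 6039797760 := rfl

/-- `V`, `S` are lower bounds of the exact values plus an offset. -/
def Pt (σ : Bool) (l μ i j : ℕ) (V S : ℕ → ℕ → ℕ) : Prop := ∀ T ≤ 10, ∀ u < 4096,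
  (V T u : ℤ) ≤ max 0 ((evalPt 4 T l μ ((i : ℤ) - 64) ((j : ℤ) - 128) (sgn σ) u).1 + 402653184) ∧
  (S T u : ℤ) ≤ max 0 ((evalPt 4 T l μ ((i : ℤ) - 64) ((j : ℤ) - 128) (sgn σ) u).2 + 402653184)

theorem vG_le (h : En σ l μ p q i j) (hT : T ≤ 10) (hu : u < 4096) :
    (vG σ l μ p q i j T u u u : ℤ) ≤ max 0 (eG σ T l μ u -
      (hyp (eX T l μ i u).natAbs (eY T l μ j u).natAbs / (2 * 4) + 64 : ℕ) +
      (RL * eW σ T l μ i j u / Q - 8) + 402653184) ∧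
    (sG σ l μ p q i j T u u u : ℤ) ≤ max 0 (eS σ T l μ u + eW σ T l μ i j u + 402653184) := by
  have a := gO_eq h hT hu
  have b := wO_eq (T := T) (u := u) h
  simp only [vG, sG_eq, RL, Q, Nat.add_eq, Nat.mul_eq, Nat.sub_eq, Nat.shiftRight_eq,
    Nat.shiftRight_eq_div_pow]
  generalize hyp _ _ / (2 * 4) + 64 = H at b ⊢
  omega

theorem eA_eq (T l μ u : ℕ) : (eA T l u = eA T μ u ↔ C1 T l μ u) ∧ (t2B T l μ u = true ↔ C2 T l μ u) := by
  simp only [t2B, eA, C1, C2, dgN_eq, Nat.beq_eq, Nat.add_eq, Nat.mul_eq, Nat.land_eq, Nat.and_one_is_mod,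
    Nat.add_eq_zero_iff, Nat.mul_eq_zero, Nat.xor_eq, Nat.xor_eq_zero_iff, Nat.succ_eq_add_one]
  rcases Nat.mod_two_eq_zero_or_one l with g | g <;> rcases Nat.mod_two_eq_zero_or_one μ with k | k <;>
    simp [g, k]

theorem C3_n2 (a : C2 T l μ u) (b : C3 σ T l μ i j u) : n2N i j = 64 := by
  have e := n2N_eq i j
  rw [b.2.1, b.2.2] at e
  have := a.1
  rcases Nat.mod_two_eq_zero_or_one l with g | g <;> rcases Nat.mod_two_eq_zero_or_one μ with k | k <;>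
    rw [g, k] at e this <;> cases σ <;> split_ifs at e <;> simp [n2, sgn] at e this ⊢ <;> omega

theorem ptG (h : En σ l μ p q i j) (z : n2N i j ≠ 0) (c : n2N i j = 64 → l % 2 = μ % 2) :
    Pt σ l μ i j (fun T u => vG σ l μ p q i j T u u u) fun T u => sG σ l μ p q i j T u u u :=
  fun T hT u hu => by
  have n : ¬((i : ℤ) - 64 = 0 ∧ (j : ℤ) - 128 = 0) := fun g => z (by
    have := n2_zero.2 g; have := n2N_eq i j; omega)
  rw [evalPt_eq, if_neg fun g => n g.1, if_neg fun g => n g.1, if_neg fun g => g.1.1 (c (C3_n2 g.1 g.2))]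
  exact vG_le h hT hu

theorem ptZ (h : En σ l μ p q i j) (z : n2N i j = 0) :
    Pt σ l μ i j (vZ σ l μ p q i j) (sZ σ l μ p q i j) := fun T hT u hu => by
  have n : (i : ℤ) - 64 = 0 ∧ (j : ℤ) - 128 = 0 := n2_zero.1 (by have := n2N_eq i j; omega)
  have a := gO_eq h hT hu
  have e := eA_eq T l μ u
  rw [evalPt_eq, vZ, sZ]
  simp only [br_eq, Nat.beq_eq, Nat.sub_eq]
  by_cases c1 : C1 T l μ u
  · simp only [if_pos (e.1.2 c1), if_pos (And.intro n c1)]; omega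
  simp only [if_neg (mt e.1.1 c1), c1, and_false, if_false]
  by_cases c2 : C2 T l μ u
  · simp only [if_pos (e.2.2 c2), if_pos (And.intro n c2), Q]; omega
  · simp only [if_neg (mt e.2.1 c2), c2, and_false, false_and, if_false]
    exact vG_le h hT hu

theorem ptU (h : En σ l μ p q i j) (z : n2N i j ≠ 0) :
    Pt σ l μ i j (vU σ l μ p q i j) (sU σ l μ p q i j) := fun T hT u hu => by
  have n : ¬((i : ℤ) - 64 = 0 ∧ (j : ℤ) - 128 = 0) := fun g => z (by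
    have := n2_zero.2 g; have := n2N_eq i j; omega)
  have a := gO_eq h hT hu
  have t : t3B σ T l μ i j u = true ↔ C2 T l μ u ∧ C3 σ T l μ i j u := by
    rw [t3B, br_eq]
    by_cases c : C2 T l μ u
    · rw [if_pos ((eA_eq T l μ u).2.2 c), b3B, decide_eq_true_eq, and_iff_right c, C3, Nat.land_eq,
        Nat.and_one_is_mod, show ((μ % 2 : ℕ) : ℤ) - (l % 2 : ℕ) = 1 - 2 * (l % 2 : ℕ) by
          have := c.1; omega]
      rfl
    · simp [c, mt (eA_eq T l μ u).2.1 c]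
  rw [evalPt_eq, vU, sU, if_neg fun g => n g.1, if_neg fun g => n g.1]
  simp only [br_eq, Nat.sub_eq]
  by_cases c : C2 T l μ u ∧ C3 σ T l μ i j u
  · simp only [if_pos c, if_pos (t.2 c), Q]; omega
  · rw [if_neg c, if_neg (mt t.1 c), if_neg (mt t.1 c)]
    exact vG_le h hT hu

theorem dA_fix (h : 2 ≤ l % 4) (x u : ℕ) : dA T l x = dA T l u := by
  rw [dA_eq, dA_eq, if_neg (by omega), if_neg (by omega)]

theorem cP_fix (h : l % 4 ≠ 1) (x u : ℕ) : cP T l x = cP T l u ∧ cM T l x = cM T l u ∧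
    sP T l x = sP T l u ∧ sM T l x = sM T l u := by
  unfold cP cM sP sM
  rcases Nat.mod_two_eq_zero_or_one l with g | g
  · simp only [Nat.land_eq, Nat.and_one_is_mod, g, Nat.mul_eq, zero_mul, and_self]
  · simp only [dA_fix (show 2 ≤ l % 4 by omega) x u, and_self]

theorem vG_fix (a : l % 4 ≠ 1) (b : μ % 4 ≠ 1) (x y u : ℕ) :
    vG σ l μ p q i j T x y u = vG σ l μ p q i j T u y u ∧
      sG σ l μ p q i j T x y u = sG σ l μ p q i j T u y u := by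
  have e1 : xO T l μ i x = xO T l μ i u := by rw [xO, xO, (cP_fix a x u).1, (cP_fix b x u).2.1]
  have e2 : yO T l μ j x = yO T l μ j u := by rw [yO, yO, (cP_fix a x u).2.2.1, (cP_fix b x u).2.2.2]
  delta vG sG wO hO dO
  rw [e1, e2]
  exact ⟨rfl, rfl⟩

theorem vG_fix' (h : En σ l μ p q i j) (a : 2 ≤ l % 4) (b : 2 ≤ μ % 4) (x y u : ℕ) :
    vG σ l μ p q i j T x y u = vG σ l μ p q i j T x u u ∧
      sG σ l μ p q i j T x y u = sG σ l μ p q i j T x u u := by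
  rw [h.hp, h.hq]
  cases σ <;> simp only [vG, sG_eq, gO, sO, kO, cond_true, cond_false, dA_fix a y u, dA_fix b y u, and_self]

end Pool.Agent.Lib.MP_4b56aa_gt.Cert
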