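import Pool.Agent.Lib.MP_4b56aa_gt.Cert.CV4

/-! The fast evaluation of an end jump on a grid. -/

namespace Pool.Agent.Lib.MP_4b56aa_gt.Cert

variable {σ : Bool} {T t l μ p q i j e : ℕ} {G : List ℕ} {V S : ℕ → ℕ → ℕ}

/-- `e` packs three numbers below `A k`, `B k`, `C k` for all `k < n`. -/
def Lo3 (e : ℕ) (A B C : ℕ → ℕ) (n : ℕ) : Prop := ∃ x y z, e = (x + (y + z <<< 31) <<< 31) <<< 79 ∧
  x ≤ 536870912 ∧ y ≤ 536870912 ∧ z ≤ 536870912 ∧ ∀ k < n, x ≤ A k ∧ y ≤ B k ∧ z ≤ C k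

theorem rec3 (A B C : ℕ → ℕ) (n x y z : ℕ) : ∃ x' y' z',
    Nat.rec (motive := fun _ => ℕ → ℕ → ℕ → ℕ) (fun x y z => (x + (y + z <<< 31) <<< 31) <<< 79)
      (fun k ih x y z => ih (x - (x - A k)) (y - (y - B k)) (z - (z - C k))) n x y z =
      (x' + (y' + z' <<< 31) <<< 31) <<< 79 ∧ x' ≤ x ∧ y' ≤ y ∧ z' ≤ z ∧
      ∀ k < n, x' ≤ A k ∧ y' ≤ B k ∧ z' ≤ C k := by
  induction n generalizing x y z with
  | zero => exact ⟨x, y, z, rfl, le_rfl, le_rfl, le_rfl, fun _ h => absurd h (Nat.not_lt_zero _)⟩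
  | succ n ih =>
    obtain ⟨x', y', z', e, a, b, c, d⟩ := ih (x - (x - A n)) (y - (y - B n)) (z - (z - C n))
    exact ⟨x', y', z', e, by omega, by omega, by omega, Nat.forall_lt_succ_right.2 ⟨d, by omega⟩⟩

/-- The bounds at the point number `k`. -/
def LoG (e : ℕ) (V S : ℕ → ℕ → ℕ) (T t : ℕ) (G : List ℕ) : Prop :=
  Lo3 e (fun k => V 0 (nth 0 G k) - p0N t G k) (fun k => V T (nth 0 G k) - p1N T t G k)
    (fun k => S 0 (nth 0 G k) - (S 0 (nth 0 G k) - S T (nth 0 G k)) - pSN T t G k) G.length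

theorem lpN_lo : LoG (lpN V S T t G) V S T t G := rec3 _ _ _ _ _ _ _

theorem le_mxG (f : ℕ → ℕ) {k n : ℕ} (h : k < n) : f k ≤ mxG f n := by
  induction n with
  | zero => omega
  | succ n ih =>
    rw [show mxG f (n + 1) = mxN (f n) (mxG f n) from rfl, mxN_eq]
    rcases Nat.lt_succ_iff_lt_or_eq.1 h with g | rfl
    exacts [(ih g).trans (le_max_right _ _), le_max_left _ _]

theorem shr_le {a b : ℕ} (n : ℕ) (h : a ≤ b) : Nat.shiftRight a n ≤ Nat.shiftRight b n := by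
  simp only [Nat.shiftRight_eq, Nat.shiftRight_eq_div_pow]
  exact Nat.div_le_div_right h

theorem z6_le {k : ℕ} (h : k < 6) (x y : ℕ) :
    z6 σ T G x y ≤ x * aO σ T (gp G k) + y * bO σ T (gp G k) + cO σ T (gp G k) := by
  have g : ∀ f : ℕ → ℕ, mnN (mnN (mnN (f 0) (f 1)) (mnN (f 2) (f 3))) (mnN (f 4) (f 5)) ≤ f k := fun f => by
    simp only [mnN_eq]
    interval_cases k <;> simp only [min_le_iff, le_refl, true_or, or_true]
  exact g fun k => x * aO σ T (gp G k) + y * bO σ T (gp G k) + cO σ T (gp G k)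

theorem wF_le {k : ℕ} (h : k < 6) (hk : k < G.length) :
    wF σ T G l μ i j ≤ wO σ T l μ i j 0 (nth 0 G k) := by
  rw [show nth 0 G k = gp G k by rw [gp, mnN_eq, min_eq_left (Nat.le_pred_of_lt hk)]]
  delta wF wO
  exact shr_le _ (Nat.sub_le_sub_right (z6_le h _ _) _)

theorem vF_le {k : ℕ} (h : k < 6) (hk : k < G.length) (T : ℕ) :
    vF σ T G l μ p q i j ≤ vG σ l μ p q i j T 0 0 (nth 0 G k) ∧
      sF σ T G l μ p q i j ≤ sG σ l μ p q i j T 0 0 (nth 0 G k) := by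
  have w := wF_le (σ := σ) (T := T) (l := l) (μ := μ) (i := i) (j := j) h hk
  delta vF vG sF sG
  generalize wF σ T G l μ i j = a, wO σ T l μ i j 0 (nth 0 G k) = b at w ⊢
  exact ⟨Nat.sub_le_sub_right (Nat.add_le_add_left (shr_le _ (Nat.mul_le_mul_left _ w)) _) _,
    Nat.sub_le_sub_right (Nat.add_le_add_left w _) _⟩

theorem lo3_mk {a b c : ℕ} {A B C : ℕ → ℕ} {n : ℕ} (h : ∀ k < n, a ≤ A k ∧ b ≤ B k ∧ c ≤ C k) :
    Lo3 (Nat.shiftLeft (Nat.add (mnN 536870912 a) (Nat.shiftLeft (Nat.add (mnN 536870912 b)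
      (Nat.shiftLeft (mnN 536870912 c) 31)) 31)) 79) A B C n := by
  simp only [mnN_eq]
  exact ⟨_, _, _, rfl, min_le_left _ _, min_le_left _ _, min_le_left _ _, fun k hk =>
    ⟨(min_le_right _ _).trans (h k hk).1, (min_le_right _ _).trans (h k hk).2.1,
      (min_le_right _ _).trans (h k hk).2.2⟩⟩

theorem ffN_lo (h : unB T G = true) : LoG (ffN σ T t G l μ p q i j)
    (fun T u => vG σ l μ p q i j T 0 0 u) (fun T u => sG σ l μ p q i j T 0 0 u) T t G := by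
  rw [unB, andb_eq, Bool.and_eq_true, Nat.ble_eq] at h
  delta ffN LoG
  refine lo3_mk fun k hk => ?_
  have a := vF_le (σ := σ) (l := l) (μ := μ) (p := p) (q := q) (i := i) (j := j) (hk.trans_le h.1) hk
  have c1 := le_mxG (p0N t G) hk
  have c2 := le_mxG (p1N T t G) hk
  have c3 := le_mxG (pSN T t G) hk
  refine ⟨tsub_le_tsub (a 0).1 c1, tsub_le_tsub (a T).1 c2, tsub_le_tsub ?_ c3⟩
  rw [mnN_eq]
  exact (min_le_min (a 0).2 (a T).2).trans_eq (mnN_eq _ _).symm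

/-- The meaning of the type of an end. -/
structure Ty (t l μ i j : ℕ) : Prop where
  l4 : t % 4 = l % 4
  m4 : t / 12 % 4 = μ % 4
  l2 : t % 2 = l % 2
  m2 : t / 12 % 2 = μ % 2
  sl : sg (t % 12 / 4) = sg (l / 4)
  sm : sg (t / 12 % 12 / 4) = sg (μ / 4)
  eq : t / 144 % 2 = 1 ↔ l = μ
  z : t / 288 % 2 = 1 ↔ n2N i j = 0
  u : t / 576 % 2 = 1 ↔ n2N i j = 64

theorem tyN_ty (l μ i j : ℕ) : Ty (tyN l μ i j) l μ i j := by
  have e : tyN l μ i j = l % 12 + 12 * (μ % 12 + 12 * ((if l = μ then 1 else 0) +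
      ((if n2N i j = 0 then 2 else 0) + if n2N i j = 64 then 4 else 0))) := by
    simp only [tyN, br_eq, Nat.beq_eq, nmod, Nat.add_eq, Nat.mul_eq]
    split_ifs <;> omega
  generalize tyN l μ i j = t at e
  have f : ∀ {a b : ℕ}, a = b % 12 → sg (a / 4) = sg (b / 4) := fun h => by
    rw [sg, sg, h]; omega
  have g : ∀ {a b : ℕ}, a % 12 = b % 12 → a % 4 = b % 4 ∧ a % 2 = b % 2 := fun h => by omega
  obtain ⟨c, hc, e⟩ : ∃ c, c = _ ∧ t = l % 12 + 12 * (μ % 12 + 12 * c) := ⟨_, rfl, e⟩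
  have e1 : t % 12 = l % 12 := by omega
  have e2 : t / 12 % 12 = μ % 12 := by omega
  have e3 : t / 144 = c := by omega
  have e4 : t / 288 = c / 2 := by omega
  have e5 : t / 576 = c / 4 := by omega
  refine ⟨(g e1).1, (g e2).1, (g e1).2, (g e2).2, f e1, f e2, ?_, ?_, ?_⟩ <;>
    simp only [e3, e4, e5, hc] <;> clear * - <;> split_ifs <;> first | omega | simp_all

theorem Ty.zz (h : Ty t l μ i j) : t / 288 % 2 = 1 ↔ (i : ℤ) - 64 = 0 ∧ (j : ℤ) - 128 = 0 := by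
  rw [h.z, ← n2_zero, ← n2N_eq]; omega

theorem cvF_le (f : ℕ → ℕ → ℕ → ℕ) {c : ℤ} (u : ℕ) (h : f T t (u % 3) = (c * T * T).toNat) :
    c * T * T ≤ cvF f T t u := by
  cases T with
  | zero => simp
  | succ T => exact (Int.self_le_toNat _).trans_eq (congrArg _ h.symm)

theorem evalT_ge (h : Ty t l μ i j) (T u : ℕ) (s : ℤ) :
    (evalT 4 T l μ ((i : ℤ) - 64) ((j : ℤ) - 128) s u).1 = (evalPt 4 0 l μ (i - 64) (j - 128) s u).1 ∧
    (evalPt 4 T l μ (i - 64) (j - 128) s u).1 - cvF cv1 T t u ≤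
      (evalT 4 T l μ ((i : ℤ) - 64) ((j : ℤ) - 128) s u).2.1 ∧
    min (evalPt 4 0 l μ (i - 64) (j - 128) s u).2 (evalPt 4 T l μ (i - 64) (j - 128) s u).2 -
      cvF cvS T t u ≤ (evalT 4 T l μ ((i : ℤ) - 64) ((j : ℤ) - 128) s u).2.2 := by
  have a := cvF_le (T := T) (t := t) cv1 u rfl
  have b := cvF_le (T := T) (t := t) cvS u rfl
  have c : sg (u % 3) = sg u := by simp only [sg, Nat.mod_mod]
  simp only [cvT, c, h.l4, h.m4, h.l2, h.m2, h.sl, h.sm, h.eq, h.zz] at a b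
  exact ⟨rfl, sub_le_sub_left a _, sub_le_sub_left b _⟩

theorem evalG_mem {N : ℕ} {a b s : ℤ} {x : ℕ × ℕ × ℤ × ℤ × ℤ} (h : x ∈ evalG N T l μ a b s G) :
    ∃ k, k + 1 < G.length ∧ x = (nth 0 G k, nth 0 G (k + 1),
      evalI N T l μ a b s (nth 0 G k) (nth 0 G (k + 1))) := by
  induction G with
  | nil => simp [evalG] at h
  | cons u G ih =>
    cases G with
    | nil => simp [evalG] at h
    | cons v G =>
      rcases List.mem_cons.1 h with rfl | h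
      · exact ⟨0, by simp, rfl⟩
      · obtain ⟨k, g, rfl⟩ := ih h
        exact ⟨k + 1, Nat.succ_lt_succ g, rfl⟩

/-- `e` packs three lower bounds of `m` plus the offset. -/
def Le3 (e : ℕ) (m : ℤ × ℤ × ℤ) : Prop := ∃ x y z : ℕ, e = (x + (y + z <<< 31) <<< 31) <<< 79 ∧
  x ≤ 536870912 ∧ y ≤ 536870912 ∧ z ≤ 536870912 ∧ (x : ℤ) ≤ max 0 (m.1 + 402653184) ∧
  (y : ℤ) ≤ max 0 (m.2.1 + 402653184) ∧ (z : ℤ) ≤ max 0 (m.2.2 + 402653184)

theorem h1N_le (T : ℕ) {k : ℕ} (h : k + 1 < G.length) (c : ℕ) :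
    c * ((dg T (nth 0 G (k + 1)) : ℤ) - dg T (nth 0 G k)) * ((dg T (nth 0 G (k + 1)) : ℤ) - dg T (nth 0 G k)) =
      (c * h1N T G k : ℕ) ∧ h1N T G k ≤ hN T G k ∧ h1N T G k ≤ hN T G (k + 1) := by
  refine ⟨?_, le_max_left _ _, le_max_right _ _⟩
  rw [h1N, if_pos h, ad_eq]
  push_cast
  rw [sq_abs, sq, mul_assoc]

theorem ar1 {x v v' c c' p p' m : ℕ} {e e' f f' : ℤ} (a : x ≤ v - (c + p)) (a' : x ≤ v' - (c' + p'))
    (b : (v : ℤ) ≤ max 0 (e + 402653184)) (b' : (v' : ℤ) ≤ max 0 (e' + 402653184)) (d : e - c ≤ f)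
    (d' : e' - c' ≤ f') (g : m ≤ p) (g' : m ≤ p') : (x : ℤ) ≤ max 0 (min f f' - m + 402653184) := by
  omega

theorem ar2 {v v' : ℕ} {e e' : ℤ} (b : (v : ℤ) ≤ max 0 (e + 402653184))
    (b' : (v' : ℤ) ≤ max 0 (e' + 402653184)) :
    ((v - (v - v') : ℕ) : ℤ) ≤ max 0 (min e e' + 402653184) := by omega

theorem LoG.le3 (h : LoG e V S T t G) (hp : Pt σ l μ i j V S) (ht : Ty t l μ i j) (hT : T ≤ 10)
    (hG : ∀ u ∈ G, u < 4096) :
    Le3 e (min3 (evalG 4 T l μ ((i : ℤ) - 64) ((j : ℤ) - 128) (sgn σ) G)) := by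
  obtain ⟨x, y, z, he, a1, a2, a3, a⟩ := h
  refine ⟨x, y, z, he, a1, a2, a3, ?_⟩
  have k : ∀ w ∈ evalG 4 T l μ ((i : ℤ) - 64) ((j : ℤ) - 128) (sgn σ) G,
      (x : ℤ) ≤ max 0 (w.2.2.1 + 402653184) ∧ (y : ℤ) ≤ max 0 (w.2.2.2.1 + 402653184) ∧
        (z : ℤ) ≤ max 0 (w.2.2.2.2 + 402653184) := fun w hw => by
    obtain ⟨k, g, rfl⟩ := evalG_mem hw
    have u1 := hG _ (nth_mem 0 (Nat.lt_of_succ_lt g))
    have u2 := hG _ (nth_mem 0 g)
    have b1 := a k (Nat.lt_of_succ_lt g)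
    have b2 := a _ g
    have c1 := hp 0 (by omega) _ u1
    have c2 := hp T hT _ u1
    have c3 := hp 0 (by omega) _ u2
    have c4 := hp T hT _ u2
    have d1 := evalT_ge ht T (nth 0 G k) (sgn σ)
    have d2 := evalT_ge ht T (nth 0 G (k + 1)) (sgn σ)
    obtain ⟨f1, f2, f3⟩ := h1N_le 0 g (pgT t)
    obtain ⟨g1, g2, g3⟩ := h1N_le T g (pgT t)
    have f4 := (h1N_le 0 g 1).1
    have g4 := (h1N_le T g 1).1
    have m1 := Nat.mul_le_mul_left (pgT t) f2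
    have m2 := Nat.mul_le_mul_left (pgT t) f3
    have m3 := Nat.mul_le_mul_left (pgT t) g2
    have m4 := Nat.mul_le_mul_left (pgT t) g3
    have m5 := Nat.mul_le_mul_left (ppT t) (max_le_max f2 g2)
    have m6 := Nat.mul_le_mul_left (ppT t) (max_le_max f3 g3)
    have e : evalI 4 T l μ ((i : ℤ) - 64) ((j : ℤ) - 128) (sgn σ) (nth 0 G k) (nth 0 G (k + 1)) =
        (min (evalT 4 T l μ ((i : ℤ) - 64) ((j : ℤ) - 128) (sgn σ) (nth 0 G k)).1
          (evalT 4 T l μ ((i : ℤ) - 64) ((j : ℤ) - 128) (sgn σ) (nth 0 G (k + 1))).1 -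
            (pgT t * h1N 0 G k : ℕ),
        min (evalT 4 T l μ ((i : ℤ) - 64) ((j : ℤ) - 128) (sgn σ) (nth 0 G k)).2.1
          (evalT 4 T l μ ((i : ℤ) - 64) ((j : ℤ) - 128) (sgn σ) (nth 0 G (k + 1))).2.1 -
            (pgT t * h1N T G k : ℕ),
        min (evalT 4 T l μ ((i : ℤ) - 64) ((j : ℤ) - 128) (sgn σ) (nth 0 G k)).2.2
          (evalT 4 T l μ ((i : ℤ) - 64) ((j : ℤ) - 128) (sgn σ) (nth 0 G (k + 1))).2.2 -
            (ppT t * max (h1N 0 G k) (h1N T G k) : ℕ)) := by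
      rw [Nat.cast_one, one_mul, one_mul] at f4 g4
      rw [← f1, ← g1, Nat.cast_mul, Nat.cast_max, ← f4, ← g4]
      simp only [evalI, pgT, ppT, cstB, mvB, ht.l4, ht.m4, ht.eq, ht.zz, and_assoc, Nat.cast_ite,
        Nat.cast_ofNat, Nat.cast_zero]
    simp only [p0N, p1N, pSN, mxN_eq, Nat.add_eq, Nat.mul_eq] at b1 b2
    simp only [e, d1.1, d2.1]
    exact ⟨ar1 (c := 0) (c' := 0) (by rw [zero_add]; exact b1.1) (by rw [zero_add]; exact b2.1) c1.1 c3.1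
      (sub_zero _).le (sub_zero _).le m1 m2,
      ar1 b1.2.1 b2.2.1 c2.1 c4.1 d1.2.1 d2.2.1 m3 m4,
      ar1 b1.2.2 b2.2.2 (ar2 c1.2 c2.2) (ar2 c3.2 c4.2) d1.2.2 d2.2.2 m5 m6⟩
  generalize evalG 4 T l μ _ _ _ G = L at k
  induction L with
  | nil => simp only [min3, List.foldr, Q]; omega
  | cons w L ih =>
    have b := k w List.mem_cons_self
    have c := ih fun w g => k w (List.mem_cons_of_mem _ g)
    simp only [min3, List.foldr] at c ⊢
    omega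

theorem enM_le3 (h : En σ l μ p q i j) (ht : Ty t l μ i j) (hT : T ≤ 10) (hG : ∀ u ∈ G, u < 4096) :
    Le3 (enM σ T t G l μ p q i j) (min3 (evalG 4 T l μ ((i : ℤ) - 64) ((j : ℤ) - 128) (sgn σ) G)) := by
  rw [enM]
  simp only [br_eq]
  by_cases s : spB t = true
  · rw [if_pos s]
    simp only [p1B, if_pos s, decide_eq_true_eq, ht.z]
    split_ifs with z
    exacts [lpN_lo.le3 (ptZ h z) ht hT hG, lpN_lo.le3 (ptU h z) ht hT hG]
  rw [if_neg s]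
  simp only [p1B, p2B, if_neg s, decide_eq_true_eq, ht.l4, ht.m4]
  simp only [spB, decide_eq_true_eq, ht.z, ht.u, ht.l2, ht.m2, not_or, not_and, not_not] at s
  have g := ptG h s.1 s.2
  have g1 : ¬(l % 4 = 1 ∨ μ % 4 = 1) → Pt σ l μ i j (fun T u => vG σ l μ p q i j T 0 u u)
      fun T u => sG σ l μ p q i j T 0 u u := fun c T hT u hu => by
    have := vG_fix (σ := σ) (T := T) (p := p) (q := q) (i := i) (j := j) (mt Or.inl c) (mt Or.inr c) 0 u u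
    simpa only [this.1, this.2] using g T hT u hu
  have g2 : ¬(l % 4 = 1 ∨ μ % 4 = 1) → ¬(l % 4 = 0 ∨ μ % 4 = 0) → Pt σ l μ i j
      (fun T u => vG σ l μ p q i j T 0 0 u) fun T u => sG σ l μ p q i j T 0 0 u := fun c d T hT u hu => by
    have := vG_fix' (T := T) h (by omega) (by omega) 0 0 u
    simpa only [this.1, this.2] using g1 c T hT u hu
  split_ifs with c d f
  exacts [lpN_lo.le3 g ht hT hG, lpN_lo.le3 (g1 c) ht hT hG, (ffN_lo f).le3 (g2 c d) ht hT hG,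
    lpN_lo.le3 (g2 c d) ht hT hG]

end Pool.Agent.Lib.MP_4b56aa_gt.Cert
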