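import Pool.Agent.Lib.MP_4b56aa_gt.Cert.CV5
import Pool.Agent.Lib.MP_4b56aa_gt.Cert.CEval

/-! The fast check of a clique offer. -/

namespace Pool.Agent.Lib.MP_4b56aa_gt.Cert

variable {τ : Tab} {T k l d i j a b c w x y : ℕ} {S : Bool} {G : List ℕ}

/-- The key `k` has the fields `l`, `d`, `i`, `j`. -/
def Ky (k l d i j : ℕ) : Prop :=
  k &&& 16383 = l ∧ k >>> 14 &&& 33554431 = d ∧ k >>> 39 &&& 127 = i ∧ (k >>> 39) >>> 7 = j

theorem ky_mk (hl : l < 16384) (hd : d < 33554432) (hi : i < 128) {v : ℕ}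
    (e : v = d + i * 2 ^ 25 + j * 2 ^ 32) : Ky (l + v <<< 14) l d i j := by
  refine ⟨(Nat.and_two_pow_sub_one_eq_mod _ 14).trans ?_, (fld_eq _ 14 25).trans ?_,
    (fld_eq _ 39 7).trans ?_, ?_⟩ <;> simp only [Nat.shiftLeft_eq, Nat.shiftRight_eq_div_pow] <;> omega

/-- The witness with the mode `d`. -/
def kw (d : ℕ) (i j : ℤ) : KW := ⟨ptB d, aF d, aG d, i, j⟩
def ms (τ : Tab) (a b d : ℕ) : VS := if ptB d then ⟨true, false, 0, 0⟩
  else ⟨false, ale τ.T (aF d) (τ.lo a) 0 && ale τ.T (τ.hi b) (aG d) 0, aF d, aG d⟩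

theorem muF_eq (a c d : ℕ) (i j : ℤ) :
    muF τ.T (τ.lo a) (τ.lo c) (τ.hi c) d = τ.modeAt a (kw d i j) c := by
  simp only [muF, Tab.modeAt, kw, br_eq, Nat.beq_eq, Nat.add_eq, Nat.mul_eq, Nat.add_eq_zero_iff,
    Nat.mul_eq_zero, Nat.xor_eq, Nat.xor_eq_zero_iff, aleN_eq]
  congr

theorem muF_lt {l0 lc hc : ℕ} (h : l0 < 4096) (hd : d < 33554432) : muF T l0 lc hc d < 16384 := by
  have := aF_eq d
  have := aG_eq d
  simp only [muF, br_eq, Nat.add_eq, Nat.mul_eq]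
  split_ifs <;> omega

theorem ms_cd : Cd d (ms τ a b d) ∧ ((ms τ a b d).pt = false →
    skB τ.T (τ.lo a) (τ.hi b) d = true → (ms τ a b d).sky = true) := by
  simp only [Cd, ms, skB, Nat.beq_eq, Nat.add_eq, Nat.add_eq_zero_iff, aleN_eq]
  cases ptB d <;> simp

theorem mdV_sound (hN : τ.N = 4) (h : mdV τ.T (τ.lo a) (τ.hi a) (τ.lo b) (τ.hi b) S d = 0) :
    muF τ.T (τ.lo a) (τ.lo a) (τ.hi a) d ≠ 0 ∧ muF τ.T (τ.lo a) (τ.lo b) (τ.hi b) d ≠ 0 ∧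
      (ptB d || ale τ.T (aF d) (aG d) 0) = true ∧ okPair τ (ms τ a b d) (ms τ a b d) 0 0 S = true := by
  simp only [mdV, br_eq, Nat.add_eq, Nat.sub_eq, Nat.add_eq_zero_iff, andb_eq] at h
  refine ⟨by omega, by omega, ?_⟩
  have g := h.2
  have s := (ms_cd (τ := τ) (a := a) (b := b) (d := d)).2
  revert g s
  unfold ms okPair
  cases ptB d
  · simp only [Bool.false_eq_true, if_false, Nat.add_eq_zero_iff, aleN_eq, and_self, if_true, forall_const,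
      Bool.false_or, Bool.and_eq_true, Bool.or_eq_true]
    intro g s
    refine ⟨g.1, ?_⟩
    have g2 := g.2
    split_ifs at g2 with z
    exacts [Or.inl ⟨⟨z.1, s z.2⟩, s z.2⟩, Or.inr (aleN_eq.1 g2)]
  · simp [hN, n2]

theorem n2_le (h : n2N i j - 256 = 0) (hN : τ.N = 4) :
    n2 ((i : ℤ) - 64) ((j : ℤ) - 128) ≤ 16 * τ.N * τ.N := by
  rw [← n2N_eq, hN]; omega

theorem gdA_sound (hN : τ.N = 4) (hk : Ky k l d i j) (ha : τ.lo a < 4096) (hl : l < 16384) (hi : i ≤ 128)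
    (hj : j ≤ 256) (h : gdA τ.T (τ.lo a) (τ.hi a) (τ.lo b) (τ.hi b) S k = 0) :
    mdV τ.T (τ.lo a) (τ.hi a) (τ.lo b) (τ.hi b) S d = 0 ∧ n2N i j - 256 = 0 ∧
      okPair τ (τ.vsL a l) (ms τ a b d) (-((i : ℤ) - 64)) (-((j : ℤ) - 128)) S = true := by
  obtain ⟨rfl, rfl, rfl, rfl⟩ := hk
  obtain ⟨h1, h3⟩ := Nat.add_eq_zero_iff.1 h
  obtain ⟨h1, h2⟩ := Nat.add_eq_zero_iff.1 h1
  have u := vsN_cd ha hl
  have := prN_sound (S := S) hN u.1 (ms_cd (a := a) (b := b)).1 (Nat.sub_le _ _) (Nat.sub_le _ _)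
    (fun _ z g => by
      simp only [andb_eq, Bool.and_eq_true, Nat.beq_eq, Nat.land_eq, and3] at g ⊢
      exact ⟨⟨g.1, u.2.2 g.2.1⟩, ms_cd.2 z g.2.2⟩) h3
  refine ⟨h1, h2, ?_⟩
  convert this using 2 <;> simp only [Nat.land_eq, Nat.shiftRight_eq] <;> omega

theorem gdB_sound (hN : τ.N = 4) (hk : Ky k l d i j) (hb : τ.lo b < 4096) (hl : l < 16384) (hi : i ≤ 128)
    (hj : j ≤ 256) (h : gdB τ.T (τ.lo a) (τ.lo b) (τ.hi b) S k = 0) : n2N i j - 256 = 0 ∧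
      okPair τ (ms τ a b d) (τ.vsL b l) ((i : ℤ) - 64) ((j : ℤ) - 128) S = true := by
  obtain ⟨rfl, rfl, rfl, rfl⟩ := hk
  obtain ⟨h2, h3⟩ := Nat.add_eq_zero_iff.1 h
  have u := vsN_cd hb hl
  exact ⟨h2, prN_sound (S := S) hN (ms_cd (a := a) (b := b)).1 u.1 hi hj (fun z _ g => by
    simp only [andb_eq, Bool.and_eq_true, Nat.beq_eq, Nat.land_eq, and3] at g ⊢
    exact ⟨⟨g.1, ms_cd.2 z g.2.2⟩, u.2.2 g.2.1⟩) h3⟩

theorem fe_le3 {la lc hc : ℕ} (hk : Ky k l d i j) (hT : T ≤ 10) (ha : la < 4096) (hl : l < 16384)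
    (hd : d < 33554432) (hn : n2N i j - 256 = 0) (hG : ∀ u ∈ G, u < 4096) :
    Le3 (feA T la lc hc G k) (min3 (evalG 4 T l (muF T la lc hc d) ((i : ℤ) - 64) ((j : ℤ) - 128) 1 G)) ∧
    Le3 (feB T la lc hc G k) (min3 (evalG 4 T l (muF T la lc hc d) ((i : ℤ) - 64) ((j : ℤ) - 128) (-1) G)) := by
  obtain ⟨rfl, rfl, rfl, rfl⟩ := hk
  exact ⟨enM_le3 (σ := true) ⟨hl, muF_lt ha hd, rfl, rfl, Nat.sub_eq_zero_iff_le.1 hn⟩ (tyN_ty _ _ _ _) hT hG,
    enM_le3 (σ := false) ⟨hl, muF_lt ha hd, rfl, rfl, Nat.sub_eq_zero_iff_le.1 hn⟩ (tyN_ty _ _ _ _) hT hG⟩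

theorem tfN_sound {m m' : ℤ × ℤ × ℤ} (hx : Le3 x m) (hy : Le3 y m') (h : tfN x y w = 0) :
    (dc w).v0 ≤ m.1 + m'.1 ∧ (dc w).v1 ≤ m.2.1 + m'.2.1 ∧ (dc w).sl ≤ m.2.2 + m'.2.2 := by
  obtain ⟨a0, a1, a2, ea, a⟩ := hx
  obtain ⟨b0, b1, b2, eb, b⟩ := hy
  have c := xlt w
  have e := mV w
  replace h : (x + y + 1122433257992807157014380346649668801198319181234176 -
    (w &&& 748288835874278286895184789836311266444562262917120)) &&& GW = GW := Nat.xor_eq_zero_iff.1 h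
  rw [e] at h
  simp only [Nat.shiftLeft_eq] at ea eb
  have := top_test (t0 := a0 + b0 + 402653184 - x0 w) (t1 := a1 + b1 + 402653184 - x1 w)
    (t2 := a2 + b2 + 402653184 - x2 w) h (by unfold pk; omega) (by omega)
  simp only [dc]
  omega

theorem thL_sound (hN : τ.N = 4) {μ al X : ℕ} (h : thL τ.T μ al X ≤ i) (hi : i ≤ 96) :
    thrOK τ ((i : ℤ) - 64) μ al X = true := by
  simp only [thL] at h
  simp only [thrOK, hN, Nat.cast_ofNat]
  generalize (if μ % 4 = 1 then al else μ / 4) = b at h ⊢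
  generalize (if X % 3 = 1 then cs (dg 0 X) else Q) = P at h ⊢
  generalize (if μ % 2 = 0 then 0 else min (cs (dg 0 b + 360 - dg 0 al))
    (cs (dg τ.T b + 360 - dg τ.T al))) = Z at h ⊢
  simp only [S3, Bool.and_eq_true, Bool.or_eq_true, bne_iff_ne, decide_eq_true_eq] at h ⊢
  split_ifs at h with h0 h1 h2 h2
  any_goals omega
  · rcases min_le_iff.1 h with g | g
    · exact ⟨h0, Or.inl ⟨⟨⟨h1.1.1, by omega⟩, h1.1.2⟩, h1.2⟩⟩
    · exact ⟨h0, Or.inr ⟨⟨⟨h2, by omega⟩, by omega⟩, by omega⟩⟩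
  · exact ⟨h0, Or.inl ⟨⟨⟨h1.1.1, by omega⟩, h1.1.2⟩, h1.2⟩⟩
  · exact ⟨h0, Or.inr ⟨⟨⟨h2, by omega⟩, by omega⟩, by omega⟩⟩

theorem dropG_sub (T p : ℕ) (G : List ℕ) : ∀ u ∈ dropG T p G, u ∈ G := by
  induction G with
  | nil => simp [dropG]
  | cons q G ih =>
    cases G with
    | nil => simp [dropG]
    | cons r G =>
      rw [dropG]
      split_ifs
      exacts [fun u h => List.mem_cons_of_mem _ (ih u h), fun _ h => h]

theorem dropG_mem {N μ p : ℕ} {α β s : ℤ} {z : ℕ × ℕ × ℤ × ℤ × ℤ} (h : z ∈ evalG N T l μ α β s G) :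
    ale T z.2.1 p 60 = true ∨ z ∈ evalG N T l μ α β s (dropG T p G) := by
  induction G with
  | nil => simp [evalG] at h
  | cons q G ih =>
    cases G with
    | nil => simp [evalG] at h
    | cons r G =>
      rw [dropG]
      split_ifs with g
      · rcases List.mem_cons.1 h with rfl | h
        exacts [Or.inl g, ih h]
      · exact Or.inr h

theorem thN_sound (hN : τ.N = 4) {v : ℕ} {fa fb : Bool} (hd : d < 33554432) (hi : i < 64)
    (e : v = d + i * 2 ^ 25 + j * 2 ^ 32) (α β : ℤ) (h : thN τ τ.T (τ.lo a) fa fb w v = 0) :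
    (fa || thrOK τ ((dc w).h - (i - 32)) (τ.modeAt a (kw d α β) 0) 271 (τ.XB (dc w).q)) = true ∧
    (fb || thrOK τ (i - 32 - (dc w).h) (τ.modeAt a (kw d α β) (τ.m + 1)) 811 (τ.XT (dc w).q)) = true := by
  have c := xlt w
  obtain ⟨E, hE⟩ : ∃ E, E = (v &&& 33554431) + (w >>> 42 &&& 100663296) := ⟨_, rfl⟩
  have e1 : E = d + xq w * 2 ^ 25 := by
    rw [hE, show v &&& 33554431 = _ from Nat.and_two_pow_sub_one_eq_mod v 25,
      show w >>> 42 &&& 100663296 = _ from and_fld _ 25 2, xq_eq, Nat.shiftRight_eq_div_pow]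
    omega
  have e2 : E >>> 25 = xq w := by rw [Nat.shiftRight_eq_div_pow]; omega
  have e3 : E &&& 33554431 = d := (Nat.and_two_pow_sub_one_eq_mod E 25).trans (by omega)
  have e4 : iN w v = xh w + 80 - i :=
    congrArg (xh w + 80 - ·) ((fld_eq v 25 6).trans (by omega))
  replace h : Bool.rec (motive := fun _ => ℕ) (thL τ.T (muF τ.T (τ.lo a) (τ.lo 0) (τ.hi 0) (E &&& 33554431))
      271 (τ.XB (E >>> 25)) - iN w v + (iN w v - 96)) 0 fa + Bool.rec (motive := fun _ => ℕ)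
      (thL τ.T (muF τ.T (τ.lo a) (τ.lo (τ.m + 1)) (τ.hi (τ.m + 1)) (E &&& 33554431)) 811 (τ.XT (E >>> 25)) -
      (128 - iN w v) + (32 - iN w v)) 0 fb = 0 := hE ▸ h
  rw [e2, e3, muF_eq a 0 d α β, muF_eq a (τ.m + 1) d α β, Nat.add_eq_zero_iff] at h
  constructor
  · cases fa
    · obtain ⟨g1, g2⟩ := Nat.add_eq_zero_iff.1 h.1
      have := thL_sound hN (Nat.sub_eq_zero_iff_le.1 g1) (Nat.sub_eq_zero_iff_le.1 g2)
      rwa [show ((iN w v : ℕ) : ℤ) - 64 = xh w - 16 - (i - 32) by omega] at this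
    · rfl
  · cases fb
    · obtain ⟨g1, g2⟩ := Nat.add_eq_zero_iff.1 h.2
      have := thL_sound hN (Nat.sub_eq_zero_iff_le.1 g1) (by omega)
      rwa [show ((128 - iN w v : ℕ) : ℤ) - 64 = i - 32 - (xh w - 16) by omega] at this
    · rfl

theorem tdN_zero {la ha lb hb k1 k2 s : ℕ} {G1 G2 : List ℕ} (h : tdN T la ha lb hb G1 G2 w k1 k2 = 0)
    (hs : s + 1 < G1.length) (g : sfG T G1 G2 s ≠ []) :
    tfN (feA T la la ha (pcG G1 s) k1) (feB T la lb hb (sfG T G1 G2 s) k2) w = 0 := by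
  have := sum_zero h s (Nat.lt_pred_iff.2 hs)
  rwa [br_eq, if_neg (mt List.isEmpty_iff.1 g)] at this

theorem rec_ko (A B C : ℕ → ℕ) (t : ℕ → ℕ → ℕ) (z k0 k1 k2 : ℕ) :
    Nat.add (Nat.add (Nat.rec (motive := fun _ => ℕ) (nat_lit 1) (fun k _ => C k) (Nat.succ k0)) z)
      (Nat.rec (motive := fun _ => ℕ) (nat_lit 1) (fun k1 _ => Nat.rec (motive := fun _ => ℕ) (nat_lit 1)
        (fun k2 _ => Nat.add (Nat.add (A k1) (B k2)) (t k1 k2)) (Nat.succ k2)) (Nat.succ k1)) =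
      Nat.add (Nat.add (C k0) z) (Nat.add (Nat.add (A k1) (B k2)) (t k1 k2)) := rfl

theorem koN_eq {la ha lb hb v : ℕ} {f : Bool} {h : ℕ → ℕ → ℕ} {t : ℕ → ℕ → ℕ → ℕ} :
    koN T la ha lb hb S f h t w v = vaN T la ha lb hb S (w &&& KY) +
      Bool.rec (motive := fun _ => ℕ) (h w v) 0 f + (gdA T la ha lb hb S (kyA w v) +
        gdB T la lb hb S (kyB w v) + t w (kyA w v) (kyB w v)) := by
  delta koN
  exact rec_ko (gdA T la ha lb hb S) (gdB T la lb hb S) (vaN T la ha lb hb S) (t w) _ _ _ _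

theorem koN_sound (hN : τ.N = 4) (hT : τ.T ≤ 10) {cl v : ℕ} (ha : τ.lo a < 4096) (hb : τ.lo b < 4096)
    (ga : ∀ f, ∀ u ∈ τ.grid f a, u < 4096) (gb : ∀ f, ∀ u ∈ τ.grid f b, u < 4096)
    (hq : τ.free a b = true ∨ xq w < τ.nq)
    (h : koN τ.T (τ.lo a) (τ.hi a) (τ.lo b) (τ.hi b) (cl == 0) (τ.free a b)
      (thN τ τ.T (τ.lo a) (a != 0) (Nat.ble b τ.m)) (Bool.rec (motive := fun _ => ℕ → ℕ → ℕ → ℕ)
        (tcN τ.T (τ.lo a) (τ.hi a) (τ.lo b) (τ.hi b) (τ.grid false a) (τ.grid false b))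
        (tdN τ.T (τ.lo a) (τ.hi a) (τ.lo b) (τ.hi b) (τ.grid true a) (τ.grid true b))
        (cl == 1 && τ.strad a b)) w (v &&& VK) = 0) : ∃ u, τ.kcheck a b cl (dc w) u = true := by
  have c := xlt w
  obtain ⟨d, i, j, hd, hi, hj, e⟩ : ∃ d i j, d < 33554432 ∧ i < 64 ∧ j < 128 ∧
      v &&& VK = d + i * 2 ^ 25 + j * 2 ^ 32 := ⟨v % 2 ^ 25, v / 2 ^ 25 % 2 ^ 6, v / 2 ^ 32 % 2 ^ 7,
    by omega, by omega, by omega, by
      rw [show VK = (2 ^ 31 - 1) + (2 ^ 7 - 1) * 2 ^ 32 from rfl, and_add 32 (by decide) (by decide), and_fld,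
        Nat.and_two_pow_sub_one_eq_mod]
      omega⟩
  generalize v &&& VK = v at h e
  have k1 : Ky (kyA w v) (xa w) d (i + 32) (j + 64) := ky_mk (v := v + 275951648768) c.1 hd (by omega) (by omega)
  have k2 : Ky (kyB w v) (xb w) d (i + xi w) (j + xj w) :=
    ky_mk (v := v + (w >>> 22 &&& 547574775808)) c.2.1 hd (by omega) (by
      rw [show 547574775808 = (2 ^ 6 - 1) * 2 ^ 25 + (2 ^ 7 - 1) * 2 ^ 32 from rfl,
        and_add 32 (by decide) (by decide), and_fld, and_fld, xi_eq, xj_eq, Nat.shiftRight_eq_div_pow]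
      omega)
  simp only [koN_eq, Nat.add_eq_zero_iff] at h
  obtain ⟨⟨h1, h2⟩, ⟨h3, h4⟩, h5⟩ := h
  obtain ⟨p1, p2, p3⟩ := gdA_sound hN k1 ha c.1 (by omega) (by omega) h3
  obtain ⟨q2, q3⟩ := gdB_sound hN k2 hb c.2.1 (by omega) (by omega) h4
  obtain ⟨r1, r2, r3, r4⟩ := mdV_sound hN p1
  have fa := fun G hG => (fe_le3 (G := G) (lc := τ.lo a) (hc := τ.hi a) k1 hT ha c.1 hd p2 hG).1
  have fb := fun G hG => (fe_le3 (G := G) (lc := τ.lo b) (hc := τ.hi b) k2 hT ha c.2.1 hd q2 hG).2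
  replace p2 := n2_le p2 hN
  replace q2 := n2_le q2 hN
  rw [muF_eq a a d (i - 32) (j - 64)] at r1 fa
  rw [muF_eq a b d (i - 32) (j - 64)] at r2 fb
  rw [show ((i + 32 : ℕ) : ℤ) - 64 = i - 32 by omega, show ((j + 64 : ℕ) : ℤ) - 128 = j - 64 by omega]
    at p2 p3 fa
  rw [show ((i + xi w : ℕ) : ℤ) - 64 = i - 32 + (xi w - 32) by omega,
    show ((j + xj w : ℕ) : ℤ) - 128 = j - 64 + (xj w - 64) by omega] at q2 q3 fb
  have th : (a != 0 || thrOK τ ((dc w).h - (i - 32)) (τ.modeAt a (kw d (i - 32) (j - 64)) 0) 271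
      (τ.XB (dc w).q)) = true ∧ (Nat.ble b τ.m || thrOK τ (i - 32 - (dc w).h)
      (τ.modeAt a (kw d (i - 32) (j - 64)) (τ.m + 1)) 811 (τ.XT (dc w).q)) = true := by
    rw [br_eq] at h2
    split_ifs at h2 with z
    · simp only [Tab.free, Bool.and_eq_true, Nat.ble_eq] at z
      simp only [Bool.or_eq_true, bne_iff_ne, Nat.ble_eq]
      exact ⟨Or.inl (by omega), Or.inl z.2⟩
    · exact thN_sound hN hd hi e _ _ h2
  refine ⟨kw d (i - 32) (j - 64), ?_⟩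
  unfold Tab.kcheck
  rw [← hN] at fa fb
  generalize (cl == 1 && τ.strad a b) = f at h5
  simp only [Bool.and_eq_true, bne_iff_ne, decide_eq_true_eq]
  refine ⟨⟨⟨⟨⟨⟨⟨⟨⟨⟨⟨vaN_sound hN ha hb h1 hq, r3⟩, r1⟩, r2⟩, r4⟩, p3⟩, q3⟩, p2⟩, q2⟩, th.1⟩, th.2⟩, ?_⟩
  cases f
  · simp only [Bool.false_eq_true, if_false, Bool.and_eq_true, decide_eq_true_eq, and_assoc]
    exact tfN_sound (fa _ (ga false)) (fb _ (gb false)) h5
  simp only [if_true, List.all_eq_true, Bool.or_eq_true, Bool.and_eq_true, decide_eq_true_eq]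
  intro x hx y hy
  obtain ⟨s, hs, rfl⟩ := evalG_mem hx
  refine (dropG_mem hy).imp_right fun g => ?_
  have t := tfN_sound (fa _ fun u z => ?_) (fb _ fun u z => gb true u (dropG_sub _ _ _ u z))
    (tdN_zero h5 hs fun z => ?_)
  · have m1 := min3_le (L := evalG τ.N τ.T (xa w) (τ.modeAt a (kw d (i - 32) (j - 64)) a) (i - 32) (j - 64) 1
      (pcG (τ.grid true a) s)) List.mem_cons_self
    have m2 := min3_le g
    exact ⟨⟨t.1.trans (add_le_add m1.1 m2.1), t.2.1.trans (add_le_add m1.2.1 m2.2.1)⟩,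
      t.2.2.trans (add_le_add m1.2.2 m2.2.2)⟩
  · simp only [pcG, List.mem_cons, List.not_mem_nil, or_false] at z
    rcases z with rfl | rfl
    exacts [ga true _ (nth_mem 0 (Nat.lt_of_succ_lt hs)), ga true _ (nth_mem 0 hs)]
  · rw [show dropG _ _ _ = [] from z] at g
    simp [evalG] at g

end Pool.Agent.Lib.MP_4b56aa_gt.Cert
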